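import Mathlib

/-!
# Co-consonance and the Smyth powerspace

Common definitions for MP_dd3b7d_gt and MP_8dcd4d_gt.
-/

namespace Pool.Agent.R828.CC

open Set TopologicalSpace Topology

universe u

/-- Scott open subsets of a poset. -/
def ScottOpen {P : Type u} [PartialOrder P] (U : Set P) : Prop :=
  (∀ x ∈ U, ∀ y, x ≤ y → y ∈ U) ∧
    ∀ D : Set P, D.Nonempty → DirectedOn (· ≤ ·) D → ∀ s, IsLUB D s → s ∈ U → (D ∩ U).Nonempty

/-- Open sets of the upper topology of a poset, generated by the sets `P \ ↓x`. -/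
def UpperOpen {P : Type u} [PartialOrder P] (U : Set P) : Prop :=
  IsOpen[TopologicalSpace.generateFrom {S : Set P | ∃ x, S = {y | ¬ y ≤ x}}] U

/-- Co-consonance: the upper topology and the Scott topology of the lattice of open sets
coincide. -/
def CoConsonant (X : Type u) [TopologicalSpace X] : Prop :=
  ∀ 𝓕 : Set (Opens X), UpperOpen 𝓕 ↔ ScottOpen 𝓕

/-- Saturated sets. -/
def Saturated {X : Type u} [TopologicalSpace X] (A : Set X) : Prop :=
  A = ⋂₀ {U | IsOpen U ∧ A ⊆ U}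

/-- The nonempty compact saturated subsets. -/
def PS (X : Type u) [TopologicalSpace X] : Type u :=
  {K : Set X // K.Nonempty ∧ IsCompact K ∧ Saturated K}

/-- `□U`. -/
def box {X : Type u} [TopologicalSpace X] (U : Set X) : Set (PS X) := {K | K.1 ⊆ U}

/-- The upper Vietoris topology on the Smyth powerspace. -/
instance (X : Type u) [TopologicalSpace X] : TopologicalSpace (PS X) :=
  TopologicalSpace.generateFrom {S | ∃ U : Set X, IsOpen U ∧ S = box U}

section poset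

variable {P : Type u} [PartialOrder P]

theorem ScottOpen.univ : ScottOpen (Set.univ : Set P) :=
  ⟨fun _ _ _ _ => trivial, fun D hD _ _ _ _ => by simpa using hD⟩

theorem ScottOpen.inter {U V : Set P} (hU : ScottOpen U) (hV : ScottOpen V) :
    ScottOpen (U ∩ V) := by
  refine ⟨fun x hx y hxy => ⟨hU.1 x hx.1 y hxy, hV.1 x hx.2 y hxy⟩, ?_⟩
  intro D hD hdir s hs hsUV
  obtain ⟨d, hd, hdU⟩ := hU.2 D hD hdir s hs hsUV.1
  obtain ⟨e, he, heV⟩ := hV.2 D hD hdir s hs hsUV.2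
  obtain ⟨f, hf, hdf, hef⟩ := hdir d hd e he
  exact ⟨f, hf, hU.1 d hdU f hdf, hV.1 e heV f hef⟩

theorem ScottOpen.sUnion {𝒮 : Set (Set P)} (h : ∀ U ∈ 𝒮, ScottOpen U) : ScottOpen (⋃₀ 𝒮) := by
  refine ⟨?_, ?_⟩
  · rintro x ⟨U, hU, hx⟩ y hxy
    exact ⟨U, hU, (h U hU).1 x hx y hxy⟩
  · rintro D hD hdir s hs ⟨U, hU, hsU⟩
    obtain ⟨d, hd, hdU⟩ := (h U hU).2 D hD hdir s hs hsU
    exact ⟨d, hd, U, hU, hdU⟩

theorem scottOpen_of_upperOpen {U : Set P} (h : UpperOpen U) : ScottOpen U := by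
  unfold UpperOpen at h
  change TopologicalSpace.GenerateOpen _ U at h
  induction h with
  | basic S hS =>
    obtain ⟨x, rfl⟩ := hS
    refine ⟨fun y hy z hyz hzx => hy (hyz.trans hzx), ?_⟩
    intro D hD hdir s hs hsx
    by_contra hcon
    apply hsx
    apply hs.2
    intro d hd
    by_contra hdx
    exact hcon ⟨d, hd, hdx⟩
  | univ => exact ScottOpen.univ
  | inter U V _ _ hU hV => exact hU.inter hV
  | sUnion 𝒮 _ h => exact ScottOpen.sUnion h

end poset

variable {X : Type u} [TopologicalSpace X]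

/-- The set of open sets containing the point `x` is open in the upper topology. -/
theorem upperOpen_point (x : X) : UpperOpen {V : Opens X | x ∈ V} := by
  apply TopologicalSpace.isOpen_generateFrom_of_mem
  refine ⟨⟨(closure {x})ᶜ, isClosed_closure.isOpen_compl⟩, ?_⟩
  ext V
  simp only [Set.mem_ofPred_eq]
  constructor
  · intro hx h
    have h1 := h hx
    exact h1 (subset_closure rfl)
  · intro h
    by_contra hx
    apply h
    intro y hy hyc
    rw [mem_closure_iff] at hyc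
    obtain ⟨z, hz, hzx⟩ := hyc V V.isOpen hy
    rw [Set.mem_singleton_iff] at hzx
    subst hzx
    exact hx hz

/-- Criterion for co-consonance with finite sets of points. -/
theorem coConsonant_iff : CoConsonant X ↔ ∀ 𝓕 : Set (Opens X), ScottOpen 𝓕 → ∀ U ∈ 𝓕,
    ∃ F : Set X, F.Finite ∧ F ⊆ U ∧ ∀ V : Opens X, F ⊆ V → V ∈ 𝓕 := by
  constructor
  · intro h 𝓕 h𝓕 U hU
    have h1 : UpperOpen 𝓕 := (h 𝓕).2 h𝓕
    unfold UpperOpen at h1
    change TopologicalSpace.GenerateOpen _ 𝓕 at h1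
    clear h h𝓕
    induction h1 with
    | basic S hS =>
      obtain ⟨W, rfl⟩ := hS
      obtain ⟨x, hx, hxW⟩ := Set.not_subset.1 (show ¬ ((U : Set X) ⊆ W) from hU)
      refine ⟨{x}, Set.finite_singleton x, by simpa using hx, fun V hV hVW => hxW ?_⟩
      exact hVW (hV rfl)
    | univ => exact ⟨∅, Set.finite_empty, Set.empty_subset _, fun _ _ => trivial⟩
    | inter S T _ _ hS hT =>
      obtain ⟨F, hF, hFU, h1⟩ := hS hU.1
      obtain ⟨G, hG, hGU, h2⟩ := hT hU.2
      exact ⟨F ∪ G, hF.union hG, Set.union_subset hFU hGU, fun V hV =>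
        ⟨h1 V (Set.subset_union_left.trans hV), h2 V (Set.subset_union_right.trans hV)⟩⟩
    | sUnion 𝒮 _ h =>
      obtain ⟨S, hS, hUS⟩ := hU
      obtain ⟨F, hF, hFU, h1⟩ := h S hS hUS
      exact ⟨F, hF, hFU, fun V hV => ⟨S, hS, h1 V hV⟩⟩
  · intro h 𝓕
    refine ⟨scottOpen_of_upperOpen, fun h𝓕 => ?_⟩
    have hfin : ∀ F : Set X, F.Finite → UpperOpen {V : Opens X | F ⊆ V} := by
      intro F hF
      have : {V : Opens X | F ⊆ V} = ⋂ x ∈ F, {V : Opens X | x ∈ V} := by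
        ext V
        simp only [Set.mem_ofPred_eq, Set.mem_iInter]
        exact Iff.rfl
      rw [this]
      exact @Set.Finite.isOpen_biInter _ _
        (TopologicalSpace.generateFrom {S : Set (Opens X) | ∃ x, S = {y | ¬ y ≤ x}}) F _ hF
        (fun x _ => upperOpen_point x)
    have : 𝓕 = ⋃₀ {S | UpperOpen S ∧ S ⊆ 𝓕} := by
      apply Set.Subset.antisymm
      · intro U hU
        obtain ⟨F, hF, hFU, h1⟩ := h 𝓕 h𝓕 U hU
        exact ⟨{V | F ⊆ V}, ⟨hfin F hF, fun V hV => h1 V hV⟩, hFU⟩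
      · rintro U ⟨S, ⟨_, hS⟩, hU⟩
        exact hS hU
    rw [this]
    exact @isOpen_sUnion _ (TopologicalSpace.generateFrom {S : Set (Opens X) |
      ∃ x, S = {y | ¬ y ≤ x}}) _ (fun S hS => hS.1)

/-! ### The Smyth powerspace -/

theorem isOpen_box {U : Set X} (hU : IsOpen U) : IsOpen (box U) :=
  TopologicalSpace.isOpen_generateFrom_of_mem ⟨U, hU, rfl⟩

theorem box_mono {U V : Set X} (h : U ⊆ V) : box U ⊆ box V := fun K hK => hK.trans h

theorem box_inter (U V : Set X) : box (U ∩ V) = box U ∩ box V := by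
  ext K
  exact Set.subset_inter_iff

/-- The boxes form a base. -/
theorem exists_box {𝒲 : Set (PS X)} (h : IsOpen 𝒲) {K : PS X} (hK : K ∈ 𝒲) :
    ∃ U : Set X, IsOpen U ∧ K.1 ⊆ U ∧ box U ⊆ 𝒲 := by
  change TopologicalSpace.GenerateOpen _ 𝒲 at h
  induction h with
  | basic S hS =>
    obtain ⟨U, hU, rfl⟩ := hS
    exact ⟨U, hU, hK, Set.Subset.rfl⟩
  | univ => exact ⟨Set.univ, isOpen_univ, Set.subset_univ _, Set.subset_univ _⟩
  | inter S T _ _ hS hT =>
    obtain ⟨U, hU, hKU, h1⟩ := hS hK.1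
    obtain ⟨V, hV, hKV, h2⟩ := hT hK.2
    refine ⟨U ∩ V, hU.inter hV, Set.subset_inter hKU hKV, ?_⟩
    rw [box_inter]
    exact Set.inter_subset_inter h1 h2
  | sUnion 𝒮 _ h =>
    obtain ⟨S, hS, hKS⟩ := hK
    obtain ⟨U, hU, hKU, h1⟩ := h S hS hKS
    exact ⟨U, hU, hKU, h1.trans (Set.subset_sUnion_of_mem hS)⟩

/-- The saturation of a set. -/
def sat (A : Set X) : Set X := ⋂₀ {U | IsOpen U ∧ A ⊆ U}

theorem subset_sat (A : Set X) : A ⊆ sat A := fun _ hx _ hU => hU.2 hx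

theorem sat_subset {A U : Set X} (hU : IsOpen U) (h : A ⊆ U) : sat A ⊆ U :=
  fun _ hx => hx U ⟨hU, h⟩

theorem saturated_sat (A : Set X) : Saturated (sat A) := by
  apply Set.Subset.antisymm (subset_sat _)
  intro x hx U hU
  exact hx U ⟨hU.1, sat_subset hU.1 hU.2⟩

theorem isCompact_sat {A : Set X} (hA : IsCompact A) : IsCompact (sat A) := by
  apply isCompact_of_finite_subcover
  intro ι U hU hcov
  obtain ⟨t, ht⟩ := hA.elim_finite_subcover U hU ((subset_sat A).trans hcov)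
  exact ⟨t, sat_subset (isOpen_biUnion fun i _ => hU i) ht⟩

/-- The saturation of a nonempty compact set, as a point of the Smyth powerspace. -/
def mkPS (A : Set X) (h1 : A.Nonempty) (h2 : IsCompact A) : PS X :=
  ⟨sat A, h1.mono (subset_sat A), isCompact_sat h2, saturated_sat A⟩

/-- The embedding `x ↦ ↑x`. -/
def eta (x : X) : PS X := mkPS {x} (Set.singleton_nonempty x) isCompact_singleton

theorem eta_mem_box {x : X} {U : Set X} (hU : IsOpen U) : eta x ∈ box U ↔ x ∈ U :=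
  ⟨fun h => h (subset_sat _ rfl), fun h => sat_subset hU (by simpa using h)⟩

theorem continuous_eta : Continuous (eta : X → PS X) := by
  rw [continuous_generateFrom_iff]
  rintro _ ⟨U, hU, rfl⟩
  have : eta ⁻¹' box U = U := by
    ext x
    exact eta_mem_box hU
  rwa [this]

/-- Scott open families pull back along continuous maps (in the other direction). -/
theorem ScottOpen.push {Y : Type u} [TopologicalSpace Y] {𝓕 : Set (Opens X)} (h : ScottOpen 𝓕)
    (f : X → Y) (hf : Continuous f) :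
    ScottOpen {V : Opens Y | (⟨f ⁻¹' V, V.isOpen.preimage hf⟩ : Opens X) ∈ 𝓕} := by
  refine ⟨?_, ?_⟩
  · intro V hV W hVW
    exact h.1 _ hV _ (fun x hx => hVW hx)
  · intro D hD hdir s hs hsV
    have hs' : s = sSup D := hs.unique (isLUB_sSup D)
    obtain ⟨W, ⟨V, hV, rfl⟩, hW⟩ := h.2 ((fun V : Opens Y =>
      (⟨f ⁻¹' V, V.isOpen.preimage hf⟩ : Opens X)) '' D) (hD.image _) (by
        rintro _ ⟨V, hV, rfl⟩ _ ⟨V', hV', rfl⟩
        obtain ⟨W, hW, h1, h2⟩ := hdir V hV V' hV'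
        exact ⟨_, ⟨W, hW, rfl⟩, fun x hx => h1 hx, fun x hx => h2 hx⟩)
      ⟨f ⁻¹' s, s.isOpen.preimage hf⟩ (by
        constructor
        · rintro _ ⟨V, hV, rfl⟩ x hx
          exact hs.1 hV hx
        · intro W hW x hx
          have hx' : f x ∈ (sSup D : Opens Y) := by
            rw [← hs']; exact hx
          rw [Opens.mem_sSup] at hx'
          obtain ⟨V, hV, hxV⟩ := hx'
          exact hW ⟨V, hV, rfl⟩ hxV) hsV
    exact ⟨V, hV, hW⟩

/-- **The Smyth powerspace of a locally compact space is co-consonant.** -/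
theorem coConsonant_PS_of_locallyCompact [LocallyCompactSpace X] : CoConsonant (PS X) := by
  rw [coConsonant_iff]
  intro 𝓕 h𝓕 𝒰 h𝒰
  -- finite unions of boxes of interiors of members
  let 𝒟 : Set (Opens (PS X)) := {𝒲 | ∃ F : Set (PS X), F.Finite ∧ F ⊆ 𝒰 ∧
    (𝒲 : Set (PS X)) = ⋃ L ∈ F, box (interior L.1)}
  have hsup : IsLUB 𝒟 𝒰 := by
    constructor
    · rintro 𝒲 ⟨F, hF, hFU, h⟩ K hK
      have hK' : K ∈ (𝒲 : Set (PS X)) := hK
      rw [h, Set.mem_iUnion₂] at hK'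
      obtain ⟨L, hL, hKL⟩ := hK'
      obtain ⟨U, hU, hLU, h1⟩ := exists_box 𝒰.isOpen (hFU hL)
      exact h1 (show K.1 ⊆ U from hKL.trans (interior_subset.trans hLU))
    · intro 𝒱 h𝒱 K hK
      obtain ⟨U, hU, hKU, h1⟩ := exists_box 𝒰.isOpen hK
      obtain ⟨L, hL, hKL, hLU⟩ := exists_compact_between K.2.2.1 hU hKU
      have hne : L.Nonempty := K.2.1.mono (hKL.trans interior_subset)
      have hmem : mkPS L hne hL ∈ 𝒰 := h1 (sat_subset hU hLU)
      refine h𝒱 (show (⟨box (interior (mkPS L hne hL).1), isOpen_box isOpen_interior⟩ :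
        Opens (PS X)) ∈ 𝒟 from ⟨{mkPS L hne hL}, Set.finite_singleton _, by simpa using hmem,
          by simp⟩) ?_
      exact hKL.trans (interior_mono (subset_sat L))
  obtain ⟨𝒲, ⟨F, hF, hFU, hW⟩, hmem⟩ := h𝓕.2 𝒟
    ⟨⟨∅, isOpen_empty⟩, ∅, Set.finite_empty, Set.empty_subset _, by simp⟩ (by
      rintro 𝒲 ⟨F, hF, hFU, hW⟩ 𝒲' ⟨F', hF', hFU', hW'⟩
      refine ⟨⟨⋃ L ∈ F ∪ F', box (interior L.1), isOpen_biUnion fun _ _ =>
        isOpen_box isOpen_interior⟩, ⟨F ∪ F', hF.union hF', Set.union_subset hFU hFU', rfl⟩, ?_, ?_⟩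
      · intro K hK
        have hK' : K ∈ (𝒲 : Set (PS X)) := hK
        rw [hW, Set.mem_iUnion₂] at hK'
        obtain ⟨L, hL, hKL⟩ := hK'
        exact Set.mem_iUnion₂.2 ⟨L, Or.inl hL, hKL⟩
      · intro K hK
        have hK' : K ∈ (𝒲' : Set (PS X)) := hK
        rw [hW', Set.mem_iUnion₂] at hK'
        obtain ⟨L, hL, hKL⟩ := hK'
        exact Set.mem_iUnion₂.2 ⟨L, Or.inr hL, hKL⟩) 𝒰 hsup h𝒰
  refine ⟨F, hF, hFU, fun 𝒱 h𝒱 => h𝓕.1 _ hmem _ ?_⟩
  intro K hK
  have hK' : K ∈ (𝒲 : Set (PS X)) := hK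
  rw [hW, Set.mem_iUnion₂] at hK'
  obtain ⟨L, hL, hKL⟩ := hK'
  obtain ⟨U, hU, hLU, h1⟩ := exists_box 𝒱.isOpen (h𝒱 hL)
  exact h1 (show K.1 ⊆ U from hKL.trans (interior_subset.trans hLU))

/-- In a compact space the family `{X}` is Scott open. -/
theorem scottOpen_top [CompactSpace X] : ScottOpen ({⊤} : Set (Opens X)) := by
  refine ⟨?_, ?_⟩
  · intro U hU V hUV
    rw [Set.mem_singleton_iff] at hU ⊢
    subst hU
    exact top_le_iff.1 hUV
  · intro D hD hdir s hs hsU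
    rw [Set.mem_singleton_iff] at hsU
    subst hsU
    have h2 : (⊤ : Opens X) = sSup D := hs.unique (isLUB_sSup D)
    obtain ⟨V, hV⟩ := hD
    have : Nonempty D := ⟨⟨V, hV⟩⟩
    obtain ⟨⟨W, hW⟩, hWc⟩ := isCompact_univ.elim_directed_cover (fun V : D => (V.1 : Set X))
      (fun V => V.1.isOpen) (by
        intro x _
        have hx : x ∈ (sSup D : Opens X) := by rw [← h2]; trivial
        rw [Opens.mem_sSup] at hx
        obtain ⟨V, hV, hxV⟩ := hx
        exact Set.mem_iUnion.2 ⟨⟨V, hV⟩, hxV⟩) (by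
        rintro ⟨V, hV⟩ ⟨V', hV'⟩
        obtain ⟨W, hW, h3, h4⟩ := hdir V hV V' hV'
        exact ⟨⟨W, hW⟩, h3, h4⟩)
    refine ⟨W, hW, ?_⟩
    rw [Set.mem_singleton_iff]
    exact top_le_iff.1 hWc

/-- **An infinite compact `T₁` space is not co-consonant.** -/
theorem not_coConsonant_of_compact [CompactSpace X] [T1Space X] [Infinite X] :
    ¬ CoConsonant X := by
  rw [coConsonant_iff]
  intro h
  obtain ⟨F, hF, _, h1⟩ := h {⊤} scottOpen_top ⊤ rfl
  obtain ⟨x, hx⟩ := hF.exists_notMem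
  have h2 := h1 ⟨{x}ᶜ, isOpen_compl_singleton⟩ (fun y hy hyx => hx (by
    rw [Set.mem_singleton_iff] at hyx; rwa [← hyx]))
  rw [Set.mem_singleton_iff] at h2
  have h3 : x ∈ (⟨{x}ᶜ, isOpen_compl_singleton⟩ : Opens X) := by rw [h2]; trivial
  exact h3 rfl

/-- Consonance: for every Scott open family `𝓕` of open sets and every `U ∈ 𝓕` there is a compact
set `K ⊆ U` such that every open set containing `K` belongs to `𝓕`. -/
def Consonant (X : Type u) [TopologicalSpace X] : Prop :=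
  ∀ 𝓕 : Set (Opens X), ScottOpen 𝓕 → ∀ U ∈ 𝓕, ∃ K : Set X, IsCompact K ∧ K ⊆ U ∧
    ∀ V : Opens X, K ⊆ V → V ∈ 𝓕

/-- **If `P_S(X)` is co-consonant then `X` is consonant.** -/
theorem consonant_of_coConsonant_PS (h : CoConsonant (PS X)) : Consonant X := by
  rw [coConsonant_iff] at h
  intro 𝓕 h𝓕 U hU
  obtain ⟨F, hF, hFU, h1⟩ := h _ (h𝓕.push eta continuous_eta) ⟨box U, isOpen_box U.isOpen⟩ (by
    have : (⟨eta ⁻¹' (box (U : Set X)), (isOpen_box U.isOpen).preimage continuous_eta⟩ : Opens X) =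
        U := by
      ext x
      exact eta_mem_box U.isOpen
    show (⟨eta ⁻¹' (box (U : Set X)), _⟩ : Opens X) ∈ 𝓕
    rw [this]
    exact hU)
  refine ⟨⋃ K ∈ F, K.1, hF.isCompact_biUnion (fun K _ => K.2.2.1), ?_, ?_⟩
  · exact Set.iUnion₂_subset (fun K hK => hFU hK)
  · intro V hV
    have h2 := h1 ⟨box V, isOpen_box V.isOpen⟩ (fun K hK =>
      (Set.subset_biUnion_of_mem (u := fun K : PS X => K.1) hK).trans hV)
    have : (⟨eta ⁻¹' (box (V : Set X)), (isOpen_box V.isOpen).preimage continuous_eta⟩ : Opens X) =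
        V := by
      ext x
      exact eta_mem_box V.isOpen
    rw [← this]
    exact h2

/-- The family of open neighbourhoods of a compact set is Scott open. -/
theorem scottOpen_compact {K : Set X} (hK : IsCompact K) :
    ScottOpen {V : Opens X | K ⊆ V} := by
  refine ⟨fun V hV W hVW => Set.Subset.trans hV hVW, ?_⟩
  intro D hD hdir s hs hsK
  have h2 : s = sSup D := hs.unique (isLUB_sSup D)
  obtain ⟨V, hV⟩ := hD
  have : Nonempty D := ⟨⟨V, hV⟩⟩
  obtain ⟨⟨W, hW⟩, hWc⟩ := hK.elim_directed_cover (fun V : D => (V.1 : Set X))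
    (fun V => V.1.isOpen) (by
      intro x hxK
      have hx : x ∈ (sSup D : Opens X) := by rw [← h2]; exact hsK hxK
      rw [Opens.mem_sSup] at hx
      obtain ⟨V, hV, hxV⟩ := hx
      exact Set.mem_iUnion.2 ⟨⟨V, hV⟩, hxV⟩) (by
      rintro ⟨V, hV⟩ ⟨V', hV'⟩
      obtain ⟨W, hW, h3, h4⟩ := hdir V hV V' hV'
      exact ⟨⟨W, hW⟩, h3, h4⟩)
  exact ⟨W, hW, hWc⟩

/-- Every compact set `K` contained in an open set `U` is contained in the saturation of a finite
subset `F` of `U`. -/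
def FinApprox (X : Type u) [TopologicalSpace X] : Prop :=
  ∀ (K : Set X) (U : Opens X), IsCompact K → K ⊆ U →
    ∃ F : Set X, F.Finite ∧ F ⊆ U ∧ ∀ V : Opens X, F ⊆ V → K ⊆ V

/-- Co-consonance is consonance plus finite approximation of compact sets. -/
theorem coConsonant_iff_consonant : CoConsonant X ↔ Consonant X ∧ FinApprox X := by
  rw [coConsonant_iff]
  constructor
  · intro h
    refine ⟨fun 𝓕 h𝓕 U hU => ?_, fun K U hK hKU => h _ (scottOpen_compact hK) U hKU⟩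
    obtain ⟨F, hF, hFU, h1⟩ := h 𝓕 h𝓕 U hU
    exact ⟨F, hF.isCompact, hFU, h1⟩
  · rintro ⟨h1, h2⟩ 𝓕 h𝓕 U hU
    obtain ⟨K, hK, hKU, h3⟩ := h1 𝓕 h𝓕 U hU
    obtain ⟨F, hF, hFU, h4⟩ := h2 K U hK hKU
    exact ⟨F, hF, hFU, fun V hV => h3 V (h4 V hV)⟩

end Pool.Agent.R828.CC
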