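import Pool.Agent.R828.CoCons
import Pool.Agent.Helper800.ConsL

/-!
# Co-consonance of `P_S` of the metric fan and of the sequential fan

`Fan NM` and `Fan NS` are the metric fan and the sequential fan of
`Pool/Agent/Helper800/Cons.lean`.
-/

namespace Pool.Agent.R828.CC

open Set TopologicalSpace Topology

open Pool.Agent.Helper800.Cons (Fan NM NS mem_NM mem_NS Fan.inf Fan.pt Fan.cases Fan.pt_ne
  Fan.pt_inj Fan.isOpen_iff Fan.isOpen_of_notMem Fan.isCompact)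

universe u

/-- Scott open sets pull back along maps preserving directed suprema. -/
theorem ScottOpen.comap {P Q : Type u} [PartialOrder P] [PartialOrder Q] {𝓕 : Set P}
    (h : ScottOpen 𝓕) (B : Q → P) (hm : Monotone B)
    (hB : ∀ D : Set Q, D.Nonempty → DirectedOn (· ≤ ·) D → ∀ s, IsLUB D s →
      IsLUB (B '' D) (B s)) : ScottOpen (B ⁻¹' 𝓕) := by
  refine ⟨fun x hx y hxy => h.1 _ hx _ (hm hxy), ?_⟩
  intro D hD hdir s hs hsF
  obtain ⟨_, ⟨V, hV, rfl⟩, hW⟩ := h.2 (B '' D) (hD.image B) (by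
    rintro _ ⟨V, hV, rfl⟩ _ ⟨V', hV', rfl⟩
    obtain ⟨W, hW, h1, h2⟩ := hdir V hV V' hV'
    exact ⟨_, ⟨W, hW, rfl⟩, hm h1, hm h2⟩) (B s) (hB D hD hdir s hs) hsF
  exact ⟨V, hV, hW⟩

/-- Consonance of all finite sums `Y ⊕ ⋯ ⊕ Y`, in terms of tuples of open sets. -/
def MultiCons (Y : Type u) [TopologicalSpace Y] : Prop :=
  ∀ (ι : Type u) [Finite ι] (𝓖 : Set (ι → Opens Y)), ScottOpen 𝓖 → ∀ U ∈ 𝓖, ∃ K : ι → Set Y,
    (∀ a, IsCompact (K a)) ∧ (∀ a, K a ⊆ U a) ∧ ∀ V : ι → Opens Y, (∀ a, K a ⊆ V a) → V ∈ 𝓖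

theorem mkPS_mem_box {X : Type u} [TopologicalSpace X] {A : Set X} {h1 : A.Nonempty}
    {h2 : IsCompact A} {U : Set X} (hU : IsOpen U) : mkPS A h1 h2 ∈ box U ↔ A ⊆ U :=
  ⟨fun h => (subset_sat A).trans h, fun h => sat_subset hU h⟩

/-- The union of the boxes of a tuple of open sets. -/
def boxes {Y : Type u} [TopologicalSpace Y] {ι : Type u} (V : ι → Opens Y) : Opens (PS Y) :=
  ⟨⋃ i, box (V i : Set Y), isOpen_iUnion fun i => isOpen_box (V i).isOpen⟩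

theorem mem_boxes {Y : Type u} [TopologicalSpace Y] {ι : Type u} {V : ι → Opens Y} {K : PS Y} :
    K ∈ boxes V ↔ ∃ i, K.1 ⊆ V i := Set.mem_iUnion

theorem boxes_mono {Y : Type u} [TopologicalSpace Y] {ι : Type u} :
    Monotone (boxes : (ι → Opens Y) → Opens (PS Y)) := by
  intro V W hVW K hK
  rw [mem_boxes] at hK ⊢
  obtain ⟨i, hi⟩ := hK
  exact ⟨i, hi.trans (hVW i)⟩

theorem boxes_lub {Y : Type u} [TopologicalSpace Y] {ι : Type u} (D : Set (ι → Opens Y))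
    (hD : D.Nonempty) (hdir : DirectedOn (· ≤ ·) D) (s : ι → Opens Y) (hs : IsLUB D s) :
    IsLUB (boxes '' D) (boxes s) := by
  constructor
  · rintro _ ⟨V, hV, rfl⟩
    exact boxes_mono (hs.1 hV)
  · intro 𝒲 h𝒲 K hK
    rw [mem_boxes] at hK
    obtain ⟨i, hi⟩ := hK
    have h2 : s = sSup D := hs.unique (isLUB_sSup D)
    have : Nonempty D := hD.to_subtype
    obtain ⟨⟨V, hV⟩, hVK⟩ := K.2.2.1.elim_directed_cover (fun V : D => (V.1 i : Set Y))
      (fun V => (V.1 i).isOpen) (by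
        intro x hxK
        have hx : x ∈ s i := hi hxK
        rw [h2, sSup_apply, Opens.mem_iSup] at hx
        obtain ⟨V, hxV⟩ := hx
        exact Set.mem_iUnion.2 ⟨V, hxV⟩) (by
        rintro ⟨V, hV⟩ ⟨V', hV'⟩
        obtain ⟨W, hW, h3, h4⟩ := hdir V hV V' hV'
        exact ⟨⟨W, hW⟩, h3 i, h4 i⟩)
    exact h𝒲 ⟨V, hV, rfl⟩ (mem_boxes.2 ⟨i, hVK⟩)

/-- **If all finite sums of copies of `Y` are consonant, then `P_S(Y)` is co-consonant.** -/
theorem coConsonant_PS_of_multiCons {Y : Type u} [TopologicalSpace Y] (h : MultiCons Y) :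
    CoConsonant (PS Y) := by
  classical
  rw [coConsonant_iff]
  intro 𝓕 h𝓕 𝒰 h𝒰
  let 𝒟 : Set (Opens (PS Y)) := {𝒲 | ∃ S : Set (Opens Y), S.Finite ∧
    (∀ U ∈ S, box (U : Set Y) ⊆ 𝒰) ∧ (𝒲 : Set (PS Y)) = ⋃ U ∈ S, box (U : Set Y)}
  have hsup : IsLUB 𝒟 𝒰 := by
    constructor
    · rintro 𝒲 ⟨S, hS, hSU, hW⟩ K hK
      have hK' : K ∈ (𝒲 : Set (PS Y)) := hK
      rw [hW, Set.mem_iUnion₂] at hK'
      obtain ⟨U, hU, hKU⟩ := hK'
      exact hSU U hU hKU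
    · intro 𝒱 h𝒱 K hK
      obtain ⟨U, hU, hKU, h1⟩ := exists_box 𝒰.isOpen hK
      exact h𝒱 (show (⟨box U, isOpen_box hU⟩ : Opens (PS Y)) ∈ 𝒟 from
        ⟨{⟨U, hU⟩}, Set.finite_singleton _, by
          intro U' hU'
          rw [Set.mem_singleton_iff] at hU'
          rw [hU']
          exact h1, by simp⟩) hKU
  obtain ⟨𝒲, ⟨S, hS, hSU, hW⟩, hmem⟩ := h𝓕.2 𝒟
    ⟨⟨∅, isOpen_empty⟩, ∅, Set.finite_empty, fun _ h => h.elim, by simp⟩ (by
      rintro 𝒲 ⟨F, hF, hFU, hW⟩ 𝒲' ⟨F', hF', hFU', hW'⟩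
      refine ⟨⟨⋃ U ∈ F ∪ F', box (U : Set Y), isOpen_biUnion fun U _ =>
        isOpen_box U.isOpen⟩, ⟨F ∪ F', hF.union hF', ?_, rfl⟩, ?_, ?_⟩
      · rintro U (hU | hU)
        · exact hFU U hU
        · exact hFU' U hU
      · intro K hK
        have hK' : K ∈ (𝒲 : Set (PS Y)) := hK
        rw [hW, Set.mem_iUnion₂] at hK'
        obtain ⟨L, hL, hKL⟩ := hK'
        exact Set.mem_iUnion₂.2 ⟨L, Or.inl hL, hKL⟩
      · intro K hK
        have hK' : K ∈ (𝒲' : Set (PS Y)) := hK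
        rw [hW', Set.mem_iUnion₂] at hK'
        obtain ⟨L, hL, hKL⟩ := hK'
        exact Set.mem_iUnion₂.2 ⟨L, Or.inr hL, hKL⟩) 𝒰 hsup h𝒰
  have : Finite S := hS
  obtain ⟨K, hK1, hK2, hK3⟩ := h S (boxes ⁻¹' 𝓕) (h𝓕.comap boxes boxes_mono boxes_lub)
    (fun i => i.1) (by
      refine h𝓕.1 _ hmem _ ?_
      intro K hK
      have hK' : K ∈ (𝒲 : Set (PS Y)) := hK
      rw [hW, Set.mem_iUnion₂] at hK'
      obtain ⟨L, hL, hKL⟩ := hK'
      exact mem_boxes.2 ⟨⟨L, hL⟩, hKL⟩)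
  let F : Set (PS Y) := ⋃ i : S, {K' | ∃ hne : (K i).Nonempty, K' = mkPS (K i) hne (hK1 i)}
  refine ⟨F, ?_, ?_, ?_⟩
  · apply Set.finite_iUnion
    intro i
    apply Set.Subsingleton.finite
    rintro _ ⟨_, rfl⟩ _ ⟨_, rfl⟩
    rfl
  · intro K' hK'
    rw [Set.mem_iUnion] at hK'
    obtain ⟨i, hne, rfl⟩ := hK'
    exact hSU i.1 i.2 ((mkPS_mem_box i.1.isOpen).2 (hK2 i))
  · intro 𝒱 h𝒱
    have hex : ∀ i : S, ∃ W : Opens Y, K i ⊆ W ∧ box (W : Set Y) ⊆ 𝒱 := by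
      intro i
      by_cases hne : (K i).Nonempty
      · obtain ⟨W, hW, h1, h2⟩ := exists_box 𝒱.isOpen
          (h𝒱 (Set.mem_iUnion.2 ⟨i, hne, rfl⟩ : mkPS (K i) hne (hK1 i) ∈ F))
        exact ⟨⟨W, hW⟩, (subset_sat _).trans h1, h2⟩
      · refine ⟨⊥, ?_, ?_⟩
        · rw [Set.not_nonempty_iff_eq_empty.1 hne]
          exact Set.empty_subset _
        · intro K' hK'
          obtain ⟨x, hx⟩ := K'.2.1
          exact (hK' hx).elim
    choose W hW1 hW2 using hex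
    refine h𝓕.1 _ (hK3 W hW1) _ ?_
    intro K' hK'
    rw [mem_boxes] at hK'
    obtain ⟨i, hi⟩ := hK'
    exact hW2 i hi

/-- Monotone sequences. -/
theorem ScottOpen.exists_seq {ι Y : Type u} [TopologicalSpace Y] {𝓖 : Set (ι → Opens Y)}
    (h : ScottOpen 𝓖) (T : ℕ → ι → Opens Y) (hT : Monotone T) {U : ι → Opens Y} (hU : U ∈ 𝓖)
    (hUT : ∀ a, ∀ y ∈ U a, ∃ m, y ∈ T m a) : ∃ m, T m ∈ 𝓖 := by
  obtain ⟨_, ⟨m, rfl⟩, hm⟩ := h.2 (Set.range T) (Set.range_nonempty T)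
    hT.directed_le.directedOn_range (⨆ m, T m) isLUB_iSup (h.1 U hU _ (by
      intro a y hy
      obtain ⟨m, hm⟩ := hUT a y hy
      rw [iSup_apply, Opens.mem_iSup]
      exact ⟨m, hm⟩))
  exact ⟨m, hm⟩

/-! ### The metric fan -/

/-- Cut a column. -/
def cut (T : Opens (Fan NM)) (i m : ℕ) : Opens (Fan NM) :=
  ⟨{p | p ∈ T ∧ ∀ j, m < j → p ≠ Fan.pt NM (i, j)}, by
    rw [Fan.isOpen_iff]
    rintro ⟨h, -⟩
    rw [mem_NM]
    obtain ⟨k, hk⟩ := mem_NM.1 (T.isOpen h)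
    refine ⟨max k (i + 1), fun i' j' h => ⟨hk i' j' (le_trans (le_max_left _ _) h), ?_⟩⟩
    intro j hj heq
    have h2 := Fan.pt_inj heq
    have h3 : i' = i := congrArg Prod.fst h2
    have h4 := le_trans (le_max_right k (i+1)) h
    omega⟩

theorem mem_cut {T : Opens (Fan NM)} {i m : ℕ} {p : Fan NM} :
    p ∈ cut T i m ↔ p ∈ T ∧ ∀ j, m < j → p ≠ Fan.pt NM (i, j) := Iff.rfl

/-- A finite part of an open set, or the whole set if it contains the point at infinity. -/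
def fin {N : Filter (ℕ × ℕ)} (T : Opens (Fan N)) (m : ℕ) : Opens (Fan N) :=
  ⟨{p | p ∈ T ∧ (Fan.inf N ∈ T ∨ ∃ i j, i ≤ m ∧ j ≤ m ∧ p = Fan.pt N (i, j))}, by
    by_cases h : Fan.inf N ∈ T
    · have : {p | p ∈ T ∧ (Fan.inf N ∈ T ∨ ∃ i j, i ≤ m ∧ j ≤ m ∧ p = Fan.pt N (i, j))} =
          (T : Set (Fan N)) := by
        ext p
        exact ⟨fun hp => hp.1, fun hp => ⟨hp, Or.inl h⟩⟩
      rw [this]
      exact T.isOpen
    · exact Fan.isOpen_of_notMem fun h' => h h'.1⟩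

theorem mem_fin {N : Filter (ℕ × ℕ)} {T : Opens (Fan N)} {m : ℕ} {p : Fan N} :
    p ∈ fin T m ↔ p ∈ T ∧ (Fan.inf N ∈ T ∨ ∃ i j, i ≤ m ∧ j ≤ m ∧ p = Fan.pt N (i, j)) := Iff.rfl

theorem finite_grid {N : Filter (ℕ × ℕ)} (f : ℕ → ℕ) (k : ℕ) :
    {p : Fan N | ∃ i j, i < k ∧ j ≤ f i ∧ p = Fan.pt N (i, j)}.Finite := by
  have : {p : Fan N | ∃ i j, i < k ∧ j ≤ f i ∧ p = Fan.pt N (i, j)} ⊆
      ⋃ i ∈ Finset.range k, ⋃ j ∈ Finset.range (f i + 1), {Fan.pt N (i, j)} := by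
    rintro p ⟨i, j, hi, hj, rfl⟩
    simp only [mem_iUnion, Finset.mem_range, mem_singleton_iff]
    exact ⟨i, hi, j, by omega, rfl⟩
  refine Set.Finite.subset ?_ this
  apply Set.Finite.biUnion (Finset.finite_toSet _)
  intro i _
  apply Set.Finite.biUnion (Finset.finite_toSet _)
  intro j _
  exact finite_singleton _

theorem multiCons_M : MultiCons (Fan NM) := by
  intro ι _ 𝓖 h𝓖 U hU
  -- stage 0
  obtain ⟨m0, hm0⟩ := h𝓖.exists_seq (fun m a => fin (U a) m) (by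
    intro m m' hmm' a p hp
    obtain ⟨h1, h2⟩ := mem_fin.1 hp
    refine mem_fin.2 ⟨h1, h2.imp_right ?_⟩
    rintro ⟨i, j, hi, hj, rfl⟩
    exact ⟨i, j, by omega, by omega, rfl⟩) hU (by
    intro a p hp
    rcases Fan.cases p with rfl | ⟨⟨i, j⟩, rfl⟩
    · exact ⟨0, mem_fin.2 ⟨hp, Or.inl hp⟩⟩
    · exact ⟨max i j, mem_fin.2 ⟨hp, Or.inr ⟨i, j, le_max_left _ _, le_max_right _ _, rfl⟩⟩⟩)
  -- one step
  have step : ∀ (T : {T : ι → Opens (Fan NM) // T ∈ 𝓖}) (i : ℕ),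
      ∃ m, (fun a => cut (T.1 a) i m) ∈ 𝓖 := by
    rintro ⟨T, hT⟩ i
    apply h𝓖.exists_seq (fun m a => cut (T a) i m) _ hT
    · intro a p hp
      rcases Fan.cases p with rfl | ⟨⟨i', j'⟩, rfl⟩
      · exact ⟨0, hp, fun j _ h => Fan.pt_ne _ h.symm⟩
      · refine ⟨j', hp, fun j hj h => ?_⟩
        have := congrArg Prod.snd (Fan.pt_inj h)
        simp only at this
        omega
    · intro m m' hmm' a p hp
      exact ⟨hp.1, fun j hj => hp.2 j (lt_of_le_of_lt hmm' hj)⟩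
  choose m hm using step
  let T : ℕ → {T : ι → Opens (Fan NM) // T ∈ 𝓖} := fun n =>
    Nat.rec ⟨fun a => fin (U a) m0, hm0⟩ (fun i T => ⟨fun a => cut (T.1 a) i (m T i), hm T i⟩) n
  have hT0 : ∀ a, (T 0).1 a = fin (U a) m0 := fun a => rfl
  have hTs : ∀ n a, (T (n+1)).1 a = cut ((T n).1 a) n (m (T n) n) := fun n a => rfl
  obtain ⟨f, hf⟩ : ∃ f : ℕ → ℕ, ∀ n, f n = m (T n) n := ⟨fun n => m (T n) n, fun _ => rfl⟩
  have hT : ∀ n a p, p ∈ (T n).1 a ↔ p ∈ fin (U a) m0 ∧ ∀ i, i < n → ∀ j, f i < j →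
      p ≠ Fan.pt NM (i, j) := by
    intro n
    induction n with
    | zero =>
      intro a p
      rw [hT0]
      exact ⟨fun h => ⟨h, fun i hi => absurd hi (by omega)⟩, fun h => h.1⟩
    | succ n ih =>
      intro a p
      rw [hTs, mem_cut, ih, ← hf]
      constructor
      · rintro ⟨⟨h1, h2⟩, h3⟩
        refine ⟨h1, fun i hi j hj => ?_⟩
        rcases Nat.lt_succ_iff_lt_or_eq.1 hi with hi | rfl
        · exact h2 i hi j hj
        · exact h3 j hj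
      · rintro ⟨h1, h2⟩
        exact ⟨⟨h1, fun i hi => h2 i (by omega)⟩, h2 n (by omega)⟩
  clear_value T
  let K : ι → Set (Fan NM) := fun a => {p | p ∈ fin (U a) m0 ∧ ∀ i j, f i < j →
    p ≠ Fan.pt NM (i, j)}
  refine ⟨K, ?_, ?_, ?_⟩
  · intro a
    by_cases hinf : Fan.inf NM ∈ U a
    · apply Fan.isCompact
      · exact ⟨mem_fin.2 ⟨hinf, Or.inl hinf⟩, fun i j _ h => Fan.pt_ne _ h.symm⟩
      · intro V hV hVi
        obtain ⟨k, hk⟩ := mem_NM.1 (hV hVi)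
        refine (finite_grid f k).subset ?_
        rintro p ⟨hp1, hp2⟩
        rcases Fan.cases p with rfl | ⟨⟨i, j⟩, rfl⟩
        · exact absurd hVi hp2
        · refine ⟨i, j, ?_, ?_, rfl⟩
          · by_contra hcon
            exact hp2 (hk i j (not_lt.1 hcon))
          · by_contra hcon
            exact hp1.2 i j (not_le.1 hcon) rfl
    · apply Set.Finite.isCompact
      refine (finite_grid (fun _ => m0) (m0 + 1)).subset ?_
      rintro p ⟨hp1, -⟩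
      rcases (mem_fin.1 hp1).2 with h | ⟨i, j, hi, hj, rfl⟩
      · exact absurd h hinf
      · exact ⟨i, j, by omega, hj, rfl⟩
  · intro a p hp
    exact (mem_fin.1 hp.1).1
  · intro V hKV
    have hk : ∀ a, ∃ k, Fan.inf NM ∈ U a → ∀ i j, k ≤ i → Fan.pt NM (i, j) ∈ V a := by
      intro a
      by_cases hinf : Fan.inf NM ∈ U a
      · have hV : Fan.inf NM ∈ V a :=
          hKV a ⟨mem_fin.2 ⟨hinf, Or.inl hinf⟩, fun i j _ h => Fan.pt_ne _ h.symm⟩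
        obtain ⟨k, hk⟩ := mem_NM.1 ((V a).isOpen hV)
        exact ⟨k, fun _ => hk⟩
      · exact ⟨0, fun h => absurd h hinf⟩
    choose kk hkk using hk
    obtain ⟨k0, hk0⟩ := (Set.finite_range kk).bddAbove
    have hk1 : ∀ a, kk a ≤ k0 := fun a => hk0 ⟨a, rfl⟩
    refine h𝓖.1 _ (T (max k0 (m0 + 1))).2 V ?_
    intro a p hp
    rw [hT] at hp
    obtain ⟨hp1, hp2⟩ := hp
    rcases Fan.cases p with rfl | ⟨⟨i, j⟩, rfl⟩
    · exact hKV a ⟨hp1, fun i j _ h => Fan.pt_ne _ h.symm⟩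
    · by_cases hi : i < max k0 (m0 + 1)
      · apply hKV a
        refine ⟨hp1, fun i' j' hj' h => ?_⟩
        have h2 := Fan.pt_inj h
        simp only [Prod.mk.injEq] at h2
        obtain ⟨rfl, rfl⟩ := h2
        exact hp2 i hi j hj' rfl
      · rw [not_lt] at hi
        have hi1 := le_trans (le_max_left _ _) hi
        have hi2 := le_trans (le_max_right _ _) hi
        rcases (mem_fin.1 hp1).2 with h | ⟨i', j', hi', hj', h⟩
        · exact hkk a h i j ((hk1 a).trans hi1)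
        · have h2 := Fan.pt_inj h
          simp only [Prod.mk.injEq] at h2
          obtain ⟨rfl, rfl⟩ := h2
          omega

/-! ### The sequential fan -/

theorem multiCons_S : MultiCons (Fan NS) := by
  intro ι _ 𝓖 h𝓖 U hU
  let K : ℕ → ι → Set (Fan NS) := fun n a => {p | p ∈ U a ∧ ((p = Fan.inf NS) ∨
    ∃ i j, i < n ∧ (Fan.inf NS ∈ U a ∨ j < n) ∧ p = Fan.pt NS (i, j))}
  have hKc : ∀ n a, IsCompact (K n a) := by
    intro n a
    by_cases hinf : Fan.inf NS ∈ U a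
    · apply Fan.isCompact
      · exact ⟨hinf, Or.inl rfl⟩
      · intro V hV hVi
        have h1 := mem_NS.1 (hV hVi)
        choose m hm using h1
        refine (finite_grid m n).subset ?_
        rintro p ⟨hp1, hp2⟩
        rcases hp1 with ⟨-, rfl | ⟨i, j, hi, -, rfl⟩⟩
        · exact absurd hVi hp2
        · refine ⟨i, j, hi, ?_, rfl⟩
          by_contra hcon
          exact hp2 (hm i j (by omega))
    · apply Set.Finite.isCompact
      refine (finite_grid (fun _ => n) n).subset ?_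
      rintro p ⟨hpU, rfl | ⟨i, j, hi, h | hj, rfl⟩⟩
      · exact absurd hpU hinf
      · exact absurd h hinf
      · exact ⟨i, j, hi, hj.le, rfl⟩
  by_contra hcon
  push Not at hcon
  choose W hKW hWF using fun n => hcon (K n) (hKc n) (fun a p hp => hp.1)
  let V : ℕ → ι → Set (Fan NS) := fun n a => {p | p ∈ U a ∧ ∀ m, n ≤ m → p ∈ W m a}
  have hVo : ∀ n a, IsOpen (V n a) := by
    intro n a
    rw [Fan.isOpen_iff]
    rintro ⟨hinf, -⟩
    rw [mem_NS]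
    intro i
    obtain ⟨m0, hm0⟩ := mem_NS.1 ((U a).isOpen hinf) i
    have hW : ∀ l, Fan.inf NS ∈ W l a := fun l => hKW l a ⟨hinf, Or.inl rfl⟩
    choose mm hmm using fun l => mem_NS.1 ((W l a).isOpen (hW l)) i
    refine ⟨m0 + ∑ l ∈ Finset.range (i + 1), mm l, fun j hj => ⟨hm0 j (by omega), ?_⟩⟩
    intro m hm
    by_cases hmi : i < m
    · exact hKW m a ⟨hm0 j (by omega), Or.inr ⟨i, j, hmi, Or.inl hinf, rfl⟩⟩
    · apply hmm m j
      have : mm m ≤ ∑ l ∈ Finset.range (i + 1), mm l :=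
        Finset.single_le_sum (f := mm) (fun _ _ => Nat.zero_le _) (Finset.mem_range.2 (by omega))
      omega
  obtain ⟨n, hn⟩ := h𝓖.exists_seq (fun n a => ⟨V n a, hVo n a⟩) (by
    intro n n' hnn' a p hp
    exact ⟨hp.1, fun m hm => hp.2 m (hnn'.trans hm)⟩) hU (by
    intro a p hp
    rcases Fan.cases p with rfl | ⟨⟨i, j⟩, rfl⟩
    · exact ⟨0, hp, fun m _ => hKW m a ⟨hp, Or.inl rfl⟩⟩
    · refine ⟨max i j + 1, hp, fun m hm => hKW m a ⟨hp, Or.inr ⟨i, j, ?_, Or.inr ?_, rfl⟩⟩⟩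
      · have := le_max_left i j
        omega
      · have := le_max_right i j
        omega)
  exact hWF n (h𝓖.1 _ hn _ fun a p hp => hp.2 n le_rfl)

end Pool.Agent.R828.CC
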