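import Pool.Agent.R828.CoConsFan

/-!
# Co-consonance of the spaces `L(Z₁, Z₂)`, and non-consonance of their Smyth powerspaces
-/

namespace Pool.Agent.R828.CC

open Set TopologicalSpace Topology

open Pool.Agent.Helper800.ConsL (L up lo isOpen_up isOpen_lo isOpen_L continuous_l continuous_r)

variable {Y1 Y2 : Type} [TopologicalSpace Y1] [TopologicalSpace Y2]

theorem coConsonant_L (h1 : CoConsonant Y1) (h2 : CoConsonant Y2) : CoConsonant (L Y1 Y2) := by
  rw [coConsonant_iff] at h1 h2 ⊢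
  intro 𝓕 h𝓕 U hU
  have hUo := U.isOpen
  have hfin : ({x : L Y1 Y2 | x = L.a ∧ L.a ∈ U}).Finite :=
    (finite_singleton (L.a : L Y1 Y2)).subset fun x hx => hx.1
  by_cases hr : (L.r ⁻¹' (U : Set (L Y1 Y2))).Nonempty
  · obtain ⟨z0, hz0⟩ := hr
    have hl : ∀ y, L.l y ∈ U := hUo.2.2 ⟨z0, hz0⟩
    let B : Opens Y2 → Opens (L Y1 Y2) := fun V => ⟨lo (L.a ∈ U) (V : Set Y2), isOpen_lo V.isOpen⟩
    have hBm : Monotone B := by
      intro V V' hV x hx
      cases x with
      | a => exact hx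
      | l y => exact hx
      | r z => exact hV hx
    have hF2 := h𝓕.comap B hBm (by
      intro D hD hdir s hs
      constructor
      · rintro _ ⟨V, hV, rfl⟩
        exact hBm (hs.1 hV)
      · intro 𝒲 h𝒲 x hx
        have h2 : s = sSup D := hs.unique (isLUB_sSup D)
        obtain ⟨V0, hV0⟩ := hD
        cases x with
        | a => exact h𝒲 ⟨V0, hV0, rfl⟩ hx
        | l y => exact h𝒲 ⟨V0, hV0, rfl⟩ hx
        | r z =>
          have hz : z ∈ s := hx
          rw [h2, Opens.mem_sSup] at hz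
          obtain ⟨V, hV, hz⟩ := hz
          exact h𝒲 ⟨V, hV, rfl⟩ (show (L.r z : L Y1 Y2) ∈ B V from hz))
    obtain ⟨K, hK, hKU, hKV⟩ := h2 _ hF2 ⟨L.r ⁻¹' (U : Set (L Y1 Y2)), hUo.2.1⟩ (by
      refine h𝓕.1 U hU _ ?_
      intro x hx
      cases x with
      | a => exact hx
      | l y => trivial
      | r z => exact hx)
    refine ⟨{x : L Y1 Y2 | x = L.a ∧ L.a ∈ U} ∪ L.r '' (K ∪ {z0}), ?_, ?_, ?_⟩
    · exact hfin.union ((hK.union (Set.finite_singleton z0)).image _)
    · rintro x (⟨rfl, hx⟩ | ⟨z, (hz | rfl), rfl⟩)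
      · exact hx
      · exact hKU hz
      · exact hz0
    · intro V hKV'
      have hz0V : z0 ∈ L.r ⁻¹' (V : Set (L Y1 Y2)) := hKV' (Or.inr ⟨z0, Or.inr rfl, rfl⟩)
      have hlV : ∀ y, L.l y ∈ V := V.isOpen.2.2 ⟨z0, hz0V⟩
      have h3 := hKV ⟨L.r ⁻¹' (V : Set (L Y1 Y2)), V.isOpen.2.1⟩
        fun z hz => hKV' (Or.inr ⟨z, Or.inl hz, rfl⟩)
      refine h𝓕.1 _ h3 V ?_
      intro x hx
      cases x with
      | a => exact hKV' (Or.inl ⟨rfl, hx⟩)
      | l y => exact hlV y
      | r z => exact hx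
  · let B : Opens Y1 → Opens (L Y1 Y2) := fun V => ⟨up (L.a ∈ U) (V : Set Y1), isOpen_up V.isOpen⟩
    have hBm : Monotone B := by
      intro V V' hV x hx
      cases x with
      | a => exact hx
      | l y => exact hV hx
      | r z => exact hx
    have hF1 := h𝓕.comap B hBm (by
      intro D hD hdir s hs
      constructor
      · rintro _ ⟨V, hV, rfl⟩
        exact hBm (hs.1 hV)
      · intro 𝒲 h𝒲 x hx
        have h2 : s = sSup D := hs.unique (isLUB_sSup D)
        obtain ⟨V0, hV0⟩ := hD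
        cases x with
        | a => exact h𝒲 ⟨V0, hV0, rfl⟩ hx
        | l y =>
          have hz : y ∈ s := hx
          rw [h2, Opens.mem_sSup] at hz
          obtain ⟨V, hV, hz⟩ := hz
          exact h𝒲 ⟨V, hV, rfl⟩ (show (L.l y : L Y1 Y2) ∈ B V from hz)
        | r z => exact hx.elim)
    obtain ⟨K, hK, hKU, hKV⟩ := h1 _ hF1 ⟨L.l ⁻¹' (U : Set (L Y1 Y2)), hUo.1⟩ (by
      refine h𝓕.1 U hU _ ?_
      intro x hx
      cases x with
      | a => exact hx
      | l y => exact hx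
      | r z => exact absurd ⟨z, hx⟩ hr)
    refine ⟨{x : L Y1 Y2 | x = L.a ∧ L.a ∈ U} ∪ L.l '' K, ?_, ?_, ?_⟩
    · exact hfin.union (hK.image _)
    · rintro x (⟨rfl, hx⟩ | ⟨z, hz, rfl⟩)
      · exact hx
      · exact hKU hz
    · intro V hKV'
      have h3 := hKV ⟨L.l ⁻¹' (V : Set (L Y1 Y2)), V.isOpen.1⟩
        fun z hz => hKV' (Or.inr ⟨z, hz, rfl⟩)
      refine h𝓕.1 _ h3 V ?_
      intro x hx
      cases x with
      | a => exact hKV' (Or.inl ⟨rfl, hx⟩)
      | l y => exact hx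
      | r z => exact hx.elim

/-- The union of a compact family of compact saturated sets is compact. -/
theorem union_compact {X : Type} [TopologicalSpace X] {C : Set (PS X)} (hC : IsCompact C) :
    IsCompact (⋃ K ∈ C, (K : PS X).1) := by
  apply isCompact_of_finite_subcover
  intro ι U hU hcov
  let O : Finset ι → Set (PS X) := fun t => box (⋃ i ∈ t, U i)
  obtain ⟨t, ht⟩ := hC.elim_directed_cover O
    (fun t => isOpen_box (isOpen_biUnion fun i _ => hU i))
    (by
      intro K hK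
      obtain ⟨t, ht⟩ := K.2.2.1.elim_finite_subcover U hU
        (fun x hx => hcov (mem_biUnion hK hx))
      exact mem_iUnion.2 ⟨t, ht⟩)
    (by
      classical
      intro s t
      refine ⟨s ∪ t, ?_, ?_⟩
      · intro K hK x hx
        obtain ⟨i, hi, hxi⟩ := mem_iUnion₂.1 (hK hx)
        exact mem_iUnion₂.2 ⟨i, Finset.mem_union_left _ hi, hxi⟩
      · intro K hK x hx
        obtain ⟨i, hi, hxi⟩ := mem_iUnion₂.1 (hK hx)
        exact mem_iUnion₂.2 ⟨i, Finset.mem_union_right _ hi, hxi⟩)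
  refine ⟨t, ?_⟩
  intro x hx
  obtain ⟨K, hK, hxK⟩ := mem_iUnion₂.1 hx
  exact ht hK hxK

theorem inducing_l : IsInducing (L.l : Y1 → L Y1 Y2) := by
  refine ⟨le_antisymm continuous_l.le_induced ?_⟩
  intro U hU
  exact ⟨up False U, isOpen_up hU, rfl⟩

theorem inducing_r : IsInducing (L.r : Y2 → L Y1 Y2) := by
  refine ⟨le_antisymm continuous_r.le_induced ?_⟩
  intro U hU
  exact ⟨lo False U, isOpen_lo hU, rfl⟩

/-- First part of the map from the sum into the hyperspace. -/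
def g1 (y : Y1) : PS (L (PS Y1) (PS Y2)) :=
  mkPS {L.a, L.l (eta y)} ⟨L.a, Or.inl rfl⟩ (Set.toFinite _).isCompact

/-- Second part of the map from the sum into the hyperspace. -/
def g2 (z : Y2) : PS (L (PS Y1) (PS Y2)) :=
  mkPS (Set.range L.l ∪ {L.r (eta z)}) ⟨L.r (eta z), Or.inr rfl⟩ (by
    rw [isCompact_iff_ultrafilter_le_nhds]
    intro f hf
    refine ⟨L.r (eta z), Or.inr rfl, le_trans hf ?_⟩
    rw [(nhds_basis_opens (L.r (eta z) : L (PS Y1) (PS Y2))).ge_iff]
    rintro V ⟨hzV, hV⟩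
    rw [Filter.mem_principal]
    rintro x (⟨w, rfl⟩ | hx)
    · exact hV.2.2 ⟨_, hzV⟩ w
    · rw [Set.mem_singleton_iff] at hx
      rw [hx]
      exact hzV)

theorem g1_box (y : Y1) {U : Set (L (PS Y1) (PS Y2))} (hU : IsOpen U) :
    (g1 y : PS (L (PS Y1) (PS Y2))) ∈ box U ↔ (L.l (eta y) ∈ U ∧ L.a ∈ U) := by
  rw [g1, mkPS_mem_box hU, Set.insert_subset_iff, Set.singleton_subset_iff]
  exact and_comm

theorem g2_box (z : Y2) {U : Set (L (PS Y1) (PS Y2))} (hU : IsOpen U) :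
    (g2 z : PS (L (PS Y1) (PS Y2))) ∈ box U ↔ (L.r (eta z) ∈ U ∧ ∀ w, L.l w ∈ U) := by
  rw [g2, mkPS_mem_box hU, Set.union_subset_iff, Set.singleton_subset_iff, and_comm]
  refine and_congr_right fun _ => ?_
  exact ⟨fun h w => h ⟨w, rfl⟩, fun h => by rintro _ ⟨w, rfl⟩; exact h w⟩

/-- The map from the sum into the hyperspace. -/
def jj : Y1 ⊕ Y2 → PS (L (PS Y1) (PS Y2)) := Sum.elim g1 g2

theorem continuous_jj : Continuous (jj : Y1 ⊕ Y2 → PS (L (PS Y1) (PS Y2))) := by
  apply continuous_generateFrom_iff.2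
  rintro _ ⟨U, hU, rfl⟩
  rw [isOpen_sum_iff]
  constructor
  · have : (Sum.inl ⁻¹' (jj ⁻¹' (box U : Set (PS (L (PS Y1) (PS Y2))))) : Set Y1) =
        (eta ⁻¹' (L.l ⁻¹' U)) ∩ {_y | L.a ∈ U} := by
      ext y
      exact g1_box y hU
    rw [this]
    exact (hU.1.preimage continuous_eta).inter isOpen_const
  · have : (Sum.inr ⁻¹' (jj ⁻¹' (box U : Set (PS (L (PS Y1) (PS Y2))))) : Set Y2) =
        (eta ⁻¹' (L.r ⁻¹' U)) ∩ {_z | ∀ y, L.l y ∈ U} := by
      ext z
      exact g2_box z hU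
    rw [this]
    exact (hU.2.1.preimage continuous_eta).inter isOpen_const

/-- The open set of the hyperspace that corresponds to a pair of open sets. -/
def big (U1 : Set Y1) (U2 : Set Y2) : Set (PS (L (PS Y1) (PS Y2))) :=
  box (up True (box U1)) ∪ box (lo False (box U2))

theorem isOpen_big {U1 : Set Y1} {U2 : Set Y2} (h1 : IsOpen U1) (h2 : IsOpen U2) :
    IsOpen (big U1 U2) :=
  (isOpen_box (isOpen_up (isOpen_box h1))).union (isOpen_box (isOpen_lo (isOpen_box h2)))

theorem jj_big (U : Set (Y1 ⊕ Y2)) (hU : IsOpen U) :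
    jj ⁻¹' (big (Sum.inl ⁻¹' U) (Sum.inr ⁻¹' U) : Set (PS (L (PS Y1) (PS Y2)))) = U := by
  obtain ⟨hU1, hU2⟩ := isOpen_sum_iff.1 hU
  ext x
  rcases x with y | z
  · constructor
    · rintro (h | h)
      · exact (eta_mem_box hU1).1 ((g1_box y (isOpen_up (isOpen_box hU1))).1 h).1
      · exact ((g1_box y (isOpen_lo (isOpen_box hU2))).1 h).2.elim
    · intro h
      exact Or.inl ((g1_box y (isOpen_up (isOpen_box hU1))).2 ⟨(eta_mem_box hU1).2 h, trivial⟩)
  · constructor
    · rintro (h | h)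
      · exact ((g2_box z (isOpen_up (isOpen_box hU1))).1 h).1.elim
      · exact (eta_mem_box hU2).1 ((g2_box z (isOpen_lo (isOpen_box hU2))).1 h).1
    · intro h
      exact Or.inr ((g2_box z (isOpen_lo (isOpen_box hU2))).2
        ⟨(eta_mem_box hU2).2 h, fun _ => trivial⟩)

/-- **If `P_S(L(P_S(Y₁), P_S(Y₂)))` is consonant then so is `Y₁ ⊕ Y₂`.** -/
theorem consonant_sum (h : Consonant (PS (L (PS Y1) (PS Y2)))) : Consonant (Y1 ⊕ Y2) := by
  intro 𝓕 h𝓕 U hU
  obtain ⟨hU1, hU2⟩ := isOpen_sum_iff.1 U.isOpen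
  obtain ⟨C, hC, hCU, hCV⟩ := h _ (h𝓕.push jj continuous_jj)
    ⟨big (Sum.inl ⁻¹' (U : Set (Y1 ⊕ Y2))) (Sum.inr ⁻¹' (U : Set (Y1 ⊕ Y2))), isOpen_big hU1 hU2⟩ (by
      refine h𝓕.1 U hU _ ?_
      intro x hx
      show x ∈ jj ⁻¹' (big (Sum.inl ⁻¹' (U : Set (Y1 ⊕ Y2))) (Sum.inr ⁻¹' (U : Set (Y1 ⊕ Y2))))
      rw [jj_big _ U.isOpen]
      exact hx)
  have hCase : ∀ K ∈ C, K.1 ⊆ up True (box (Sum.inl ⁻¹' (U : Set (Y1 ⊕ Y2)))) ∨
      K.1 ⊆ lo False (box (Sum.inr ⁻¹' (U : Set (Y1 ⊕ Y2)))) := fun K hK => hCU hK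
  -- first part
  have hcl1 : IsClosed {K : PS (L (PS Y1) (PS Y2)) | L.a ∈ K.1} := by
    rw [← isOpen_compl_iff]
    have : ({K : PS (L (PS Y1) (PS Y2)) | L.a ∈ K.1}ᶜ : Set (PS (L (PS Y1) (PS Y2)))) =
        box (lo False univ) := by
      ext K
      constructor
      · intro hK x hx
        cases x with
        | a => exact (hK hx).elim
        | l y => trivial
        | r z => trivial
      · intro hK ha
        exact (hK ha).elim
    rw [this]
    exact isOpen_box (isOpen_lo isOpen_univ)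
  have hcl2 : IsClosed {K : PS (L (PS Y1) (PS Y2)) | ∃ z, L.r z ∈ K.1} := by
    rw [← isOpen_compl_iff]
    have : ({K : PS (L (PS Y1) (PS Y2)) | ∃ z, L.r z ∈ K.1}ᶜ :
        Set (PS (L (PS Y1) (PS Y2)))) = box (up True univ) := by
      ext K
      constructor
      · intro hK x hx
        cases x with
        | a => trivial
        | l y => trivial
        | r z => exact (hK ⟨z, hx⟩).elim
      · rintro hK ⟨z, hz⟩
        exact (hK hz).elim
    rw [this]
    exact isOpen_box (isOpen_up isOpen_univ)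
  have hT1 := union_compact (hC.inter_right hcl1)
  have hT2 := union_compact (hC.inter_right hcl2)
  let K1 : Set (PS Y1) := {y | ∃ K ∈ C, L.a ∈ K.1 ∧ L.l y ∈ K.1}
  let K2 : Set (PS Y2) := {z | ∃ K ∈ C, L.r z ∈ K.1}
  have hK1 : IsCompact K1 := by
    have hc : IsClosed ({L.a}ᶜ : Set (L (PS Y1) (PS Y2))) := by
      rw [isClosed_compl_iff]
      have : ({L.a} : Set (L (PS Y1) (PS Y2))) = up True ∅ := by
        ext x
        cases x with
        | a => exact ⟨fun _ => trivial, fun _ => rfl⟩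
        | l y => exact ⟨fun h => (by cases h), fun h => h.elim⟩
        | r z => exact ⟨fun h => (by cases h), fun h => h.elim⟩
      rw [this]
      exact isOpen_up isOpen_empty
    have h1 := hT1.inter_right hc
    have h2 : K1 = L.l ⁻¹' ((⋃ K ∈ C ∩ {K : PS (L (PS Y1) (PS Y2)) | L.a ∈ K.1},
        (K : PS (L (PS Y1) (PS Y2))).1) ∩ {L.a}ᶜ) := by
      ext y
      constructor
      · rintro ⟨K, hK, ha, hy⟩
        refine ⟨mem_biUnion (show K ∈ C ∩ {K : PS (L (PS Y1) (PS Y2)) | L.a ∈ K.1} from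
          ⟨hK, ha⟩) hy, ?_⟩
        intro h
        cases h
      · rintro ⟨hy, -⟩
        obtain ⟨K, ⟨hK, ha⟩, hyK⟩ := mem_iUnion₂.1 hy
        exact ⟨K, hK, ha, hyK⟩
    rw [h2, inducing_l.isCompact_preimage_iff]
    · exact h1
    · rintro x ⟨hx, hxa⟩
      obtain ⟨K, ⟨hK, ha⟩, hxK⟩ := mem_iUnion₂.1 hx
      cases x with
      | a => exact absurd rfl hxa
      | l y => exact ⟨y, rfl⟩
      | r z =>
        rcases hCase K hK with h | h
        · exact (h hxK).elim
        · exact (h ha).elim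
  have hK2 : IsCompact K2 := by
    have hc : IsClosed (range (L.r : PS Y2 → L (PS Y1) (PS Y2))) := by
      rw [← isOpen_compl_iff]
      have : ((range (L.r : PS Y2 → L (PS Y1) (PS Y2)))ᶜ : Set (L (PS Y1) (PS Y2))) =
          up True univ := by
        ext x
        cases x with
        | a => exact ⟨fun _ => trivial, fun _ ⟨z, hz⟩ => (by cases hz)⟩
        | l y => exact ⟨fun _ => trivial, fun _ ⟨z, hz⟩ => (by cases hz)⟩
        | r z => exact ⟨fun h => (h ⟨z, rfl⟩).elim, fun h => h.elim⟩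
      rw [this]
      exact isOpen_up isOpen_univ
    have h1 := hT2.inter_right hc
    have h2 : K2 = L.r ⁻¹' ((⋃ K ∈ C ∩ {K : PS (L (PS Y1) (PS Y2)) | ∃ z, L.r z ∈ K.1},
        (K : PS (L (PS Y1) (PS Y2))).1) ∩ range (L.r : PS Y2 → L (PS Y1) (PS Y2))) := by
      ext z
      constructor
      · rintro ⟨K, hK, hz⟩
        exact ⟨mem_biUnion (show K ∈ C ∩ {K : PS (L (PS Y1) (PS Y2)) | ∃ z, L.r z ∈ K.1} from
          ⟨hK, z, hz⟩) hz, ⟨z, rfl⟩⟩
      · rintro ⟨hz, -⟩
        obtain ⟨K, ⟨hK, -⟩, hzK⟩ := mem_iUnion₂.1 hz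
        exact ⟨K, hK, hzK⟩
    rw [h2, inducing_r.isCompact_preimage_iff]
    · exact h1
    · rintro x ⟨-, hx⟩
      exact hx
  refine ⟨Sum.inl '' (⋃ A ∈ K1, A.1) ∪ Sum.inr '' (⋃ A ∈ K2, A.1),
    ((union_compact hK1).image continuous_inl).union ((union_compact hK2).image continuous_inr),
    ?_, ?_⟩
  · rintro x (⟨y, hy, rfl⟩ | ⟨z, hz, rfl⟩)
    · obtain ⟨A, ⟨K, hK, ha, hA⟩, hyA⟩ := mem_iUnion₂.1 hy
      rcases hCase K hK with h | h
      · exact (show A.1 ⊆ Sum.inl ⁻¹' (U : Set (Y1 ⊕ Y2)) from h hA) hyA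
      · exact (h ha).elim
    · obtain ⟨A, ⟨K, hK, hA⟩, hzA⟩ := mem_iUnion₂.1 hz
      rcases hCase K hK with h | h
      · exact (h hA).elim
      · exact (show A.1 ⊆ Sum.inr ⁻¹' (U : Set (Y1 ⊕ Y2)) from h hA) hzA
  · intro V hKV
    obtain ⟨hV1, hV2⟩ := isOpen_sum_iff.1 V.isOpen
    have h3 := hCV ⟨big (Sum.inl ⁻¹' (V : Set (Y1 ⊕ Y2))) (Sum.inr ⁻¹' (V : Set (Y1 ⊕ Y2))),
      isOpen_big hV1 hV2⟩ (by
      intro K hK
      rcases hCase K hK with h | h
      · by_cases ha : L.a ∈ K.1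
        · left
          intro x hx
          cases x with
          | a => trivial
          | l A => exact fun y hy => hKV (Or.inl ⟨y, mem_iUnion₂.2 ⟨A, ⟨K, hK, ha, hx⟩, hy⟩, rfl⟩)
          | r z => exact (h hx).elim
        · right
          intro x hx
          cases x with
          | a => exact ha hx
          | l y => trivial
          | r z => exact (h hx).elim
      · right
        intro x hx
        cases x with
        | a => exact (h hx).elim
        | l y => trivial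
        | r A => exact fun z hz => hKV (Or.inr ⟨z, mem_iUnion₂.2 ⟨A, ⟨K, hK, hx⟩, hz⟩, rfl⟩))
    refine h𝓕.1 _ h3 V ?_
    intro x hx
    have hx' : x ∈ jj ⁻¹' (big (Sum.inl ⁻¹' (V : Set (Y1 ⊕ Y2)))
        (Sum.inr ⁻¹' (V : Set (Y1 ⊕ Y2)))) := hx
    rw [jj_big _ V.isOpen] at hx'
    exact hx'

/-- Comparison with the definition of consonance in `Pool/Agent/Helper800/Cons.lean`. -/
theorem cons_of_consonant {X : Type} [TopologicalSpace X] (h : Consonant X) :
    Pool.Agent.Helper800.Cons.Cons X := by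
  intro F hF U hU
  have hSc : ScottOpen {V : Opens X | (V : Set X) ∈ F} := by
    refine ⟨?_, ?_⟩
    · intro V hV W hVW
      exact hF.upper _ hV _ W.isOpen hVW
    · intro D hD hdir s hs hsF
      have h2 : s = sSup D := hs.unique (isLUB_sSup D)
      obtain ⟨_, ⟨V, hV, rfl⟩, hVF⟩ := hF.directed ((fun V : Opens X => (V : Set X)) '' D)
        (hD.image _) (by
          rintro _ ⟨V, hV, rfl⟩ _ ⟨V', hV', rfl⟩
          obtain ⟨W, hW, h3, h4⟩ := hdir V hV V' hV'
          exact ⟨_, ⟨W, hW, rfl⟩, h3, h4⟩) (by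
          rintro _ ⟨V, hV, rfl⟩
          exact V.isOpen) (by
          have h3 : (s : Set X) ∈ F := hsF
          rw [h2, Opens.coe_sSup, ← Set.sUnion_image] at h3
          exact h3)
      exact ⟨V, hV, hVF⟩
  obtain ⟨K, hK, hKU, h1⟩ := h _ hSc ⟨U, hF.isOpen U hU⟩ hU
  exact ⟨K, hK, hKU, fun V hV hKV => h1 ⟨V, hV⟩ hKV⟩

theorem t0_PS {X : Type} [TopologicalSpace X] : T0Space (PS X) := by
  rw [t0Space_iff_inseparable]
  intro K K' h
  rw [inseparable_iff_forall_isOpen] at h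
  apply Subtype.ext
  have key : ∀ U : Set X, IsOpen U → (K.1 ⊆ U ↔ K'.1 ⊆ U) := fun U hU => h _ (isOpen_box hU)
  rw [K.2.2.2, K'.2.2.2]
  congr 1
  ext U
  exact ⟨fun hU => ⟨hU.1, (key U hU.1).1 hU.2⟩, fun hU => ⟨hU.1, (key U hU.1).2 hU.2⟩⟩

theorem t0_L [T0Space Y1] [T0Space Y2] : T0Space (L Y1 Y2) := by
  rw [t0Space_iff_inseparable]
  intro x y h
  rw [inseparable_iff_forall_isOpen] at h
  cases x with
  | a =>
    have h1 := (h (up True ∅) (isOpen_up isOpen_empty)).1 trivial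
    cases y with
    | a => rfl
    | l y => exact h1.elim
    | r z => exact h1.elim
  | l x =>
    have h1 := (h (up False univ) (isOpen_up isOpen_univ)).1 trivial
    cases y with
    | a => exact h1.elim
    | l y =>
      have : x = y := by
        apply (t0Space_iff_inseparable Y1).1 inferInstance
        rw [inseparable_iff_forall_isOpen]
        intro U hU
        exact h (up False U) (isOpen_up hU)
      rw [this]
    | r z => exact h1.elim
  | r x =>
    have h1 := (h (lo False univ) (isOpen_lo isOpen_univ)).1 trivial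
    cases y with
    | a => exact h1.elim
    | l y =>
      have h2 := (h (up False univ) (isOpen_up isOpen_univ)).2 trivial
      exact h2.elim
    | r z =>
      have : x = z := by
        apply (t0Space_iff_inseparable Y2).1 inferInstance
        rw [inseparable_iff_forall_isOpen]
        intro U hU
        exact h (lo False U) (isOpen_lo hU)
      rw [this]

end Pool.Agent.R828.CC
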