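import Pool.Agent.R828.CoCons

/-!
# Core-compactness of the Scott space of closed sets
-/

namespace Pool.Agent.R828.CoreC

open Set TopologicalSpace Topology

open Pool.Agent.R828.CC (ScottOpen)

universe u

/-- The Scott topology of a poset. -/
@[reducible] def scottTop (P : Type u) [PartialOrder P] : TopologicalSpace P where
  IsOpen U := ScottOpen U
  isOpen_univ := ScottOpen.univ
  isOpen_inter := fun _ _ hU hV => hU.inter hV
  isOpen_sUnion := fun _ h => ScottOpen.sUnion h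

/-- The way-below relation between sets of a space: each open cover of `U` has a finite subfamily
covering `V`. -/
def WayBelow {Y : Type u} (t : TopologicalSpace Y) (V U : Set Y) : Prop :=
  ∀ 𝒞 : Set (Set Y), (∀ W ∈ 𝒞, IsOpen[t] W) → U ⊆ ⋃₀ 𝒞 →
    ∃ 𝒞' : Set (Set Y), 𝒞'.Finite ∧ 𝒞' ⊆ 𝒞 ∧ V ⊆ ⋃₀ 𝒞'

/-- Core-compact spaces. -/
def CoreCompact {Y : Type u} (t : TopologicalSpace Y) : Prop :=
  ∀ U : Set Y, IsOpen[t] U → ∀ y ∈ U, ∃ V : Set Y, IsOpen[t] V ∧ y ∈ V ∧ WayBelow t V U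

section waybelow

variable {Y : Type u} {t : TopologicalSpace Y}

theorem WayBelow.subset {V U : Set Y} (hU : IsOpen[t] U) (h : WayBelow t V U) : V ⊆ U := by
  obtain ⟨𝒞, -, h1, h2⟩ := h {U} (by rintro W rfl; exact hU) (by simp)
  refine h2.trans (Set.sUnion_subset fun W hW => ?_)
  rw [Set.mem_singleton_iff.1 (h1 hW)]

theorem WayBelow.mono {V V' U U' : Set Y} (h : WayBelow t V U) (hV : V' ⊆ V) (hU : U ⊆ U') :
    WayBelow t V' U' := by
  intro 𝒞 h1 h2
  obtain ⟨𝒞', h3, h4, h5⟩ := h 𝒞 h1 (hU.trans h2)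
  exact ⟨𝒞', h3, h4, hV.trans h5⟩

theorem WayBelow.of_monotone {V U : Set Y} (h : WayBelow t V U) (W : ℕ → Set Y)
    (hW : ∀ n, IsOpen[t] (W n)) (hm : Monotone W) (hU : U ⊆ ⋃ n, W n) : ∃ n, V ⊆ W n := by
  obtain ⟨𝒞, hf, h1, h2⟩ := h (Set.range W) (by rintro _ ⟨n, rfl⟩; exact hW n)
    (by rwa [Set.sUnion_range])
  have hex : ∀ C ∈ 𝒞, ∃ n, W n = C := fun C hC => h1 hC
  choose! f hf2 using hex
  obtain ⟨N, hN⟩ := (hf.image f).bddAbove
  refine ⟨N, h2.trans (Set.sUnion_subset fun C hC => ?_)⟩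
  rw [← hf2 C hC]
  exact hm (hN ⟨C, hC, rfl⟩)

theorem WayBelow.biUnion {ι : Type u} {s : Set ι} (hs : s.Finite) {V U : ι → Set Y}
    (h : ∀ i ∈ s, WayBelow t (V i) (U i)) : WayBelow t (⋃ i ∈ s, V i) (⋃ i ∈ s, U i) := by
  intro 𝒞 h1 h2
  have : ∀ i ∈ s, ∃ 𝒞' : Set (Set Y), 𝒞'.Finite ∧ 𝒞' ⊆ 𝒞 ∧ V i ⊆ ⋃₀ 𝒞' := fun i hi =>
    h i hi 𝒞 h1 ((Set.subset_biUnion_of_mem (u := U) hi).trans h2)
  choose! D hD1 hD2 hD3 using this
  refine ⟨⋃ i ∈ s, D i, hs.biUnion hD1, Set.iUnion₂_subset hD2, ?_⟩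
  refine Set.iUnion₂_subset fun i hi => (hD3 i hi).trans ?_
  exact Set.sUnion_subset_sUnion (Set.subset_biUnion_of_mem (u := D) hi)

/-- Interpolation in core-compact spaces. -/
theorem WayBelow.interpolate (hY : CoreCompact t) {V U : Set Y} (hU : IsOpen[t] U)
    (h : WayBelow t V U) : ∃ W, IsOpen[t] W ∧ WayBelow t V W ∧ WayBelow t W U := by
  obtain ⟨𝒞, hf, h1, h2⟩ := h {W' | IsOpen[t] W' ∧ ∃ W, IsOpen[t] W ∧ WayBelow t W' W ∧
    WayBelow t W U} (fun W hW => hW.1) (by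
    intro y hy
    obtain ⟨W, hW, hyW, hWU⟩ := hY U hU y hy
    obtain ⟨W', hW', hyW', hW'W⟩ := hY W hW y hyW
    exact ⟨W', ⟨hW', W, hW, hW'W, hWU⟩, hyW'⟩)
  have hex : ∀ C ∈ 𝒞, ∃ W, IsOpen[t] W ∧ WayBelow t C W ∧ WayBelow t W U := fun C hC => (h1 hC).2
  choose! F hF1 hF2 hF3 using hex
  refine ⟨⋃ C ∈ 𝒞, F C, ?_, ?_, ?_⟩
  · exact @isOpen_biUnion _ _ t _ _ hF1
  · refine (WayBelow.biUnion hf (V := id) (U := F) hF2).mono ?_ Set.Subset.rfl
    rw [Set.sUnion_eq_biUnion] at h2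
    exact h2
  · intro 𝒞' h3 h4
    have := WayBelow.biUnion hf (V := F) (U := fun _ => U) hF3 𝒞' h3 (Set.iUnion₂_subset
      fun C _ => h4)
    exact this

end waybelow

/-! ### The lattice of closed sets -/

variable {X : Type u} [TopologicalSpace X]

/-- The closure as a closed set. -/
def clos (M : Set X) : Closeds X := ⟨closure M, isClosed_closure⟩

theorem clos_mono {M N : Set X} (h : M ⊆ N) : clos M ≤ clos N := closure_mono h

theorem clos_le {M : Set X} {C : Closeds X} (h : M ⊆ C) : clos M ≤ C :=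
  closure_minimal h C.isClosed

/-- Scott openness in the lattice of closed sets. -/
theorem scott_directed {𝒰 : Set (Closeds X)} (h : ScottOpen 𝒰) {D : Set (Closeds X)}
    (hD : D.Nonempty) (hdir : DirectedOn (· ≤ ·) D) {C : Closeds X} (hC : C ∈ 𝒰)
    (hCD : (C : Set X) ⊆ closure (⋃ A ∈ D, (A : Set X))) : ∃ A ∈ D, A ∈ 𝒰 := by
  have hlub : IsLUB D (clos (⋃ A ∈ D, (A : Set X))) := by
    constructor
    · intro A hA
      exact (Set.subset_biUnion_of_mem (u := fun A : Closeds X => (A : Set X)) hA).trans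
        subset_closure
    · intro B hB
      exact clos_le (Set.iUnion₂_subset fun A hA => hB hA)
  exact h.2 D hD hdir _ hlub (h.1 C hC _ hCD)

/-- Finite approximation. -/
theorem scott_finite {𝒰 : Set (Closeds X)} (h : ScottOpen 𝒰) {C : Closeds X} (hC : C ∈ 𝒰)
    {M : Set X} (hCM : (C : Set X) ⊆ closure M) : ∃ F : Set X, F.Finite ∧ F ⊆ M ∧ clos F ∈ 𝒰 := by
  obtain ⟨_, ⟨F, ⟨hF, hFM⟩, rfl⟩, hFU⟩ := scott_directed h
    (D := clos '' {F : Set X | F.Finite ∧ F ⊆ M}) ⟨_, ∅, ⟨Set.finite_empty, Set.empty_subset _⟩,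
      rfl⟩ (by
      rintro _ ⟨F, ⟨hF, hFM⟩, rfl⟩ _ ⟨F', ⟨hF', hFM'⟩, rfl⟩
      exact ⟨_, ⟨F ∪ F', ⟨hF.union hF', Set.union_subset hFM hFM'⟩, rfl⟩,
        clos_mono Set.subset_union_left, clos_mono Set.subset_union_right⟩) hC (by
      refine hCM.trans (closure_mono fun x hx => ?_)
      exact Set.mem_iUnion₂.2 ⟨clos {x}, ⟨{x}, ⟨Set.finite_singleton x,
        Set.singleton_subset_iff.2 hx⟩, rfl⟩, subset_closure rfl⟩)
  exact ⟨F, hF, hFM, hFU⟩

/-- The way-below relation in the Scott space of closed sets. -/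
abbrev WB (𝒱 𝒲 : Set (Closeds X)) : Prop := WayBelow (scottTop (Closeds X)) 𝒱 𝒲

/-- **Key lemma**: sequences in `𝒱 ≪ 𝒲` have subsequences with intersection in `𝒲`. -/
theorem exists_iInf_mem {𝒱 𝒲 : Set (Closeds X)} (h𝒲 : ScottOpen 𝒲) (h : WB 𝒱 𝒲)
    (c : ℕ → Closeds X) (hc : ∀ n, c n ∈ 𝒱) : ∃ φ : ℕ → ℕ, StrictMono φ ∧ ⨅ k, c (φ k) ∈ 𝒲 := by
  by_contra hcon
  push Not at hcon
  have hfin : ∀ A ∈ 𝒲, {n | A ≤ c n}.Finite := by
    intro A hA
    by_contra hinf
    have hinf' : {n | A ≤ c n}.Infinite := hinf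
    have := hcon (Nat.nth fun n => A ≤ c n) (Nat.nth_strictMono hinf')
    exact this (h𝒲.1 A hA _ (le_iInf fun k => Nat.nth_mem_of_infinite hinf' k))
  let 𝒲' : ℕ → Set (Closeds X) := fun k => {A | A ∈ 𝒲 ∧ ∀ j, k ≤ j → ¬ A ≤ c j}
  obtain ⟨k, hk⟩ := h.of_monotone 𝒲' (by
    intro k
    refine ⟨?_, ?_⟩
    · rintro A ⟨hA, hA2⟩ B hAB
      exact ⟨h𝒲.1 A hA B hAB, fun j hj hB => hA2 j hj (hAB.trans hB)⟩
    · rintro D hD hdir s hs ⟨hsW, hs2⟩
      by_contra hno
      obtain ⟨A0, hA0, hA0W⟩ := h𝒲.2 D hD hdir s hs hsW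
      -- a uniform index
      have huni : ∃ j, k ≤ j ∧ ∀ A ∈ D, A ≤ c j := by
        by_contra hno2
        push Not at hno2
        choose f hf1 hf2 using hno2
        have hfin0 := hfin A0 hA0W
        -- an upper bound of `A0` and of finitely many members of `D`
        have hub : ∀ s : Set ℕ, s.Finite → (∀ j ∈ s, k ≤ j) → ∃ A ∈ D, A0 ≤ A ∧
            ∀ j ∈ s, ¬ A ≤ c j := by
          intro s hs
          induction s, hs using Set.Finite.induction_on with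
          | empty => intro _; exact ⟨A0, hA0, le_rfl, fun j hj => hj.elim⟩
          | @insert a s has hs ih =>
            intro hks
            obtain ⟨A, hA, h1, h2⟩ := ih fun j hj => hks j (Or.inr hj)
            have hka := hks a (Or.inl rfl)
            obtain ⟨B, hB, h3, h4⟩ := hdir A hA _ (hf1 a hka)
            refine ⟨B, hB, h1.trans h3, ?_⟩
            rintro j (rfl | hj) hBj
            · exact hf2 j hka (h4.trans hBj)
            · exact h2 j hj (h3.trans hBj)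
        obtain ⟨A, hA, h1, h2⟩ := hub ({n | A0 ≤ c n} ∩ {n | k ≤ n})
          (hfin0.subset Set.inter_subset_left) (fun j hj => hj.2)
        apply hno
        refine ⟨A, hA, h𝒲.1 A0 hA0W A h1, fun j hj hAj => ?_⟩
        exact h2 j ⟨h1.trans hAj, hj⟩ hAj
      obtain ⟨j, hj, hj2⟩ := huni
      exact hs2 j hj (hs.2 hj2)) (by
    intro k k' hkk' A hA
    exact ⟨hA.1, fun j hj => hA.2 j (hkk'.trans hj)⟩) (by
    intro A hA
    obtain ⟨B, hB⟩ := (hfin A hA).bddAbove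
    refine Set.mem_iUnion.2 ⟨B + 1, hA, fun j hj hAj => ?_⟩
    have : j ≤ B := hB hAj
    omega)
  exact (hk (hc k)).2 k le_rfl le_rfl

/-! ### The tree of accepted sets -/

/-- Accepted sets. -/
inductive Ac (𝒲 : Set (Closeds X)) (𝔘 : Ultrafilter X) : Set X → Prop
  | base (G : Set X) (h : clos G ∈ 𝒲) : Ac 𝒲 𝔘 G
  | step (G P : Set X) (hP : P ∈ 𝔘) (h : ∀ t ∈ P, Ac 𝒲 𝔘 (insert t G)) : Ac 𝒲 𝔘 G

/-- Good sequences. -/
def Good (R : List X → Set X) (σ : ℕ → X) : Prop :=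
  ∀ (l : List ℕ) (n : ℕ), (l ++ [n]).Pairwise (· < ·) → σ n ∈ R (l.map σ)

omit [TopologicalSpace X] in
theorem Good.comp {R : List X → Set X} {σ : ℕ → X} (h : Good R σ) {φ : ℕ → ℕ}
    (hφ : StrictMono φ) : Good R (σ ∘ φ) := by
  intro l n hl
  have h1 : (l.map φ ++ [φ n]).Pairwise (· < ·) := by
    have : l.map φ ++ [φ n] = (l ++ [n]).map φ := by simp
    rw [this, List.pairwise_map]
    exact hl.imp fun h => hφ h
  have h2 := h (l.map φ) (φ n) h1
  rw [List.map_map] at h2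
  exact h2

omit [TopologicalSpace X] in
theorem Good.tail {R : List X → Set X} {σ : ℕ → X} (h : Good R σ) :
    Good (fun l => R (σ 0 :: l)) (fun n => σ (n + 1)) := by
  intro l n hl
  have h1 : ((0 :: l.map (· + 1)) ++ [n + 1]).Pairwise (· < ·) := by
    have : (0 :: l.map (· + 1)) ++ [n + 1] = 0 :: (l ++ [n]).map (· + 1) := by simp
    rw [this, List.pairwise_cons]
    refine ⟨?_, ?_⟩
    · intro a ha
      obtain ⟨b, -, rfl⟩ := List.mem_map.1 ha
      omega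
    · rw [List.pairwise_map]
      exact hl.imp fun h => by omega
  have h2 := h (0 :: l.map (· + 1)) (n + 1) h1
  simp only [List.map_cons, List.map_map] at h2
  exact h2

omit [TopologicalSpace X] in
/-- There are good sequences. -/
theorem exists_good (𝔘 : Ultrafilter X) (R : List X → Set X) (hR : ∀ l, R l ∈ 𝔘) {T : Set X}
    (hT : T ∈ 𝔘) : ∃ σ : ℕ → X, Good R σ ∧ ∀ n, σ n ∈ T := by
  classical
  -- choose a new element for each finite list
  have hstep : ∀ l : List X, ∃ t, t ∈ T ∧ ∀ l', List.Sublist l' l → t ∈ R l' := by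
    intro l
    have h1 : (⋂ l' ∈ {l' | List.Sublist l' l}, R l') ∈ (𝔘 : Filter X) := by
      refine (Filter.biInter_mem ?_).2 fun l' _ => hR l'
      have : {l' | List.Sublist l' l} = {l' | l' ∈ l.sublists} := by
        ext l'
        simp
      rw [this]
      exact List.finite_toSet _
    obtain ⟨t, ht1, ht2⟩ := 𝔘.neBot.nonempty_of_mem (Filter.inter_mem hT h1)
    exact ⟨t, ht1, fun l' hl' => Set.mem_iInter₂.1 ht2 l' hl'⟩
  choose f hf1 hf2 using hstep
  let L : ℕ → List X := fun n => Nat.rec [] (fun _ l => l ++ [f l]) n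
  have hL : ∀ n, L (n+1) = L n ++ [f (L n)] := fun n => rfl
  have hmap : ∀ n, L n = (List.range n).map fun k => f (L k) := by
    intro n
    induction n with
    | zero => rfl
    | succ n ih => rw [hL, List.range_succ, List.map_append, ← ih]; rfl
  refine ⟨fun n => f (L n), ?_, fun n => hf1 _⟩
  intro l n hl
  apply hf2
  rw [hmap n]
  apply List.Sublist.map
  have h1 := List.pairwise_append.1 hl
  have h2 : ∀ a ∈ l, a < n := fun a ha => h1.2.2 a ha n (by simp)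
  -- a strictly increasing list of numbers below `n` is a sublist of `range n`
  refine List.sublist_of_subperm_of_pairwise (r := (· < ·)) ?_ h1.1 (List.pairwise_lt_range)
  refine List.subperm_of_subset ?_ ?_
  · exact h1.1.imp fun h => ne_of_lt h
  · intro a ha
    exact List.mem_range.2 (h2 a ha)

theorem mem_clos_insert {t : X} {G : Set X} {y : X} (h : y ∈ clos (insert t G)) :
    y ∈ closure ({t} : Set X) ∨ y ∈ closure G := by
  have : y ∈ closure (insert t G) := h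
  rwa [Set.insert_eq, closure_union] at this

/-- **The claim**: accepted sets together with subsequences of good sequences. -/
theorem claim (hY : CoreCompact (scottTop (Closeds X))) {𝒲 : Set (Closeds X)}
    {𝔘 : Ultrafilter X} {G : Set X} (hG : Ac 𝒲 𝔘 G) :
    ∀ 𝒲' : Set (Closeds X), ScottOpen 𝒲' → WB 𝒲 𝒲' → ∃ R : List X → Set X, (∀ τ, R τ ∈ 𝔘) ∧
      ∀ σ : ℕ → X, Good R σ → ∃ φ : ℕ → ℕ, StrictMono φ ∧
        clos G ⊔ ⨅ k, clos {σ (φ k)} ∈ 𝒲' := by
  classical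
  induction hG with
  | base G h =>
    intro 𝒲' h𝒲' hWB
    refine ⟨fun _ => Set.univ, fun _ => Filter.univ_mem, fun σ _ => ⟨id, strictMono_id, ?_⟩⟩
    exact h𝒲'.1 _ (WayBelow.subset (t := scottTop (Closeds X)) h𝒲' hWB h) _ le_sup_left
  | step G P hP h ih =>
    intro 𝒲' h𝒲' hWB
    obtain ⟨𝒲'', h𝒲'', hWB1, hWB2⟩ := WayBelow.interpolate hY (U := 𝒲') h𝒲' hWB
    have ih2 := fun t ht => ih t ht 𝒲'' h𝒲'' hWB1
    choose! R hR1 hR2 using ih2
    refine ⟨fun l => match l with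
      | [] => P
      | t :: τ => if t ∈ P then R t τ else Set.univ, ?_, ?_⟩
    · rintro (_ | ⟨t, τ⟩)
      · exact hP
      · by_cases ht : t ∈ P
        · simp only [ht, if_true]
          exact hR1 t ht τ
        · simp only [ht, if_false]
          exact Filter.univ_mem
    · intro σ hσ
      -- one step of the recursion
      have hrec : ∀ ψ : {ψ : ℕ → ℕ // StrictMono ψ}, ∃ θ : {θ : ℕ → ℕ // StrictMono θ},
          clos (insert (σ (ψ.1 0)) G) ⊔ ⨅ k, clos {σ (ψ.1 (θ.1 k + 1))} ∈ 𝒲'' := by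
        rintro ⟨ψ, hψ⟩
        have h1 := hσ.comp hψ
        have h0 : (σ ∘ ψ) 0 ∈ P := h1 [] 0 (by simp)
        have h2 := h1.tail
        have h3 : Good (R ((σ ∘ ψ) 0)) (fun n => (σ ∘ ψ) (n + 1)) := by
          intro l n hl
          have h4 := h2 l n hl
          simp only [h0, if_true] at h4
          exact h4
        obtain ⟨θ, hθ, h5⟩ := hR2 _ h0 _ h3
        exact ⟨⟨θ, hθ⟩, h5⟩
      choose Θ hΘ using hrec
      let Ψ : ℕ → {ψ : ℕ → ℕ // StrictMono ψ} := fun n => Nat.rec ⟨id, strictMono_id⟩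
        (fun _ ψ => ⟨fun k => ψ.1 ((Θ ψ).1 k + 1), fun a b hab => ψ.2 (by
          have := (Θ ψ).2 hab
          omega)⟩) n
      have hΨ : ∀ n k, (Ψ (n + 1)).1 k = (Ψ n).1 ((Θ (Ψ n)).1 k + 1) := fun n k => rfl
      have hran : ∀ n m, n ≤ m → Set.range (Ψ m).1 ⊆ Set.range (Ψ n).1 := by
        intro n m hnm
        induction m, hnm using Nat.le_induction with
        | base => exact Set.Subset.rfl
        | succ m hm ih =>
          refine Set.Subset.trans ?_ ih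
          rintro _ ⟨k, rfl⟩
          exact ⟨_, (hΨ m k).symm⟩
      let m : ℕ → ℕ := fun n => (Ψ n).1 0
      have hm : StrictMono m := strictMono_nat_of_lt_succ fun n => by
        change (Ψ n).1 0 < (Ψ (n + 1)).1 0
        rw [hΨ]
        exact (Ψ n).2 (by omega)
      let c : ℕ → Closeds X := fun n =>
        clos (insert (σ (m n)) G) ⊔ ⨅ k, clos {σ ((Ψ (n + 1)).1 k)}
      have hc : ∀ n, c n ∈ 𝒲'' := fun n => hΘ (Ψ n)
      obtain ⟨φ, hφ, hA⟩ := exists_iInf_mem h𝒲' hWB2 c hc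
      -- the directed family
      let B : ℕ → Closeds X := fun r => ⨅ k, clos {σ (m (φ (r + k)))}
      have hBmono : Monotone B := by
        refine monotone_nat_of_le_succ fun r => le_iInf fun k => ?_
        have := iInf_le (fun k => clos {σ (m (φ (r + k)))}) (k + 1)
        have e : r + 1 + k = r + (k + 1) := by omega
        rw [e]
        exact this
      have hsub : ((⨅ k, c (φ k) : Closeds X) : Set X) ⊆
          ⋃ A ∈ Set.range fun r => clos G ⊔ B r, (A : Set X) := by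
        intro y hy
        by_cases hyG : y ∈ closure G
        · refine Set.mem_iUnion₂.2 ⟨_, ⟨0, rfl⟩, ?_⟩
          exact (le_sup_left : clos G ≤ clos G ⊔ B 0) hyG
        have hyc : ∀ k, y ∈ c (φ k) := fun k => (iInf_le (fun k => c (φ k)) k) hy
        by_cases hex : ∃ k, y ∈ (⨅ l, clos {σ ((Ψ (φ k + 1)).1 l)} : Closeds X)
        · obtain ⟨k, hk⟩ := hex
          refine Set.mem_iUnion₂.2 ⟨_, ⟨k + 1, rfl⟩, ?_⟩
          refine (le_sup_right : B (k + 1) ≤ clos G ⊔ B (k + 1)) ?_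
          change y ∈ B (k + 1)
          have hle : (⨅ l, clos {σ ((Ψ (φ k + 1)).1 l)} : Closeds X) ≤ B (k + 1) := by
            refine le_iInf fun j => ?_
            have h1 : φ k + 1 ≤ φ (k + 1 + j) := hφ (by omega)
            obtain ⟨l, hl⟩ := hran _ _ h1 ⟨0, rfl⟩
            have h2 : m (φ (k + 1 + j)) = (Ψ (φ k + 1)).1 l := hl.symm
            rw [h2]
            exact iInf_le (fun l => clos {σ ((Ψ (φ k + 1)).1 l)}) l
          exact hle hk
        · push Not at hex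
          refine Set.mem_iUnion₂.2 ⟨_, ⟨0, rfl⟩, ?_⟩
          refine (le_sup_right : B 0 ≤ clos G ⊔ B 0) ?_
          have hall : ∀ k, y ∈ clos {σ (m (φ k))} := by
            intro k
            have h1 : y ∈ (c (φ k) : Set X) := hyc k
            have h2 : (c (φ k) : Set X) = (clos (insert (σ (m (φ k))) G) : Set X) ∪
              ((⨅ l, clos {σ ((Ψ (φ k + 1)).1 l)} : Closeds X) : Set X) := rfl
            rw [h2] at h1
            rcases h1 with h1 | h1
            · rcases mem_clos_insert h1 with h3 | h3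
              · exact h3
              · exact absurd h3 hyG
            · exact absurd h1 (hex k)
          have h4 : y ∈ B 0 := by
            change y ∈ (⨅ k, clos {σ (m (φ (0 + k)))} : Closeds X)
            rw [Closeds.mem_iInf]
            intro k
            exact hall _
          exact h4
      obtain ⟨_, ⟨r, rfl⟩, hr⟩ := scott_directed h𝒲' (D := Set.range fun r => clos G ⊔ B r)
        ⟨_, 0, rfl⟩ (by
          rintro _ ⟨r, rfl⟩ _ ⟨s, rfl⟩
          exact ⟨_, ⟨max r s, rfl⟩, sup_le_sup_left (hBmono (le_max_left r s)) _,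
            sup_le_sup_left (hBmono (le_max_right r s)) _⟩) hA (hsub.trans subset_closure)
      exact ⟨fun k => m (φ (r + k)), fun a b hab => hm (hφ (by omega)), hr⟩

/-- **Continuity**: the map `x ↦ cl {x}` into the Scott space of closed sets is continuous. -/
theorem isOpen_preimage (hY : CoreCompact (scottTop (Closeds X))) {𝒰 : Set (Closeds X)}
    (h𝒰 : ScottOpen 𝒰) : IsOpen {x : X | clos {x} ∈ 𝒰} := by
  classical
  rw [← isClosed_compl_iff]
  refine isClosed_of_closure_subset ?_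
  intro x hx hxU
  obtain ⟨𝔘, hT, h𝔘⟩ := mem_closure_iff_ultrafilter.1 hx
  have hxP : ∀ P ∈ 𝔘, x ∈ closure P := fun P hP => mem_closure_iff_ultrafilter.2 ⟨𝔘, hP, h𝔘⟩
  obtain ⟨𝒲, h𝒲, hx𝒲, hWB1⟩ := hY 𝒰 h𝒰 (clos {x}) hxU
  obtain ⟨𝒱, h𝒱, hx𝒱, hWB2⟩ := hY 𝒲 h𝒲 (clos {x}) hx𝒲
  by_cases hAc : Ac 𝒲 𝔘 ∅
  · obtain ⟨R, hR1, hR2⟩ := claim hY hAc 𝒰 h𝒰 hWB1
    obtain ⟨σ, hσ, hσT⟩ := exists_good 𝔘 R hR1 hT
    obtain ⟨φ, hφ, h1⟩ := hR2 σ hσ
    refine hσT (φ 0) (h𝒰.1 _ h1 _ ?_)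
    refine sup_le (clos_mono (Set.empty_subset _)) (iInf_le (fun k => clos {σ (φ k)}) 0)
  · -- the non-accepted sets
    have hNA : ∀ G : Set X, ¬ Ac 𝒲 𝔘 G → {t | ¬ Ac 𝒲 𝔘 (insert t G)} ∈ 𝔘 := by
      intro G hG
      by_contra hno
      have h1 := Ultrafilter.compl_mem_iff_notMem.2 hno
      exact hG (Ac.step G _ h1 fun t ht => not_not.1 ht)
    have hstep : ∀ 𝒢 : {𝒢 : Set (Set X) // 𝒢.Finite ∧ ∀ G ∈ 𝒢, ¬ Ac 𝒲 𝔘 G},
        ∃ F : Set X, F.Finite ∧ clos F ∈ 𝒱 ∧ ∀ t ∈ F, ∀ G ∈ 𝒢.1, ¬ Ac 𝒲 𝔘 (insert t G) := by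
      rintro ⟨𝒢, hf, h𝒢⟩
      have h1 : (⋂ G ∈ 𝒢, {t | ¬ Ac 𝒲 𝔘 (insert t G)}) ∈ (𝔘 : Filter X) :=
        (Filter.biInter_mem hf).2 fun G hG => hNA G (h𝒢 G hG)
      obtain ⟨F, hF, hF2, hF3⟩ := scott_finite h𝒱 hx𝒱 (M := ⋂ G ∈ 𝒢,
        {t | ¬ Ac 𝒲 𝔘 (insert t G)}) (closure_minimal (Set.singleton_subset_iff.2 (hxP _ h1))
          isClosed_closure)
      exact ⟨F, hF, hF3, fun t ht G hG => Set.mem_iInter₂.1 (hF2 ht) G hG⟩
    choose F hF1 hF2 hF3 using hstep
    let 𝒢 : ℕ → {𝒢 : Set (Set X) // 𝒢.Finite ∧ ∀ G ∈ 𝒢, ¬ Ac 𝒲 𝔘 G} := fun n => Nat.rec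
      ⟨{∅}, Set.finite_singleton _, by rintro G rfl; exact hAc⟩
      (fun _ 𝒢 => ⟨𝒢.1 ∪ Set.image2 insert (F 𝒢) 𝒢.1,
        𝒢.2.1.union ((hF1 𝒢).image2 _ 𝒢.2.1), by
        rintro G (hG | ⟨t, ht, G, hG, rfl⟩)
        · exact 𝒢.2.2 G hG
        · exact hF3 𝒢 t ht G hG⟩) n
    have h𝒢 : ∀ n, (𝒢 (n + 1)).1 = (𝒢 n).1 ∪ Set.image2 insert (F (𝒢 n)) (𝒢 n).1 := fun n => rfl
    have h𝒢mono : Monotone fun n => (𝒢 n).1 := monotone_nat_of_le_succ fun n => by
      rw [h𝒢]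
      exact Set.subset_union_left
    obtain ⟨φ, hφ, hA⟩ := exists_iInf_mem h𝒲 hWB2 (fun n => clos (F (𝒢 n))) fun n => hF2 _
    obtain ⟨b, hb, hbA, hbW⟩ := scott_finite h𝒲 hA (M := ((⨅ k, clos (F (𝒢 (φ k))) :
      Closeds X) : Set X)) subset_closure
    have hkey : ∀ b : Set X, b.Finite → b ⊆ ((⨅ k, clos (F (𝒢 (φ k))) : Closeds X) : Set X) →
        ∃ n, ∃ G ∈ (𝒢 n).1, b ⊆ closure G := by
      intro b hb
      induction b, hb using Set.Finite.induction_on with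
      | empty => intro _; exact ⟨0, ∅, rfl, Set.empty_subset _⟩
      | @insert y b hyb hb ih =>
        intro hyA
        obtain ⟨n, G, hG, hbG⟩ := ih ((Set.subset_insert _ _).trans hyA)
        have hy : y ∈ (⨅ k, clos (F (𝒢 (φ k))) : Closeds X) := hyA (Set.mem_insert _ _)
        rw [Closeds.mem_iInf] at hy
        have hyn : y ∈ closure (F (𝒢 (φ n))) := hy n
        rw [← Set.biUnion_of_singleton (F (𝒢 (φ n))), (hF1 _).closure_biUnion] at hyn
        obtain ⟨t, ht, hyt⟩ := Set.mem_iUnion₂.1 hyn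
        refine ⟨φ n + 1, insert t G, ?_, ?_⟩
        · rw [h𝒢]
          exact Or.inr ⟨t, ht, G, h𝒢mono (hφ.id_le n) hG, rfl⟩
        · refine Set.insert_subset ?_ (hbG.trans (closure_mono (Set.subset_insert _ _)))
          exact closure_mono (Set.singleton_subset_iff.2 (Set.mem_insert _ _)) hyt
    obtain ⟨n, G, hG, hbG⟩ := hkey b hb hbA
    refine (𝒢 n).2.2 G hG (Ac.base G (h𝒲.1 _ hbW _ ?_))
    exact clos_le hbG

/-- The Scott open set of the closed sets which meet an open set. -/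
theorem scottOpen_diamond {U : Set X} (hU : IsOpen U) :
    ScottOpen {A : Closeds X | ((A : Set X) ∩ U).Nonempty} := by
  refine ⟨?_, ?_⟩
  · rintro A ⟨x, hx, hxU⟩ B hAB
    exact ⟨x, hAB hx, hxU⟩
  · rintro D hD hdir s hs ⟨x, hx, hxU⟩
    by_contra hcon
    have h1 : s ≤ (⟨Uᶜ, hU.isClosed_compl⟩ : Closeds X) := by
      refine hs.2 fun A hA y hy hyU => hcon ⟨A, hA, y, hy, hyU⟩
    exact h1 hx hxU

/-- **Main theorem.** -/
theorem coreCompact (hY : CoreCompact (scottTop (Closeds X))) :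
    CoreCompact (inferInstance : TopologicalSpace X) := by
  intro U hU x hx
  obtain ⟨𝒱, h𝒱, hx𝒱, hWB⟩ := hY {A : Closeds X | ((A : Set X) ∩ U).Nonempty}
    (scottOpen_diamond hU) (clos {x}) ⟨x, subset_closure rfl, hx⟩
  refine ⟨{y | clos {y} ∈ 𝒱}, isOpen_preimage hY h𝒱, hx𝒱, ?_⟩
  intro 𝒞 h𝒞 hU𝒞
  obtain ⟨𝒟, hf, h1, h2⟩ := hWB ((fun W => {A : Closeds X | ((A : Set X) ∩ W).Nonempty}) '' 𝒞)
    (by rintro _ ⟨W, hW, rfl⟩; exact scottOpen_diamond (h𝒞 W hW)) (by
      rintro A ⟨y, hy, hyU⟩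
      obtain ⟨W, hW, hyW⟩ := hU𝒞 hyU
      exact ⟨_, ⟨W, hW, rfl⟩, y, hy, hyW⟩)
  have hex : ∀ D ∈ 𝒟, ∃ W ∈ 𝒞, {A : Closeds X | ((A : Set X) ∩ W).Nonempty} = D :=
    fun D hD => h1 hD
  choose! f hf1 hf2 using hex
  refine ⟨f '' 𝒟, hf.image f, by rintro _ ⟨D, hD, rfl⟩; exact hf1 D hD, ?_⟩
  intro y hy
  obtain ⟨D, hD, hyD⟩ := h2 hy
  refine ⟨f D, ⟨D, hD, rfl⟩, ?_⟩
  rw [← hf2 D hD] at hyD
  obtain ⟨z, hz, hzW⟩ := hyD
  obtain ⟨w, hw, rfl⟩ := mem_closure_iff.1 hz (f D) (h𝒞 _ (hf1 D hD)) hzW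
  exact hw

/-- The Scott open set isolating a point of a `T₁` space. -/
theorem scottOpen_isolate [T1Space X] (x : X) :
    ScottOpen {A : Closeds X | x ∈ A ∨ (A : Set X).Nontrivial} := by
  refine ⟨?_, ?_⟩
  · rintro A (h | h) B hAB
    · exact Or.inl (hAB h)
    · exact Or.inr (h.mono hAB)
  · intro D hD hdir s hs hsU
    by_contra hcon
    have h1 : ∀ A ∈ D, x ∉ A ∧ (A : Set X).Subsingleton := by
      intro A hA
      have h2 : ¬ (x ∈ A ∨ (A : Set X).Nontrivial) := fun h => hcon ⟨A, hA, h⟩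
      push Not at h2
      exact ⟨h2.1, h2.2⟩
    -- the union is a subsingleton
    have h3 : (⋃ A ∈ D, (A : Set X)).Subsingleton := by
      intro y hy z hz
      obtain ⟨A, hA, hyA⟩ := Set.mem_iUnion₂.1 hy
      obtain ⟨B, hB, hzB⟩ := Set.mem_iUnion₂.1 hz
      obtain ⟨C, hC, hAC, hBC⟩ := hdir A hA B hB
      exact (h1 C hC).2 (hAC hyA) (hBC hzB)
    have h4 : s ≤ (⟨⋃ A ∈ D, (A : Set X), h3.isClosed⟩ : Closeds X) :=
      hs.2 fun A hA => Set.subset_biUnion_of_mem (u := fun A : Closeds X => (A : Set X)) hA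
    rcases hsU with h | h
    · obtain ⟨A, hA, hxA⟩ := Set.mem_iUnion₂.1 (h4 h)
      exact (h1 A hA).1 hxA
    · exact Set.not_subsingleton_iff.2 (h.mono h4) h3

/-- For `T₁` spaces. -/
theorem coreCompact_iff_discrete [T1Space X] :
    CoreCompact (scottTop (Closeds X)) ↔ DiscreteTopology X := by
  constructor
  · intro hY
    rw [discreteTopology_iff_isOpen_singleton]
    intro x
    have h := isOpen_preimage hY (scottOpen_isolate x)
    have e : {y : X | clos {y} ∈ {A : Closeds X | x ∈ A ∨ (A : Set X).Nontrivial}} = {x} := by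
      ext y
      constructor
      · rintro (h | h)
        · have h1 : x ∈ closure ({y} : Set X) := h
          rw [closure_singleton] at h1
          exact h1.symm
        · have h1 : (closure ({y} : Set X)).Nontrivial := h
          rw [closure_singleton] at h1
          exact absurd h1 (Set.not_nontrivial_iff.2 Set.subsingleton_singleton)
      · rintro rfl
        exact Or.inl (subset_closure rfl)
    rwa [e] at h
  · intro _ 𝒰 h𝒰 A hA
    obtain ⟨F, hF, hFA, hFU⟩ := scott_finite h𝒰 hA (M := (A : Set X)) subset_closure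
    refine ⟨{B | clos F ≤ B}, ⟨fun B hB C hBC => le_trans (α := Closeds X) hB hBC, ?_⟩,
      clos_le hFA, ?_⟩
    · intro D hD hdir s hs hsF
      have h1 : ∀ b : Set X, b.Finite → b ⊆ s → ∃ A ∈ D, b ⊆ A := by
        intro b hb
        induction b, hb using Set.Finite.induction_on with
        | empty => intro _; exact ⟨_, hD.choose_spec, Set.empty_subset _⟩
        | @insert y b hyb hb ih =>
          intro hys
          obtain ⟨A, hA, hbA⟩ := ih ((Set.subset_insert _ _).trans hys)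
          have h2 : s ≤ (⟨⋃ A ∈ D, (A : Set X), isClosed_discrete _⟩ : Closeds X) :=
            hs.2 fun A hA => Set.subset_biUnion_of_mem (u := fun A : Closeds X => (A : Set X)) hA
          obtain ⟨B, hB, hyB⟩ := Set.mem_iUnion₂.1 (h2 (hys (Set.mem_insert _ _)))
          obtain ⟨C, hC, hAC, hBC⟩ := hdir A hA B hB
          exact ⟨C, hC, Set.insert_subset (hBC hyB) (hbA.trans hAC)⟩
      obtain ⟨A, hA, hFA⟩ := h1 F hF (subset_closure.trans hsF)
      exact ⟨A, hA, clos_le hFA⟩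
    · intro 𝒞 h𝒞 hU𝒞
      obtain ⟨W, hW, hFW⟩ := hU𝒞 hFU
      refine ⟨{W}, Set.finite_singleton _, Set.singleton_subset_iff.2 hW, ?_⟩
      intro B hB
      exact ⟨W, rfl, (h𝒞 W hW).1 _ hFW B hB⟩

end Pool.Agent.R828.CoreC
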