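import Mathlib

/-!
# A lemma on ideals with a boundedness property

`IsId I` says that `I` is an ideal of subsets of `Q` such that every `g : Q → ℕ` is bounded off a
member of `I`.  The main lemma `unbdd_mem` is the discrete core of the theorem that the classes of
so-bounded, bo-bounded and emu-bounded balleans are productive.
-/

namespace Pool.Agent.R828

open Set

/-- An ideal such that every function to `ℕ` is bounded off a member of the ideal. -/
structure IsId {Q : Type*} (I : Set Q → Prop) : Prop where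
  mono : ∀ A B, A ⊆ B → I B → I A
  union : ∀ A B, I A → I B → I (A ∪ B)
  empty : I ∅
  star : ∀ g : Q → ℕ, ∃ N, I {q | N < g q}

variable {Q R : Type*}

theorem IsId.sigma {I : Set Q → Prop} (h : IsId I) (S : ℕ → Set Q) (hS : ∀ n, I (S n)) :
    I (⋃ n, S n) := by
  classical
  obtain ⟨N, hN⟩ := h.star (fun q => if hq : ∃ n, q ∈ S n then Nat.find hq else 0)
  have hfin : ∀ N : ℕ, I (⋃ n ≤ N, S n) := by
    intro N
    induction N with
    | zero =>
      refine h.mono _ _ ?_ (hS 0)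
      intro q hq
      simp only [Set.mem_iUnion] at hq
      obtain ⟨n, hn, hq⟩ := hq
      obtain rfl : n = 0 := by omega
      exact hq
    | succ N ih =>
      refine h.mono _ _ ?_ (h.union _ _ ih (hS (N + 1)))
      intro q hq
      simp only [Set.mem_iUnion] at hq
      obtain ⟨n, hn, hq⟩ := hq
      rcases Nat.lt_or_ge N n with h1 | h1
      · obtain rfl : n = N + 1 := by omega
        exact Or.inr hq
      · left
        simp only [Set.mem_iUnion]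
        exact ⟨n, h1, hq⟩
  refine h.mono _ _ ?_ (h.union _ _ (hfin N) hN)
  intro q hq
  have hq' : ∃ n, q ∈ S n := by simpa using hq
  by_cases hle : Nat.find hq' ≤ N
  · left
    simp only [Set.mem_iUnion]
    exact ⟨_, hle, Nat.find_spec hq'⟩
  · right
    simp only [Set.mem_ofPred_eq, dif_pos hq']
    omega

theorem IsId.atom {I : Set Q → Prop} (h : IsId I) (P : Set Q → Prop) (h0 : ∃ Z, P Z)
    (hs : ∀ W A, P W → A ⊆ W → ¬ I A → ¬ I (W \ A) → P A ∨ P (W \ A)) :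
    ∃ W, P W ∧ ∀ A ⊆ W, I A ∨ I (W \ A) := by
  classical
  by_contra hcon
  push Not at hcon
  -- every set with `P` has a subset outside the ideal whose complement has `P`
  have step : ∀ W : {W : Set Q // P W}, ∃ W' : {W : Set Q // P W}, W'.1 ⊆ W.1 ∧
      ¬ I (W.1 \ W'.1) := by
    rintro ⟨W, hW⟩
    obtain ⟨A, hA, hA1, hA2⟩ := hcon W hW
    rcases hs W A hW hA hA1 hA2 with h1 | h1
    · exact ⟨⟨A, h1⟩, hA, hA2⟩
    · refine ⟨⟨W \ A, h1⟩, fun q hq => hq.1, ?_⟩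
      intro h2
      apply hA1
      refine h.mono _ _ ?_ h2
      intro q hq
      exact ⟨hA hq, fun h3 => h3.2 hq⟩
  choose nx hnx1 hnx2 using step
  obtain ⟨Z, hZ⟩ := h0
  let W : ℕ → {W : Set Q // P W} := fun n => Nat.rec ⟨Z, hZ⟩ (fun _ w => nx w) n
  have hW : ∀ n, W (n + 1) = nx (W n) := fun n => rfl
  have hanti : Antitone (fun n => (W n).1) := antitone_nat_of_succ_le (fun n => by
    rw [hW]; exact hnx1 (W n))
  obtain ⟨N, hN⟩ := h.star (fun q => if hq : ∃ n, q ∉ (W n).1 then Nat.find hq else 0)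
  apply hnx2 (W N)
  refine h.mono _ _ ?_ hN
  rintro q ⟨hq1, hq2⟩
  have hex : ∃ n, q ∉ (W n).1 := ⟨N + 1, by rw [hW]; exact hq2⟩
  simp only [Set.mem_ofPred_eq, dif_pos hex]
  by_contra hle
  push Not at hle
  exact Nat.find_spec hex (hanti hle hq1)

/-- A fixed point free map on a set `V` : there is `V₀ ⊆ V` with `h(V₀)` disjoint from `V₀` and
`V ⊆ V₀ ∪ h⁻¹(V₀) ∪ h(V₀)`. -/
theorem exists_free (V : Set Q) (h : Q → Q) (hfree : ∀ q ∈ V, h q ≠ q) :
    ∃ V₀ ⊆ V, (∀ q ∈ V₀, h q ∉ V₀) ∧ ∀ v ∈ V, v ∈ V₀ ∨ h v ∈ V₀ ∨ ∃ u ∈ V₀, h u = v := by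
  obtain ⟨V₀, hV₀⟩ := zorn_subset {S : Set Q | S ⊆ V ∧ ∀ q ∈ S, h q ∉ S} (by
    intro c hc hch
    refine ⟨⋃₀ c, ⟨?_, ?_⟩, fun s hs => Set.subset_sUnion_of_mem hs⟩
    · exact Set.sUnion_subset (fun s hs => (hc hs).1)
    · rintro q ⟨s, hs, hqs⟩ ⟨t, ht, hqt⟩
      rcases hch.total hs ht with hst | hst
      · exact (hc ht).2 q (hst hqs) hqt
      · exact (hc hs).2 q hqs (hst hqt))
  refine ⟨V₀, hV₀.prop.1, hV₀.prop.2, ?_⟩
  intro v hv
  by_contra hcon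
  push Not at hcon
  obtain ⟨h1, h2, h3⟩ := hcon
  have : insert v V₀ ⊆ V₀ := hV₀.le_of_ge (y := insert v V₀) ⟨?_, ?_⟩ (Set.subset_insert _ _)
  · exact h1 (this (Set.mem_insert _ _))
  · exact Set.insert_subset hv hV₀.prop.1
  · rintro q (rfl | hq) (h4 | h4)
    · exact hfree _ hv h4
    · exact h2 h4
    · exact h3 q hq h4
    · exact hV₀.prop.2 q hq h4

/-- The combinatorial core: no two everywhere different maps `y, y'` on an atom with sections. -/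
theorem core {I : Set Q → Prop} {J : Set R → Prop} (hI : IsId I) (hJ : IsId J)
    (P : Set Q) (hat : ∀ A ⊆ P, I A ∨ I (P \ A)) (W : Set R) (hW : ¬ J W)
    (y y' : Q → R) (a a' : R → Q) (hne : ∀ q ∈ P, y q ≠ y' q)
    (hy : ∀ T, J T → I {q | q ∈ P ∧ y q ∈ T}) (hy' : ∀ T, J T → I {q | q ∈ P ∧ y' q ∈ T})
    (haP : ∀ b ∈ W, a b ∈ P) (haP' : ∀ b ∈ W, a' b ∈ P)
    (ha : ∀ b ∈ W, y (a b) = b) (ha' : ∀ b ∈ W, y' (a' b) = b)
    (haI : ∀ S, I S → J {b | b ∈ W ∧ a b ∈ S}) (haI' : ∀ S, I S → J {b | b ∈ W ∧ a' b ∈ S}) :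
    False := by
  let V : Set Q := a '' W
  have hVP : V ⊆ P := by rintro _ ⟨b, hb, rfl⟩; exact haP b hb
  have hV : ¬ I V := by
    intro h
    apply hW
    refine hJ.mono _ _ ?_ (haI V h)
    intro b hb
    exact ⟨hb, b, hb, rfl⟩
  have hyV : ∀ q ∈ V, y q ∈ W ∧ a (y q) = q := by
    rintro _ ⟨b, hb, rfl⟩
    rw [ha b hb]
    exact ⟨hb, rfl⟩
  obtain ⟨V₀, hV₀, hdis, hcov⟩ := exists_free V (fun q => a' (y q)) (by
    intro q hq h
    have h1 := ha' (y q) (hyV q hq).1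
    rw [h] at h1
    exact hne q (hVP hq) h1.symm)
  by_cases hc : I V₀
  · -- then `V` is in the ideal
    apply hV
    have h1 : I {q | q ∈ P ∧ y q ∈ {b | b ∈ W ∧ a' b ∈ V₀}} := hy _ (haI' _ hc)
    have h2 : I {q | q ∈ P ∧ y' q ∈ {b | b ∈ W ∧ a b ∈ V₀}} := hy' _ (haI _ hc)
    refine hI.mono _ _ ?_ (hI.union _ _ (hI.union _ _ hc h1) h2)
    intro v hv
    rcases hcov v hv with h3 | h3 | ⟨u, hu, h3⟩
    · exact Or.inl (Or.inl h3)
    · exact Or.inl (Or.inr ⟨hVP hv, (hyV v hv).1, h3⟩)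
    · refine Or.inr ⟨hVP hv, ?_⟩
      have huV := hV₀ hu
      rw [← h3, ha' _ (hyV u huV).1]
      refine ⟨(hyV u huV).1, ?_⟩
      rw [(hyV u huV).2]
      exact hu
  · apply hc
    have h1 : I (P \ V₀) := (hat V₀ (hV₀.trans hVP)).resolve_left hc
    have h2 : I {q | q ∈ P ∧ y q ∈ {b | b ∈ W ∧ a' b ∈ P \ V₀}} := hy _ (haI' _ h1)
    refine hI.mono _ _ ?_ h2
    intro v hv
    have hvV := hV₀ hv
    exact ⟨hVP hvV, (hyV v hvV).1, haP' _ (hyV v hvV).1, hdis v hv⟩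

/-- **Discrete lemma**. -/
theorem unbdd_mem {I : Set Q → Prop} {J : Set R → Prop} (hI : IsId I) (hJ : IsId J)
    (f : Q → R → ℝ)
    (c1 : ∀ S, I S → ∃ T, J T ∧ ∃ C : ℝ, ∀ q ∈ S, ∀ r, r ∉ T → |f q r| ≤ C)
    (c2 : ∀ T, J T → ∃ S, I S ∧ ∃ C : ℝ, ∀ q, q ∉ S → ∀ r ∈ T, |f q r| ≤ C) :
    I {q | ∀ M : ℝ, ∃ r, M < |f q r|} := by
  classical
  by_contra hQ
  obtain ⟨P, ⟨hPI, hPQ⟩, hat⟩ := hI.atom
    (fun W => ¬ I W ∧ W ⊆ {q | ∀ M : ℝ, ∃ r, M < |f q r|}) ⟨_, hQ, subset_rfl⟩ (by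
      intro W A hW hA h1 h2
      exact Or.inl ⟨h1, hA.trans hW.2⟩)
  -- the sequences `r n q`
  have hex : ∀ q : Q, ∃ r : ℕ → R, q ∈ P → (∀ n : ℕ, (n : ℝ) ≤ |f q (r n)|) ∧
      ∀ n m, n ≠ m → r n ≠ r m := by
    intro q
    by_cases hq : q ∈ P
    · have hq' := hPQ hq
      choose ρ hρ using hq'
      let r : ℕ → R := fun n => Nat.rec (ρ 0) (fun n s => ρ (max |f q s| (n + 1))) n
      have hr : ∀ n, r (n + 1) = ρ (max |f q (r n)| (n + 1)) := fun n => rfl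
      have hmono : StrictMono (fun n => |f q (r n)|) := strictMono_nat_of_lt_succ (fun n => by
        rw [hr]
        exact lt_of_le_of_lt (le_max_left _ _) (hρ _))
      refine ⟨r, fun _ => ⟨?_, ?_⟩⟩
      · intro n
        cases n with
        | zero => simp
        | succ n =>
          rw [hr]
          refine le_trans ?_ (hρ _).le
          push_cast
          exact le_max_right _ _
      · intro n m hnm h
        exact hnm (hmono.injective (by simp only [h]))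
    · by_cases hR : Nonempty R
      · exact ⟨fun _ => hR.some, fun h => absurd h hq⟩
      · exfalso
        have : P = ∅ := by
          by_contra hne
          obtain ⟨p, hp⟩ := Set.nonempty_iff_ne_empty.2 hne
          obtain ⟨r, _⟩ := hPQ hp 0
          exact hR ⟨r⟩
        exact hPI (this ▸ hI.empty)
  choose r hr using hex
  have hr1 : ∀ q ∈ P, ∀ n : ℕ, (n : ℝ) ≤ |f q (r q n)| := fun q hq => (hr q hq).1
  have hr2 : ∀ q ∈ P, ∀ n m, n ≠ m → r q n ≠ r q m := fun q hq => (hr q hq).2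
  -- Step A
  obtain ⟨N₀, hA⟩ : ∃ N₀ : ℕ, ∀ n ≥ N₀, ∀ T, J T → I {q | q ∈ P ∧ r q n ∈ T} := by
    let T : ℕ → Set R := fun n =>
      if h : ∃ T, J T ∧ ¬ I {q | q ∈ P ∧ r q n ∈ T} then h.choose else ∅
    have hT : ∀ n, J (T n) := by
      intro n
      by_cases h : ∃ T, J T ∧ ¬ I {q | q ∈ P ∧ r q n ∈ T}
      · simp only [T, dif_pos h]; exact h.choose_spec.1
      · simp only [T, dif_neg h]; exact hJ.empty
    obtain ⟨S, hS, C, hC⟩ := c2 _ (hJ.sigma T hT)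
    obtain ⟨N, hN⟩ := exists_nat_gt C
    refine ⟨N, fun n hn T' hT' => ?_⟩
    by_contra hcon
    have h : ∃ T, J T ∧ ¬ I {q | q ∈ P ∧ r q n ∈ T} := ⟨T', hT', hcon⟩
    apply h.choose_spec.2
    refine hI.mono _ _ ?_ hS
    rintro q ⟨hq, hqT⟩
    by_contra hqS
    have h1 : r q n ∈ ⋃ n, T n := by
      refine Set.mem_iUnion.2 ⟨n, ?_⟩
      simp only [T, dif_pos h]; exact hqT
    have h2 := hC q hqS _ h1
    have h3 := hr1 q hq n
    have h4 : (N : ℝ) ≤ n := by exact_mod_cast hn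
    linarith
  -- Step B
  obtain ⟨W₀, hinf, hat'⟩ := hJ.atom
    (fun W => ∀ k : ℕ, ∃ n, k ≤ n ∧ N₀ ≤ n ∧ I (P \ {q | q ∈ P ∧ r q n ∈ W}))
    ⟨Set.univ, fun k => ⟨max k N₀, le_max_left _ _, le_max_right _ _, by
      refine hI.mono _ _ ?_ hI.empty
      rintro q ⟨hq, hq'⟩
      exact absurd ⟨hq, trivial⟩ hq'⟩⟩ (by
      intro W A hW hA _ _
      by_contra hcon
      push Not at hcon
      obtain ⟨⟨k1, hk1⟩, ⟨k2, hk2⟩⟩ := hcon
      obtain ⟨n, hn, hn0, hnI⟩ := hW (max k1 k2)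
      have h1 := hk1 n ((le_max_left _ _).trans hn) hn0
      have h2 := hk2 n ((le_max_right _ _).trans hn) hn0
      have h3 : I {q | q ∈ P ∧ r q n ∈ A} :=
        (hat _ (fun q hq => hq.1)).resolve_right h1
      have h4 : I {q | q ∈ P ∧ r q n ∈ W \ A} :=
        (hat _ (fun q hq => hq.1)).resolve_right h2
      apply hPI
      refine hI.mono _ _ ?_ (hI.union _ _ (hI.union _ _ h3 h4) hnI)
      intro q hq
      by_cases hqW : r q n ∈ W
      · by_cases hqA : r q n ∈ A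
        · exact Or.inl (Or.inl ⟨hq, hqA⟩)
        · exact Or.inl (Or.inr ⟨hq, hqW, hqA⟩)
      · exact Or.inr ⟨hq, fun h => hqW h.2⟩)
  -- the good indices
  let Nn : Set ℕ := {n | N₀ ≤ n ∧ I (P \ {q | q ∈ P ∧ r q n ∈ W₀})}
  have hNn : ∀ k, ∃ n ∈ Nn, k ≤ n := by
    intro k
    obtain ⟨n, h1, h2, h3⟩ := hinf k
    exact ⟨n, ⟨h2, h3⟩, h1⟩
  have hWn : ∀ n ∈ Nn, J (W₀ \ {b | ∃ q ∈ P, r q n = b}) := by
    rintro n ⟨hn0, hnI⟩
    have h1 := hat' (W₀ ∩ {b | ∃ q ∈ P, r q n = b}) Set.inter_subset_left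
    rcases h1 with h1 | h1
    · exfalso
      apply hPI
      refine hI.mono _ _ ?_ (hI.union _ _ (hA n hn0 _ h1) hnI)
      intro q hq
      by_cases hqW : r q n ∈ W₀
      · exact Or.inl ⟨hq, hqW, q, hq, rfl⟩
      · exact Or.inr ⟨hq, fun h => hqW h.2⟩
    · refine hJ.mono _ _ ?_ h1
      rintro b ⟨hb1, hb2⟩
      exact ⟨hb1, fun h => hb2 h.2⟩
  let W : Set R := {b | b ∈ W₀ ∧ ∀ n ∈ Nn, ∃ q ∈ P, r q n = b}
  have hW₀ : ¬ J W₀ := by
    intro h
    obtain ⟨n, ⟨hn0, hnI⟩, _⟩ := hNn 0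
    apply hPI
    refine hI.mono _ _ ?_ (hI.union _ _ (hA n hn0 _ h) hnI)
    intro q hq
    by_cases hqW : r q n ∈ W₀
    · exact Or.inl ⟨hq, hqW⟩
    · exact Or.inr ⟨hq, fun h => hqW h.2⟩
  have hW : ¬ J W := by
    intro h
    apply hW₀
    have h1 : J (⋃ n, if n ∈ Nn then W₀ \ {b | ∃ q ∈ P, r q n = b} else ∅) := by
      apply hJ.sigma
      intro n
      split_ifs with hn
      · exact hWn n hn
      · exact hJ.empty
    refine hJ.mono _ _ ?_ (hJ.union _ _ h h1)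
    intro b hb
    by_cases hbW : ∀ n ∈ Nn, ∃ q ∈ P, r q n = b
    · exact Or.inl ⟨hb, hbW⟩
    · right
      push Not at hbW
      obtain ⟨n, hn, hn'⟩ := hbW
      refine Set.mem_iUnion.2 ⟨n, ?_⟩
      rw [if_pos hn]
      refine ⟨hb, ?_⟩
      rintro ⟨q, hq, hqb⟩
      exact hn' q hq hqb
  obtain ⟨q₀, hq₀⟩ : P.Nonempty := by
    rw [Set.nonempty_iff_ne_empty]
    intro h
    exact hPI (h ▸ hI.empty)
  let a : ℕ → R → Q := fun n b => if h : ∃ q ∈ P, r q n = b then h.choose else q₀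
  have haP : ∀ n b, a n b ∈ P := by
    intro n b
    by_cases h : ∃ q ∈ P, r q n = b
    · simp only [a, dif_pos h]; exact h.choose_spec.1
    · simp only [a, dif_neg h]; exact hq₀
  have haa : ∀ n ∈ Nn, ∀ b ∈ W, r (a n b) n = b := by
    intro n hn b hb
    have h := hb.2 n hn
    simp only [a, dif_pos h]; exact h.choose_spec.2
  -- Step C
  obtain ⟨N₁, hC⟩ : ∃ N₁ : ℕ, ∀ n ∈ Nn, N₁ ≤ n → ∀ S, I S → J {b | b ∈ W ∧ a n b ∈ S} := by
    let S : ℕ → Set Q := fun n =>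
      if h : ∃ S, I S ∧ ¬ J {b | b ∈ W ∧ a n b ∈ S} then h.choose else ∅
    have hS : ∀ n, I (S n) := by
      intro n
      by_cases h : ∃ S, I S ∧ ¬ J {b | b ∈ W ∧ a n b ∈ S}
      · simp only [S, dif_pos h]; exact h.choose_spec.1
      · simp only [S, dif_neg h]; exact hI.empty
    obtain ⟨T, hT, C, hC⟩ := c1 _ (hI.sigma S hS)
    obtain ⟨N, hN⟩ := exists_nat_gt C
    refine ⟨N, fun n hnn hn S' hS' => ?_⟩
    by_contra hcon
    have h : ∃ S, I S ∧ ¬ J {b | b ∈ W ∧ a n b ∈ S} := ⟨S', hS', hcon⟩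
    apply h.choose_spec.2
    refine hJ.mono _ _ ?_ hT
    rintro b ⟨hb, hbS⟩
    by_contra hbT
    have h1 : a n b ∈ ⋃ n, S n := by
      refine Set.mem_iUnion.2 ⟨n, ?_⟩
      simp only [S, dif_pos h]; exact hbS
    have h2 := hC _ h1 b hbT
    have h3 := hr1 (a n b) (haP n b) n
    rw [haa n hnn b hb] at h3
    have h4 : (N : ℝ) ≤ n := by exact_mod_cast hn
    linarith
  obtain ⟨n, hn, hn1⟩ := hNn N₁
  obtain ⟨m, hm, hm1⟩ := hNn (n + 1)
  have hnm : n ≠ m := by omega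
  exact core hI hJ P hat W hW (fun q => r q n) (fun q => r q m) (a n) (a m)
    (fun q hq => hr2 q hq n m hnm) (hA n hn.1) (hA m hm.1) (fun b _ => haP n b)
    (fun b _ => haP m b) (haa n hn) (haa m hm) (hC n hn hn1) (hC m hm (by omega))

end Pool.Agent.R828
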