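import Mathlib

/-!
# E-separability of products of discrete spaces

Common definitions and lemmas for MP_a67be6_gt.
-/

namespace Pool.Agent.R828.ESep

open Set Topology

open scoped Cardinal

universe u

/-- Closed discrete subsets. -/
def ClosedDiscrete {X : Type u} [TopologicalSpace X] (E : Set X) : Prop :=
  IsClosed E ∧ DiscreteTopology E

/-- `e`-separable spaces: there is a dense `σ`-closed-discrete subset. -/
def ESeparable (X : Type u) [TopologicalSpace X] : Prop :=
  ∃ E : ℕ → Set X, (∀ n, ClosedDiscrete (E n)) ∧ Dense (⋃ n, E n)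

/-- `E`-separable spaces: from each sequence of dense sets one can select closed discrete subsets
with dense union. -/
def SelESeparable (X : Type u) [TopologicalSpace X] : Prop :=
  ∀ D : ℕ → Set X, (∀ n, Dense (D n)) → ∃ E : ℕ → Set X,
    (∀ n, E n ⊆ D n ∧ ClosedDiscrete (E n)) ∧ Dense (⋃ n, E n)

theorem ClosedDiscrete.exists_open {X : Type u} [TopologicalSpace X] {E : Set X}
    (h : ClosedDiscrete E) (x : X) : ∃ U, IsOpen U ∧ x ∈ U ∧ ∀ y ∈ E, y ∈ U → y = x := by
  by_cases hx : x ∈ E
  · have := h.2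
    obtain ⟨U, hU, hUx⟩ := isOpen_induced_iff.1 (isOpen_discrete ({⟨x, hx⟩} : Set E))
    refine ⟨U, hU, ?_, ?_⟩
    · have : (⟨x, hx⟩ : E) ∈ Subtype.val ⁻¹' U := by rw [hUx]; rfl
      exact this
    · intro y hy hyU
      have : (⟨y, hy⟩ : E) ∈ Subtype.val ⁻¹' U := hyU
      rw [hUx] at this
      exact congrArg Subtype.val this
  · exact ⟨Eᶜ, h.1.isOpen_compl, hx, fun y hy hyU => absurd hy hyU⟩

theorem closedDiscrete_of {X : Type u} [TopologicalSpace X] {E : Set X}
    (h : ∀ x : X, ∃ U, IsOpen U ∧ x ∈ U ∧ ∀ y ∈ E, y ∈ U → y = x) : ClosedDiscrete E := by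
  constructor
  · rw [← isOpen_compl_iff, isOpen_iff_forall_mem_open]
    intro x hx
    obtain ⟨U, hU, hxU, h1⟩ := h x
    refine ⟨U, ?_, hU, hxU⟩
    intro y hyU hy
    rw [h1 y hy hyU] at hy
    exact hx hy
  · rw [discreteTopology_iff_isOpen_singleton]
    rintro ⟨x, hx⟩
    obtain ⟨U, hU, hxU, h1⟩ := h x
    refine ⟨U, hU, ?_⟩
    ext ⟨y, hy⟩
    constructor
    · intro hyU
      exact Subtype.ext (h1 y hy hyU)
    · rintro h2
      have : y = x := congrArg Subtype.val h2
      show y ∈ U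
      rw [this]
      exact hxU

/-- A set is closed discrete if a continuous map to a discrete space is injective on it. -/
theorem closedDiscrete_of_injOn {X L : Type u} [TopologicalSpace X] [T1Space X]
    [TopologicalSpace L] [DiscreteTopology L] {E : Set X} (f : X → L) (hf : Continuous f)
    (hE : InjOn f E) : ClosedDiscrete E := by
  apply closedDiscrete_of
  intro x
  by_cases hx : ∃ y ∈ E, f y = f x ∧ y ≠ x
  · obtain ⟨y, hy, hyx, hne⟩ := hx
    refine ⟨f ⁻¹' {f x} ∩ {y}ᶜ, ((isOpen_discrete _).preimage hf).inter isOpen_compl_singleton,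
      ⟨rfl, fun h => hne h.symm⟩, ?_⟩
    rintro z hz ⟨hzx, hzy⟩
    exact absurd (hE hz hy ((show f z = f x from hzx).trans hyx.symm)) hzy
  · push Not at hx
    exact ⟨f ⁻¹' {f x}, (isOpen_discrete _).preimage hf, rfl, fun y hy hyx => hx y hy hyx⟩

section products

variable {I : Type u} {A : I → Type u} [∀ i, TopologicalSpace (A i)]
  [∀ i, DiscreteTopology (A i)]

/-- Basic neighbourhoods of a point in a product of discrete spaces. -/
theorem exists_finite_nhd {U : Set (∀ i, A i)} (hU : IsOpen U) {x : ∀ i, A i} (hx : x ∈ U) :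
    ∃ G : Finset I, ∀ y : ∀ i, A i, (∀ i ∈ G, y i = x i) → y ∈ U := by
  obtain ⟨G, u, hu, hGU⟩ := isOpen_pi_iff.1 hU x hx
  refine ⟨G, fun y hy => hGU ?_⟩
  intro i hi
  rw [hy i hi]
  exact (hu i hi).2

theorem isOpen_cyl (G : Finset I) (x : ∀ i, A i) : IsOpen {y : ∀ i, A i | ∀ i ∈ G, y i = x i} := by
  have : {y : ∀ i, A i | ∀ i ∈ G, y i = x i} = ⋂ i ∈ G, (fun y => y i) ⁻¹' {x i} := by
    ext y
    simp
  rw [this]
  exact isOpen_biInter_finset fun i _ => (isOpen_discrete _).preimage (continuous_apply i)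

/-- The support of a point with respect to a base point. -/
def supp (a x : ∀ i, A i) : Set I := {i | x i ≠ a i}

/-- Closed discrete sets of points with supports of bounded size are small. -/
theorem card_closedDiscrete {κ : Cardinal.{u}} (hκ : ℵ₀ ≤ κ) {J : Set I}
    (hA : ∀ i ∉ J, #(A i) ≤ κ) (n : ℕ) :
    ∀ (a : ∀ i, A i) (E : Set (∀ i, A i)),
      (∀ x, ∃ U, IsOpen U ∧ x ∈ U ∧ ∀ y ∈ E, y ∈ U → y = x) →
      (∀ x ∈ E, (∀ i ∈ J, x i = a i) ∧ (supp a x).Finite ∧ (supp a x).ncard ≤ n) → #E ≤ κ := by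
  classical
  induction n with
  | zero =>
    intro a E _ hE
    have : E ⊆ {a} := by
      intro x hx
      obtain ⟨-, h1, h2⟩ := hE x hx
      have h3 : supp a x = ∅ := (Set.ncard_eq_zero h1).1 (Nat.le_zero.1 h2)
      funext i
      by_contra hne
      have : i ∈ supp a x := hne
      rw [h3] at this
      exact this
    refine (Cardinal.mk_le_mk_of_subset this).trans ?_
    rw [Cardinal.mk_singleton]
    exact Cardinal.one_le_aleph0.trans hκ
  | succ n ih =>
    intro a E hcd hE
    -- points with a prescribed nontrivial coordinate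
    have h1 : ∀ i ∉ J, ∀ b : A i, b ≠ a i → #{x | x ∈ E ∧ x i = b} ≤ κ := by
      intro i hi b hb
      apply ih (Function.update a i b)
      · intro x
        obtain ⟨U, hU, hxU, h1⟩ := hcd x
        exact ⟨U, hU, hxU, fun y hy => h1 y hy.1⟩
      · rintro x ⟨hx, hxi⟩
        obtain ⟨h2, h3, h4⟩ := hE x hx
        have h5 : supp (Function.update a i b) x = supp a x \ {i} := by
          ext k
          by_cases hk : k = i
          · subst hk
            simp [supp, hxi]
          · simp [supp, hk]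
        refine ⟨?_, ?_, ?_⟩
        · intro k hk
          have : k ≠ i := fun h => hi (h ▸ hk)
          rw [Function.update_of_ne this]
          exact h2 k hk
        · rw [h5]
          exact h3.sdiff
        · rw [h5]
          have h6 : i ∈ supp a x := by
            show x i ≠ a i
            rw [hxi]
            exact hb
          have h7 := Set.ncard_sdiff_singleton_add_one h6 h3
          omega
    have h2 : ∀ i ∉ J, #{x | x ∈ E ∧ x i ≠ a i} ≤ κ := by
      intro i hi
      have h3 : {x | x ∈ E ∧ x i ≠ a i} ⊆ ⋃ b : {b : A i // b ≠ a i}, {x | x ∈ E ∧ x i = b.1} := by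
        rintro x ⟨hx1, hx2⟩
        exact mem_iUnion.2 ⟨⟨x i, hx2⟩, hx1, rfl⟩
      refine (Cardinal.mk_le_mk_of_subset h3).trans ((Cardinal.mk_iUnion_le _).trans ?_)
      refine Cardinal.mul_le_of_le hκ ((Cardinal.mk_subtype_le _).trans (hA i hi)) ?_
      exact ciSup_le' fun b => h1 i hi b.1 b.2
    obtain ⟨U, hU, haU, h3⟩ := hcd a
    obtain ⟨G, hG⟩ := exists_finite_nhd hU haU
    have h4 : E ⊆ {a} ∪ ⋃ i : {i : I // i ∈ G ∧ i ∉ J}, {x | x ∈ E ∧ x i.1 ≠ a i.1} := by
      intro x hx
      by_cases hall : ∀ i ∈ G, x i = a i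
      · exact Or.inl (h3 x hx (hG x hall))
      · push Not at hall
        obtain ⟨i, hi, hne⟩ := hall
        refine Or.inr (mem_iUnion.2 ⟨⟨i, hi, fun hJ => hne ((hE x hx).1 i hJ)⟩, hx, hne⟩)
    refine (Cardinal.mk_le_mk_of_subset h4).trans ((Cardinal.mk_union_le _ _).trans ?_)
    refine Cardinal.add_le_of_le hκ ?_ ?_
    · rw [Cardinal.mk_singleton]
      exact Cardinal.one_le_aleph0.trans hκ
    · refine (Cardinal.mk_iUnion_le _).trans (Cardinal.mul_le_of_le hκ ?_ ?_)
      · have : Finite {i : I // i ∈ G ∧ i ∉ J} :=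
          Finite.of_injective (fun i => (⟨i.1, i.2.1⟩ : G)) (by
            intro i j h
            exact Subtype.ext (congrArg (fun z : G => z.1) h))
        exact (Cardinal.lt_aleph0_of_finite _).le.trans hκ
      · exact ciSup_le' fun i => h2 i.1 i.2.2

theorem dense_finite_supp (a : ∀ i, A i) : Dense {x | (supp a x).Finite} := by
  classical
  rw [dense_iff_inter_open]
  rintro U hU ⟨x, hx⟩
  obtain ⟨G, hG⟩ := exists_finite_nhd hU hx
  refine ⟨fun i => if i ∈ G then x i else a i, hG _ (fun i hi => if_pos hi), ?_⟩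
  refine G.finite_toSet.subset ?_
  intro i hi
  by_contra hne
  exact hi (if_neg hne)

/-- **A product with more than `κ` nontrivial discrete factors, all but finitely many of which have
at most `κ` points, is not `E`-separable.** -/
theorem not_selESeparable [∀ i, Nontrivial (A i)] {κ : Cardinal.{u}} (hκ : ℵ₀ ≤ κ)
    (hA : {i | κ < #(A i)}.Finite) (hI : κ < #I) : ¬ SelESeparable (∀ i, A i) := by
  classical
  intro h
  have a : ∀ i, A i := fun i => Classical.arbitrary _
  have hb : ∀ i, ∃ b : A i, b ≠ a i := fun i => exists_ne (a i)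
  choose b hb using hb
  obtain ⟨E, hE, hd⟩ := h (fun _ => {x | (supp a x).Finite}) (fun _ => dense_finite_supp a)
  let J : Set I := {i | κ < #(A i)}
  let T : ℕ × ℕ → Set (∀ i, A i) := fun p => {x | x ∈ E p.1 ∧ (∀ i ∈ J, x i = a i) ∧
    (supp a x).ncard ≤ p.2}
  have hT : ∀ p, #(T p) ≤ κ := by
    intro p
    apply card_closedDiscrete hκ (J := J) (fun i hi => not_lt.1 hi) p.2 a
    · intro x
      obtain ⟨U, hU, hxU, h1⟩ := (hE p.1).2.exists_open x
      exact ⟨U, hU, hxU, fun y hy => h1 y hy.1⟩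
    · rintro x ⟨hx1, hx2, hx3⟩
      exact ⟨hx2, (hE p.1).1 hx1, hx3⟩
  have hfin : ∀ p, ∀ x ∈ T p, (supp a x).Finite := fun p x hx => (hE p.1).1 hx.1
  -- the union of the supports
  let S : Set I := ⋃ p : ℕ × ℕ, ⋃ x : T p, supp a x.1
  have hS : #S ≤ κ := by
    have h0 : ∀ p, #(⋃ x : T p, supp a x.1 : Set I) ≤ κ := by
      intro p
      refine (Cardinal.mk_iUnion_le _).trans (Cardinal.mul_le_of_le hκ (hT p) ?_)
      refine ciSup_le' fun x => ?_
      exact ((Cardinal.lt_aleph0_iff_set_finite.2 (hfin p x.1 x.2)).le).trans hκ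
    have h1 := Cardinal.mk_iUnion_le_lift (fun p : ℕ × ℕ => (⋃ x : T p, supp a x.1 : Set I))
    rw [Cardinal.lift_uzero] at h1
    refine h1.trans (Cardinal.mul_le_of_le hκ ?_ ?_)
    · rw [Cardinal.mk_eq_aleph0 (ℕ × ℕ), Cardinal.lift_aleph0]
      exact hκ
    · refine ciSup_le' fun p => ?_
      rw [Cardinal.lift_uzero]
      exact h0 p
  have hSJ : #(S ∪ J : Set I) ≤ κ := by
    refine (Cardinal.mk_union_le _ _).trans (Cardinal.add_le_of_le hκ hS ?_)
    exact ((Cardinal.lt_aleph0_iff_set_finite.2 hA).le).trans hκ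
  obtain ⟨i, hi⟩ : ∃ i, i ∉ S ∪ J := by
    by_contra hcon
    push Not at hcon
    have : (S ∪ J : Set I) = univ := eq_univ_of_forall hcon
    rw [this, Cardinal.mk_univ] at hSJ
    exact absurd hI (not_lt.2 hSJ)
  have hiS : i ∉ S := fun h => hi (Or.inl h)
  have hiJ : i ∉ J := fun h => hi (Or.inr h)
  let c : ∀ i, A i := Function.update a i (b i)
  obtain ⟨x, hx1, hx2⟩ := hd.inter_open_nonempty _ (isOpen_cyl (insert i hA.toFinset) c)
    ⟨c, fun _ _ => rfl⟩
  obtain ⟨n, hn⟩ := mem_iUnion.1 hx2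
  apply hiS
  refine mem_iUnion.2 ⟨(n, (supp a x).ncard), mem_iUnion.2 ⟨⟨x, hn, ?_, le_rfl⟩, ?_⟩⟩
  · intro k hk
    have h1 := hx1 k (Finset.mem_insert_of_mem (hA.mem_toFinset.2 hk))
    have h2 : k ≠ i := fun h => hiJ (h ▸ hk)
    rw [h1]
    exact Function.update_of_ne h2 _ _
  · have h1 := hx1 i (Finset.mem_insert_self _ _)
    show x i ≠ a i
    rw [h1]
    show Function.update a i (b i) i ≠ a i
    rw [Function.update_self]
    exact hb i

end products

/-! ### Powers `D(κ)^I` with `|I| ≤ 2^κ` are `e`-separable -/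

section powers

variable {I L : Type u} [TopologicalSpace L] [DiscreteTopology L] [Infinite L] [Infinite I]

omit [TopologicalSpace L] [DiscreteTopology L] [Infinite L] [Infinite I] in
/-- The finite sets separating finitely many points of the power set. -/
theorem exists_separating (ι : I → Set L) (hι : Function.Injective ι) (G : Finset I) :
    ∃ F : Finset L, ∀ i ∈ G, ∀ j ∈ G, (∀ l ∈ F, l ∈ ι i ↔ l ∈ ι j) → i = j := by
  classical
  have h1 : ∀ i j : I, ∃ l : Option L, i ≠ j → ∃ l', l = some l' ∧ ¬ (l' ∈ ι i ↔ l' ∈ ι j) := by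
    intro i j
    by_cases hij : i = j
    · exact ⟨none, fun h => absurd hij h⟩
    · have : ι i ≠ ι j := fun h => hij (hι h)
      obtain ⟨l, hl⟩ := not_forall.1 (fun h => this (Set.ext h))
      exact ⟨some l, fun _ => ⟨l, rfl, hl⟩⟩
  choose l hl using h1
  refine ⟨(G ×ˢ G).biUnion fun p => (l p.1 p.2).toFinset, ?_⟩
  intro i hi j hj h
  by_contra hne
  obtain ⟨l', h2, h3⟩ := hl i j hne
  apply h3
  apply h
  rw [Finset.mem_biUnion]
  exact ⟨(i, j), Finset.mem_product.2 ⟨hi, hj⟩, by rw [h2]; simp⟩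

theorem exists_dense_power (hI : #I ≤ 2 ^ #L) : ∃ E : ℕ → Set (I → L),
    (∀ n, ClosedDiscrete (E n) ∧ #(E n) ≤ #L) ∧ Dense (⋃ n, E n) := by
  classical
  obtain ⟨z0⟩ : Nonempty L := inferInstance
  letI : Zero L := ⟨z0⟩
  -- coding of the factors
  obtain ⟨ι, hι⟩ : ∃ ι : I → Set L, Function.Injective ι := by
    rw [← Cardinal.mk_set, Cardinal.le_def] at hI
    obtain ⟨e⟩ := hI
    exact ⟨e, e.injective⟩
  obtain ⟨e⟩ : Nonempty ((Finset L × (Finset L →₀ L)) ↪ L) := by
    rw [← Cardinal.le_def, Cardinal.mk_prod, Cardinal.mk_finsupp_of_infinite,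
      Cardinal.mk_finset_of_infinite]
    simp
  let j : ℕ ↪ I := Infinite.natEmbedding I
  let x : (Finset L × (Finset L →₀ L)) → I → L := fun t i => t.2 (t.1.filter (· ∈ ι i))
  let z : ℕ → (Finset L × (Finset L →₀ L)) → I → L := fun n t i =>
    if ∃ m, n ≤ m ∧ i = j m then e t else x t i
  refine ⟨fun n => range (z n), fun n => ⟨?_, ?_⟩, ?_⟩
  · apply closedDiscrete_of_injOn (fun y : I → L => y (j n)) (continuous_apply _)
    rintro _ ⟨t, rfl⟩ _ ⟨t', rfl⟩ h
    have h1 : ∀ t, z n t (j n) = e t := fun t => if_pos ⟨n, le_rfl, rfl⟩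
    have h2 : e t = e t' := by
      rw [← h1 t, ← h1 t']
      exact h
    rw [e.injective h2]
  · have h1 : Function.Surjective (Set.rangeFactorization (z n)) :=
      Set.rangeFactorization_surjective
    obtain ⟨w, hw⟩ := h1.hasRightInverse
    exact Cardinal.mk_le_of_injective (f := fun y => e (w y)) (by
      intro y y' h
      have := e.injective h
      rw [← hw y, ← hw y', this])
  · rw [dense_iff_inter_open]
    rintro U hU ⟨y, hy⟩
    obtain ⟨G, hG⟩ := exists_finite_nhd hU hy
    obtain ⟨F, hF⟩ := exists_separating ι hι G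
    -- a bound for the special coordinates
    obtain ⟨n, hn⟩ : ∃ n, ∀ m, n ≤ m → j m ∉ G := by
      have hfin : {m | j m ∈ G}.Finite := G.finite_toSet.preimage j.injective.injOn
      obtain ⟨B, hB⟩ := hfin.bddAbove
      exact ⟨B + 1, fun m hm hmG => by
        have := hB hmG
        omega⟩
    -- the finitely supported function
    have hφ : ∃ φ : Finset L →₀ L, ∀ i ∈ G, φ (F.filter (· ∈ ι i)) = y i := by
      let f : Finset L → L := fun S => if h : ∃ i ∈ G, F.filter (· ∈ ι i) = S then y h.choose else 0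
      refine ⟨Finsupp.onFinset (G.image fun i => F.filter (· ∈ ι i)) f ?_, ?_⟩
      · intro S hS
        by_contra hcon
        apply hS
        show (if h : ∃ i ∈ G, F.filter (· ∈ ι i) = S then y h.choose else 0) = 0
        rw [dif_neg]
        rintro ⟨i, hi, h⟩
        exact hcon (Finset.mem_image.2 ⟨i, hi, h⟩)
      · intro i hi
        have hex : ∃ i' ∈ G, F.filter (· ∈ ι i') = F.filter (· ∈ ι i) := ⟨i, hi, rfl⟩
        show (if h : ∃ i' ∈ G, F.filter (· ∈ ι i') = F.filter (· ∈ ι i) then y h.choose else 0)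
          = y i
        rw [dif_pos hex]
        have h1 := hex.choose_spec
        have h2 : hex.choose = i := by
          apply hF _ h1.1 _ hi
          intro l hl
          have h3 : l ∈ F.filter (· ∈ ι hex.choose) ↔ l ∈ F.filter (· ∈ ι i) := by rw [h1.2]
          simpa [hl] using h3
        rw [h2]
    obtain ⟨φ, hφ⟩ := hφ
    refine ⟨z n (F, φ), hG _ ?_, mem_iUnion.2 ⟨n, (F, φ), rfl⟩⟩
    intro i hi
    have : ¬ ∃ m, n ≤ m ∧ i = j m := by
      rintro ⟨m, hm, rfl⟩
      exact hn m hm hi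
    show (if ∃ m, n ≤ m ∧ i = j m then e (F, φ) else x (F, φ) i) = y i
    rw [if_neg this]
    exact hφ i hi

theorem eSeparable_power (hI : #I ≤ 2 ^ #L) : ESeparable (I → L) := by
  obtain ⟨E, h1, h2⟩ := exists_dense_power hI
  exact ⟨E, fun n => (h1 n).1, h2⟩

end powers

/-- Cantor cubes of weight at most `𝔠` are `e`-separable. -/
theorem eSeparable_cube {I : Type} [Infinite I] (hI : #I ≤ 2 ^ ℵ₀) : ESeparable (I → Bool) := by
  obtain ⟨E, hE, hd⟩ := exists_dense_power (I := I) (L := ℕ) (by rwa [Cardinal.mk_nat])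
  have hc : (⋃ n, E n).Countable := countable_iUnion fun n => by
    have := (hE n).2
    rw [Cardinal.mk_nat, Cardinal.le_aleph0_iff_set_countable] at this
    exact this
  let f : ℕ → Bool := fun n => decide (n = 0)
  have hf : Function.Surjective f := by
    intro b
    cases b with
    | false => exact ⟨1, rfl⟩
    | true => exact ⟨0, rfl⟩
  let g : (I → ℕ) → (I → Bool) := fun x i => f (x i)
  have hg : Continuous g := continuous_pi fun i =>
    (continuous_of_discreteTopology (f := f)).comp (continuous_apply i)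
  have hgs : Function.Surjective g := by
    intro y
    choose x hx using fun i => hf (y i)
    exact ⟨x, funext hx⟩
  have hd2 : Dense (g '' ⋃ n, E n) := hgs.denseRange.dense_image hg hd
  have hc2 : (g '' ⋃ n, E n).Countable := hc.image g
  obtain ⟨q, hq⟩ := hc2.exists_eq_range hd2.nonempty
  refine ⟨fun n => {q n}, fun n => closedDiscrete_of fun x => ?_, ?_⟩
  · by_cases hx : x = q n
    · exact ⟨univ, isOpen_univ, trivial, fun y hy _ => (show y = q n from hy).trans hx.symm⟩
    · exact ⟨{q n}ᶜ, isOpen_compl_singleton, hx, fun y hy hy' => absurd hy hy'⟩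
  · rw [iUnion_singleton_eq_range, ← hq]
    exact hd2

end Pool.Agent.R828.ESep
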