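import Mathlib

/-!
# Balleans of group ideals
-/

namespace Pool.Agent.R828.GIdeal

open Set

universe u

/-- `E[A]`: the points `y` with `(a, y) ∈ E` for some `a ∈ A`. -/
def img {X : Type u} (E : Set (X × X)) (A : Set X) : Set X := {y | ∃ a ∈ A, (a, y) ∈ E}

/-- The axioms of a ballean. -/
def IsBallean {X : Type u} (ℰ : Set (Set (X × X))) : Prop :=
  (∀ E ∈ ℰ, ∀ x, (x, x) ∈ E) ∧
  (∀ E ∈ ℰ, ∀ F ∈ ℰ, ∃ D ∈ ℰ, {p : X × X | ∃ z, (p.1, z) ∈ E ∧ (p.2, z) ∈ F} ⊆ D) ∧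
  ∀ x y, ∃ E ∈ ℰ, (x, y) ∈ E

/-- Bounded sets of a ballean. -/
def Bounded {X : Type u} (ℰ : Set (Set (X × X))) (B : Set X) : Prop :=
  ∃ E ∈ ℰ, ∃ x, B ⊆ img E {x}

/-- Asymptotically disjoint sets. -/
def AsympDisjoint {X : Type u} (ℰ : Set (Set (X × X))) (A B : Set X) : Prop :=
  ∀ E ∈ ℰ, Bounded ℰ (img E A ∩ img E B)

/-- Asymptotic neighbourhoods. -/
def AsympNhd {X : Type u} (ℰ : Set (Set (X × X))) (A U : Set X) : Prop :=
  ∀ E ∈ ℰ, Bounded ℰ (img E A \ U)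

/-- Normal balleans. -/
def IsNormal {X : Type u} (ℰ : Set (Set (X × X))) : Prop :=
  ∀ A B : Set X, AsympDisjoint ℰ A B →
    ∃ U V : Set X, Disjoint U V ∧ AsympNhd ℰ A U ∧ AsympNhd ℰ B V

/-- Group ideals. -/
def IsGroupIdeal {G : Type u} [Group G] (ℐ : Set (Set G)) : Prop :=
  (∀ A ∈ ℐ, ∀ B ⊆ A, B ∈ ℐ) ∧ (∀ A ∈ ℐ, ∀ B ∈ ℐ, A ∪ B ∈ ℐ) ∧ Set.univ ∉ ℐ ∧
    (∀ A : Set G, A.Finite → A ∈ ℐ) ∧
    ∀ A ∈ ℐ, ∀ B ∈ ℐ, {g | ∃ a ∈ A, ∃ b ∈ B, g = a * b⁻¹} ∈ ℐ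

/-- The entourage `E_A = {(x, y) : y ∈ A x ∪ {x}}`. -/
def entourage {G : Type u} [Group G] (A : Set G) : Set (G × G) :=
  {p | p.2 = p.1 ∨ ∃ a ∈ A, p.2 = a * p.1}

/-- The entourages of a group ideal. -/
def ent {G : Type u} [Group G] (ℐ : Set (Set G)) : Set (Set (G × G)) := entourage '' ℐ

/-- A base which is linearly ordered by inclusion. -/
def HasLinearBase {G : Type u} (ℐ : Set (Set G)) : Prop :=
  ∃ 𝓑 ⊆ ℐ, IsChain (· ⊆ ·) 𝓑 ∧ ∀ A ∈ ℐ, ∃ B ∈ 𝓑, A ⊆ B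

section general

variable {G : Type u} [Group G] {ℐ : Set (Set G)}

theorem inv_mem (h : IsGroupIdeal ℐ) {A : Set G} (hA : A ∈ ℐ) : {g | ∃ a ∈ A, g = a⁻¹} ∈ ℐ := by
  have h1 := h.2.2.2.2 {1} (h.2.2.2.1 _ (Set.finite_singleton 1)) A hA
  refine h.1 _ h1 _ ?_
  rintro g ⟨a, ha, rfl⟩
  exact ⟨1, rfl, a, ha, by simp⟩

theorem mul_mem (h : IsGroupIdeal ℐ) {A B : Set G} (hA : A ∈ ℐ) (hB : B ∈ ℐ) :
    {g | ∃ a ∈ A, ∃ b ∈ B, g = a * b} ∈ ℐ := by
  have h1 := h.2.2.2.2 A hA _ (inv_mem h hB)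
  refine h.1 _ h1 _ ?_
  rintro g ⟨a, ha, b, hb, rfl⟩
  exact ⟨a, ha, b⁻¹, ⟨b, hb, rfl⟩, by simp⟩

theorem img_mem (h : IsGroupIdeal ℐ) {A B : Set G} (hA : A ∈ ℐ) (hB : B ∈ ℐ) :
    img (entourage A) B ∈ ℐ := by
  refine h.1 _ (h.2.1 _ hB _ (mul_mem h hA hB)) _ ?_
  rintro y ⟨x, hx, h1 | ⟨a, ha, h1⟩⟩
  · left
    simp only at h1
    rwa [h1]
  · right
    exact ⟨a, ha, x, hx, h1⟩

theorem bounded_iff (h : IsGroupIdeal ℐ) {B : Set G} : Bounded (ent ℐ) B ↔ B ∈ ℐ := by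
  constructor
  · rintro ⟨_, ⟨A, hA, rfl⟩, x, hB⟩
    exact h.1 _ (img_mem h hA (h.2.2.2.1 _ (Set.finite_singleton x))) _ hB
  · intro hB
    refine ⟨_, ⟨B, hB, rfl⟩, 1, ?_⟩
    intro b hb
    exact ⟨1, rfl, Or.inr ⟨b, hb, by simp⟩⟩

theorem isBallean (h : IsGroupIdeal ℐ) : IsBallean (ent ℐ) := by
  refine ⟨?_, ?_, ?_⟩
  · rintro _ ⟨A, hA, rfl⟩ x
    exact Or.inl rfl
  · rintro _ ⟨A, hA, rfl⟩ _ ⟨B, hB, rfl⟩
    refine ⟨_, ⟨A ∪ ({g | ∃ b ∈ B, g = b⁻¹} ∪ {g | ∃ b ∈ {g | ∃ b ∈ B, g = b⁻¹}, ∃ a ∈ A,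
      g = b * a}), h.2.1 _ hA _ (h.2.1 _ (inv_mem h hB) _ (mul_mem h (inv_mem h hB) hA)), rfl⟩, ?_⟩
    rintro ⟨x, y⟩ ⟨z, h1 | ⟨a, ha, h1⟩, h2 | ⟨b, hb, h2⟩⟩ <;> simp only at h1 h2
    · left
      simp only
      rw [← h1, ← h2]
    · right
      refine ⟨b⁻¹, Or.inr (Or.inl ⟨b, hb, rfl⟩), ?_⟩
      simp only
      rw [← h1, h2]
      simp
    · right
      refine ⟨a, Or.inl ha, ?_⟩
      simp only
      rw [← h1, ← h2]
    · right
      refine ⟨b⁻¹ * a, Or.inr (Or.inr ⟨b⁻¹, ⟨b, hb, rfl⟩, a, ha, rfl⟩), ?_⟩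
      simp only
      rw [mul_assoc, ← h1, h2]
      simp
  · intro x y
    refine ⟨_, ⟨{y * x⁻¹}, h.2.2.2.1 _ (Set.finite_singleton _), rfl⟩, Or.inr ⟨_, rfl, ?_⟩⟩
    simp

/-- If no two unbounded sets are asymptotically disjoint, then the ballean is normal. -/
theorem isNormal_of_ultranormal (h : IsGroupIdeal ℐ)
    (h2 : ∀ A B : Set G, A ∉ ℐ → B ∉ ℐ → ¬ AsympDisjoint (ent ℐ) A B) : IsNormal (ent ℐ) := by
  intro A B hAB
  by_cases hA : A ∈ ℐ
  · refine ⟨∅, Set.univ, Set.empty_disjoint _, ?_, ?_⟩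
    · rintro _ ⟨C, hC, rfl⟩
      rw [bounded_iff h, Set.sdiff_empty]
      exact img_mem h hC hA
    · rintro _ ⟨C, hC, rfl⟩
      rw [bounded_iff h, Set.sdiff_univ]
      exact h.2.2.2.1 _ Set.finite_empty
  · by_cases hB : B ∈ ℐ
    · refine ⟨Set.univ, ∅, Set.disjoint_empty _, ?_, ?_⟩
      · rintro _ ⟨C, hC, rfl⟩
        rw [bounded_iff h, Set.sdiff_univ]
        exact h.2.2.2.1 _ Set.finite_empty
      · rintro _ ⟨C, hC, rfl⟩
        rw [bounded_iff h, Set.sdiff_empty]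
        exact img_mem h hC hB
    · exact absurd hAB (h2 A B hA hB)

/-- In a countable group, a group ideal with a linear base has a countable one. -/
theorem countable_base_of_linear [Countable G] (h : IsGroupIdeal ℐ) (hl : HasLinearBase ℐ) :
    ∃ S : G → Set G, (∀ g, S g ∈ ℐ) ∧ ∀ A ∈ ℐ, ∃ g, A ⊆ S g := by
  obtain ⟨𝓑, h1, h2, h3⟩ := hl
  have hex : ∀ g : G, ∃ B ∈ 𝓑, g ∈ B := fun g => by
    obtain ⟨B, hB, hg⟩ := h3 {g} (h.2.2.2.1 _ (Set.finite_singleton g))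
    exact ⟨B, hB, hg rfl⟩
  choose S hS1 hS2 using hex
  refine ⟨S, fun g => h1 (hS1 g), ?_⟩
  intro A hA
  obtain ⟨B, hB, hAB⟩ := h3 A hA
  have hne : B ≠ Set.univ := by
    rintro rfl
    exact h.2.2.1 (h1 hB)
  obtain ⟨g, hg⟩ := (Set.ne_univ_iff_exists_notMem B).1 hne
  refine ⟨g, hAB.trans ?_⟩
  rcases h2.total hB (hS1 g) with h4 | h4
  · exact h4
  · exact absurd (h4 (hS2 g)) hg

end general

/-! ### The example -/

/-- The group of finite subsets of `ℕ` (finitely supported functions modulo `2`). -/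
abbrev H : Type := Multiplicative (ℕ →₀ ZMod 2)

/-- The inclusion of `H` in the Cantor group. -/
def val (g : H) : ℕ → ZMod 2 := ⇑(Multiplicative.toAdd g)

theorem val_mul (a b : H) : val (a * b) = val a + val b := by
  unfold val
  rw [toAdd_mul]
  rfl

theorem val_inv (a : H) : val a⁻¹ = - val a := by
  unfold val
  rw [toAdd_inv]
  rfl

/-- The ideal of the sets whose closure in the Cantor group consists of (characteristic functions
of) sets which are not in the ultrafilter. -/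
def KI (q : Ultrafilter ℕ) : Set (Set H) :=
  {A | ∀ f ∈ closure (val '' A), {n | f n ≠ 0} ∉ q}

theorem mem_closure_agree {S : Set (ℕ → ZMod 2)} {α : ℕ → ZMod 2} :
    α ∈ closure S ↔ ∀ m : ℕ, ∃ f ∈ S, ∀ n < m, f n = α n := by
  constructor
  · intro h m
    have ho : IsOpen ((Set.Iio m).pi fun n => ({α n} : Set (ZMod 2))) :=
      isOpen_set_pi (Set.finite_Iio m) fun _ _ => isOpen_discrete _
    obtain ⟨f, hf, hfS⟩ := mem_closure_iff.1 h _ ho (by
      intro n _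
      rfl)
    exact ⟨f, hfS, fun n hn => hf n hn⟩
  · intro h
    rw [mem_closure_iff]
    intro o ho hα
    obtain ⟨I, u, hu, hI⟩ := isOpen_pi_iff.1 ho α hα
    obtain ⟨m, hm⟩ : ∃ m, ∀ n ∈ I, n < m := ⟨I.sup id + 1, fun n hn => by
      have : n ≤ I.sup id := Finset.le_sup (f := id) hn
      omega⟩
    obtain ⟨f, hfS, hf⟩ := h m
    refine ⟨f, hI ?_, hfS⟩
    intro n hn
    rw [hf n (hm n hn)]
    exact (hu n hn).2

theorem exists_val (s : Set ℕ) (hs : s.Finite) : ∃ g : H, ∀ n, (n ∈ s → val g n = 1) ∧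
    (n ∉ s → val g n = 0) := by
  classical
  refine ⟨Multiplicative.ofAdd (Finsupp.indicator hs.toFinset fun _ _ => 1), ?_⟩
  intro n
  unfold val
  rw [toAdd_ofAdd]
  constructor
  · intro hn
    rw [Finsupp.indicator_of_mem (by simpa using hn)]
  · intro hn
    rw [Finsupp.indicator_of_notMem (by simpa using hn)]

theorem val_bound (g : H) : ∃ m, ∀ n, m ≤ n → val g n = 0 := by
  refine ⟨(Multiplicative.toAdd g).support.sup id + 1, ?_⟩
  intro n hn
  unfold val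
  by_contra h
  have h1 : n ∈ (Multiplicative.toAdd g).support := Finsupp.mem_support_iff.2 h
  have : n ≤ (Multiplicative.toAdd g).support.sup id := Finset.le_sup (f := id) h1
  omega

variable {q : Ultrafilter ℕ}

theorem univ_notMem (hq : ∀ s : Set ℕ, s.Finite → s ∉ q) : Set.univ ∉ KI q := by
  intro h
  have h1 : (fun _ => 1 : ℕ → ZMod 2) ∈ closure (val '' Set.univ) := by
    rw [mem_closure_agree]
    intro m
    obtain ⟨g, hg⟩ := exists_val (Set.Iio m) (Set.finite_Iio m)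
    exact ⟨val g, ⟨g, trivial, rfl⟩, fun n hn => (hg n).1 hn⟩
  apply h _ h1
  have : {n : ℕ | (fun _ => 1 : ℕ → ZMod 2) n ≠ 0} = Set.univ := by
    ext n
    simp
  rw [this]
  exact Filter.univ_mem

theorem isGroupIdeal (hq : ∀ s : Set ℕ, s.Finite → s ∉ q) : IsGroupIdeal (KI q) := by
  refine ⟨?_, ?_, univ_notMem hq, ?_, ?_⟩
  · intro A hA B hBA f hf
    exact hA f (closure_mono (Set.image_mono hBA) hf)
  · intro A hA B hB f hf
    rw [Set.image_union, closure_union] at hf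
    rcases hf with hf | hf
    · exact hA f hf
    · exact hB f hf
  · intro A hA f hf
    rw [((hA.image val).isClosed).closure_eq] at hf
    obtain ⟨g, -, rfl⟩ := hf
    apply hq
    obtain ⟨m, hm⟩ := val_bound g
    refine (Set.finite_Iio m).subset ?_
    intro n hn
    by_contra h
    exact hn (hm n (not_lt.1 h))
  · intro A hA B hB f hf
    have hc : IsClosed ((fun p : (ℕ → ZMod 2) × (ℕ → ZMod 2) => p.1 - p.2) ''
        (closure (val '' A) ×ˢ closure (val '' B))) :=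
      ((isClosed_closure.isCompact.prod isClosed_closure.isCompact).image (by fun_prop)).isClosed
    have hsub : val '' {g | ∃ a ∈ A, ∃ b ∈ B, g = a * b⁻¹} ⊆
        (fun p : (ℕ → ZMod 2) × (ℕ → ZMod 2) => p.1 - p.2) ''
        (closure (val '' A) ×ˢ closure (val '' B)) := by
      rintro _ ⟨_, ⟨a, ha, b, hb, rfl⟩, rfl⟩
      rw [val_mul, val_inv, ← sub_eq_add_neg]
      exact ⟨(val a, val b), ⟨subset_closure ⟨a, ha, rfl⟩, subset_closure ⟨b, hb, rfl⟩⟩, rfl⟩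
    obtain ⟨⟨f1, f2⟩, ⟨hf1, hf2⟩, rfl⟩ := closure_minimal hsub hc hf
    simp only at hf1 hf2
    intro hfq
    have h1 : {n | f1 n ≠ 0} ∪ {n | f2 n ≠ 0} ∈ q := by
      refine Filter.mem_of_superset hfq ?_
      intro n hn
      by_contra hcon
      simp only [Set.mem_union, Set.mem_ofPred_eq, not_or, not_not] at hcon
      apply hn
      simp only
      rw [Pi.sub_apply, hcon.1, hcon.2, sub_zero]
    rcases Ultrafilter.union_mem_iff.1 h1 with h2 | h2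
    · exact hA f1 hf1 h2
    · exact hB f2 hf2 h2

theorem zmod2_eq_one {x : ZMod 2} (h : x ≠ 0) : x = 1 := by
  revert x
  decide

/-- **Key lemma**: no two sets outside the ideal are asymptotically disjoint. -/
theorem not_asympDisjoint (hq : ∀ s : Set ℕ, s.Finite → s ∉ q) (A B : Set H) (hA : A ∉ KI q)
    (hB : B ∉ KI q) : ¬ AsympDisjoint (ent (KI q)) A B := by
  classical
  intro hdis
  unfold KI at hA hB
  simp only [Set.mem_ofPred_eq, not_forall, not_not] at hA hB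
  obtain ⟨α, hα, hαq⟩ := hA
  obtain ⟨β, hβ, hβq⟩ := hB
  rw [mem_closure_agree] at hα hβ
  have hstep : ∀ m : ℕ, ∃ a ∈ A, ∃ b ∈ B, ∃ m', m < m' ∧ (∀ n < m, val a n = α n) ∧
      (∀ n < m, val b n = β n) ∧ ∀ n, m' ≤ n → val a n = 0 ∧ val b n = 0 := by
    intro m
    obtain ⟨_, ⟨a, ha, rfl⟩, ha2⟩ := hα m
    obtain ⟨_, ⟨b, hb, rfl⟩, hb2⟩ := hβ m
    obtain ⟨k, hk⟩ := val_bound a
    obtain ⟨l, hl⟩ := val_bound b
    refine ⟨a, ha, b, hb, max (m + 1) (max k l), ?_, ha2, hb2, ?_⟩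
    · exact lt_of_lt_of_le (Nat.lt_succ_self m) (le_max_left _ _)
    · intro n hn
      exact ⟨hk n ((le_max_left k l).trans ((le_max_right _ _).trans hn)),
        hl n ((le_max_right k l).trans ((le_max_right _ _).trans hn))⟩
  choose a ha b hb nx hnx haα hbβ hzero using hstep
  let μ : ℕ → ℕ := fun k => Nat.rec 0 (fun _ m => nx m) k
  have hμ : ∀ k, μ (k + 1) = nx (μ k) := fun k => rfl
  have hμmono : StrictMono μ := strictMono_nat_of_lt_succ fun k => by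
    rw [hμ]
    exact hnx _
  let J : ℕ → Set ℕ := fun ε => {n | ∃ k, μ (2 * k + ε) ≤ n ∧ n < μ (2 * k + ε + 1)}
  obtain ⟨ε, hε⟩ : ∃ ε, J ε ∉ q := by
    by_contra hcon
    push Not at hcon
    have h1 : J 0 ∩ J 1 ∈ q := Filter.inter_mem (hcon 0) (hcon 1)
    obtain ⟨n, ⟨k, hk1, hk2⟩, l, hl1, hl2⟩ := q.neBot.nonempty_of_mem h1
    have h2 : 2 * k + 0 < 2 * l + 1 + 1 := hμmono.lt_iff_lt.1 (lt_of_le_of_lt hk1 hl2)
    have h3 : 2 * l + 1 < 2 * k + 0 + 1 := hμmono.lt_iff_lt.1 (lt_of_le_of_lt hl1 hk2)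
    omega
  let M : Set ℕ := ({n | α n ≠ 0} ∩ {n | β n ≠ 0}) ∩ (J ε)ᶜ
  have hM : M ∈ q := Filter.inter_mem (Filter.inter_mem hαq hβq)
    (Ultrafilter.compl_mem_iff_notMem.2 hε)
  let T : Set H := {g | ∀ n ∈ M, val g n = 0}
  have hT : T ∈ KI q := by
    intro f hf hfq
    obtain ⟨n, hn1, hn2⟩ := q.neBot.nonempty_of_mem (Filter.inter_mem hM hfq)
    obtain ⟨_, ⟨g, hg, rfl⟩, h1⟩ := mem_closure_agree.1 hf (n + 1)
    apply hn2
    rw [← h1 n (Nat.lt_succ_self n)]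
    exact hg n hn1
  have hbd := (bounded_iff (isGroupIdeal hq)).1 (hdis _ ⟨T, hT, rfl⟩)
  -- the limit point
  obtain ⟨γ, hγM, hγM'⟩ : ∃ γ : ℕ → ZMod 2, (∀ n ∈ M, γ n = 1) ∧ ∀ n, n ∉ M → γ n = 0 :=
    ⟨M.indicator fun _ => 1, fun n hn => Set.indicator_of_mem hn _,
      fun n hn => Set.indicator_of_notMem hn _⟩
  have hγ : γ ∈ closure (val '' (img (entourage T) A ∩ img (entourage T) B)) := by
    rw [mem_closure_agree]
    intro m
    obtain ⟨z, hz⟩ := exists_val (M ∩ Set.Iio (μ (2 * m + ε)))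
      ((Set.finite_Iio _).subset Set.inter_subset_right)
    have hkey : ∀ c : H, (∀ n < μ (2 * m + ε), n ∈ M → val c n = 1) →
        (∀ n, μ (2 * m + ε + 1) ≤ n → val c n = 0) → z * c⁻¹ ∈ T := by
      intro c hc1 hc2 n hn
      rw [val_mul, val_inv, Pi.add_apply, Pi.neg_apply]
      rcases lt_or_ge n (μ (2 * m + ε)) with h1 | h1
      · rw [(hz n).1 ⟨hn, h1⟩, hc1 n h1 hn]
        decide
      · have h3 : n ∉ M ∩ Set.Iio (μ (2 * m + ε)) := fun h => absurd h.2 (not_lt.2 h1)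
        have h4 : μ (2 * m + ε + 1) ≤ n := by
          by_contra h2
          exact hn.2 ⟨m, h1, not_le.1 h2⟩
        rw [(hz n).2 h3, hc2 n h4]
        simp
    refine ⟨val z, ⟨z, ⟨⟨a (μ (2 * m + ε)), ha _, Or.inr ⟨_, hkey (a (μ (2 * m + ε))) ?_ ?_, ?_⟩⟩,
      ⟨b (μ (2 * m + ε)), hb _, Or.inr ⟨_, hkey (b (μ (2 * m + ε))) ?_ ?_, ?_⟩⟩⟩, rfl⟩, ?_⟩
    · intro n hn hnM
      rw [haα _ n hn]
      exact zmod2_eq_one hnM.1.1
    · intro n hn
      exact (hzero _ n (by rw [← hμ]; exact hn)).1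
    · simp
    · intro n hn hnM
      rw [hbβ _ n hn]
      exact zmod2_eq_one hnM.1.2
    · intro n hn
      exact (hzero _ n (by rw [← hμ]; exact hn)).2
    · simp
    · intro n hn
      have h1 : n < μ (2 * m + ε) := by
        have : 2 * m + ε ≤ μ (2 * m + ε) := hμmono.id_le _
        omega
      rcases Classical.em (n ∈ M) with hnM | hnM
      · rw [(hz n).1 ⟨hnM, h1⟩, hγM n hnM]
      · have h3 : n ∉ M ∩ Set.Iio (μ (2 * m + ε)) := fun h => absurd h.1 hnM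
        rw [(hz n).2 h3, hγM' n hnM]
  apply hbd γ hγ
  refine Filter.mem_of_superset hM ?_
  intro n hn
  rw [Set.mem_ofPred_eq, hγM n hn]
  decide

/-- The ideal has no linearly ordered base. -/
theorem not_hasLinearBase (hq : ∀ s : Set ℕ, s.Finite → s ∉ q) : ¬ HasLinearBase (KI q) := by
  classical
  intro hl
  have hct : Countable H := inferInstanceAs (Countable (ℕ →₀ ZMod 2))
  obtain ⟨S, hS1, hS2⟩ := countable_base_of_linear (isGroupIdeal hq) hl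
  -- sets outside the ultrafilter are covered
  have hcov : ∀ f : ℕ → ZMod 2, {n | f n ≠ 0} ∉ q → ∃ g, f ∈ closure (val '' S g) := by
    intro f hf
    obtain ⟨g, hg⟩ := hS2 {h | ∀ n, f n = 0 → val h n = 0} (by
      intro f' hf' hfq
      have h1 : {n | f n ≠ 0}ᶜ ∈ q := Ultrafilter.compl_mem_iff_notMem.2 hf
      obtain ⟨n, hn1, hn2⟩ := q.neBot.nonempty_of_mem (Filter.inter_mem h1 hfq)
      obtain ⟨_, ⟨g, hg, rfl⟩, h2⟩ := mem_closure_agree.1 hf' (n + 1)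
      apply hn2
      rw [← h2 n (Nat.lt_succ_self n)]
      exact hg n (not_not.1 hn1))
    refine ⟨g, mem_closure_agree.2 fun m => ?_⟩
    obtain ⟨z, hz⟩ := exists_val ({n | f n ≠ 0} ∩ Set.Iio m)
      ((Set.finite_Iio _).subset Set.inter_subset_right)
    refine ⟨val z, ⟨z, hg ?_, rfl⟩, ?_⟩
    · intro n hn
      exact (hz n).2 fun h => h.1 hn
    · intro n hn
      by_cases h : f n = 0
      · rw [h]
        exact (hz n).2 fun h' => h'.1 h
      · rw [zmod2_eq_one h]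
        exact (hz n).1 ⟨h, hn⟩
  -- a countable closed cover of the Cantor group
  let K : H ⊕ H → Set (ℕ → ZMod 2) := fun i => match i with
    | Sum.inl g => closure (val '' S g)
    | Sum.inr g => (fun f => 1 + f) ⁻¹' closure (val '' S g)
  have hK : ∀ i, IsClosed (K i) := by
    rintro (g | g)
    · exact isClosed_closure
    · exact isClosed_closure.preimage (by fun_prop)
  have hU : ⋃ i, K i = Set.univ := by
    rw [Set.eq_univ_iff_forall]
    intro f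
    by_cases hf : {n | f n ≠ 0} ∈ q
    · obtain ⟨g, hg⟩ := hcov (1 + f) (by
        intro h1
        obtain ⟨n, hn1, hn2⟩ := q.neBot.nonempty_of_mem (Filter.inter_mem hf h1)
        apply hn2
        rw [Pi.add_apply, Pi.one_apply, zmod2_eq_one hn1]
        decide)
      exact Set.mem_iUnion.2 ⟨Sum.inr g, hg⟩
    · obtain ⟨g, hg⟩ := hcov f hf
      exact Set.mem_iUnion.2 ⟨Sum.inl g, hg⟩
  obtain ⟨i, f0, hf0⟩ := nonempty_interior_of_iUnion_of_closed hK hU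
  rw [mem_interior] at hf0
  obtain ⟨o, ho1, ho2, ho3⟩ := hf0
  obtain ⟨I, u, hu, hI⟩ := isOpen_pi_iff.1 ho2 f0 ho3
  -- functions which are eventually `1` or eventually `0`
  have hmod : ∀ c : ZMod 2, (fun n => if n ∈ I then f0 n else c) ∈ K i := by
    intro c
    apply ho1
    apply hI
    intro n hn
    have hn' : n ∈ I := hn
    simp only [if_pos hn']
    exact (hu n hn').2
  have hcof : ∀ P : Set ℕ, {n | n ∉ I} ⊆ P → P ∈ q := by
    intro P hP
    by_contra h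
    have h1 : Pᶜ ∈ q := Ultrafilter.compl_mem_iff_notMem.2 h
    refine hq _ (I.finite_toSet.subset ?_) h1
    intro n hn
    by_contra hnI
    exact hn (hP hnI)
  rcases i with g | g
  · have h1 := hS1 g _ (hmod 1)
    apply h1
    apply hcof
    intro n hn
    have hn' : n ∉ I := hn
    simp only [Set.mem_ofPred_eq, if_neg hn']
    decide
  · have h1 := hS1 g _ (hmod 0)
    apply h1
    apply hcof
    intro n hn
    have hn' : n ∉ I := hn
    simp only [Set.mem_ofPred_eq, Pi.add_apply, Pi.one_apply, if_neg hn']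
    decide

end Pool.Agent.R828.GIdeal
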