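import Mathlib

/-!
# Functions of the first functional Lebesgue class: definitions and calculus
-/

namespace Pool.Agent.R828.KOne

open Set TopologicalSpace Topology

universe u v

/-- Functionally closed sets. -/
def FClosed {X : Type u} [TopologicalSpace X] (A : Set X) : Prop :=
  ∃ f : X → ℝ, Continuous f ∧ (∀ x, f x ∈ Set.Icc (0 : ℝ) 1) ∧ A = {x | f x = 0}

/-- The first functionally additive class. -/
def Add1 {X : Type u} [TopologicalSpace X] (A : Set X) : Prop :=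
  ∃ Z : ℕ → Set X, (∀ n, FClosed (Z n)) ∧ A = ⋃ n, Z n

/-- The first functional Lebesgue class `K₁`. -/
def K1 {X : Type u} [TopologicalSpace X] (f : X → ℝ) : Prop :=
  ∀ V : Set ℝ, IsOpen V → Add1 (f ⁻¹' V)

/-- Bounded real-valued functions. -/
def BoundedFun {Y : Type u} (f : Y → ℝ) : Prop := ∃ C, ∀ y, |f y| ≤ C

/-- `K₁`-embedded subspaces. -/
def K1Embedded {X : Type u} [TopologicalSpace X] (E : Set X) : Prop :=
  ∀ f : E → ℝ, K1 f → ∃ g : X → ℝ, K1 g ∧ ∀ x : E, g x = f x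

/-- `K₁*`-embedded subspaces. -/
def K1StarEmbedded {X : Type u} [TopologicalSpace X] (E : Set X) : Prop :=
  ∀ f : E → ℝ, K1 f → BoundedFun f → ∃ g : X → ℝ, K1 g ∧ BoundedFun g ∧ ∀ x : E, g x = f x

section calculus

variable {X : Type u} [TopologicalSpace X]

theorem FClosed.isClosed {A : Set X} (h : FClosed A) : IsClosed A := by
  obtain ⟨f, hf, -, rfl⟩ := h
  exact isClosed_eq hf continuous_const

theorem FClosed.iInter {A : ℕ → Set X} (h : ∀ n, FClosed (A n)) : FClosed (⋂ n, A n) := by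
  choose f hf1 hf2 hf3 using h
  have hs : Summable fun n : ℕ => (1 : ℝ) / 2 / 2 ^ n := summable_geometric_two' 1
  have hpos : ∀ n : ℕ, (0 : ℝ) < 1 / 2 / 2 ^ n := fun n => by positivity
  have hle : ∀ n x, (1 : ℝ) / 2 / 2 ^ n * f n x ≤ 1 / 2 / 2 ^ n := fun n x =>
    mul_le_of_le_one_right (hpos n).le (hf2 n x).2
  have hnn : ∀ n x, 0 ≤ (1 : ℝ) / 2 / 2 ^ n * f n x := fun n x =>
    mul_nonneg (hpos n).le (hf2 n x).1
  have hsum : ∀ x, Summable fun n : ℕ => (1 : ℝ) / 2 / 2 ^ n * f n x := fun x =>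
    Summable.of_nonneg_of_le (fun n => hnn n x) (fun n => hle n x) hs
  refine ⟨fun x => ∑' n : ℕ, (1 : ℝ) / 2 / 2 ^ n * f n x, ?_, ?_, ?_⟩
  · refine continuous_tsum (fun n => (continuous_const.mul (hf1 n))) hs ?_
    intro n x
    rw [Real.norm_of_nonneg (hnn n x)]
    exact hle n x
  · intro x
    refine ⟨tsum_nonneg fun n => hnn n x, ?_⟩
    calc ∑' n : ℕ, (1 : ℝ) / 2 / 2 ^ n * f n x ≤ ∑' n : ℕ, (1 : ℝ) / 2 / 2 ^ n :=
          (hsum x).tsum_le_tsum (fun n => hle n x) hs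
      _ = 1 := tsum_geometric_two' 1
  · ext x
    rw [Set.mem_iInter]
    constructor
    · intro hx
      have : ∀ n, (1 : ℝ) / 2 / 2 ^ n * f n x = 0 := by
        intro n
        have h1 := hx n
        rw [hf3 n] at h1
        have h2 : f n x = 0 := h1
        rw [h2, mul_zero]
      simp only [Set.mem_ofPred_eq, this, tsum_zero]
    · intro hx n
      have h1 : HasSum (fun n : ℕ => (1 : ℝ) / 2 / 2 ^ n * f n x) 0 := by
        have h2 : ∑' n : ℕ, (1 : ℝ) / 2 / 2 ^ n * f n x = 0 := hx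
        rw [← h2]
        exact (hsum x).hasSum
      have h3 := (hasSum_zero_iff_of_nonneg fun n => hnn n x).1 h1
      have h4 : (1 : ℝ) / 2 / 2 ^ n * f n x = 0 := congrFun h3 n
      rw [hf3 n]
      rcases mul_eq_zero.1 h4 with h5 | h5
      · exact absurd h5 (hpos n).ne'
      · exact h5

theorem fClosed_univ : FClosed (Set.univ : Set X) :=
  ⟨fun _ => 0, continuous_const, fun _ => ⟨le_rfl, zero_le_one⟩, by simp⟩

theorem FClosed.inter {A B : Set X} (hA : FClosed A) (hB : FClosed B) : FClosed (A ∩ B) := by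
  obtain ⟨f, hf1, hf2, rfl⟩ := hA
  obtain ⟨g, hg1, hg2, rfl⟩ := hB
  refine ⟨fun x => max (f x) (g x), hf1.max hg1, fun x => ⟨le_max_of_le_left (hf2 x).1,
    max_le (hf2 x).2 (hg2 x).2⟩, ?_⟩
  ext x
  simp only [Set.mem_inter_iff, Set.mem_ofPred_eq]
  constructor
  · rintro ⟨h1, h2⟩
    rw [h1, h2, max_self]
  · intro h
    exact ⟨le_antisymm (h ▸ le_max_left _ _) (hf2 x).1, le_antisymm (h ▸ le_max_right _ _)
      (hg2 x).1⟩

theorem fClosed_of_isClopen {A : Set X} (hA : IsClopen A) : FClosed A := by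
  classical
  refine ⟨Aᶜ.indicator fun _ => 1, hA.compl.continuous_indicator continuous_const, ?_, ?_⟩
  · intro x
    by_cases hx : x ∈ Aᶜ
    · rw [Set.indicator_of_mem hx]
      exact ⟨zero_le_one, le_rfl⟩
    · rw [Set.indicator_of_notMem hx]
      exact ⟨le_rfl, zero_le_one⟩
  · ext x
    by_cases hx : x ∈ A
    · simp [hx]
    · simp [hx]

theorem Add1.of_fClosed {A : Set X} (h : FClosed A) : Add1 A :=
  ⟨fun _ => A, fun _ => h, (Set.iUnion_const A).symm⟩

theorem Add1.iUnion {A : ℕ → Set X} (h : ∀ n, Add1 (A n)) : Add1 (⋃ n, A n) := by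
  choose Z hZ1 hZ2 using h
  refine ⟨fun k => Z k.unpair.1 k.unpair.2, fun k => hZ1 _ _, ?_⟩
  ext x
  simp only [Set.mem_iUnion]
  constructor
  · rintro ⟨n, hn⟩
    rw [hZ2 n] at hn
    obtain ⟨m, hm⟩ := Set.mem_iUnion.1 hn
    exact ⟨Nat.pair n m, by simpa using hm⟩
  · rintro ⟨k, hk⟩
    refine ⟨k.unpair.1, ?_⟩
    rw [hZ2]
    exact Set.mem_iUnion.2 ⟨_, hk⟩

theorem Add1.iUnion' {ι : Type v} [Countable ι] {A : ι → Set X} (h : ∀ n, Add1 (A n)) :
    Add1 (⋃ n, A n) := by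
  rcases isEmpty_or_nonempty ι with hι | hι
  · have : (⋃ n, A n) = ∅ := Set.iUnion_of_empty _
    rw [this]
    exact Add1.of_fClosed (fClosed_of_isClopen isClopen_empty)
  · obtain ⟨e, he⟩ := exists_surjective_nat ι
    rw [← he.iUnion_comp]
    exact Add1.iUnion fun n => h (e n)

theorem Add1.inter {A B : Set X} (hA : Add1 A) (hB : Add1 B) : Add1 (A ∩ B) := by
  obtain ⟨Z, hZ, rfl⟩ := hA
  obtain ⟨Z', hZ', rfl⟩ := hB
  rw [Set.iUnion_inter]
  refine Add1.iUnion fun n => ?_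
  rw [Set.inter_iUnion]
  exact Add1.iUnion fun m => Add1.of_fClosed ((hZ n).inter (hZ' m))

theorem Add1.union {A B : Set X} (hA : Add1 A) (hB : Add1 B) : Add1 (A ∪ B) := by
  rw [Set.union_eq_iUnion]
  exact Add1.iUnion' fun b => by cases b <;> assumption

theorem FClosed.add1_compl {A : Set X} (h : FClosed A) : Add1 Aᶜ := by
  obtain ⟨f, hf1, hf2, rfl⟩ := h
  refine ⟨fun n => {x | 1 / ((n : ℝ) + 1) ≤ f x}, ?_, ?_⟩
  · intro n
    have hpos : (0 : ℝ) < 1 / ((n : ℝ) + 1) := by positivity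
    have hle : 1 / ((n : ℝ) + 1) ≤ 1 := by
      rw [div_le_one (by positivity)]
      have : (0 : ℝ) ≤ n := Nat.cast_nonneg n
      linarith
    refine ⟨fun x => max (1 / ((n : ℝ) + 1) - f x) 0, ?_, ?_, ?_⟩
    · exact (continuous_const.sub hf1).max continuous_const
    · intro x
      refine ⟨le_max_right _ _, max_le ?_ zero_le_one⟩
      have := (hf2 x).1
      linarith
    · ext x
      simp only [Set.mem_ofPred_eq, max_eq_right_iff, sub_nonpos]
  · ext x
    simp only [Set.mem_compl_iff, Set.mem_ofPred_eq, Set.mem_iUnion]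
    constructor
    · intro hx
      have hpos : 0 < f x := lt_of_le_of_ne (hf2 x).1 (Ne.symm hx)
      obtain ⟨n, hn⟩ := exists_nat_one_div_lt hpos
      exact ⟨n, hn.le⟩
    · rintro ⟨n, hn⟩ hx
      rw [hx] at hn
      have hpos : (0 : ℝ) < 1 / ((n : ℝ) + 1) := by positivity
      linarith

/-- Ambiguous sets. -/
def Amb (A : Set X) : Prop := Add1 A ∧ Add1 Aᶜ

theorem Amb.compl {A : Set X} (h : Amb A) : Amb Aᶜ := ⟨h.2, by rw [compl_compl]; exact h.1⟩

theorem Amb.inter {A B : Set X} (hA : Amb A) (hB : Amb B) : Amb (A ∩ B) :=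
  ⟨hA.1.inter hB.1, by rw [Set.compl_inter]; exact hA.2.union hB.2⟩

theorem Amb.union {A B : Set X} (hA : Amb A) (hB : Amb B) : Amb (A ∪ B) :=
  ⟨hA.1.union hB.1, by rw [Set.compl_union]; exact hA.2.inter hB.2⟩

theorem Amb.diff {A B : Set X} (hA : Amb A) (hB : Amb B) : Amb (A \ B) := by
  rw [Set.sdiff_eq]
  exact hA.inter hB.compl

theorem FClosed.amb {A : Set X} (h : FClosed A) : Amb A := ⟨Add1.of_fClosed h, h.add1_compl⟩

theorem amb_univ : Amb (Set.univ : Set X) := fClosed_univ.amb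

theorem amb_empty : Amb (∅ : Set X) := (fClosed_of_isClopen isClopen_empty).amb

theorem Amb.biInter_fin {n : ℕ} {A : Fin n → Set X} (h : ∀ i, Amb (A i)) : Amb (⋂ i, A i) := by
  induction n with
  | zero =>
    have : (⋂ i, A i) = Set.univ := Set.iInter_of_empty _
    rw [this]
    exact amb_univ
  | succ n ih =>
    have : (⋂ i, A i) = A 0 ∩ ⋂ i : Fin n, A i.succ := by
      ext x
      simp only [Set.mem_iInter, Set.mem_inter_iff]
      constructor
      · intro hx
        exact ⟨hx 0, fun i => hx _⟩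
      · rintro ⟨h0, h1⟩ i
        refine Fin.cases h0 h1 i
    rw [this]
    exact (h 0).inter (ih fun i => h i.succ)

/-- Countable unions of clopen sets. -/
def Coz (U : Set X) : Prop := ∃ K : ℕ → Set X, (∀ n, IsClopen (K n)) ∧ U = ⋃ n, K n

theorem Coz.of_isClopen {U : Set X} (h : IsClopen U) : Coz U :=
  ⟨fun _ => U, fun _ => h, (Set.iUnion_const U).symm⟩

theorem Coz.iUnion {U : ℕ → Set X} (h : ∀ n, Coz (U n)) : Coz (⋃ n, U n) := by
  choose K hK1 hK2 using h
  refine ⟨fun k => K k.unpair.1 k.unpair.2, fun k => hK1 _ _, ?_⟩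
  ext x
  simp only [Set.mem_iUnion]
  constructor
  · rintro ⟨n, hn⟩
    rw [hK2 n] at hn
    obtain ⟨m, hm⟩ := Set.mem_iUnion.1 hn
    exact ⟨Nat.pair n m, by simpa using hm⟩
  · rintro ⟨k, hk⟩
    refine ⟨k.unpair.1, ?_⟩
    rw [hK2]
    exact Set.mem_iUnion.2 ⟨_, hk⟩

theorem Coz.union {U V : Set X} (hU : Coz U) (hV : Coz V) : Coz (U ∪ V) := by
  have : U ∪ V = ⋃ n : ℕ, if n = 0 then U else V := by
    ext x
    simp only [Set.mem_union, Set.mem_iUnion]
    constructor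
    · rintro (h | h)
      · exact ⟨0, by simpa using h⟩
      · exact ⟨1, by simpa using h⟩
    · rintro ⟨n, hn⟩
      by_cases h : n = 0
      · simp only [h, if_true] at hn
        exact Or.inl hn
      · simp only [h, if_false] at hn
        exact Or.inr hn
  rw [this]
  refine Coz.iUnion fun n => ?_
  by_cases h : n = 0
  · simp only [h, if_true]
    exact hU
  · simp only [h, if_false]
    exact hV

theorem Coz.fClosed_compl {U : Set X} (h : Coz U) : FClosed Uᶜ := by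
  obtain ⟨K, hK, rfl⟩ := h
  rw [Set.compl_iUnion]
  exact FClosed.iInter fun n => fClosed_of_isClopen (hK n).compl

theorem Coz.amb {U : Set X} (h : Coz U) : Amb U := by
  have := h.fClosed_compl.amb.compl
  rwa [compl_compl] at this

theorem FClosed.preimage {Y : Type v} [TopologicalSpace Y] {A : Set X} (h : FClosed A)
    {φ : Y → X} (hφ : Continuous φ) : FClosed (φ ⁻¹' A) := by
  obtain ⟨f, hf1, hf2, rfl⟩ := h
  exact ⟨f ∘ φ, hf1.comp hφ, fun x => hf2 _, rfl⟩

/-- Functions with values in the Cantor set all of whose coordinates are ambiguous. -/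
theorem add1_preimage_cantor {D : ℕ → Set X} (hD : ∀ n, Amb (D n)) {Φ : X → ℕ → Bool}
    (hΦ : ∀ x n, Φ x n = true ↔ x ∈ D n) {O : Set (ℕ → Bool)} (hO : IsOpen O) :
    Add1 (Φ ⁻¹' O) := by
  classical
  let C : (Σ n : ℕ, (Fin n → Bool)) → Set (ℕ → Bool) := fun t => {y | ∀ i : Fin t.1, y (i : ℕ) = t.2 i}
  have h1 : Φ ⁻¹' O = ⋃ t : {t // C t ⊆ O}, Φ ⁻¹' C t.1 := by
    ext x
    simp only [Set.mem_preimage, Set.mem_iUnion]
    constructor
    · intro hx
      obtain ⟨I, u, hu, hI⟩ := isOpen_pi_iff.1 hO _ hx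
      obtain ⟨m, hm⟩ : ∃ m, ∀ n ∈ I, n < m := ⟨I.sup id + 1, fun n hn => by
        have : n ≤ I.sup id := Finset.le_sup (f := id) hn
        omega⟩
      refine ⟨⟨⟨m, fun i => Φ x i⟩, ?_⟩, fun i => rfl⟩
      intro y hy
      apply hI
      intro n hn
      have h2 : y n = Φ x n := hy ⟨n, hm n hn⟩
      rw [h2]
      exact (hu n hn).2
    · rintro ⟨t, ht⟩
      exact t.2 ht
  rw [h1]
  refine Add1.iUnion' fun t => ?_
  have h2 : Φ ⁻¹' C t.1 = ⋂ i : Fin t.1.1, {x | Φ x (i : ℕ) = t.1.2 i} := by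
    ext x
    simp only [Set.mem_iInter]
    rfl
  rw [h2]
  refine (Amb.biInter_fin fun i => ?_).1
  rcases hb : t.1.2 i with _ | _
  · have h3 : {x | Φ x (i : ℕ) = false} = (D i)ᶜ := by
      ext x
      rw [Set.mem_compl_iff, ← hΦ, Set.mem_ofPred_eq, Bool.not_eq_true]
    rw [h3]
    exact (hD _).compl
  · have h3 : {x | Φ x (i : ℕ) = true} = D i := by
      ext x
      rw [← hΦ, Set.mem_ofPred_eq]
    rw [h3]
    exact hD _

/-- If each subset of `E` is the trace of an ambiguous set, then each bounded function on `E`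
extends to a bounded function in `K₁`. -/
theorem exists_extension {E : Set X} (h : ∀ S : Set X, ∃ D, Amb D ∧ ∀ x ∈ E, x ∈ D ↔ x ∈ S)
    (f : E → ℝ) (hf : BoundedFun f) : ∃ g : X → ℝ, K1 g ∧ BoundedFun g ∧ ∀ x : E, g x = f x := by
  classical
  obtain ⟨c, hc⟩ := hf
  have hc0 : -|c| ≤ |c| := by
    have := abs_nonneg c
    linarith
  have hne : Nonempty (Set.Icc (-|c|) |c|) := ⟨⟨|c|, hc0, le_rfl⟩⟩
  obtain ⟨G, hG1, hG2⟩ := exists_nat_bool_continuous_surjective_of_compact (Set.Icc (-|c|) |c|)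
  have hfI : ∀ x : E, f x ∈ Set.Icc (-|c|) |c| := fun x =>
    abs_le.1 ((hc x).trans (le_abs_self c))
  choose s hs using fun x : E => hG2 ⟨f x, hfI x⟩
  choose D hD1 hD2 using fun n : ℕ => h {x | ∃ hx : x ∈ E, s ⟨x, hx⟩ n = true}
  let Φ : X → ℕ → Bool := fun x n => decide (x ∈ D n)
  refine ⟨fun x => (G (Φ x) : ℝ), ?_, ⟨|c|, fun x => abs_le.2 (G (Φ x)).2⟩, ?_⟩
  · intro V hV
    have : (fun x => (G (Φ x) : ℝ)) ⁻¹' V = Φ ⁻¹' ((fun y => (G y : ℝ)) ⁻¹' V) := rfl
    rw [this]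
    exact add1_preimage_cantor hD1 (fun x n => by simp [Φ])
      (hV.preimage (continuous_subtype_val.comp hG1))
  · intro x
    have : Φ x = s x := by
      funext n
      have h1 := hD2 n x x.2
      rw [Bool.eq_iff_iff]
      simp only [Φ, decide_eq_true_eq]
      rw [h1]
      constructor
      · rintro ⟨hx, h2⟩
        exact h2
      · intro h2
        exact ⟨x.2, h2⟩
    simp only
    rw [this, hs]

end calculus

end Pool.Agent.R828.KOne
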