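import Pool.Agent.R828.K1emb

/-!
# A countable hereditarily irresolvable crowded subspace of a Cantor cube
-/

namespace Pool.Agent.R828.KOne

open Set TopologicalSpace Topology

/-- Boolean algebras of sets of natural numbers. -/
structure Alg (ℬ : Set (Set ℕ)) : Prop where
  univ : Set.univ ∈ ℬ
  compl : ∀ B ∈ ℬ, Bᶜ ∈ ℬ
  inter : ∀ A ∈ ℬ, ∀ B ∈ ℬ, A ∩ B ∈ ℬ

/-- All nonempty members are infinite. -/
def Crowd (ℬ : Set (Set ℕ)) : Prop := ∀ B ∈ ℬ, B.Nonempty → B.Infinite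

/-- The family separates points. -/
def Sep (ℬ : Set (Set ℕ)) : Prop := ∀ n m : ℕ, n ≠ m → ∃ B ∈ ℬ, n ∈ B ∧ m ∉ B

/-- Periodic sets. -/
def Per : Set (Set ℕ) := {B | ∃ k, 0 < k ∧ ∀ n, n ∈ B ↔ n + k ∈ B}

theorem per_mul {B : Set ℕ} {k : ℕ} (h : ∀ n, n ∈ B ↔ n + k ∈ B) (t n : ℕ) :
    n ∈ B ↔ n + k * t ∈ B := by
  induction t with
  | zero => simp
  | succ t ih => rw [ih, h (n + k * t), Nat.mul_succ, ← add_assoc]

theorem per_alg : Alg Per where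
  univ := ⟨1, one_pos, fun n => by simp⟩
  compl := by
    rintro B ⟨k, hk, h⟩
    exact ⟨k, hk, fun n => not_congr (h n)⟩
  inter := by
    rintro A ⟨k, hk, hA⟩ B ⟨l, hl, hB⟩
    refine ⟨k * l, Nat.mul_pos hk hl, fun n => ?_⟩
    rw [Set.mem_inter_iff, Set.mem_inter_iff, per_mul hA l n, per_mul hB k n, mul_comm l k]

theorem per_crowd : Crowd Per := by
  rintro B ⟨k, hk, h⟩ ⟨n, hn⟩
  refine Set.infinite_of_injective_forall_mem (f := fun t : ℕ => n + k * t) ?_ ?_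
  · intro t s hts
    have h1 : k * t = k * s := Nat.add_left_cancel hts
    exact Nat.eq_of_mul_eq_mul_left hk h1
  · intro t
    exact (per_mul h t n).1 hn

theorem per_sep : Sep Per := by
  intro n m hnm
  refine ⟨{x | x % (n + m + 1) = n % (n + m + 1)}, ⟨n + m + 1, by omega, fun x => ?_⟩, rfl, ?_⟩
  · simp only [Set.mem_ofPred_eq, Nat.add_mod_right]
  · intro h
    have h1 : m % (n + m + 1) = n % (n + m + 1) := h
    rw [Nat.mod_eq_of_lt (by omega), Nat.mod_eq_of_lt (by omega)] at h1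
    exact hnm h1.symm

/-- There is a maximal crowded separating algebra. -/
theorem exists_maximal : ∃ ℬ : Set (Set ℕ),
    Maximal (· ∈ {ℬ : Set (Set ℕ) | Alg ℬ ∧ Crowd ℬ ∧ Sep ℬ}) ℬ := by
  obtain ⟨ℬ, -, h⟩ := zorn_subset_nonempty {ℬ : Set (Set ℕ) | Alg ℬ ∧ Crowd ℬ ∧ Sep ℬ} (by
    intro c hc hchain hne
    refine ⟨⋃₀ c, ⟨⟨?_, ?_, ?_⟩, ?_, ?_⟩, fun s hs => Set.subset_sUnion_of_mem hs⟩
    · obtain ⟨ℬ, hℬ⟩ := hne
      exact ⟨ℬ, hℬ, (hc hℬ).1.univ⟩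
    · rintro B ⟨ℬ, hℬ, hB⟩
      exact ⟨ℬ, hℬ, (hc hℬ).1.compl B hB⟩
    · rintro A ⟨ℬ, hℬ, hA⟩ B ⟨ℬ', hℬ', hB⟩
      rcases hchain.total hℬ hℬ' with h | h
      · exact ⟨ℬ', hℬ', (hc hℬ').1.inter A (h hA) B hB⟩
      · exact ⟨ℬ, hℬ, (hc hℬ).1.inter A hA B (h hB)⟩
    · rintro B ⟨ℬ, hℬ, hB⟩
      exact (hc hℬ).2.1 B hB
    · intro n m hnm
      obtain ⟨ℬ, hℬ⟩ := hne
      obtain ⟨B, hB, h⟩ := (hc hℬ).2.2 n m hnm
      exact ⟨B, ⟨ℬ, hℬ, hB⟩, h⟩) Per ⟨per_alg, per_crowd, per_sep⟩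
  exact ⟨ℬ, h⟩

theorem Alg.avoid {ℬ : Set (Set ℕ)} (h : Alg ℬ) (hs : Sep ℬ) {F : Set ℕ} (hF : F.Finite) {x : ℕ}
    (hx : x ∉ F) : ∃ B ∈ ℬ, x ∈ B ∧ ∀ y ∈ F, y ∉ B := by
  induction F, hF using Set.Finite.induction_on with
  | empty => exact ⟨_, h.univ, trivial, fun y hy => hy.elim⟩
  | @insert a F ha hF ih =>
    obtain ⟨B, hB, hxB, h1⟩ := ih fun h => hx (Or.inr h)
    obtain ⟨C, hC, hxC, h2⟩ := hs x a fun h => hx (Or.inl h)
    refine ⟨_, h.inter B hB C hC, ⟨hxB, hxC⟩, ?_⟩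
    rintro y (rfl | hy) hyB
    · exact h2 hyB.2
    · exact h1 y hy hyB.1

theorem infinite_inter {ℬ : Set (Set ℕ)} (h : Alg ℬ) (hs : Sep ℬ) {D : Set ℕ}
    (h1 : ∀ B ∈ ℬ, B.Nonempty → (B ∩ D).Nonempty) (h2 : ∀ B ∈ ℬ, B.Nonempty → (B \ D).Nonempty)
    {B : Set ℕ} (hB : B ∈ ℬ) (hBne : B.Nonempty) : (B ∩ D).Infinite := by
  intro hfin
  obtain ⟨x, hxB, hxD⟩ := h2 B hB hBne
  obtain ⟨C, hC, hxC, h3⟩ := h.avoid hs hfin (x := x) fun h => hxD h.2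
  obtain ⟨y, ⟨hyB, hyC⟩, hyD⟩ := h1 _ (h.inter B hB C hC) ⟨x, hxB, hxC⟩
  exact h3 y ⟨hyB, hyD⟩ hyC

/-- A maximal crowded separating algebra gives an irresolvable space. -/
theorem irresolvable {ℬ : Set (Set ℕ)}
    (hmax : Maximal (· ∈ {ℬ : Set (Set ℕ) | Alg ℬ ∧ Crowd ℬ ∧ Sep ℬ}) ℬ) (D : Set ℕ) :
    ∃ B ∈ ℬ, B.Nonempty ∧ (B ⊆ D ∨ B ∩ D = ∅) := by
  by_contra hcon
  push Not at hcon
  obtain ⟨⟨hA, hC, hS⟩, hm⟩ := hmax
  have h1 : ∀ B ∈ ℬ, B.Nonempty → (B ∩ D).Nonempty := fun B hB hne => (hcon B hB hne).2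
  have h2 : ∀ B ∈ ℬ, B.Nonempty → (B \ D).Nonempty := fun B hB hne =>
    Set.nonempty_of_not_subset (hcon B hB hne).1
  have h1' : ∀ B ∈ ℬ, B.Nonempty → (B ∩ Dᶜ).Nonempty := fun B hB hne => h2 B hB hne
  have h2' : ∀ B ∈ ℬ, B.Nonempty → (B \ Dᶜ).Nonempty := fun B hB hne => by
    obtain ⟨x, hx1, hx2⟩ := h1 B hB hne
    exact ⟨x, hx1, fun h => h hx2⟩
  let ℬ' : Set (Set ℕ) := {C | ∃ B₁ ∈ ℬ, ∃ B₂ ∈ ℬ, C = (B₁ ∩ D) ∪ (B₂ ∩ Dᶜ)}
  have hsub : ℬ ⊆ ℬ' := by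
    intro B hB
    refine ⟨B, hB, B, hB, ?_⟩
    rw [← Set.inter_union_distrib_left, Set.union_compl_self, Set.inter_univ]
  have hA' : Alg ℬ' := by
    refine ⟨hsub hA.univ, ?_, ?_⟩
    · rintro _ ⟨B₁, hB₁, B₂, hB₂, rfl⟩
      refine ⟨B₁ᶜ, hA.compl _ hB₁, B₂ᶜ, hA.compl _ hB₂, ?_⟩
      ext x
      simp only [Set.mem_compl_iff, Set.mem_union, Set.mem_inter_iff]
      tauto
    · rintro _ ⟨B₁, hB₁, B₂, hB₂, rfl⟩ _ ⟨B₃, hB₃, B₄, hB₄, rfl⟩
      refine ⟨_, hA.inter _ hB₁ _ hB₃, _, hA.inter _ hB₂ _ hB₄, ?_⟩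
      ext x
      simp only [Set.mem_compl_iff, Set.mem_union, Set.mem_inter_iff]
      tauto
  have hC' : Crowd ℬ' := by
    rintro _ ⟨B₁, hB₁, B₂, hB₂, rfl⟩ ⟨x, hx | hx⟩
    · exact (infinite_inter hA hS h1 h2 hB₁ ⟨x, hx.1⟩).mono Set.subset_union_left
    · exact (infinite_inter hA hS h1' h2' hB₂ ⟨x, hx.1⟩).mono Set.subset_union_right
  have hS' : Sep ℬ' := fun n m hnm => by
    obtain ⟨B, hB, h⟩ := hS n m hnm
    exact ⟨B, hsub hB, h⟩
  have hD : D ∈ ℬ := hm (⟨hA', hC', hS'⟩ : ℬ' ∈ {ℬ : Set (Set ℕ) | Alg ℬ ∧ Crowd ℬ ∧ Sep ℬ})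
    hsub ⟨Set.univ, hA.univ, Set.univᶜ, hA.compl _ hA.univ, by simp⟩
  obtain ⟨x, -, hx⟩ := h1 _ hA.univ ⟨0, trivial⟩
  exact (hcon D hD ⟨x, hx⟩).1 Set.Subset.rfl

/-- Closure with respect to the topology generated by `ℬ`. -/
def cl (ℬ : Set (Set ℕ)) (A : Set ℕ) : Set ℕ := {x | ∀ B ∈ ℬ, x ∈ B → (B ∩ A).Nonempty}

/-- Pairs of disjoint sets with the same closure. -/
def Res (ℬ : Set (Set ℕ)) (p : Set ℕ × Set ℕ) : Prop :=
  Disjoint p.1 p.2 ∧ p.1 ⊆ cl ℬ p.2 ∧ p.2 ⊆ cl ℬ p.1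

theorem cl_mono {ℬ : Set (Set ℕ)} {A A' : Set ℕ} (h : A ⊆ A') : cl ℬ A ⊆ cl ℬ A' :=
  fun _ hx B hB hxB => (hx B hB hxB).mono (Set.inter_subset_inter_right _ h)

theorem exists_maximal_res (ℬ : Set (Set ℕ)) : ∃ p, Maximal (· ∈ {p | Res ℬ p}) p := by
  refine zorn_le₀ _ ?_
  intro c hc hchain
  refine ⟨(⋃ p ∈ c, p.1, ⋃ p ∈ c, p.2), ⟨?_, ?_, ?_⟩, ?_⟩
  · rw [Set.disjoint_left]
    intro x hx1 hx2
    obtain ⟨p, hp, hxp⟩ := Set.mem_iUnion₂.1 hx1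
    obtain ⟨q, hq, hxq⟩ := Set.mem_iUnion₂.1 hx2
    rcases hchain.total hp hq with h | h
    · exact Set.disjoint_left.1 (hc hq).1 (h.1 hxp) hxq
    · exact Set.disjoint_left.1 (hc hp).1 hxp (h.2 hxq)
  · refine Set.iUnion₂_subset fun p hp => (hc hp).2.1.trans (cl_mono ?_)
    exact Set.subset_biUnion_of_mem (u := fun p : Set ℕ × Set ℕ => p.2) hp
  · refine Set.iUnion₂_subset fun p hp => (hc hp).2.2.trans (cl_mono ?_)
    exact Set.subset_biUnion_of_mem (u := fun p : Set ℕ × Set ℕ => p.1) hp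
  · intro p hp
    exact ⟨Set.subset_biUnion_of_mem (u := fun p : Set ℕ × Set ℕ => p.1) hp,
      Set.subset_biUnion_of_mem (u := fun p : Set ℕ × Set ℕ => p.2) hp⟩

/-- Every subset `F` of `B₀` is irresolvable. -/
def HI (ℬ : Set (Set ℕ)) (B₀ : Set ℕ) : Prop :=
  ∀ F ⊆ B₀, F.Nonempty → ∀ S : Set ℕ, ∃ C ∈ ℬ, (C ∩ F).Nonempty ∧ (C ∩ F ⊆ S ∨ C ∩ F ∩ S = ∅)

/-- **Existence** of a countable crowded zero-dimensional hereditarily irresolvable space. -/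
theorem exists_hi : ∃ (ℬ : Set (Set ℕ)) (B₀ : Set ℕ), Alg ℬ ∧ Crowd ℬ ∧ Sep ℬ ∧ B₀ ∈ ℬ ∧
    B₀.Nonempty ∧ HI ℬ B₀ := by
  obtain ⟨ℬ, hmax⟩ := exists_maximal
  obtain ⟨⟨A, B⟩, hres, hm⟩ := exists_maximal_res ℬ
  have hres' : Res ℬ (A, B) := hres
  obtain ⟨hdis, hAB, hBA⟩ := hres'
  simp only at hdis hAB hBA
  obtain ⟨B₀, hB₀, hne, h1⟩ := irresolvable hmax A
  have h2 : B₀ ∩ A = ∅ := by
    rcases h1 with h1 | h1
    · exfalso
      obtain ⟨x, hx⟩ := hne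
      obtain ⟨y, hyB₀, hyB⟩ := hAB (h1 hx) B₀ hB₀ hx
      exact Set.disjoint_left.1 hdis (h1 hyB₀) hyB
    · exact h1
  have h3 : ∀ x ∈ B₀, x ∉ cl ℬ A := by
    intro x hx hxA
    obtain ⟨y, hy⟩ := hxA B₀ hB₀ hx
    rw [h2] at hy
    exact hy
  refine ⟨ℬ, B₀, hmax.1.1, hmax.1.2.1, hmax.1.2.2, hB₀, hne, ?_⟩
  intro F hF hFne S
  by_contra hcon
  push Not at hcon
  have h4 : Res ℬ (A ∪ (F ∩ S), B ∪ (F \ S)) := by
    refine ⟨?_, ?_, ?_⟩
    · simp only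
      rw [Set.disjoint_left]
      rintro x (hx | hx) (hx' | hx')
      · exact Set.disjoint_left.1 hdis hx hx'
      · have : x ∈ B₀ ∩ A := ⟨hF hx'.1, hx⟩
        rw [h2] at this
        exact this
      · exact h3 x (hF hx.1) (hBA hx')
      · exact hx'.2 hx.2
    · rintro x (hx | hx)
      · exact cl_mono Set.subset_union_left (hAB hx)
      · intro C hC hxC
        obtain ⟨y, ⟨hyC, hyF⟩, hyS⟩ := Set.not_subset.1 (hcon C hC ⟨x, hxC, hx.1⟩).1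
        exact ⟨y, hyC, Or.inr ⟨hyF, hyS⟩⟩
    · rintro x (hx | hx)
      · exact cl_mono Set.subset_union_left (hBA hx)
      · intro C hC hxC
        obtain ⟨y, ⟨hyC, hyF⟩, hyS⟩ := (hcon C hC ⟨x, hxC, hx.1⟩).2
        exact ⟨y, hyC, Or.inr ⟨hyF, hyS⟩⟩
  have h5 := hm (y := (A ∪ (F ∩ S), B ∪ (F \ S))) h4 ⟨Set.subset_union_left, Set.subset_union_left⟩
  obtain ⟨x, hx⟩ := hFne
  by_cases hxS : x ∈ S
  · have : x ∈ B₀ ∩ A := ⟨hF hx, h5.1 (Or.inr ⟨hx, hxS⟩)⟩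
    rw [h2] at this
    exact this
  · exact h3 x (hF hx) (hBA (h5.2 (Or.inr ⟨hx, hxS⟩)))

/-! ### The embedding in the Cantor cube -/

section cube

open Classical in
/-- The map to the Cantor cube. -/
noncomputable def emb (ℬ : Set (Set ℕ)) (n : ℕ) : ℬ → Bool := fun B => decide (n ∈ B.1)

variable {ℬ : Set (Set ℕ)} {B₀ : Set ℕ}

theorem emb_apply (n : ℕ) (B : ℬ) : emb ℬ n B = true ↔ n ∈ B.1 := by
  simp only [emb, decide_eq_true_eq]

theorem emb_injective (hs : Sep ℬ) : Function.Injective (emb ℬ) := by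
  intro n m h
  by_contra hnm
  obtain ⟨B, hB, h1, h2⟩ := hs n m hnm
  have h3 := (emb_apply n ⟨B, hB⟩).2 h1
  rw [h] at h3
  exact h2 ((emb_apply m ⟨B, hB⟩).1 h3)

theorem isClopen_coord (B : ℬ) : IsClopen {x : ℬ → Bool | x B = true} :=
  (isClopen_discrete ({true} : Set Bool)).preimage (continuous_apply B)

/-- Each set is the trace of an ambiguous set. -/
theorem exists_amb (hHI : HI ℬ B₀) (S : Set ℕ) :
    ∃ D : Set (ℬ → Bool), Amb D ∧ ∀ n ∈ B₀, emb ℬ n ∈ D ↔ n ∈ S := by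
  classical
  let GP : Set (ℬ → Bool) → Set (ℬ → Bool) → Prop := fun U D =>
    Coz U ∧ Amb D ∧ ∀ n ∈ B₀, emb ℬ n ∈ U → (emb ℬ n ∈ D ↔ n ∈ S)
  have hempty : GP ∅ ∅ := ⟨Coz.of_isClopen isClopen_empty, amb_empty, fun n _ h => h.elim⟩
  have hch : ∀ n, ∃ U D, GP U D ∧ ((∃ U' D', GP U' D' ∧ emb ℬ n ∈ U') → emb ℬ n ∈ U) := by
    intro n
    by_cases h : ∃ U' D', GP U' D' ∧ emb ℬ n ∈ U'
    · obtain ⟨U, D, h1, h2⟩ := h
      exact ⟨U, D, h1, fun _ => h2⟩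
    · exact ⟨∅, ∅, hempty, fun h' => absurd h' h⟩
  choose U D hGP hmaxi using hch
  let V := ⋃ n, U n
  have hV : Coz V := Coz.iUnion fun n => (hGP n).1
  let P : ℕ → Set (ℬ → Bool) := fun n => U n \ ⋃ m, if m < n then U m else ∅
  have hPamb : ∀ n, Amb (P n) := by
    intro n
    refine (hGP n).1.amb.diff (Coz.amb (Coz.iUnion fun m => ?_))
    by_cases h : m < n
    · simp only [h, if_true]
      exact (hGP m).1
    · simp only [h, if_false]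
      exact Coz.of_isClopen isClopen_empty
  have hPU : ∀ n, P n ⊆ U n := fun n => Set.sdiff_subset
  have hPdis : ∀ n m x, x ∈ P n → x ∈ P m → n = m := by
    have key : ∀ n m x, n < m → x ∈ P n → x ∉ P m := by
      intro n m x hnm hn hm
      exact hm.2 (Set.mem_iUnion.2 ⟨n, by simpa [hnm] using hPU n hn⟩)
    intro n m x hn hm
    rcases lt_trichotomy n m with h | h | h
    · exact absurd hm (key n m x h hn)
    · exact h
    · exact absurd hn (key m n x h hm)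
  have hVP : ∀ x ∈ V, ∃ n, x ∈ P n := by
    intro x hx
    have hex : ∃ n, x ∈ U n := Set.mem_iUnion.1 hx
    refine ⟨Nat.find hex, Nat.find_spec hex, ?_⟩
    intro h
    obtain ⟨m, hm⟩ := Set.mem_iUnion.1 h
    by_cases hlt : m < Nat.find hex
    · simp only [hlt, if_true] at hm
      exact Nat.find_min hex hlt hm
    · simp only [hlt, if_false] at hm
      exact hm
  let W := ⋃ n, D n ∩ P n
  have hWmem : ∀ x n, x ∈ P n → (x ∈ W ↔ x ∈ D n) := by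
    intro x n hn
    constructor
    · intro h
      obtain ⟨m, hm1, hm2⟩ := Set.mem_iUnion.1 h
      rw [hPdis n m x hn hm2]
      exact hm1
    · intro h
      exact Set.mem_iUnion.2 ⟨n, h, hn⟩
  have hWV : W ⊆ V := Set.iUnion_subset fun n => Set.inter_subset_right.trans
    ((hPU n).trans (Set.subset_iUnion U n))
  have hW : Amb W := by
    refine ⟨Add1.iUnion fun n => ((hGP n).2.1.inter (hPamb n)).1, ?_⟩
    have : Wᶜ = Vᶜ ∪ ⋃ n, P n \ D n := by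
      ext x
      simp only [Set.mem_compl_iff, Set.mem_union]
      constructor
      · intro hx
        by_cases hxV : x ∈ V
        · obtain ⟨n, hn⟩ := hVP x hxV
          exact Or.inr (Set.mem_iUnion.2 ⟨n, hn, fun h => hx ((hWmem x n hn).2 h)⟩)
        · exact Or.inl hxV
      · rintro (hx | hx) hxW
        · exact hx (hWV hxW)
        · obtain ⟨n, hn, hnD⟩ := Set.mem_iUnion.1 hx
          exact hnD ((hWmem x n hn).1 hxW)
    rw [this]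
    exact hV.amb.compl.1.union (Add1.iUnion fun n => ((hPamb n).diff (hGP n).2.1).1)
  have hVW : GP V W := by
    refine ⟨hV, hW, fun n hn hnV => ?_⟩
    obtain ⟨k, hk⟩ := hVP _ hnV
    rw [hWmem _ k hk]
    exact (hGP k).2.2 n hn (hPU k hk)
  refine ⟨W, hW, fun n hn => hVW.2.2 n hn ?_⟩
  by_contra hnV
  obtain ⟨C, hC, ⟨a, haC, haF⟩, hCS⟩ := hHI (B₀ ∩ {m | emb ℬ m ∉ V}) Set.inter_subset_left
    ⟨n, hn, hnV⟩ S
  let K : Set (ℬ → Bool) := {x | x ⟨C, hC⟩ = true}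
  have hK : IsClopen K := isClopen_coord _
  have hKmem : ∀ m, emb ℬ m ∈ K ↔ m ∈ C := fun m => emb_apply m ⟨C, hC⟩
  have hbig : ∃ D', GP (V ∪ K) D' := by
    rcases hCS with hCS | hCS
    · refine ⟨(W ∩ V) ∪ (K \ V), hV.union (Coz.of_isClopen hK),
        (hW.inter hV.amb).union ((Coz.of_isClopen hK).amb.diff hV.amb), ?_⟩
      intro m hm hmVK
      by_cases hmV : emb ℬ m ∈ V
      · constructor
        · rintro (h | h)
          · exact (hVW.2.2 m hm hmV).1 h.1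
          · exact absurd hmV h.2
        · intro h
          exact Or.inl ⟨(hVW.2.2 m hm hmV).2 h, hmV⟩
      · have hmK : emb ℬ m ∈ K := hmVK.resolve_left hmV
        constructor
        · intro _
          exact hCS ⟨(hKmem m).1 hmK, hm, hmV⟩
        · intro _
          exact Or.inr ⟨hmK, hmV⟩
    · refine ⟨W ∩ V, hV.union (Coz.of_isClopen hK), hW.inter hV.amb, ?_⟩
      intro m hm hmVK
      by_cases hmV : emb ℬ m ∈ V
      · constructor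
        · intro h
          exact (hVW.2.2 m hm hmV).1 h.1
        · intro h
          exact ⟨(hVW.2.2 m hm hmV).2 h, hmV⟩
      · have hmK : emb ℬ m ∈ K := hmVK.resolve_left hmV
        constructor
        · intro h
          exact absurd h.2 hmV
        · intro h
          have h1 : m ∈ C ∩ (B₀ ∩ {m | emb ℬ m ∉ V}) ∩ S := ⟨⟨(hKmem m).1 hmK, hm, hmV⟩, h⟩
          rw [hCS] at h1
          exact h1.elim
  obtain ⟨D', hD'⟩ := hbig
  have h1 := hmaxi a ⟨_, _, hD', Or.inr ((hKmem a).2 haC)⟩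
  exact haF.2 (Set.mem_iUnion.2 ⟨a, h1⟩)

theorem k1Star (hHI : HI ℬ B₀) : K1StarEmbedded (emb ℬ '' B₀) := by
  intro f _ hb
  refine exists_extension ?_ f hb
  intro S
  obtain ⟨D, hD1, hD2⟩ := exists_amb hHI {n | emb ℬ n ∈ S}
  refine ⟨D, hD1, ?_⟩
  rintro _ ⟨n, hn, rfl⟩
  exact hD2 n hn

/-- Basic neighbourhoods of points of the countable set. -/
theorem exists_nhd (hA : Alg ℬ) (n : ℕ) (I : Finset ℬ) :
    ∃ C ∈ ℬ, n ∈ C ∧ ∀ m ∈ C, ∀ i ∈ I, emb ℬ m i = emb ℬ n i := by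
  classical
  induction I using Finset.induction_on with
  | empty => exact ⟨_, hA.univ, trivial, fun m _ i hi => by simp at hi⟩
  | insert B I hB ih =>
    obtain ⟨C, hC, hnC, h⟩ := ih
    by_cases hn : n ∈ B.1
    · refine ⟨_, hA.inter C hC B.1 B.2, ⟨hnC, hn⟩, ?_⟩
      intro m hm i hi
      rcases Finset.mem_insert.1 hi with rfl | hi
      · rw [(emb_apply m i).2 hm.2, (emb_apply n i).2 hn]
      · exact h m hm.1 i hi
    · refine ⟨_, hA.inter C hC B.1ᶜ (hA.compl _ B.2), ⟨hnC, hn⟩, ?_⟩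
      intro m hm i hi
      rcases Finset.mem_insert.1 hi with rfl | hi
      · rw [Bool.eq_iff_iff, emb_apply, emb_apply]
        exact ⟨fun h => absurd h hm.2, fun h => absurd h hn⟩
      · exact h m hm.1 i hi

theorem not_k1 (hA : Alg ℬ) (hC : Crowd ℬ) (hs : Sep ℬ) (hB₀ : B₀ ∈ ℬ) (hne : B₀.Nonempty) :
    ¬ K1Embedded (emb ℬ '' B₀) := by
  classical
  intro hemb
  let E : Set (ℬ → Bool) := emb ℬ '' B₀
  have hidx : ∀ x : E, ∃ n ∈ B₀, emb ℬ n = x := fun x => x.2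
  choose ν hν1 hν2 using hidx
  have hsing : ∀ n : ℕ, FClosed {x : E | (x : ℬ → Bool) = emb ℬ n} := by
    intro n
    have hex : ∀ m : ℕ, ∃ K : Set (ℬ → Bool), IsClopen K ∧ emb ℬ n ∈ K ∧
        (m ≠ n → emb ℬ m ∉ K) := by
      intro m
      by_cases hmn : m = n
      · exact ⟨Set.univ, isClopen_univ, trivial, fun h => absurd hmn h⟩
      · obtain ⟨B, hB, h1, h2⟩ := hs n m (Ne.symm hmn)
        exact ⟨_, isClopen_coord ⟨B, hB⟩, (emb_apply n _).2 h1,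
          fun _ h => h2 ((emb_apply m ⟨B, hB⟩).1 h)⟩
    choose K hK1 hK2 hK3 using hex
    have : {x : E | (x : ℬ → Bool) = emb ℬ n} = ⋂ m, Subtype.val ⁻¹' K m := by
      ext x
      simp only [Set.mem_ofPred_eq, Set.mem_iInter, Set.mem_preimage]
      constructor
      · intro h m
        rw [h]
        exact hK2 m
      · intro h
        by_contra hx
        have h1 : ν x ≠ n := by
          intro h2
          apply hx
          rw [← hν2 x, h2]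
        exact hK3 (ν x) h1 (by rw [hν2]; exact h _)
    rw [this]
    exact FClosed.iInter fun m => (fClosed_of_isClopen (hK1 m)).preimage continuous_subtype_val
  obtain ⟨g, hg, hgf⟩ := hemb (fun x => (ν x : ℝ)) (by
    intro V hV
    have : (fun x : E => (ν x : ℝ)) ⁻¹' V =
        ⋃ n : {n : ℕ // (n : ℝ) ∈ V}, {x : E | (x : ℬ → Bool) = emb ℬ n} := by
      ext x
      simp only [Set.mem_preimage, Set.mem_iUnion, Set.mem_ofPred_eq]
      constructor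
      · intro h
        exact ⟨⟨ν x, h⟩, (hν2 x).symm⟩
      · rintro ⟨n, hn⟩
        have : ν x = n := emb_injective hs (by rw [hν2, hn])
        rw [this]
        exact n.2
    rw [this]
    exact Add1.iUnion' fun n => Add1.of_fClosed (hsing n))
  have hgn : ∀ n ∈ B₀, g (emb ℬ n) = n := by
    intro n hn
    have h1 := hgf ⟨emb ℬ n, n, hn, rfl⟩
    simp only at h1
    rw [h1]
    have : ν ⟨emb ℬ n, n, hn, rfl⟩ = n := emb_injective hs (hν2 _)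
    rw [this]
  -- Baire category in the closure
  let L : Set (ℬ → Bool) := closure E
  have hLc : CompactSpace L := isCompact_iff_compactSpace.1 isClosed_closure.isCompact
  have hLne : Nonempty L := by
    obtain ⟨n, hn⟩ := hne
    exact ⟨⟨emb ℬ n, subset_closure ⟨n, hn, rfl⟩⟩⟩
  choose Z hZ1 hZ2 using fun q : ℚ => hg (Metric.ball (q : ℝ) (1 / 3)) Metric.isOpen_ball
  obtain ⟨⟨q, k⟩, ⟨z, hz⟩⟩ := nonempty_interior_of_iUnion_of_closed
    (f := fun i : ℚ × ℕ => ((Subtype.val : L → ℬ → Bool) ⁻¹' Z i.1 i.2))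
    (fun i => (hZ1 i.1 i.2).isClosed.preimage continuous_subtype_val) (by
      rw [Set.eq_univ_iff_forall]
      intro x
      obtain ⟨q, hq⟩ : ∃ q : ℚ, |g x - q| < 1 / 3 := by
        obtain ⟨q, hq1, hq2⟩ := exists_rat_btwn (show g x - 1 / 3 < g x + 1 / 3 by linarith)
        exact ⟨q, abs_lt.2 ⟨by linarith, by linarith⟩⟩
      have h1 : (x : ℬ → Bool) ∈ g ⁻¹' Metric.ball (q : ℝ) (1 / 3) := by
        rw [Set.mem_preimage, Metric.mem_ball, Real.dist_eq]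
        exact hq
      rw [hZ2 q] at h1
      obtain ⟨n, hn⟩ := Set.mem_iUnion.1 h1
      exact Set.mem_iUnion.2 ⟨(q, n), hn⟩)
  obtain ⟨o, ho1, ho2, ho3⟩ := mem_interior.1 hz
  obtain ⟨O, hO, rfl⟩ := isOpen_induced_iff.1 ho2
  obtain ⟨_, hyO, n, hn, rfl⟩ := mem_closure_iff.1 z.2 O hO ho3
  obtain ⟨I, u, hu, hI⟩ := isOpen_pi_iff.1 hO _ hyO
  obtain ⟨C, hCB, hnC, hCI⟩ := exists_nhd hA n I
  have hinf : (C ∩ B₀).Infinite := hC _ (hA.inter C hCB B₀ hB₀) ⟨n, hnC, hn⟩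
  obtain ⟨m, hm, hmn⟩ := hinf.exists_notMem_finite (Set.finite_singleton n)
  have hmO : emb ℬ m ∈ O := by
    apply hI
    intro i hi
    rw [hCI m hm.1 i hi]
    exact (hu i hi).2
  have hval : ∀ a ∈ B₀, emb ℬ a ∈ O → |(a : ℝ) - q| < 1 / 3 := by
    intro a ha haO
    have h1 : emb ℬ a ∈ Z q k := ho1 (a := ⟨emb ℬ a, subset_closure ⟨a, ha, rfl⟩⟩) haO
    have h2 : emb ℬ a ∈ g ⁻¹' Metric.ball (q : ℝ) (1 / 3) := by
      rw [hZ2 q]
      exact Set.mem_iUnion.2 ⟨k, h1⟩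
    rw [Set.mem_preimage, Metric.mem_ball, Real.dist_eq, hgn a ha] at h2
    exact h2
  have h1 := abs_lt.1 (hval n hn hyO)
  have h2 := abs_lt.1 (hval m hm.2 hmO)
  have h3 : m ≠ n := hmn
  rcases lt_or_gt_of_ne h3 with h | h
  · have : (m : ℝ) + 1 ≤ n := by exact_mod_cast h
    linarith [h1.1, h1.2, h2.1, h2.2]
  · have : (n : ℝ) + 1 ≤ m := by exact_mod_cast h
    linarith [h1.1, h1.2, h2.1, h2.2]

end cube

end Pool.Agent.R828.KOne
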