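import Mathlib

/-!
# Linearly ordered coarse spaces embed into spaces with an interval base (MP_54b381_gt)

The order-theoretic core: positions, filters, the interval lemma.
-/

namespace Pool.Agent.R828.LC

open Set

universe u

variable {X : Type u} [LinearOrder X]

theorem ex_of_lt {L L' : LowerSet X} (h : L < L') : ∃ y ∈ L', y ∉ L := by
  by_contra hcon
  push Not at hcon
  exact absurd h (not_lt_of_ge (fun y hy => hcon y hy))

/-- Positions: a lower set of `X` and a tag. -/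
abbrev Pos (X : Type u) [LinearOrder X] := LowerSet X ×ₗ Fin 3

/-- The position of a point. -/
def pos (x : X) : Pos X := toLex (LowerSet.Iio x, 2)

theorem pos_lt {y : X} {L : LowerSet X} {k : Fin 3} : pos y < toLex (L, k) ↔ y ∈ L := by
  rw [pos, Prod.Lex.toLex_lt_toLex]
  simp only
  constructor
  · rintro (h | ⟨_, h⟩)
    · obtain ⟨w, hw, hwy⟩ := ex_of_lt h
      have : y ≤ w := by simpa using hwy
      exact L.lower this hw
    · exfalso
      fin_cases k <;> simp at h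
  · intro hy
    left
    refine lt_of_le_of_ne ?_ ?_
    · intro w hw
      have : w < y := by simpa using hw
      exact L.lower this.le hy
    · rintro rfl
      simp at hy

theorem le_pos {y : X} {L : LowerSet X} {k : Fin 3} : toLex (L, k) ≤ pos y ↔ y ∉ L := by
  rw [← not_lt, pos_lt]

theorem pos_lt_pos {x y : X} : pos x < pos y ↔ x < y := by
  have h : pos y = toLex (LowerSet.Iio y, 2) := rfl
  rw [h, pos_lt]
  simp

theorem pos_le_pos {x y : X} : pos x ≤ pos y ↔ x ≤ y := by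
  rw [← not_lt, pos_lt_pos, not_lt]

theorem pos_injective : Function.Injective (pos : X → Pos X) := by
  intro x y h
  exact le_antisymm (pos_le_pos.1 h.le) (pos_le_pos.1 h.ge)

/-- Tails of `L` are eventually bounded for the family `B` of bounded sets, and `L` has no
maximum. -/
def TailOK (B : Set (Set X)) (L : LowerSet X) : Prop :=
  (∀ t ∈ L, ∃ s ∈ L, t < s) ∧ ∃ t ∈ L, {s | s ∈ L ∧ t ≤ s} ∈ B

/-- Initial segments of the complement of `L` are eventually bounded, and the complement of `L`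
has no minimum. -/
def HeadOK (B : Set (Set X)) (L : LowerSet X) : Prop :=
  (∀ t, t ∉ L → ∃ s, s ∉ L ∧ s < t) ∧ ∃ t, t ∉ L ∧ {s | s ∉ L ∧ s ≤ t} ∈ B

/-- Valid positions. -/
def Valid (B : Set (Set X)) (z : Pos X) : Prop :=
  (∃ x, z = pos x) ∨ (∃ L, z = toLex (L, 0) ∧ TailOK B L) ∨ ∃ L, z = toLex (L, 1) ∧ HeadOK B L

/-- `S` belongs to the filter of `z`. -/
def Mem (z : Pos X) (S : Set X) : Prop :=
  (∃ x, z = pos x ∧ x ∈ S) ∨ (∃ L : LowerSet X, z = toLex (L, 0) ∧ ∃ t ∈ L, ∀ s ∈ L, t ≤ s → s ∈ S) ∨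
    ∃ L : LowerSet X, z = toLex (L, 1) ∧ ∃ t, t ∉ L ∧ ∀ s, s ∉ L → s ≤ t → s ∈ S

theorem pos_ne_zero {x : X} {L : LowerSet X} : pos x ≠ toLex (L, 0) := by
  intro h
  have h1 : ((LowerSet.Iio x, 2) : LowerSet X × Fin 3) = (L, 0) := toLex.injective h
  simp at h1

theorem pos_ne_one {x : X} {L : LowerSet X} : pos x ≠ toLex (L, 1) := by
  intro h
  have h1 : ((LowerSet.Iio x, 2) : LowerSet X × Fin 3) = (L, 1) := toLex.injective h
  simp at h1

theorem zero_ne_one {L L' : LowerSet X} : (toLex (L, 0) : Pos X) ≠ toLex (L', 1) := by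
  intro h
  have h1 : ((L, 0) : LowerSet X × Fin 3) = (L', 1) := toLex.injective h
  simp at h1

theorem tag_inj {L L' : LowerSet X} {k : Fin 3} (h : (toLex (L, k) : Pos X) = toLex (L', k)) :
    L = L' := by
  have h1 : ((L, k) : LowerSet X × Fin 3) = (L', k) := toLex.injective h
  simpa using h1

theorem mem_pos {x : X} {S : Set X} : Mem (pos x) S ↔ x ∈ S := by
  constructor
  · rintro (⟨y, h, hy⟩ | ⟨L, h, _⟩ | ⟨L, h, _⟩)
    · rwa [pos_injective h]
    · exact absurd h pos_ne_zero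
    · exact absurd h pos_ne_one
  · intro h
    exact Or.inl ⟨x, rfl, h⟩

theorem mem_zero {L : LowerSet X} {S : Set X} :
    Mem (toLex (L, 0)) S ↔ ∃ t ∈ L, ∀ s ∈ L, t ≤ s → s ∈ S := by
  constructor
  · rintro (⟨y, h, hy⟩ | ⟨L', h, h'⟩ | ⟨L, h, _⟩)
    · exact absurd h.symm pos_ne_zero
    · rw [tag_inj h]; exact h'
    · exact absurd h zero_ne_one
  · intro h
    exact Or.inr (Or.inl ⟨L, rfl, h⟩)

theorem mem_one {L : LowerSet X} {S : Set X} :
    Mem (toLex (L, 1)) S ↔ ∃ t, t ∉ L ∧ ∀ s, s ∉ L → s ≤ t → s ∈ S := by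
  constructor
  · rintro (⟨y, h, hy⟩ | ⟨L', h, h'⟩ | ⟨L', h, h'⟩)
    · exact absurd h.symm pos_ne_one
    · exact absurd h.symm zero_ne_one
    · rw [tag_inj h]; exact h'
  · intro h
    exact Or.inr (Or.inr ⟨L, rfl, h⟩)

theorem Mem.mono {z : Pos X} {S T : Set X} (h : Mem z S) (hST : S ⊆ T) : Mem z T := by
  rcases h with ⟨y, h, hy⟩ | ⟨L, h, t, ht, ht'⟩ | ⟨L, h, t, ht, ht'⟩
  · exact Or.inl ⟨y, h, hST hy⟩
  · exact Or.inr (Or.inl ⟨L, h, t, ht, fun s hs hts => hST (ht' s hs hts)⟩)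
  · exact Or.inr (Or.inr ⟨L, h, t, ht, fun s hs hts => hST (ht' s hs hts)⟩)

theorem Mem.inter {z : Pos X} {S T : Set X} (h : Mem z S) (h' : Mem z T) : Mem z (S ∩ T) := by
  rcases h with ⟨y, rfl, hy⟩ | ⟨L, rfl, t, ht, ht'⟩ | ⟨L, rfl, t, ht, ht'⟩
  · rw [mem_pos] at *
    exact ⟨hy, h'⟩
  · rw [mem_zero] at *
    obtain ⟨u, hu, hu'⟩ := h'
    refine ⟨max t u, ?_, fun s hs hts => ⟨ht' s hs ((le_max_left _ _).trans hts),
      hu' s hs ((le_max_right _ _).trans hts)⟩⟩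
    rcases max_choice t u with h1 | h1 <;> rw [h1] <;> assumption
  · rw [mem_one] at *
    obtain ⟨u, hu, hu'⟩ := h'
    refine ⟨min t u, ?_, fun s hs hts => ⟨ht' s hs (hts.trans (min_le_left _ _)),
      hu' s hs (hts.trans (min_le_right _ _))⟩⟩
    rcases min_choice t u with h1 | h1 <;> rw [h1] <;> assumption

theorem Mem.nonempty {z : Pos X} {S : Set X} (h : Mem z S) : S.Nonempty := by
  rcases h with ⟨y, rfl, hy⟩ | ⟨L, rfl, t, ht, ht'⟩ | ⟨L, rfl, t, ht, ht'⟩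
  · exact ⟨y, hy⟩
  · exact ⟨t, ht' t ht le_rfl⟩
  · exact ⟨t, ht' t ht le_rfl⟩

/-- B1 -/
theorem Mem.exists_le {z : Pos X} {S : Set X} (h : Mem z S) {y : X} (hy : z ≤ pos y) :
    ∃ b ∈ S, b ≤ y := by
  rcases h with ⟨x, rfl, hx⟩ | ⟨L, rfl, t, ht, ht'⟩ | ⟨L, rfl, t, ht, ht'⟩
  · exact ⟨x, hx, pos_le_pos.1 hy⟩
  · rw [le_pos] at hy
    refine ⟨t, ht' t ht le_rfl, ?_⟩
    by_contra hcon
    exact hy (L.lower (not_le.1 hcon).le ht)
  · rw [le_pos] at hy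
    refine ⟨min t y, ht' _ ?_ (min_le_left _ _), min_le_right _ _⟩
    rcases min_choice t y with h1 | h1 <;> rw [h1] <;> assumption

/-- B2 -/
theorem Mem.exists_ge {z : Pos X} {S : Set X} (h : Mem z S) {y : X} (hy : pos y ≤ z) :
    ∃ b ∈ S, y ≤ b := by
  rcases h with ⟨x, rfl, hx⟩ | ⟨L, rfl, t, ht, ht'⟩ | ⟨L, rfl, t, ht, ht'⟩
  · exact ⟨x, hx, pos_le_pos.1 hy⟩
  · have hy := pos_lt.1 (lt_of_le_of_ne hy pos_ne_zero)
    refine ⟨max t y, ht' _ ?_ (le_max_left _ _), le_max_right _ _⟩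
    rcases max_choice t y with h1 | h1 <;> rw [h1] <;> assumption
  · have hy := pos_lt.1 (lt_of_le_of_ne hy pos_ne_one)
    refine ⟨t, ht' t ht le_rfl, ?_⟩
    by_contra hcon
    exact ht (L.lower (not_le.1 hcon).le hy)

/-- B1' -/
theorem Mem.exists_lt {B : Set (Set X)} {z : Pos X} (hz : Valid B z) {S : Set X} (h : Mem z S)
    {y : X} (hy : z < pos y) : ∃ b ∈ S, b < y := by
  rcases hz with ⟨x, rfl⟩ | ⟨L, rfl, hL, _⟩ | ⟨L, rfl, hL, _⟩
  · exact ⟨x, mem_pos.1 h, pos_lt_pos.1 hy⟩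
  · obtain ⟨t, ht, ht'⟩ := mem_zero.1 h
    have hy := le_pos.1 hy.le
    refine ⟨t, ht' t ht le_rfl, ?_⟩
    by_contra hcon
    exact hy (L.lower (not_lt.1 hcon) ht)
  · obtain ⟨t, ht, ht'⟩ := mem_one.1 h
    have hy := le_pos.1 hy.le
    obtain ⟨s, hs, hsy⟩ := hL y hy
    refine ⟨min t s, ht' _ ?_ (min_le_left _ _), lt_of_le_of_lt (min_le_right _ _) hsy⟩
    rcases min_choice t s with h1 | h1 <;> rw [h1] <;> assumption

/-- B2' -/
theorem Mem.exists_gt {B : Set (Set X)} {z : Pos X} (hz : Valid B z) {S : Set X} (h : Mem z S)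
    {y : X} (hy : pos y < z) : ∃ b ∈ S, y < b := by
  rcases hz with ⟨x, rfl⟩ | ⟨L, rfl, hL, _⟩ | ⟨L, rfl, hL, _⟩
  · exact ⟨x, mem_pos.1 h, pos_lt_pos.1 hy⟩
  · obtain ⟨t, ht, ht'⟩ := mem_zero.1 h
    have hy := pos_lt.1 hy
    obtain ⟨s, hs, hsy⟩ := hL y hy
    refine ⟨max t s, ht' _ ?_ (le_max_left _ _), lt_of_lt_of_le hsy (le_max_right _ _)⟩
    rcases max_choice t s with h1 | h1 <;> rw [h1] <;> assumption
  · obtain ⟨t, ht, ht'⟩ := mem_one.1 h
    have hy := pos_lt.1 hy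
    refine ⟨t, ht' t ht le_rfl, ?_⟩
    by_contra hcon
    exact ht (L.lower (not_lt.1 hcon) hy)

/-- Convexity of the set of `w` whose filter contains the convex set `C`. -/
theorem mem_between {B : Set (Set X)} {C : Set X} (hC : C.OrdConnected) {w₁ w w₂ : Pos X}
    (hw : Valid B w) (h1 : Mem w₁ C) (h2 : Mem w₂ C) (h1w : w₁ ≤ w) (hw2 : w ≤ w₂) :
    Mem w C := by
  rcases h1w.eq_or_lt with rfl | h1w
  · exact h1
  rcases hw2.eq_or_lt with rfl | hw2
  · exact h2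
  have key : ∀ s, w₁ ≤ pos s → pos s ≤ w₂ → s ∈ C := by
    intro s hs1 hs2
    obtain ⟨b, hb, hbs⟩ := h1.exists_le hs1
    obtain ⟨b', hb', hbs'⟩ := h2.exists_ge hs2
    exact hC.out hb hb' ⟨hbs, hbs'⟩
  rcases hw with ⟨x, rfl⟩ | ⟨L, rfl, hL, _⟩ | ⟨L, rfl, hL, _⟩
  · exact mem_pos.2 (key x h1w.le hw2.le)
  · obtain ⟨⟨L₁, k₁⟩, rfl⟩ := toLex.surjective w₁
    have h3 : L₁ < L := by
      rw [Prod.Lex.toLex_lt_toLex] at h1w
      rcases h1w with h | ⟨_, h⟩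
      · exact h
      · simp at h
    obtain ⟨y, hy, hy'⟩ := ex_of_lt h3
    refine mem_zero.2 ⟨y, hy, fun s hs hys => key s ?_ ?_⟩
    · exact (le_pos.2 hy').trans (pos_le_pos.2 hys)
    · exact (pos_lt.2 hs).le.trans hw2.le
  · have h3 : ∃ y, y ∉ L ∧ pos y ≤ w₂ := by
      obtain ⟨⟨L₂, k₂⟩, rfl⟩ := toLex.surjective w₂
      rw [Prod.Lex.toLex_lt_toLex] at hw2
      rcases hw2 with h | ⟨h, h'⟩
      · obtain ⟨y, hy, hy'⟩ := ex_of_lt h
        exact ⟨y, hy', (pos_lt.2 hy).le⟩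
      · simp only at h h'
        subst h
        rcases h2 with ⟨x, hx, _⟩ | ⟨L', hx, _⟩ | ⟨L', hx, _⟩
        · refine ⟨x, ?_, hx.ge⟩
          rw [← le_pos, ← hx]
        · exfalso
          have h4 : ((L, k₂) : LowerSet X × Fin 3) = (L', 0) := toLex.injective hx
          rw [Prod.mk.injEq] at h4
          rw [h4.2] at h'
          simp at h'
        · exfalso
          have h4 : ((L, k₂) : LowerSet X × Fin 3) = (L', 1) := toLex.injective hx
          rw [Prod.mk.injEq] at h4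
          rw [h4.2] at h'
          simp at h'
    obtain ⟨y, hy, hy'⟩ := h3
    refine mem_one.2 ⟨y, hy, fun s hs hys => key s ?_ ?_⟩
    · exact h1w.le.trans (le_pos.2 hs)
    · exact (pos_le_pos.2 hys).trans hy'

/-- The right end of a convex set. -/
theorem exists_right {B : Set (Set X)} {C : Set X} (hC : C.OrdConnected) (hne : C.Nonempty)
    (hB : ∀ S, S ⊆ C → S ∈ B) :
    ∃ b, Valid B b ∧ Mem b C ∧ ∀ w, Valid B w → Mem w C → w ≤ b := by
  by_cases hm : ∃ m ∈ C, ∀ c ∈ C, c ≤ m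
  · obtain ⟨m, hm, hm'⟩ := hm
    refine ⟨pos m, Or.inl ⟨m, rfl⟩, mem_pos.2 hm, fun w hw hwC => ?_⟩
    by_contra hcon
    obtain ⟨b, hb, hb'⟩ := Mem.exists_gt hw hwC (not_le.1 hcon)
    exact absurd (hm' b hb) (not_le.2 hb')
  · push Not at hm
    obtain ⟨c₀, hc₀⟩ := hne
    let L : LowerSet X := lowerClosure C
    have hL : ∀ y, y ∈ L ↔ ∃ c ∈ C, y ≤ c := fun y => mem_lowerClosure
    have htail : {s | s ∈ L ∧ c₀ ≤ s} ⊆ C := by
      rintro s ⟨hs, hs'⟩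
      obtain ⟨c, hc, hsc⟩ := (hL s).1 hs
      exact hC.out hc₀ hc ⟨hs', hsc⟩
    have hCL : ∀ c ∈ C, c ∈ L := fun c hc => (hL c).2 ⟨c, hc, le_rfl⟩
    refine ⟨toLex (L, 0), Or.inr (Or.inl ⟨L, rfl, ?_, c₀, hCL c₀ hc₀, hB _ htail⟩),
      mem_zero.2 ⟨c₀, hCL c₀ hc₀, fun s hs hs' => htail ⟨hs, hs'⟩⟩, ?_⟩
    · intro t ht
      obtain ⟨c, hc, htc⟩ := (hL t).1 ht
      obtain ⟨c', hc', hcc'⟩ := hm c hc
      exact ⟨c', hCL c' hc', lt_of_le_of_lt htc hcc'⟩
    · intro w hw hwC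
      by_contra hcon
      rw [not_le] at hcon
      obtain ⟨⟨L', k⟩, rfl⟩ := toLex.surjective w
      rw [Prod.Lex.toLex_lt_toLex] at hcon
      rcases hcon with h | ⟨h, h'⟩
      · obtain ⟨y, hy, hy'⟩ := ex_of_lt h
        obtain ⟨b, hb, hb'⟩ := hwC.exists_ge (pos_lt.2 hy).le
        exact hy' ((hL y).2 ⟨b, hb, hb'⟩)
      · simp only at h h'
        subst h
        rcases hwC with ⟨x, hx, hxC⟩ | ⟨L', hx, _⟩ | ⟨L', hx, t, ht, ht'⟩
        · have h3 : pos x < (toLex (L, k) : Pos X) := pos_lt.2 (hCL x hxC)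
          rw [hx] at h3
          exact lt_irrefl _ h3
        · have h4 : ((L, k) : LowerSet X × Fin 3) = (L', 0) := toLex.injective hx
          rw [Prod.mk.injEq] at h4
          rw [h4.2] at h'
          simp at h'
        · have h4 : ((L, k) : LowerSet X × Fin 3) = (L', 1) := toLex.injective hx
          rw [Prod.mk.injEq] at h4
          rw [← h4.1] at ht ht'
          exact ht (hCL t (ht' t ht le_rfl))

/-- The left end of a convex set. -/
theorem exists_left {B : Set (Set X)} {C : Set X} (hC : C.OrdConnected) (hne : C.Nonempty)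
    (hB : ∀ S, S ⊆ C → S ∈ B) :
    ∃ a, Valid B a ∧ Mem a C ∧ ∀ w, Valid B w → Mem w C → a ≤ w := by
  by_cases hm : ∃ m ∈ C, ∀ c ∈ C, m ≤ c
  · obtain ⟨m, hm, hm'⟩ := hm
    refine ⟨pos m, Or.inl ⟨m, rfl⟩, mem_pos.2 hm, fun w hw hwC => ?_⟩
    by_contra hcon
    obtain ⟨b, hb, hb'⟩ := Mem.exists_lt hw hwC (not_le.1 hcon)
    exact absurd (hm' b hb) (not_le.2 hb')
  · push Not at hm
    obtain ⟨c₀, hc₀⟩ := hne
    let L : LowerSet X := ⟨{y | ∀ c ∈ C, y < c}, fun a b hba ha c hc => lt_of_le_of_lt hba (ha c hc)⟩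
    have hL : ∀ y, y ∈ L ↔ ∀ c ∈ C, y < c := fun y => Iff.rfl
    have hL' : ∀ y, y ∉ L ↔ ∃ c ∈ C, c ≤ y := fun y => by
      rw [hL]; push Not; rfl
    have hhead : {s | s ∉ L ∧ s ≤ c₀} ⊆ C := by
      rintro s ⟨hs, hs'⟩
      obtain ⟨c, hc, hsc⟩ := (hL' s).1 hs
      exact hC.out hc hc₀ ⟨hsc, hs'⟩
    have hCL : ∀ c ∈ C, c ∉ L := fun c hc => (hL' c).2 ⟨c, hc, le_rfl⟩
    refine ⟨toLex (L, 1), Or.inr (Or.inr ⟨L, rfl, ?_, c₀, hCL c₀ hc₀, hB _ hhead⟩),
      mem_one.2 ⟨c₀, hCL c₀ hc₀, fun s hs hs' => hhead ⟨hs, hs'⟩⟩, ?_⟩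
    · intro t ht
      obtain ⟨c, hc, htc⟩ := (hL' t).1 ht
      obtain ⟨c', hc', hcc'⟩ := hm c hc
      exact ⟨c', hCL c' hc', lt_of_lt_of_le hcc' htc⟩
    · intro w hw hwC
      by_contra hcon
      rw [not_le] at hcon
      obtain ⟨⟨L', k⟩, rfl⟩ := toLex.surjective w
      rw [Prod.Lex.toLex_lt_toLex] at hcon
      rcases hcon with h | ⟨h, h'⟩
      · obtain ⟨y, hy, hy'⟩ := ex_of_lt h
        obtain ⟨b, hb, hb'⟩ := hwC.exists_le (le_pos.2 hy')
        exact absurd ((hL y).1 hy b hb) (not_lt.2 hb')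
      · simp only at h h'
        subst h
        rcases hwC with ⟨x, hx, hxC⟩ | ⟨L', hx, t, ht, ht'⟩ | ⟨L', hx, _⟩
        · have h4 : ((_, k) : LowerSet X × Fin 3) = (LowerSet.Iio x, 2) := toLex.injective hx
          rw [Prod.mk.injEq] at h4
          rw [h4.2] at h'
          simp at h'
        · have h4 : ((_, k) : LowerSet X × Fin 3) = (L', 0) := toLex.injective hx
          rw [Prod.mk.injEq] at h4
          rw [← h4.1] at ht ht'
          exact hCL t (ht' t ht le_rfl) ht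
        · have h4 : ((_, k) : LowerSet X × Fin 3) = (L', 1) := toLex.injective hx
          rw [Prod.mk.injEq] at h4
          rw [h4.2] at h'
          simp at h'

/-- **Interval lemma**. -/
theorem interval {B : Set (Set X)} {C : Set X} (hC : C.OrdConnected) (hne : C.Nonempty)
    (hB : ∀ S, S ⊆ C → S ∈ B) :
    ∃ a b, Valid B a ∧ Valid B b ∧ ∀ w, Valid B w → (Mem w C ↔ a ≤ w ∧ w ≤ b) := by
  obtain ⟨a, ha, haC, ha'⟩ := exists_left hC hne hB
  obtain ⟨b, hb, hbC, hb'⟩ := exists_right hC hne hB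
  refine ⟨a, b, ha, hb, fun w hw => ⟨fun h => ⟨ha' w hw h, hb' w hw h⟩, ?_⟩⟩
  rintro ⟨h1, h2⟩
  exact mem_between hC hw haC hbC h1 h2

end Pool.Agent.R828.LC
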