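import Mathlib

/-!
# Layers and rank of Noetherian families

Definitions for MP_5675d3_gt and the general lemmas on layers.
-/

namespace Pool.Agent.R828.NR

open Set Ordinal

universe u

variable {X : Type u}

/-- The layers `𝒜_i` of a family `𝒜` of sets: `𝒜_i` is the set of the `⊆`-maximal elements of
`𝒜 \ ⋃_{j<i} 𝒜_j`. -/
noncomputable def layer (𝒜 : Set (Set X)) (i : Ordinal.{u}) : Set (Set X) :=
  {A | (A ∈ 𝒜 ∧ ∀ j : Ordinal.{u}, ∀ _ : j < i, A ∉ layer 𝒜 j) ∧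
    ∀ B, (B ∈ 𝒜 ∧ ∀ j : Ordinal.{u}, ∀ _ : j < i, B ∉ layer 𝒜 j) → A ⊆ B → A = B}
termination_by i

/-- The rank of `𝒜`: the least ordinal `α` with `𝒜 = ⋃_{i<α} 𝒜_i`. -/
noncomputable def rank (𝒜 : Set (Set X)) : Ordinal.{u} :=
  sInf {α | 𝒜 = ⋃ i < α, layer 𝒜 i}

/-- Noetherian families. -/
def IsNoetherianFamily (𝒜 : Set (Set X)) : Prop :=
  𝒜.Nonempty ∧ ∅ ∉ 𝒜 ∧ ¬ ∃ A : ℕ → Set X, (∀ n, A n ∈ 𝒜) ∧ ∀ n, A n ⊂ A (n + 1)

theorem mem_layer {𝒜 : Set (Set X)} {i : Ordinal.{u}} {A : Set X} :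
    A ∈ layer 𝒜 i ↔ (A ∈ 𝒜 ∧ ∀ j < i, A ∉ layer 𝒜 j) ∧
      ∀ B, (B ∈ 𝒜 ∧ ∀ j < i, B ∉ layer 𝒜 j) → A ⊆ B → A = B := by
  rw [layer]
  rfl

theorem layer_sub {𝒜 : Set (Set X)} {i : Ordinal.{u}} : layer 𝒜 i ⊆ 𝒜 :=
  fun A hA => (mem_layer.1 hA).1.1

theorem layer_unique {𝒜 : Set (Set X)} {i j : Ordinal.{u}} {A : Set X} (hi : A ∈ layer 𝒜 i)
    (hj : A ∈ layer 𝒜 j) : i = j := by
  rcases lt_trichotomy i j with h | h | h
  · exact absurd hi ((mem_layer.1 hj).1.2 i h)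
  · exact h
  · exact absurd hj ((mem_layer.1 hi).1.2 j h)

/-- Strict supersets lie in smaller layers. -/
theorem layer_lt {𝒜 : Set (Set X)} {i : Ordinal.{u}} {A B : Set X} (hA : A ∈ layer 𝒜 i)
    (hB : B ∈ 𝒜) (hAB : A ⊂ B) : ∃ j < i, B ∈ layer 𝒜 j := by
  by_contra hcon
  push Not at hcon
  exact hAB.ne ((mem_layer.1 hA).2 B ⟨hB, hcon⟩ hAB.subset)

/-- If all strict supersets lie in layers below `i` then `A` lies in a layer up to `i`. -/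
theorem layer_le {𝒜 : Set (Set X)} {i : Ordinal.{u}} {A : Set X} (hA : A ∈ 𝒜)
    (h : ∀ B ∈ 𝒜, A ⊂ B → ∃ j < i, B ∈ layer 𝒜 j) : ∃ j ≤ i, A ∈ layer 𝒜 j := by
  by_contra hcon
  push Not at hcon
  apply hcon i le_rfl
  rw [mem_layer]
  refine ⟨⟨hA, fun j hj => hcon j hj.le⟩, fun B hB hAB => ?_⟩
  by_contra hne
  obtain ⟨j, hj, hBj⟩ := h B hB.1 (lt_of_le_of_ne hAB hne)
  exact hB.2 j hj hBj

/-- A member with finitely many supersets lies in a finite layer. -/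
theorem layer_finite {𝒜 : Set (Set X)} (N : ℕ) : ∀ A, A ∈ 𝒜 → {B ∈ 𝒜 | A ⊂ B}.Finite →
    {B ∈ 𝒜 | A ⊂ B}.ncard ≤ N → ∃ n : ℕ, A ∈ layer 𝒜 (n : Ordinal.{u}) := by
  induction N with
  | zero =>
    intro A hA hfin hN
    obtain ⟨j, hj, hAj⟩ := layer_le (i := 0) hA (by
      intro B hB hAB
      exfalso
      have h1 : {B ∈ 𝒜 | A ⊂ B} = ∅ := (Set.ncard_eq_zero hfin).1 (Nat.le_zero.1 hN)
      have h2 : B ∈ {B ∈ 𝒜 | A ⊂ B} := ⟨hB, hAB⟩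
      rw [h1] at h2
      exact h2)
    refine ⟨0, ?_⟩
    rw [nonpos_iff_eq_zero.1 hj] at hAj
    simpa using hAj
  | succ N ih =>
    intro A hA hfin hN
    have h1 : ∀ B ∈ {B ∈ 𝒜 | A ⊂ B}, ∃ n : ℕ, B ∈ layer 𝒜 (n : Ordinal.{u}) := by
      rintro B ⟨hB, hAB⟩
      have hsub : {C ∈ 𝒜 | B ⊂ C} ⊂ {C ∈ 𝒜 | A ⊂ C} := by
        refine ⟨fun C hC => ⟨hC.1, hAB.trans hC.2⟩, fun h => ?_⟩
        exact absurd (h ⟨hB, hAB⟩).2 (ssubset_irrefl B)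
      refine ih B hB (hfin.subset hsub.subset) ?_
      have := Set.ncard_lt_ncard hsub hfin
      omega
    choose! n hn using h1
    obtain ⟨M, hM⟩ := (hfin.image n).bddAbove
    obtain ⟨j, hj, hAj⟩ := layer_le (i := ((M + 1 : ℕ) : Ordinal.{u})) hA (by
      intro B hB hAB
      refine ⟨n B, ?_, hn B ⟨hB, hAB⟩⟩
      have : n B ≤ M := hM ⟨B, ⟨hB, hAB⟩, rfl⟩
      exact_mod_cast Nat.lt_succ_of_le this)
    obtain ⟨k, rfl⟩ := Ordinal.lt_omega0.1 (lt_of_le_of_lt hj (Ordinal.natCast_lt_omega0 _))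
    exact ⟨k, hAj⟩

/-- A chain of strict supersets of length `n` forces the layer to be at least `n`. -/
theorem layer_chain {𝒜 : Set (Set X)} (n : ℕ) : ∀ (i : Ordinal.{u}) (A : Set X), A ∈ layer 𝒜 i →
    (∃ C : ℕ → Set X, (∀ k < n, C k ∈ 𝒜) ∧ (∀ k, k + 1 < n → C k ⊂ C (k + 1)) ∧
      (0 < n → A ⊂ C 0)) → (n : Ordinal.{u}) ≤ i := by
  induction n with
  | zero => intro i A _ _; simp
  | succ n ih =>
    rintro i A hA ⟨C, hC, hC', hAC⟩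
    obtain ⟨j, hj, hCj⟩ := layer_lt hA (hC 0 (Nat.succ_pos _)) (hAC (Nat.succ_pos _))
    have h1 := ih j (C 0) hCj ⟨fun k => C (k + 1), fun k hk => hC _ (by omega),
      fun k hk => hC' (k + 1) (by omega), fun h => hC' 0 (by omega)⟩
    have h2 : (n : Ordinal.{u}) < i := lt_of_le_of_lt h1 hj
    rw [Nat.cast_succ, ← Order.succ_eq_add_one]
    exact Order.succ_le_of_lt h2

/-- If all members lie in layers then there is no infinite increasing chain. -/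
theorem no_chain {𝒜 : Set (Set X)} (h : ∀ A ∈ 𝒜, ∃ i : Ordinal.{u}, A ∈ layer 𝒜 i) :
    ¬ ∃ A : ℕ → Set X, (∀ n, A n ∈ 𝒜) ∧ ∀ n, A n ⊂ A (n + 1) := by
  rintro ⟨A, hA, hA'⟩
  choose i hi using fun n => h (A n) (hA n)
  have hlt : ∀ n, i (n + 1) < i n := by
    intro n
    obtain ⟨j, hj, hj'⟩ := layer_lt (hi n) (hA (n + 1)) (hA' n)
    rwa [layer_unique (hi (n + 1)) hj']
  exact (RelEmbedding.natGT i hlt).not_wellFounded (wellFounded_lt)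

theorem rank_eq_of {𝒜 : Set (Set X)} {α : Ordinal.{u}}
    (h1 : ∀ A ∈ 𝒜, ∃ i < α, A ∈ layer 𝒜 i) (h2 : ∀ β < α, ∃ A ∈ 𝒜, ∀ i < β, A ∉ layer 𝒜 i) :
    rank 𝒜 = α := by
  apply le_antisymm
  · apply csInf_le'
    apply Set.Subset.antisymm
    · intro A hA
      obtain ⟨i, hi, hAi⟩ := h1 A hA
      exact Set.mem_biUnion hi hAi
    · exact Set.iUnion₂_subset (fun i _ => layer_sub)
  · apply le_csInf
    · refine ⟨α, Set.Subset.antisymm ?_ (Set.iUnion₂_subset (fun i _ => layer_sub))⟩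
      intro A hA
      obtain ⟨i, hi, hAi⟩ := h1 A hA
      exact Set.mem_biUnion hi hAi
    · intro β hβ
      by_contra hlt
      obtain ⟨A, hA, hA'⟩ := h2 β (not_le.1 hlt)
      rw [hβ] at hA
      simp only [Set.mem_iUnion] at hA
      obtain ⟨i, hi, hAi⟩ := hA
      exact hA' i hi hAi

end Pool.Agent.R828.NR
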