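import Mathlib
import Pool.Agent.R828.NoethRank

/-!
# The space for MP_5675d3_gt

A zero-dimensional Hausdorff space with a Noetherian base of rank `ω + 1` none of whose
subfamilies is a base of smaller rank.
-/

namespace Pool.Agent.R828.NE

open Set Cardinal
open Pool.Agent.R828.NR

/-- The first uncountable ordinal. -/
abbrev W1 : Type := (ℵ₁ : Cardinal.{0}).ord.ToType

theorem countable_Iio (β : W1) : (Iio β).Countable := by
  rw [← Cardinal.le_aleph0_iff_set_countable, ← Order.lt_succ_iff, Cardinal.succ_aleph0]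
  have h := Cardinal.mk_Iio_lt (α := W1) β (by simp)
  rwa [Cardinal.mk_ord_toType] at h

theorem uncountable_W1 : ¬ (Set.univ : Set W1).Countable := by
  rw [← Cardinal.le_aleph0_iff_set_countable, ← Order.lt_succ_iff, Cardinal.succ_aleph0,
    Cardinal.mk_univ, Cardinal.mk_ord_toType]
  exact lt_irrefl _

/-- Injections of the initial segments into `ℕ`. -/
theorem exists_inj : ∃ e : W1 → W1 → ℕ, ∀ β, Set.InjOn (e β) (Iio β) := by
  have h : ∀ β : W1, ∃ e : W1 → ℕ, Set.InjOn e (Iio β) := fun β =>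
    (countable_iff_exists_injOn).1 (countable_Iio β)
  choose e he using h
  exact ⟨e, he⟩

noncomputable def e : W1 → W1 → ℕ := exists_inj.choose

theorem e_inj (β : W1) : Set.InjOn (e β) (Iio β) := exists_inj.choose_spec β

/-- The symmetric bound function. -/
noncomputable def f (a b : W1) : ℕ := if a < b then e b a else if b < a then e a b else 0

theorem f_symm (a b : W1) : f a b = f b a := by
  unfold f
  rcases lt_trichotomy a b with h | h | h
  · rw [if_pos h, if_neg (not_lt.2 h.le), if_pos h]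
  · subst h; rfl
  · rw [if_neg (not_lt.2 h.le), if_pos h, if_pos h]

/-- One step of the selection. -/
theorem step (C : ℕ → Set W1) (hC : ∀ j, ¬ (C j).Countable) (m : ℕ → ℕ) (k : ℕ) :
    ∃ a ∈ C k, ∀ j, ¬ {b | b ∈ C j ∧ a < b ∧ max (m k) (m j) ≤ e b a}.Countable := by
  by_contra hcon
  push Not at hcon
  have hbad : ∀ j, {a | a ∈ C k ∧
      {b | b ∈ C j ∧ a < b ∧ max (m k) (m j) ≤ e b a}.Countable}.Finite := by
    intro j
    by_contra hinf
    obtain ⟨F, hF, hFc⟩ := Set.Infinite.exists_subset_card_eq hinf (max (m k) (m j) + 1)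
    have hcount : ((⋃ a ∈ F, {b | b ∈ C j ∧ a < b ∧ max (m k) (m j) ≤ e b a}) ∪
        ⋃ a ∈ F, Iic a).Countable := by
      refine Set.Countable.union ?_ ?_
      · exact F.countable_toSet.biUnion (fun a ha => (hF ha).2)
      · refine F.countable_toSet.biUnion (fun a ha => ?_)
        rw [← Iio_insert]
        exact (countable_Iio a).insert a
    obtain ⟨b, hb, hb'⟩ : ∃ b ∈ C j, b ∉ ((⋃ a ∈ F, {b | b ∈ C j ∧ a < b ∧
        max (m k) (m j) ≤ e b a}) ∪ ⋃ a ∈ F, Iic a) := by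
      by_contra hsub
      push Not at hsub
      exact hC j (hcount.mono hsub)
    simp only [Set.mem_union, Set.mem_iUnion, Set.mem_ofPred_eq, Set.mem_Iic, not_or, not_exists]
      at hb'
    have h1 : ∀ a ∈ F, a < b := fun a ha => not_le.1 (hb'.2 a ha)
    have h2 : ∀ a ∈ F, e b a ∈ Finset.range (max (m k) (m j)) := by
      intro a ha
      rw [Finset.mem_range]
      by_contra hle
      exact hb'.1 a ha ⟨hb, h1 a ha, not_lt.1 hle⟩
    have h3 := Finset.card_le_card_of_injOn (e b) h2 (fun x hx y hy hxy =>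
      e_inj b (h1 x hx) (h1 y hy) hxy)
    rw [hFc, Finset.card_range] at h3
    omega
  apply hC k
  have h1 : C k ⊆ ⋃ j, {a | a ∈ C k ∧
      {b | b ∈ C j ∧ a < b ∧ max (m k) (m j) ≤ e b a}.Countable} := by
    intro a ha
    obtain ⟨j, hj⟩ := hcon a ha
    exact Set.mem_iUnion.2 ⟨j, ha, hj⟩
  exact (Set.countable_iUnion (fun j => (hbad j).countable)).mono h1

/-- The selection lemma. -/
theorem selection (A : ℕ → Set W1) (hA : ∀ j, ¬ (A j).Countable) (m : ℕ → ℕ) :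
    ∃ a : ℕ → W1, (∀ j, a j ∈ A j) ∧ ∀ i j, i ≠ j → m i ≤ f (a i) (a j) := by
  choose nx hnx1 hnx2 using step
  let St := {C : ℕ → Set W1 // ∀ j, ¬ (C j).Countable}
  let next : ℕ → St → St := fun k C =>
    ⟨fun j => {b | b ∈ C.1 j ∧ nx C.1 C.2 m k < b ∧ max (m k) (m j) ≤ e b (nx C.1 C.2 m k)},
      hnx2 C.1 C.2 m k⟩
  let S : ℕ → St := fun k => Nat.rec ⟨A, hA⟩ (fun k C => next k C) k
  have hS : ∀ k, S (k + 1) = next k (S k) := fun k => rfl
  have hanti : ∀ j, Antitone (fun k => (S k).1 j) := fun j =>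
    antitone_nat_of_succ_le (fun k => by
      rw [hS]
      intro b hb
      exact hb.1)
  let a : ℕ → W1 := fun k => nx (S k).1 (S k).2 m k
  have ha : ∀ k, a k ∈ (S k).1 k := fun k => hnx1 (S k).1 (S k).2 m k
  have key : ∀ i j, i < j → a i < a j ∧ max (m i) (m j) ≤ e (a j) (a i) := by
    intro i j hij
    have h1 : a j ∈ (S (i + 1)).1 j := hanti j (Nat.succ_le_of_lt hij) (ha j)
    rw [hS] at h1
    exact h1.2
  refine ⟨a, fun j => hanti j (Nat.zero_le j) (ha j), fun i j hij => ?_⟩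
  rcases lt_or_gt_of_ne hij with h | h
  · obtain ⟨h1, h2⟩ := key i j h
    unfold f
    rw [if_pos h1]
    exact (le_max_left _ _).trans h2
  · obtain ⟨h1, h2⟩ := key j i h
    rw [f_symm]
    unfold f
    rw [if_pos h1]
    exact (le_max_right _ _).trans h2

/-- The types of the trees: every fiber is uncountable. -/
theorem exists_ty : ∃ ty : W1 → ℕ, ∀ n, ¬ {a | ty a = n}.Countable := by
  have h : #(W1 × ℕ) = #W1 := by
    rw [Cardinal.mk_prod, Cardinal.lift_id, Cardinal.lift_id, Cardinal.mk_ord_toType,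
      Cardinal.mk_nat]
    exact Cardinal.mul_eq_left (Cardinal.aleph0_le_aleph _) (Cardinal.aleph0_le_aleph _)
      Cardinal.aleph0_ne_zero
  obtain ⟨φ⟩ := Cardinal.eq.1 h
  refine ⟨fun a => (φ.symm a).2, fun n hn => ?_⟩
  apply uncountable_W1
  have h2 : (Set.univ : Set W1) ⊆ (fun b => (φ.symm b).1) '' {a | (φ.symm a).2 = n} := by
    intro a _
    exact ⟨φ (a, n), by simp, by simp⟩
  exact (hn.image _).mono h2

noncomputable def ty : W1 → ℕ := exists_ty.choose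

theorem ty_fiber (n : ℕ) : ¬ {a | ty a = n}.Countable := exists_ty.choose_spec n

/-- The nodes. -/
abbrev Nd : Type := {q : W1 × List ℕ // q.2.length < ty q.1}

/-- The isolated points. -/
abbrev Gd : Type := {g : Set W1 × (W1 → ℕ → ℕ) //
  ∀ a ∈ g.1, ∀ b ∈ g.1, a ≠ b → ∀ k < ty a, g.2 a k ≤ f a b}

/-- The space. -/
abbrev Sp : Type := Nd ⊕ Gd

/-- The trace of a point in the tree `a`. -/
def Tr (a : W1) : Sp → List ℕ → Prop
  | Sum.inl q, τ => q.1.1 = a ∧ τ = q.1.2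
  | Sum.inr g, τ => a ∈ g.1.1 ∧ τ = (List.range (ty a)).map (g.1.2 a)

theorem Tr.unique {a : W1} {x : Sp} {τ τ' : List ℕ} (h : Tr a x τ) (h' : Tr a x τ') : τ = τ' := by
  rcases x with q | g
  · exact h.2.trans h'.2.symm
  · exact h.2.trans h'.2.symm

/-- The basic sets. -/
def B (a : W1) (t : List ℕ) (m : ℕ) : Set Sp :=
  {x | ∃ τ, Tr a x τ ∧ (τ = t ∨ ∃ k, m ≤ k ∧ (t ++ [k]) <+: τ)}

/-- The base. -/
def Bs : Set (Set Sp) :=
  {S | (∃ a t m, t.length < ty a ∧ S = B a t m) ∨ ∃ g : Gd, S = {Sum.inr g}}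

/-! ### Lists -/

theorem pre_of {t τ : List ℕ} {k : ℕ} (h : (t ++ [k]) <+: τ) : t <+: τ :=
  (List.prefix_append t [k]).trans h

theorem len_of {t τ : List ℕ} {k : ℕ} (h : (t ++ [k]) <+: τ) : t.length < τ.length := by
  have := h.length_le
  simp at this
  omega

theorem key_unique {t τ : List ℕ} {k j : ℕ} (h : (t ++ [k]) <+: τ) (h' : (t ++ [j]) <+: τ) :
    k = j := by
  have h1 := List.prefix_or_prefix_of_prefix h h'
  have h2 : t ++ [k] = t ++ [j] := by
    rcases h1 with h1 | h1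
    · exact h1.eq_of_length (by simp)
    · exact (h1.eq_of_length (by simp)).symm
  simpa using h2

theorem ex_key {t τ : List ℕ} (h : t <+: τ) (hne : t ≠ τ) : ∃ k, (t ++ [k]) <+: τ := by
  obtain ⟨s, rfl⟩ := h
  rcases s with _ | ⟨k, s⟩
  · simp at hne
  · exact ⟨k, s, by simp⟩

theorem mem_of {t τ : List ℕ} {k : ℕ} (h : (t ++ [k]) <+: τ) : k ∈ τ :=
  h.subset (by simp)

theorem le_sum {l : List ℕ} {x : ℕ} (h : x ∈ l) : x ≤ l.sum := by
  induction l with
  | nil => simp at h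
  | cons y l ih =>
    rw [List.sum_cons]
    rcases List.mem_cons.1 h with rfl | h
    · omega
    · have := ih h; omega

/-! ### The topology -/

theorem nd_mem {b : W1} {t' : List ℕ} (h : t'.length < ty b) {a : W1} {t : List ℕ} {m : ℕ} :
    (Sum.inl ⟨(b, t'), h⟩ : Sp) ∈ B a t m ↔ b = a ∧ (t' = t ∨ ∃ k, m ≤ k ∧ (t ++ [k]) <+: t') := by
  constructor
  · rintro ⟨τ, ⟨h1, h2⟩, h3⟩
    simp only at h1 h2
    subst h2
    exact ⟨h1, h3⟩
  · rintro ⟨h1, h3⟩
    exact ⟨t', ⟨h1, rfl⟩, h3⟩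

theorem B_sub_same {a : W1} {t : List ℕ} {m m' : ℕ} (h : m ≤ m') : B a t m' ⊆ B a t m := by
  rintro x ⟨τ, h1, h2 | ⟨k, hk, h2⟩⟩
  · exact ⟨τ, h1, Or.inl h2⟩
  · exact ⟨τ, h1, Or.inr ⟨k, h.trans hk, h2⟩⟩

theorem B_sub_child {a : W1} {t t' : List ℕ} {m k : ℕ} (hk : m ≤ k) (h : (t ++ [k]) <+: t')
    (m' : ℕ) : B a t' m' ⊆ B a t m := by
  rintro x ⟨τ, h1, h2 | ⟨j, hj, h2⟩⟩
  · subst h2
    exact ⟨τ, h1, Or.inr ⟨k, hk, h⟩⟩
  · exact ⟨τ, h1, Or.inr ⟨k, hk, h.trans (pre_of h2)⟩⟩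

theorem B_sub {a : W1} {t t' : List ℕ} {m m' : ℕ} (hm : m ≤ m')
    (h : t' = t ∨ ∃ k, m ≤ k ∧ (t ++ [k]) <+: t') : B a t' m' ⊆ B a t m := by
  rcases h with rfl | ⟨k, hk, h⟩
  · exact B_sub_same hm
  · exact B_sub_child hk h m'

instance : TopologicalSpace Sp := TopologicalSpace.generateFrom Bs

theorem basis : TopologicalSpace.IsTopologicalBasis Bs where
  exists_subset_inter := by
    rintro S₁ h₁ S₂ h₂ x ⟨hx1, hx2⟩
    rcases x with ⟨⟨a, t⟩, h⟩ | g
    · rcases h₁ with ⟨a₁, t₁, m₁, _, rfl⟩ | ⟨g, rfl⟩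
      · rcases h₂ with ⟨a₂, t₂, m₂, _, rfl⟩ | ⟨g, rfl⟩
        · obtain ⟨rfl, h1⟩ := (nd_mem h).1 hx1
          obtain ⟨rfl, h2⟩ := (nd_mem h).1 hx2
          refine ⟨B a t (max m₁ m₂), Or.inl ⟨a, t, _, h, rfl⟩, (nd_mem h).2 ⟨rfl, Or.inl rfl⟩, ?_⟩
          exact Set.subset_inter (B_sub (le_max_left _ _) h1) (B_sub (le_max_right _ _) h2)
        · exact absurd hx2 (by simp)
      · exact absurd hx1 (by simp)
    · exact ⟨{Sum.inr g}, Or.inr ⟨g, rfl⟩, rfl, by
        rintro _ rfl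
        exact ⟨hx1, hx2⟩⟩
  sUnion_eq := by
    apply Set.eq_univ_of_forall
    rintro (⟨⟨a, t⟩, h⟩ | g)
    · exact ⟨B a t 0, Or.inl ⟨a, t, 0, h, rfl⟩, (nd_mem h).2 ⟨rfl, Or.inl rfl⟩⟩
    · exact ⟨{Sum.inr g}, Or.inr ⟨g, rfl⟩, rfl⟩
  eq_generateFrom := rfl

theorem isOpen_B {a : W1} {t : List ℕ} (h : t.length < ty a) (m : ℕ) : IsOpen (B a t m) :=
  basis.isOpen (Or.inl ⟨a, t, m, h, rfl⟩)

theorem isOpen_single (g : Gd) : IsOpen ({Sum.inr g} : Set Sp) :=
  basis.isOpen (Or.inr ⟨g, rfl⟩)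

/-- Points outside a basic set have a basic neighbourhood disjoint from it. -/
theorem isClosed_B {a : W1} {t : List ℕ} (h : t.length < ty a) (m : ℕ) : IsClosed (B a t m) := by
  rw [← isOpen_compl_iff, isOpen_iff_forall_mem_open]
  rintro (⟨⟨b, t'⟩, h'⟩ | g) hx
  · by_cases hab : b = a
    · subst hab
      refine ⟨B b t' (t.sum + 1), ?_, isOpen_B h' _, (nd_mem h').2 ⟨rfl, Or.inl rfl⟩⟩
      rintro y ⟨τ, hy, hτ'⟩ ⟨τ₂, hy₂, hτ⟩
      obtain rfl := hy.unique hy₂
      have hxt : ¬ (t' = t ∨ ∃ k, m ≤ k ∧ (t ++ [k]) <+: t') := fun h1 =>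
        hx ((nd_mem h').2 ⟨rfl, h1⟩)
      push Not at hxt
      have p1 : t <+: τ := by
        rcases hτ with h1 | ⟨k, _, h1⟩
        · rw [h1]
        · exact pre_of h1
      have p2 : t' <+: τ := by
        rcases hτ' with h1 | ⟨k, _, h1⟩
        · rw [h1]
        · exact pre_of h1
      rcases List.prefix_or_prefix_of_prefix p1 p2 with h3 | h3
      · obtain ⟨i, hi⟩ := ex_key h3 (fun h4 => hxt.1 h4.symm)
        rcases hτ with h1 | ⟨k, hk, h1⟩
        · subst h1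
          exact absurd (len_of (hi.trans p2)) (lt_irrefl _)
        · have : i = k := key_unique (hi.trans p2) h1
          subst this
          exact hxt.2 i hk hi
      · obtain ⟨i, hi⟩ := ex_key h3 hxt.1
        have hi2 := le_sum (mem_of hi)
        rcases hτ' with h1 | ⟨j, hj, h1⟩
        · subst h1
          exact absurd (len_of (hi.trans p1)) (lt_irrefl _)
        · have : i = j := key_unique (hi.trans p1) h1
          omega
    · refine ⟨B b t' (f b a + 1), ?_, isOpen_B h' _, (nd_mem h').2 ⟨rfl, Or.inl rfl⟩⟩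
      rintro y ⟨τ, hy, hτ'⟩ ⟨τ₂, hy₂, hτ⟩
      rcases y with q | g
      · exact hab (hy.1.symm.trans hy₂.1)
      · obtain ⟨hbg, rfl⟩ := hy
        obtain ⟨hag, rfl⟩ := hy₂
        rcases hτ' with h1 | ⟨j, hj, h1⟩
        · rw [← h1] at h'
          simp at h'
        · have h2 : j ∈ (List.range (ty b)).map (g.1.2 b) := mem_of h1
          obtain ⟨k, hk, hkj⟩ := List.mem_map.1 h2
          have h3 := g.2 b hbg a hag hab k (List.mem_range.1 hk)
          omega
  · refine ⟨{Sum.inr g}, ?_, isOpen_single g, rfl⟩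
    rintro _ rfl
    exact hx

theorem isClosed_single (g : Gd) : IsClosed ({Sum.inr g} : Set Sp) := by
  rw [← isOpen_compl_iff, isOpen_iff_forall_mem_open]
  rintro (⟨⟨b, t'⟩, h'⟩ | g') hx
  · refine ⟨B b t' (((List.range (ty b)).map (g.1.2 b)).sum + 1), ?_, isOpen_B h' _,
      (nd_mem h').2 ⟨rfl, Or.inl rfl⟩⟩
    rintro y ⟨τ, hy, hτ'⟩ hyg
    rw [Set.mem_singleton_iff] at hyg
    subst hyg
    obtain ⟨hbg, rfl⟩ := hy
    rcases hτ' with h1 | ⟨j, hj, h1⟩
    · rw [← h1] at h'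
      simp at h'
    · have h2 := le_sum (mem_of h1)
      omega
  · refine ⟨{Sum.inr g'}, ?_, isOpen_single g', rfl⟩
    rintro _ rfl
    exact hx

theorem isClopen {S : Set Sp} (hS : S ∈ Bs) : IsClopen S := by
  rcases hS with ⟨a, t, m, h, rfl⟩ | ⟨g, rfl⟩
  · exact ⟨isClosed_B h m, isOpen_B h m⟩
  · exact ⟨isClosed_single g, isOpen_single g⟩

theorem separated (x y : Sp) (hxy : x ≠ y) : ∃ S ∈ Bs, x ∈ S ∧ y ∉ S := by
  rcases x with ⟨⟨a, t⟩, h⟩ | g
  · rcases y with ⟨⟨b, t'⟩, h'⟩ | g'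
    · refine ⟨B a t (t'.sum + 1), Or.inl ⟨a, t, _, h, rfl⟩, (nd_mem h).2 ⟨rfl, Or.inl rfl⟩, ?_⟩
      rw [nd_mem]
      rintro ⟨rfl, h1 | ⟨k, hk, h1⟩⟩
      · subst h1
        exact hxy rfl
      · have := le_sum (mem_of h1)
        omega
    · refine ⟨B a t (((List.range (ty a)).map (g'.1.2 a)).sum + 1), Or.inl ⟨a, t, _, h, rfl⟩,
        (nd_mem h).2 ⟨rfl, Or.inl rfl⟩, ?_⟩
      rintro ⟨τ, hy, hτ'⟩
      obtain ⟨hbg, rfl⟩ := hy
      rcases hτ' with h1 | ⟨j, hj, h1⟩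
      · rw [← h1] at h
        simp at h
      · have h2 := le_sum (mem_of h1)
        omega
  · exact ⟨{Sum.inr g}, Or.inr ⟨g, rfl⟩, rfl, fun h => hxy h.symm⟩

instance : T2Space Sp where
  t2 := by
    intro x y hxy
    obtain ⟨S, hS, hx, hy⟩ := separated x y hxy
    exact ⟨S, Sᶜ, (isClopen hS).isOpen, (isClopen hS).compl.isOpen, hx, hy, disjoint_compl_right⟩

/-! ### Ranks -/

/-- A basic set has finitely many strict supersets in the base. -/
theorem finite_sup {a : W1} {t : List ℕ} {m : ℕ} (h : t.length < ty a) :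
    {S ∈ Bs | B a t m ⊂ S}.Finite := by
  have hfin : ((fun p : List ℕ × ℕ => B a p.1 p.2) ''
      ({t' : List ℕ | t' <+: t} ×ˢ Iic (max m t.sum))).Finite := by
    apply Set.Finite.image
    apply Set.Finite.prod
    · have h1 : {t' : List ℕ | t' <+: t} = {t' | t' ∈ t.inits} := by
        ext t'
        simp
      rw [h1]
      exact List.finite_toSet _
    · exact Set.finite_Iic _
  refine hfin.subset ?_
  rintro S ⟨hS, hsub⟩
  have hnd : (Sum.inl ⟨(a, t), h⟩ : Sp) ∈ S := hsub.subset ((nd_mem h).2 ⟨rfl, Or.inl rfl⟩)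
  rcases hS with ⟨a', t', m', h', rfl⟩ | ⟨g, rfl⟩
  · obtain ⟨rfl, h1⟩ := (nd_mem h).1 hnd
    refine ⟨(t', m'), ⟨?_, ?_⟩, rfl⟩
    · rcases h1 with rfl | ⟨k, _, h1⟩
      · exact List.prefix_refl _
      · exact pre_of h1
    · rcases h1 with rfl | ⟨k, hk, h1⟩
      · refine Set.mem_Iic.2 ?_
        by_contra hlt
        push Not at hlt
        have h2 : m ≤ m' := (le_max_left _ _).trans hlt.le
        exact hsub.not_subset (B_sub_same h2)
      · exact Set.mem_Iic.2 (hk.trans ((le_sum (mem_of h1)).trans (le_max_right _ _)))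
  · exact absurd hnd (by simp)

/-- In any subfamily of the base all members lie in layers of index at most `ω`. -/
theorem layers (𝒜 : Set (Set Sp)) (h𝒜 : 𝒜 ⊆ Bs) :
    ∀ A ∈ 𝒜, ∃ i < Ordinal.omega0 + 1, A ∈ layer 𝒜 i := by
  have hfin : ∀ A ∈ 𝒜, (∃ a t m, t.length < ty a ∧ A = B a t m) →
      ∃ n : ℕ, A ∈ layer 𝒜 (n : Ordinal.{0}) := by
    rintro A hA ⟨a, t, m, h, rfl⟩
    exact layer_finite _ _ hA ((finite_sup h).subset (fun S hS => ⟨h𝒜 hS.1, hS.2⟩)) le_rfl
  intro A hA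
  rcases h𝒜 hA with h | ⟨g, rfl⟩
  · obtain ⟨n, hn⟩ := hfin A hA h
    exact ⟨n, (Ordinal.natCast_lt_omega0 n).trans (lt_add_one _), hn⟩
  · obtain ⟨j, hj, h⟩ := layer_le (i := Ordinal.omega0) hA (by
      intro S hS hsub
      rcases h𝒜 hS with h | ⟨g', rfl⟩
      · obtain ⟨n, hn⟩ := hfin S hS h
        exact ⟨n, Ordinal.natCast_lt_omega0 n, hn⟩
      · exfalso
        have h1 : (Sum.inr g : Sp) ∈ ({Sum.inr g'} : Set Sp) := hsub.subset rfl
        rw [Set.mem_singleton_iff] at h1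
        rw [h1] at hsub
        exact ssubset_irrefl _ hsub)
    exact ⟨j, lt_of_le_of_lt hj (lt_add_one _), h⟩

/-- A base contained in `Bs` contains a basic set at each node. -/
theorem exists_basic (𝒜 : Set (Set Sp)) (h𝒜 : 𝒜 ⊆ Bs)
    (hb : TopologicalSpace.IsTopologicalBasis 𝒜) {a : W1} {t : List ℕ} (h : t.length < ty a) :
    ∃ m, B a t m ∈ 𝒜 := by
  obtain ⟨S, hS, hxS, hSB⟩ := hb.exists_subset_of_mem_open
    ((nd_mem h).2 ⟨rfl, Or.inl rfl⟩ : (Sum.inl ⟨(a, t), h⟩ : Sp) ∈ B a t 0) (isOpen_B h 0)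
  rcases h𝒜 hS with ⟨a', t', m', h', rfl⟩ | ⟨g, rfl⟩
  · obtain ⟨rfl, h1⟩ := (nd_mem h).1 hxS
    rcases h1 with rfl | ⟨k, hk, h1⟩
    · exact ⟨m', hS⟩
    · exfalso
      have h2 := hSB ((nd_mem h').2 ⟨rfl, Or.inl rfl⟩)
      obtain ⟨_, h3 | ⟨j, _, h3⟩⟩ := (nd_mem h').1 h2
      · subst h3
        exact absurd (len_of h1) (lt_irrefl _)
      · exact absurd (len_of h1) (not_lt.2 (len_of h3).le)
  · exact absurd hxS (by simp)

theorem single_mem (𝒜 : Set (Set Sp)) (hb : TopologicalSpace.IsTopologicalBasis 𝒜) (g : Gd) :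
    {Sum.inr g} ∈ 𝒜 := by
  obtain ⟨S, hS, hxS, hSB⟩ := hb.exists_subset_of_mem_open
    (Set.mem_singleton (Sum.inr g : Sp)) (isOpen_single g)
  have : S = {Sum.inr g} := Set.Subset.antisymm hSB (by
    rintro _ rfl
    exact hxS)
  rwa [this] at hS

/-- In every base contained in `Bs` some isolated point lies in no finite layer. -/
theorem high_point (𝒜 : Set (Set Sp)) (h𝒜 : 𝒜 ⊆ Bs)
    (hb : TopologicalSpace.IsTopologicalBasis 𝒜) :
    ∃ A ∈ 𝒜, ∀ i < Ordinal.omega0, A ∉ layer 𝒜 i := by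
  classical
  have hM : ∀ (a : W1) (t : List ℕ), ∃ m, t.length < ty a → B a t m ∈ 𝒜 := by
    intro a t
    by_cases h : t.length < ty a
    · obtain ⟨m, hm⟩ := exists_basic 𝒜 h𝒜 hb h
      exact ⟨m, fun _ => hm⟩
    · exact ⟨0, fun h' => absurd h' h⟩
  choose M hM using hM
  -- the paths
  let L : W1 → ℕ → List ℕ := fun a i => Nat.rec [] (fun _ l => l ++ [M a l]) i
  have hL : ∀ a i, L a (i + 1) = L a i ++ [M a (L a i)] := fun a i => rfl
  have hLlen : ∀ a i, (L a i).length = i := by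
    intro a i
    induction i with
    | zero => rfl
    | succ i ih => rw [hL]; simp [ih]
  let path : W1 → ℕ → ℕ := fun a i => M a (L a i)
  have hLmap : ∀ a i, (List.range i).map (path a) = L a i := by
    intro a i
    induction i with
    | zero => rfl
    | succ i ih => rw [List.range_succ, List.map_append, ih, hL]; rfl
  have hLpre : ∀ a i j, i ≤ j → L a i <+: L a j := by
    intro a i j hij
    induction hij with
    | refl => exact List.prefix_refl _
    | step _ ih => exact ih.trans (by rw [hL]; exact List.prefix_append _ _)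
  have hbound : ∀ a k, k < ty a → path a k ≤ (L a (ty a)).sum := by
    intro a k hk
    apply le_sum
    rw [← hLmap]
    exact List.mem_map.2 ⟨k, List.mem_range.2 hk, rfl⟩
  -- uncountable sets on which the bound is constant
  have hm : ∀ n, ∃ m, ¬ {a | ty a = n ∧ (L a (ty a)).sum = m}.Countable := by
    intro n
    by_contra hcon
    push Not at hcon
    apply ty_fiber n
    have h1 : {a | ty a = n} ⊆ ⋃ m, {a | ty a = n ∧ (L a (ty a)).sum = m} := by
      intro a ha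
      exact Set.mem_iUnion.2 ⟨_, ha, rfl⟩
    exact (Set.countable_iUnion hcon).mono h1
  choose m hm using hm
  obtain ⟨a, ha, haf⟩ := selection _ hm m
  have hprop : ∀ x ∈ Set.range a, ∀ y ∈ Set.range a, x ≠ y → ∀ k < ty x, path x k ≤ f x y := by
    rintro _ ⟨i, rfl⟩ _ ⟨j, rfl⟩ hij k hk
    have hij' : i ≠ j := fun h => hij (by rw [h])
    calc path (a i) k ≤ (L (a i) (ty (a i))).sum := hbound _ _ hk
      _ = m i := (ha i).2
      _ ≤ f (a i) (a j) := haf i j hij'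
  let g : Gd := ⟨(Set.range a, path), hprop⟩
  refine ⟨{Sum.inr g}, single_mem 𝒜 hb g, ?_⟩
  intro i hi hlay
  obtain ⟨n, rfl⟩ := Ordinal.lt_omega0.1 hi
  -- a chain of length `n + 1` in the tree `a (n + 1)`
  let b := a (n + 1)
  have htb : ty b = n + 1 := (ha (n + 1)).1
  have hle := layer_chain (n + 1) _ _ hlay
    ⟨fun k => B b (L b (n - k)) (M b (L b (n - k))), ?_, ?_, ?_⟩
  · have : (n + 1 : ℕ) ≤ n := by exact_mod_cast hle
    omega
  · intro k hk
    apply hM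
    rw [hLlen, htb]
    omega
  · intro k hk
    have h1 : n - k = (n - (k + 1)) + 1 := by omega
    constructor
    · refine B_sub_child (k := M b (L b (n - (k + 1)))) le_rfl ?_ _
      rw [h1, hL]
    · intro hcon
      have hlen : (L b (n - (k + 1))).length < ty b := by rw [hLlen, htb]; omega
      have h2 := hcon ((nd_mem hlen).2 ⟨rfl, Or.inl rfl⟩)
      obtain ⟨_, h3 | ⟨j, _, h3⟩⟩ := (nd_mem hlen).1 h2
      · have := congrArg List.length h3
        rw [hLlen, hLlen] at this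
        omega
      · have := len_of h3
        rw [hLlen, hLlen] at this
        omega
  · intro _
    have h2 : (Sum.inr g : Sp) ∈ B b (L b (n - 0)) (M b (L b (n - 0))) := by
      refine ⟨_, ⟨⟨n + 1, rfl⟩, rfl⟩, Or.inr ⟨_, le_rfl, ?_⟩⟩
      show L b (n - 0) ++ [M b (L b (n - 0))] <+: (List.range (ty b)).map (path b)
      rw [hLmap, htb, ← hL]
      exact List.prefix_refl _
    constructor
    · rintro _ rfl
      exact h2
    · intro hcon
      have hlen : (L b (n - 0)).length < ty b := by rw [hLlen, htb]; omega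
      have h3 := hcon ((nd_mem hlen).2 ⟨rfl, Or.inl rfl⟩)
      exact absurd h3 (by simp)

theorem rank_eq (𝒜 : Set (Set Sp)) (h𝒜 : 𝒜 ⊆ Bs)
    (hb : TopologicalSpace.IsTopologicalBasis 𝒜) : rank 𝒜 = Ordinal.omega0 + 1 := by
  apply rank_eq_of (layers 𝒜 h𝒜)
  intro β hβ
  obtain ⟨A, hA, hA'⟩ := high_point 𝒜 h𝒜 hb
  refine ⟨A, hA, fun i hi => hA' i (lt_of_lt_of_le hi ?_)⟩
  rwa [← Order.succ_eq_add_one, Order.lt_succ_iff] at hβ

theorem nonempty_Sp : Nonempty Sp := ⟨Sum.inr ⟨(∅, fun _ _ => 0), fun a ha => absurd ha (by simp)⟩⟩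

theorem noeth (𝒜 : Set (Set Sp)) (h𝒜 : 𝒜 ⊆ Bs)
    (hb : TopologicalSpace.IsTopologicalBasis 𝒜) : IsNoetherianFamily 𝒜 := by
  refine ⟨?_, ?_, ?_⟩
  · obtain ⟨A, hA, _⟩ := high_point 𝒜 h𝒜 hb
    exact ⟨A, hA⟩
  · intro h
    rcases h𝒜 h with ⟨a, t, m, h1, h2⟩ | ⟨g, h2⟩
    · have h3 : (Sum.inl ⟨(a, t), h1⟩ : Sp) ∈ (∅ : Set Sp) := by
        rw [h2]; exact (nd_mem h1).2 ⟨rfl, Or.inl rfl⟩
      exact h3
    · exact absurd h2.symm (Set.singleton_ne_empty _)
  · apply no_chain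
    intro A hA
    obtain ⟨i, _, hi⟩ := layers 𝒜 h𝒜 A hA
    exact ⟨i, hi⟩

end Pool.Agent.R828.NE
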