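import Mathlib
import Pool.Agent.R828.Disc

/-!
# Products of balleans which are bounded for a class of slowly oscillating functions

The common part of the proofs that products of so-bounded (bo-bounded, emu-bounded) balleans are
so-bounded (bo-bounded, emu-bounded).
-/

namespace Pool.Agent.R828

open Set

universe u v

/-- A ballean, given by a base of reflexive entourages. -/
structure Bal (X : Type u) where
  ent : Set (Set (X × X))
  diag : ∀ E ∈ ent, ∀ x, (x, x) ∈ E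
  comp : ∀ E ∈ ent, ∀ F ∈ ent, ∃ D ∈ ent, ∀ x y z, (x, y) ∈ E → (z, y) ∈ F → (x, z) ∈ D
  conn : ∀ x y, ∃ E ∈ ent, (x, y) ∈ E

variable {X : Type u} {Y : Type v}

/-- Bounded sets. -/
def Bal.Bd (A : Bal X) (S : Set X) : Prop := ∃ E ∈ A.ent, ∃ x, ∀ y ∈ S, (x, y) ∈ E

theorem Bal.Bd.mono {A : Bal X} {S T : Set X} (h : S ⊆ T) (hT : A.Bd T) : A.Bd S := by
  obtain ⟨E, hE, x, hx⟩ := hT
  exact ⟨E, hE, x, fun y hy => hx y (h hy)⟩

/-- Some entourage contains `E`, `F` and their inverses. -/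
theorem Bal.dir (A : Bal X) {E F : Set (X × X)} (hE : E ∈ A.ent) (hF : F ∈ A.ent) :
    ∃ D ∈ A.ent, (∀ x y, (x, y) ∈ E → (x, y) ∈ D ∧ (y, x) ∈ D) ∧
      (∀ x y, (x, y) ∈ F → (x, y) ∈ D ∧ (y, x) ∈ D) := by
  obtain ⟨D1, h1, h1'⟩ := A.comp E hE F hF
  obtain ⟨D, h2, h2'⟩ := A.comp D1 h1 D1 h1
  refine ⟨D, h2, fun x y h => ?_, fun x y h => ?_⟩
  · have : (x, y) ∈ D1 := h1' x y y h (A.diag F hF y)
    exact ⟨h2' x y y this (A.diag _ h1 y), h2' y y x (A.diag _ h1 y) this⟩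
  · have : (y, x) ∈ D1 := h1' y y x (A.diag E hE y) h
    exact ⟨h2' x x y (A.diag _ h1 x) this, h2' y x x this (A.diag _ h1 x)⟩

/-- Compositions. -/
theorem Bal.mul (A : Bal X) {E F : Set (X × X)} (hE : E ∈ A.ent) (hF : F ∈ A.ent) :
    ∃ D ∈ A.ent, ∀ x y z, (x, y) ∈ E → (y, z) ∈ F → (x, z) ∈ D := by
  obtain ⟨F', hF', _, h2⟩ := A.dir hF hF
  obtain ⟨D, hD, h3⟩ := A.comp E hE F' hF'
  exact ⟨D, hD, fun x y z h4 h5 => h3 x y z h4 (h2 y z h5).2⟩

theorem Bal.Bd.union {A : Bal X} {S T : Set X} (hS : A.Bd S) (hT : A.Bd T) : A.Bd (S ∪ T) := by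
  obtain ⟨E, hE, x, hx⟩ := hS
  obtain ⟨F, hF, z, hz⟩ := hT
  obtain ⟨G, hG, hxz⟩ := A.conn x z
  obtain ⟨H, hH, hH'⟩ := A.mul hG hF
  obtain ⟨D, hD, h1, h2⟩ := A.dir hE hH
  refine ⟨D, hD, x, ?_⟩
  rintro y (hy | hy)
  · exact (h1 _ _ (hx y hy)).1
  · exact (h2 _ _ (hH' _ _ _ hxz (hz y hy))).1

/-- Oscillation of a function on the product, off a bounded set. -/
def OscP (A : Bal X) (B : Bal Y) (E : Set (X × X)) (F : Set (Y × Y)) (f : X → Y → ℝ) (c : ℝ) :
    Prop :=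
  ∃ S T, A.Bd S ∧ B.Bd T ∧ ∀ x y x' y', (x ∉ S ∨ y ∉ T) → (x, x') ∈ E → (y, y') ∈ F →
    |f x y - f x' y'| ≤ c

/-- Oscillation off a bounded set. -/
def Osc (A : Bal X) (E : Set (X × X)) (g : X → ℝ) (c : ℝ) : Prop :=
  ∃ S, A.Bd S ∧ ∀ x x', x ∉ S → (x, x') ∈ E → |g x - g x'| ≤ c

theorem OscP.flip {A : Bal X} {B : Bal Y} {E : Set (X × X)} {F : Set (Y × Y)} {f : X → Y → ℝ}
    {c : ℝ} (h : OscP A B E F f c) : OscP B A F E (fun y x => f x y) c := by
  obtain ⟨S, T, hS, hT, h⟩ := h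
  exact ⟨T, S, hT, hS, fun x y x' y' h1 h2 h3 => h y x y' x' h1.symm h3 h2⟩

/-- The first factor is bounded for all functions on it whose oscillation is controlled by that
of `f`. -/
def KX (A : Bal X) (B : Bal Y) (f : X → Y → ℝ) : Prop :=
  ∀ g : X → ℝ, (∀ E ∈ A.ent, ∀ F ∈ B.ent, ∀ c, 0 ≤ c → OscP A B E F f c → Osc A E g c) →
    ∃ S, A.Bd S ∧ ∃ M : ℝ, ∀ x, x ∉ S → |g x| ≤ M

theorem KX.nonempty {A : Bal X} {B : Bal Y} {f : X → Y → ℝ} (h : KX A B f) : Nonempty X := by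
  obtain ⟨S, ⟨E, hE, x, hx⟩, _⟩ := h (fun _ => 0) (by
    rintro E hE F hF c hc ⟨S, T, hS, hT, h⟩
    exact ⟨S, hS, fun x x' _ _ => by simpa using hc⟩)
  exact ⟨x⟩

theorem Bal.exists_ent (A : Bal X) [Nonempty X] : ∃ E, E ∈ A.ent := by
  obtain ⟨E, hE, _⟩ := A.conn (Classical.arbitrary X) (Classical.arbitrary X)
  exact ⟨E, hE⟩

theorem Bal.bd_empty (A : Bal X) [Nonempty X] : A.Bd ∅ := by
  obtain ⟨E, hE⟩ := A.exists_ent
  exact ⟨E, hE, Classical.arbitrary X, fun y hy => absurd hy (Set.notMem_empty y)⟩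

theorem Bal.bd_singleton (A : Bal X) (x : X) : A.Bd {x} := by
  obtain ⟨E, hE, h⟩ := A.conn x x
  exact ⟨E, hE, x, fun y hy => by rw [Set.mem_singleton_iff] at hy; subst hy; exact h⟩

/-- Rows over a bounded set `T` are uniformly bounded off a bounded set. -/
theorem rows {A : Bal X} {B : Bal Y} {f : X → Y → ℝ}
    (hf : ∀ E ∈ A.ent, ∀ F ∈ B.ent, ∃ c, 0 ≤ c ∧ OscP A B E F f c) (hX : KX A B f)
    (T : Set Y) (hT : B.Bd T) :
    ∃ S, A.Bd S ∧ ∃ C : ℝ, ∀ x, x ∉ S → ∀ y ∈ T, |f x y| ≤ C := by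
  have hne := hX.nonempty
  obtain ⟨F, hF, y₀, hy₀⟩ := hT
  obtain ⟨S₁, hS₁, M, hM⟩ := hX (fun x => f x y₀) (by
    rintro E hE F hF c hc ⟨S, T, hS, hT, h⟩
    exact ⟨S, hS, fun x x' hx hxx' => h x y₀ x' y₀ (Or.inl hx) hxx' (B.diag F hF y₀)⟩)
  obtain ⟨E, hE⟩ := A.exists_ent
  obtain ⟨c, hc, S₂, T₂, hS₂, hT₂, h⟩ := hf E hE F hF
  refine ⟨S₁ ∪ S₂, hS₁.union hS₂, M + c, fun x hx y hy => ?_⟩
  have h1 := hM x (fun h => hx (Or.inl h))
  have h2 := h x y₀ x y (Or.inl (fun h => hx (Or.inr h))) (A.diag E hE x) (hy₀ y hy)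
  rw [abs_le] at *
  constructor <;> linarith [h1.1, h1.2, h2.1, h2.2]

/-- The equivalence of points whose rows have bounded difference. -/
def rowSetoid (f : X → Y → ℝ) : Setoid X where
  r x x' := ∃ M : ℝ, ∀ y, |f x y - f x' y| ≤ M
  iseqv :=
    { refl := fun x => ⟨0, fun y => by simp⟩
      symm := by
        rintro x x' ⟨M, hM⟩
        exact ⟨M, fun y => by rw [abs_sub_comm]; exact hM y⟩
      trans := by
        rintro x x' x'' ⟨M, hM⟩ ⟨M', hM'⟩
        refine ⟨M + M', fun y => ?_⟩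
        have := abs_sub_le (f x y) (f x' y) (f x'' y)
        linarith [hM y, hM' y] }

theorem rowSetoid_iff {f : X → Y → ℝ} {x x' : X} :
    (Quotient.mk (rowSetoid f) x = Quotient.mk (rowSetoid f) x') ↔
      ∃ M : ℝ, ∀ y, |f x y - f x' y| ≤ M := by
  rw [Quotient.eq]
  rfl

/-- Off a bounded set, each row is uniformly close to the representative row. -/
theorem near_rep {A : Bal X} {B : Bal Y} {f : X → Y → ℝ} (hX : KX A B f) [Nonempty Y] :
    ∃ S, A.Bd S ∧ ∃ M : ℝ, ∀ x, x ∉ S → ∀ y,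
      |f x y - f (Quotient.mk (rowSetoid f) x).out y| ≤ M := by
  have hbd : ∀ x, BddAbove (Set.range fun y =>
      |f x y - f (Quotient.mk (rowSetoid f) x).out y|) := by
    intro x
    have h : Quotient.mk (rowSetoid f) x =
        Quotient.mk (rowSetoid f) (Quotient.mk (rowSetoid f) x).out := by
      rw [Quotient.out_eq]
    obtain ⟨M, hM⟩ := rowSetoid_iff.1 h
    refine ⟨M, ?_⟩
    rintro _ ⟨y, rfl⟩
    exact hM y
  obtain ⟨S, hS, M, hM⟩ := hX (fun x => ⨆ y, |f x y - f (Quotient.mk (rowSetoid f) x).out y|) (by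
    rintro E hE F hF c hc ⟨S, T, hS, hT, h⟩
    refine ⟨S, hS, fun x x' hx hxx' => ?_⟩
    have h1 : ∀ y, |f x y - f x' y| ≤ c := fun y =>
      h x y x' y (Or.inl hx) hxx' (B.diag F hF y)
    have h2 : Quotient.mk (rowSetoid f) x = Quotient.mk (rowSetoid f) x' :=
      rowSetoid_iff.2 ⟨c, h1⟩
    have hb1 := hbd x
    have hb2 := hbd x'
    rw [h2] at hb1
    simp only [h2]
    rw [abs_sub_le_iff]
    constructor
    · rw [sub_le_iff_le_add]
      apply ciSup_le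
      intro y
      have h3 := le_ciSup hb2 y
      have h4 := abs_sub_le (f x y) (f x' y) (f (Quotient.mk (rowSetoid f) x').out y)
      have h5 := h1 y
      linarith
    · rw [sub_le_iff_le_add]
      apply ciSup_le
      intro y
      have h3 := le_ciSup hb1 y
      have h4 := abs_sub_le (f x' y) (f x y) (f (Quotient.mk (rowSetoid f) x').out y)
      have h5 := h1 y
      rw [abs_sub_comm] at h5
      linarith)
  refine ⟨S, hS, M, fun x hx y => ?_⟩
  exact (le_ciSup (hbd x) y).trans ((le_abs_self _).trans (hM x hx))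

/-- The ideal on the quotient. -/
theorem isId {A : Bal X} {B : Bal Y} {f : X → Y → ℝ} (hX : KX A B f) [Nonempty Y] :
    IsId (fun S : Set (Quotient (rowSetoid f)) =>
      A.Bd {x | Quotient.mk (rowSetoid f) x ∈ S}) where
  mono := fun S T h hT => Bal.Bd.mono (fun x hx => h hx) hT
  union := fun S T hS hT => Bal.Bd.mono (fun x hx => hx) (hS.union hT)
  empty := by
    have := hX.nonempty
    exact Bal.Bd.mono (fun x hx => absurd hx (Set.notMem_empty _)) A.bd_empty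
  star := by
    intro g
    obtain ⟨S, hS, M, hM⟩ := hX (fun x => (g (Quotient.mk (rowSetoid f) x) : ℝ)) (by
      rintro E hE F hF c hc ⟨S, T, hS, hT, h⟩
      refine ⟨S, hS, fun x x' hx hxx' => ?_⟩
      have h1 : ∀ y, |f x y - f x' y| ≤ c := fun y =>
        h x y x' y (Or.inl hx) hxx' (B.diag F hF y)
      have h2 : Quotient.mk (rowSetoid f) x = Quotient.mk (rowSetoid f) x' :=
        rowSetoid_iff.2 ⟨c, h1⟩
      simp only [h2, sub_self, abs_zero]
      exact hc)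
    obtain ⟨N, hN⟩ := exists_nat_gt M
    refine ⟨N, hS.mono ?_⟩
    intro x hx
    by_contra hxS
    have h1 := hM x hxS
    have h2 : N < g (Quotient.mk (rowSetoid f) x) := hx
    have h3 : (N : ℝ) < g (Quotient.mk (rowSetoid f) x) := by exact_mod_cast h2
    have h4 := le_abs_self ((g (Quotient.mk (rowSetoid f) x) : ℝ))
    linarith

/-- The points with an unbounded row form a bounded set. -/
theorem unbdd_rows {A : Bal X} {B : Bal Y} {f : X → Y → ℝ}
    (hf : ∀ E ∈ A.ent, ∀ F ∈ B.ent, ∃ c, 0 ≤ c ∧ OscP A B E F f c) (hX : KX A B f)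
    (hY : KX B A (fun y x => f x y)) : A.Bd {x | ∀ M : ℝ, ∃ y, M < |f x y|} := by
  have hneX := hX.nonempty
  have hneY := hY.nonempty
  have hf' : ∀ F ∈ B.ent, ∀ E ∈ A.ent, ∃ c, 0 ≤ c ∧ OscP B A F E (fun y x => f x y) c := by
    intro F hF E hE
    obtain ⟨c, hc, h⟩ := hf E hE F hF
    exact ⟨c, hc, h.flip⟩
  obtain ⟨B₀, hB₀, M₀, hM₀⟩ := near_rep hX
  obtain ⟨D₀, hD₀, M₁, hM₁⟩ := near_rep hY
  let π : X → Quotient (rowSetoid f) := Quotient.mk (rowSetoid f)
  let ρ : Y → Quotient (rowSetoid fun y x => f x y) := Quotient.mk _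
  have key := unbdd_mem (isId hX) (isId hY) (fun q r => f q.out r.out) (by
    intro S hS
    obtain ⟨D, hD, C, hC⟩ := rows hf' hY _ hS
    refine ⟨{r | ∀ y, ρ y = r → y ∈ D ∪ D₀}, (hD.union hD₀).mono (fun y hy => hy y rfl),
      C + M₁, ?_⟩
    intro q hq r hr
    simp only [Set.mem_ofPred_eq, not_forall] at hr
    obtain ⟨y, hy, hyD⟩ := hr
    have h1 := hC y (fun h => hyD (Or.inl h)) q.out (by
      simp only [Set.mem_ofPred_eq, Quotient.out_eq]; exact hq)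
    have h2 := hM₁ y (fun h => hyD (Or.inr h)) q.out
    have h3 : Quotient.mk (rowSetoid fun y x => f x y) y = r := hy
    rw [h3] at h2
    rw [abs_le] at *
    constructor <;> linarith [h1.1, h1.2, h2.1, h2.2]) (by
    intro T hT
    obtain ⟨S, hS, C, hC⟩ := rows hf hX _ hT
    refine ⟨{q | ∀ x, π x = q → x ∈ S ∪ B₀}, (hS.union hB₀).mono (fun x hx => hx x rfl),
      C + M₀, ?_⟩
    intro q hq r hr
    simp only [Set.mem_ofPred_eq, not_forall] at hq
    obtain ⟨x, hx, hxS⟩ := hq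
    have h1 := hC x (fun h => hxS (Or.inl h)) r.out (by
      simp only [Set.mem_ofPred_eq, Quotient.out_eq]; exact hr)
    have h2 := hM₀ x (fun h => hxS (Or.inr h)) r.out
    have h3 : Quotient.mk (rowSetoid f) x = q := hx
    rw [h3] at h2
    rw [abs_le] at *
    constructor <;> linarith [h1.1, h1.2, h2.1, h2.2])
  -- the exceptional set
  obtain ⟨B₁, hB₁, C₁, hC₁⟩ := rows hf hX D₀ hD₀
  refine (key.union hB₁).mono ?_
  intro x hx
  by_cases hxB : x ∈ B₁
  · exact Or.inr hxB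
  left
  intro M
  obtain ⟨K, hK⟩ := rowSetoid_iff.1 (show Quotient.mk (rowSetoid f) x = Quotient.mk (rowSetoid f)
    (Quotient.mk (rowSetoid f) x).out by rw [Quotient.out_eq])
  obtain ⟨y, hy⟩ := hx (max (M + M₁ + K) C₁)
  have hyD : y ∉ D₀ := by
    intro h
    have := hC₁ x hxB y h
    exact absurd (lt_of_le_of_lt (le_max_right _ _) hy) (not_lt.2 this)
  refine ⟨ρ y, ?_⟩
  have h1 := hK y
  have h2 := hM₁ y hyD (Quotient.mk (rowSetoid f) x).out
  have h3 : M + M₁ + K < |f x y| := lt_of_le_of_lt (le_max_left _ _) hy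
  have h4 := abs_sub_le (f x y) (f (Quotient.mk (rowSetoid f) x).out y)
    (f (Quotient.mk (rowSetoid f) x).out
      (Quotient.mk (rowSetoid fun y x => f x y) y).out)
  have h5 := abs_sub_abs_le_abs_sub (f x y) (f (Quotient.mk (rowSetoid f) x).out
      (Quotient.mk (rowSetoid fun y x => f x y) y).out)
  show M < |f (Quotient.mk (rowSetoid f) x).out
      (Quotient.mk (rowSetoid fun y x => f x y) y).out|
  linarith

/-- The function is bounded on the rows off a bounded set. -/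
theorem half {A : Bal X} {B : Bal Y} {f : X → Y → ℝ}
    (hf : ∀ E ∈ A.ent, ∀ F ∈ B.ent, ∃ c, 0 ≤ c ∧ OscP A B E F f c) (hX : KX A B f)
    (hY : KX B A (fun y x => f x y)) :
    ∃ S, A.Bd S ∧ ∃ M : ℝ, ∀ x, x ∉ S → ∀ y, |f x y| ≤ M := by
  classical
  have hneX := hX.nonempty
  have hneY := hY.nonempty
  have hb : ∀ x, (¬ ∀ M : ℝ, ∃ y, M < |f x y|) → BddAbove (Set.range fun y => |f x y|) := by
    intro x hx
    push Not at hx
    obtain ⟨M, hM⟩ := hx
    refine ⟨M, ?_⟩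
    rintro _ ⟨y, rfl⟩
    exact hM y
  obtain ⟨S, hS, M, hM⟩ := hX
    (fun x => if ∀ M : ℝ, ∃ y, M < |f x y| then 0 else ⨆ y, |f x y|) (by
    rintro E hE F hF c hc ⟨S, T, hS, hT, h⟩
    refine ⟨S, hS, fun x x' hx hxx' => ?_⟩
    have h1 : ∀ y, |f x y - f x' y| ≤ c := fun y =>
      h x y x' y (Or.inl hx) hxx' (B.diag F hF y)
    have h1' : ∀ y, |f x y| ≤ |f x' y| + c := fun y => by
      have := abs_sub_abs_le_abs_sub (f x y) (f x' y)
      linarith [h1 y]
    have h1'' : ∀ y, |f x' y| ≤ |f x y| + c := fun y => by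
      have := abs_sub_abs_le_abs_sub (f x' y) (f x y)
      rw [abs_sub_comm] at this
      linarith [h1 y]
    have h2 : (∀ M : ℝ, ∃ y, M < |f x y|) ↔ (∀ M : ℝ, ∃ y, M < |f x' y|) := by
      constructor
      · intro h M
        obtain ⟨y, hy⟩ := h (M + c)
        exact ⟨y, by linarith [h1' y]⟩
      · intro h M
        obtain ⟨y, hy⟩ := h (M + c)
        exact ⟨y, by linarith [h1'' y]⟩
    by_cases hc1 : ∀ M : ℝ, ∃ y, M < |f x y|
    · have hc2 := h2.1 hc1
      simp only [if_pos hc1, if_pos hc2, sub_self, abs_zero]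
      exact hc
    · have hc2 : ¬ ∀ M : ℝ, ∃ y, M < |f x' y| := fun h => hc1 (h2.2 h)
      simp only [if_neg hc1, if_neg hc2]
      rw [abs_sub_le_iff]
      constructor
      · rw [sub_le_iff_le_add]
        apply ciSup_le
        intro y
        have h3 := le_ciSup (hb x' hc2) y
        linarith [h1' y]
      · rw [sub_le_iff_le_add]
        apply ciSup_le
        intro y
        have h3 := le_ciSup (hb x hc1) y
        linarith [h1'' y])
  refine ⟨S ∪ {x | ∀ M : ℝ, ∃ y, M < |f x y|}, hS.union (unbdd_rows hf hX hY), M, ?_⟩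
  intro x hx y
  have hx1 : x ∉ S := fun h => hx (Or.inl h)
  have hx2 : ¬ ∀ M : ℝ, ∃ y, M < |f x y| := fun h => hx (Or.inr h)
  have h1 := hM x hx1
  simp only [if_neg hx2] at h1
  exact (le_ciSup (hb x hx2) y).trans ((le_abs_self _).trans h1)

/-- **Main theorem**, common part. -/
theorem prod_bdd {A : Bal X} {B : Bal Y} {f : X → Y → ℝ}
    (hf : ∀ E ∈ A.ent, ∀ F ∈ B.ent, ∃ c, 0 ≤ c ∧ OscP A B E F f c) (hX : KX A B f)
    (hY : KX B A (fun y x => f x y)) :
    ∃ S T, A.Bd S ∧ B.Bd T ∧ ∃ M : ℝ, ∀ x y, (x ∉ S ∨ y ∉ T) → |f x y| ≤ M := by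
  obtain ⟨S, hS, M, hM⟩ := half hf hX hY
  obtain ⟨T, hT, M', hM'⟩ := half (A := B) (B := A) (f := fun y x => f x y) (by
    intro F hF E hE
    obtain ⟨c, hc, h⟩ := hf E hE F hF
    exact ⟨c, hc, h.flip⟩) hY hX
  refine ⟨S, T, hS, hT, max M M', ?_⟩
  rintro x y (h | h)
  · exact (hM x h y).trans (le_max_left _ _)
  · exact (hM' y h x).trans (le_max_right _ _)

end Pool.Agent.R828
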