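import Mathlib

/-!
# The piecewise weak Lindelöf number of first countable Hausdorff spaces

Common definitions and the construction for MP_8b81fd_gt.
-/

namespace Pool.Agent.R828.PwL

open Set Topology

open scoped Cardinal

universe u

/-! ### Cardinal functions -/

/-- Every open cover and every decomposition of it admit subfamilies of size at most `κ` of the
pieces whose unions have closures covering the space. -/
def HasPwL (X : Type u) [TopologicalSpace X] (κ : Cardinal.{u}) : Prop :=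
  ∀ 𝒰 : Set (Set X), (∀ U ∈ 𝒰, IsOpen U) → ⋃₀ 𝒰 = univ →
    ∀ (ι : Type u) (𝒟 : ι → Set (Set X)), ⋃ i, 𝒟 i = 𝒰 →
      ∃ 𝒱 : ι → Set (Set X), (∀ i, 𝒱 i ⊆ 𝒟 i ∧ #(𝒱 i) ≤ κ) ∧ ⋃ i, closure (⋃₀ 𝒱 i) = univ

/-- The piecewise weak Lindelöf number. -/
noncomputable def pwL (X : Type u) [TopologicalSpace X] : Cardinal.{u} :=
  sInf {κ | ℵ₀ ≤ κ ∧ HasPwL X κ}

/-- Every point has a local base of size at most `κ`. -/
def HasChar (X : Type u) [TopologicalSpace X] (κ : Cardinal.{u}) : Prop :=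
  ∀ x : X, ∃ 𝓑 : Set (Set X), #𝓑 ≤ κ ∧ (∀ B ∈ 𝓑, IsOpen B ∧ x ∈ B) ∧
    ∀ U : Set X, IsOpen U → x ∈ U → ∃ B ∈ 𝓑, B ⊆ U

/-- The character. -/
noncomputable def chi (X : Type u) [TopologicalSpace X] : Cardinal.{u} :=
  sInf {κ | ℵ₀ ≤ κ ∧ HasChar X κ}

/-- Almost Lindelöf: every open cover has a countable subfamily whose closures cover. -/
def AlmostLindelof (X : Type u) [TopologicalSpace X] : Prop :=
  ∀ 𝒰 : Set (Set X), (∀ U ∈ 𝒰, IsOpen U) → ⋃₀ 𝒰 = univ →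
    ∃ 𝒱 : Set (Set X), 𝒱.Countable ∧ 𝒱 ⊆ 𝒰 ∧ ⋃ V ∈ 𝒱, closure V = univ

/-- Every countably complete ultrafilter is principal. -/
def NonMeas (D : Type u) : Prop :=
  ∀ U : Ultrafilter D, CountableInterFilter (U : Filter D) → ∃ x, {x} ∈ U

theorem hasPwL_of_almostLindelof {X : Type u} [TopologicalSpace X] (h : AlmostLindelof X) :
    HasPwL X ℵ₀ := by
  intro 𝒰 hU hcov ι 𝒟 h𝒟
  obtain ⟨𝒱, h𝒱, h1, h2⟩ := h 𝒰 hU hcov
  refine ⟨fun i => 𝒱 ∩ 𝒟 i, fun i => ⟨inter_subset_right, ?_⟩, ?_⟩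
  · exact Cardinal.le_aleph0_iff_set_countable.2 (h𝒱.mono inter_subset_left)
  · rw [eq_univ_iff_forall] at h2 ⊢
    intro x
    obtain ⟨V, hV, hx⟩ := mem_iUnion₂.1 (h2 x)
    have : V ∈ ⋃ i, 𝒟 i := by rw [h𝒟]; exact h1 hV
    obtain ⟨i, hi⟩ := mem_iUnion.1 this
    exact mem_iUnion.2 ⟨i, closure_mono (subset_sUnion_of_mem
      (show V ∈ 𝒱 ∩ 𝒟 i from ⟨hV, hi⟩)) hx⟩

theorem pwL_eq {X : Type u} [TopologicalSpace X] (h : HasPwL X ℵ₀) : pwL X = ℵ₀ := by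
  apply le_antisymm
  · exact csInf_le' (s := {κ | ℵ₀ ≤ κ ∧ HasPwL X κ}) ⟨le_rfl, h⟩
  · exact le_csInf (s := {κ | ℵ₀ ≤ κ ∧ HasPwL X κ}) ⟨ℵ₀, le_rfl, h⟩ fun κ hκ => hκ.1

theorem hasPwL_of_eq {X : Type u} [TopologicalSpace X] (h : pwL X = ℵ₀) : HasPwL X ℵ₀ := by
  have hne : {κ : Cardinal.{u} | ℵ₀ ≤ κ ∧ HasPwL X κ}.Nonempty := by
    refine ⟨max ℵ₀ #(Set X), le_max_left _ _, ?_⟩
    intro 𝒰 hU hcov ι 𝒟 h𝒟
    refine ⟨𝒟, fun i => ⟨Subset.rfl, (Cardinal.mk_set_le _).trans (le_max_right _ _)⟩, ?_⟩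
    rw [eq_univ_iff_forall] at hcov ⊢
    intro x
    obtain ⟨V, hV, hx⟩ := hcov x
    rw [← h𝒟] at hV
    obtain ⟨i, hi⟩ := mem_iUnion.1 hV
    exact mem_iUnion.2 ⟨i, subset_closure ⟨V, hi, hx⟩⟩
  have := csInf_mem hne
  rw [show sInf {κ : Cardinal.{u} | ℵ₀ ≤ κ ∧ HasPwL X κ} = ℵ₀ from h] at this
  exact this.2

theorem hasChar_of_firstCountable {X : Type u} [TopologicalSpace X] [FirstCountableTopology X] :
    HasChar X ℵ₀ := by
  intro x
  obtain ⟨B, hB⟩ := (𝓝 x).exists_antitone_basis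
  refine ⟨range fun n => interior (B n), ?_, ?_, ?_⟩
  · exact Cardinal.le_aleph0_iff_set_countable.2 (countable_range _)
  · rintro _ ⟨n, rfl⟩
    exact ⟨isOpen_interior, mem_interior_iff_mem_nhds.2 (hB.1.mem_of_mem trivial)⟩
  · intro U hU hx
    obtain ⟨n, -, hn⟩ := hB.1.mem_iff.1 (hU.mem_nhds hx)
    exact ⟨_, ⟨n, rfl⟩, interior_subset.trans hn⟩

theorem chi_eq {X : Type u} [TopologicalSpace X] (h : HasChar X ℵ₀) : chi X = ℵ₀ := by
  apply le_antisymm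
  · exact csInf_le' (s := {κ | ℵ₀ ≤ κ ∧ HasChar X κ}) ⟨le_rfl, h⟩
  · exact le_csInf (s := {κ | ℵ₀ ≤ κ ∧ HasChar X κ}) ⟨ℵ₀, le_rfl, h⟩ fun κ hκ => hκ.1

theorem firstCountable_of_eq {X : Type u} [TopologicalSpace X] (h : chi X = ℵ₀) :
    FirstCountableTopology X := by
  have hne : {κ : Cardinal.{u} | ℵ₀ ≤ κ ∧ HasChar X κ}.Nonempty := by
    refine ⟨max ℵ₀ #(Set X), le_max_left _ _, fun x => ⟨{U | IsOpen U ∧ x ∈ U}, ?_, ?_, ?_⟩⟩
    · exact (Cardinal.mk_set_le _).trans (le_max_right _ _)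
    · exact fun B hB => hB
    · exact fun U hU hx => ⟨U, ⟨hU, hx⟩, Subset.rfl⟩
  have := csInf_mem hne
  rw [show sInf {κ : Cardinal.{u} | ℵ₀ ≤ κ ∧ HasChar X κ} = ℵ₀ from h] at this
  refine ⟨fun x => ?_⟩
  obtain ⟨𝓑, h1, h2, h3⟩ := this.2 x
  rw [Cardinal.le_aleph0_iff_set_countable] at h1
  have hb : (𝓝 x).HasBasis (fun B => B ∈ 𝓑) id := by
    refine ⟨fun t => ⟨fun ht => ?_, ?_⟩⟩
    · obtain ⟨U, hUt, hU, hx⟩ := mem_nhds_iff.1 ht
      obtain ⟨B, hB, hBU⟩ := h3 U hU hx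
      exact ⟨B, hB, hBU.trans hUt⟩
    · rintro ⟨B, hB, hBt⟩
      exact Filter.mem_of_superset ((h2 B hB).1.mem_nhds (h2 B hB).2) hBt
  exact (Filter.HasCountableBasis.mk hb h1).isCountablyGenerated

/-! ### The upper bound -/

/-- In a first countable Hausdorff space with countable piecewise weak Lindelöf number every
countably complete ultrafilter is principal. -/
theorem nonMeas_of_pwL {X : Type u} [TopologicalSpace X] [T2Space X] [FirstCountableTopology X]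
    (h : HasPwL X ℵ₀) : NonMeas X := by
  intro 𝒰 hU
  by_contra hcon
  push Not at hcon
  have hB : ∀ x : X, ∃ B : ℕ → Set X, (∀ n, IsOpen (B n) ∧ x ∈ B n) ∧ Antitone B ∧
      ∀ U : Set X, IsOpen U → x ∈ U → ∃ n, B n ⊆ U := by
    intro x
    obtain ⟨B, hB⟩ := (𝓝 x).exists_antitone_basis
    refine ⟨fun n => interior (B n), fun n => ⟨isOpen_interior,
      mem_interior_iff_mem_nhds.2 (hB.1.mem_of_mem trivial)⟩,
      fun n m hnm => interior_mono (hB.2 hnm), fun U hU hx => ?_⟩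
    obtain ⟨n, -, hn⟩ := hB.1.mem_iff.1 (hU.mem_nhds hx)
    exact ⟨n, interior_subset.trans hn⟩
  choose B hB1 hB2 hB3 using hB
  have hm : ∀ p : X, ∃ m, {x | Disjoint (B p m) (B x m)} ∈ 𝒰 := by
    intro p
    by_contra hcon2
    push Not at hcon2
    have h1 : ∀ m, {x | Disjoint (B p m) (B x m)}ᶜ ∈ (𝒰 : Filter X) := fun m =>
      Ultrafilter.compl_mem_iff_notMem.2 (hcon2 m)
    have h2 : ({p} : Set X)ᶜ ∈ (𝒰 : Filter X) := Ultrafilter.compl_mem_iff_notMem.2 (hcon p)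
    have h3 := Filter.inter_mem (countable_iInter_mem.2 h1) h2
    obtain ⟨x, hx1, hx2⟩ := 𝒰.neBot.nonempty_of_mem h3
    obtain ⟨U, V, hUo, hVo, hpU, hxV, hUV⟩ := t2_separation (Ne.symm hx2 : p ≠ x)
    obtain ⟨n, hn⟩ := hB3 p U hUo hpU
    obtain ⟨m, hm⟩ := hB3 x V hVo hxV
    have := mem_iInter.1 hx1 (max n m)
    exact this (hUV.mono ((hB2 p (le_max_left n m)).trans hn) ((hB2 x (le_max_right n m)).trans hm))
  choose m hm using hm
  obtain ⟨𝒱, h𝒱, hcov⟩ := h (range fun p => B p (m p)) (by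
    rintro _ ⟨p, rfl⟩
    exact (hB1 p _).1) (by
    rw [eq_univ_iff_forall]
    exact fun p => ⟨_, ⟨p, rfl⟩, (hB1 p _).2⟩) (ULift ℕ)
    (fun n => {V | ∃ p, m p = n.down ∧ V = B p (m p)}) (by
    ext V
    constructor
    · intro hV
      obtain ⟨n, p, hp, rfl⟩ := mem_iUnion.1 hV
      exact ⟨p, rfl⟩
    · rintro ⟨p, rfl⟩
      exact mem_iUnion.2 ⟨⟨m p⟩, p, rfl, rfl⟩)
  have hp : ∀ n : ULift ℕ, ∀ V : 𝒱 n, ∃ p, m p = n.down ∧ V.1 = B p (m p) := fun n V =>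
    (h𝒱 n).1 V.2
  choose p hp1 hp2 using hp
  have hc : ∀ n, Countable (𝒱 n) := fun n =>
    (Cardinal.le_aleph0_iff_set_countable.1 (h𝒱 n).2).to_subtype
  have h3 : (⋂ n : ULift ℕ, ⋂ V : 𝒱 n, {x | Disjoint (B (p n V) (m (p n V)))
      (B x (m (p n V)))}) ∈ (𝒰 : Filter X) :=
    countable_iInter_mem.2 fun n => countable_iInter_mem.2 fun V => hm (p n V)
  obtain ⟨x, hx⟩ := 𝒰.neBot.nonempty_of_mem h3
  obtain ⟨n, hn⟩ := mem_iUnion.1 (eq_univ_iff_forall.1 hcov x)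
  rw [mem_closure_iff] at hn
  obtain ⟨z, hz1, V, hV, hz2⟩ := hn (B x n.down) (hB1 x _).1 (hB1 x _).2
  have h4 := mem_iInter.1 (mem_iInter.1 hx n) ⟨V, hV⟩
  have h5 : Disjoint (B (p n ⟨V, hV⟩) (m (p n ⟨V, hV⟩))) (B x (m (p n ⟨V, hV⟩))) := h4
  rw [← hp2 n ⟨V, hV⟩, hp1 n ⟨V, hV⟩] at h5
  exact Set.disjoint_left.1 h5 hz2 hz1

/-! ### Non-measurable sets -/

theorem NonMeas.of_injective {R K : Type u} (h : NonMeas K) (i : R → K)
    (hi : Function.Injective i) : NonMeas R := by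
  intro U hU
  obtain ⟨k, hk⟩ := h (U.map i) (by
    rw [Ultrafilter.coe_map]
    infer_instance)
  rw [Ultrafilter.mem_map] at hk
  obtain ⟨x, hx⟩ := U.neBot.nonempty_of_mem hk
  refine ⟨x, Filter.mem_of_superset hk ?_⟩
  intro y hy
  exact hi ((show i y = k from hy).trans (show i x = k from hx).symm)

theorem nonMeas_of_countable {D : Type u} [Countable D] : NonMeas D := by
  intro U hU
  by_contra hcon
  push Not at hcon
  have h1 : (⋂ x : D, ({x} : Set D)ᶜ) ∈ (U : Filter D) :=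
    countable_iInter_mem.2 fun x => Ultrafilter.compl_mem_iff_notMem.2 (hcon x)
  obtain ⟨x, hx⟩ := U.neBot.nonempty_of_mem h1
  exact mem_iInter.1 hx x rfl

theorem NonMeas.fun {S : Type u} (h : NonMeas S) : NonMeas (S → ℕ) := by
  classical
  intro U hU
  have h1 : ∀ s : S, ∃ n, {f : S → ℕ | f s = n} ∈ U := by
    intro s
    by_contra hcon
    push Not at hcon
    have h1 : (⋂ n : ℕ, {f : S → ℕ | f s = n}ᶜ) ∈ (U : Filter (S → ℕ)) :=
      countable_iInter_mem.2 fun x => Ultrafilter.compl_mem_iff_notMem.2 (hcon x)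
    obtain ⟨f,hf⟩ := U.neBot.nonempty_of_mem h1
    exact mem_iInter.1 hf (f s) rfl
  choose f0 hf0 using h1
  by_contra hcon
  push Not at hcon
  have h2 : ({f0} : Set (S → ℕ))ᶜ ∈ (U : Filter _) := Ultrafilter.compl_mem_iff_notMem.2 (hcon f0)
  obtain ⟨f1, hf1⟩ := U.neBot.nonempty_of_mem h2
  have : Nonempty S := by
    by_contra hS
    rw [not_nonempty_iff] at hS
    exact hf1 (Subsingleton.elim _ _)
  have hg : ∀ f : S → ℕ, ∃ s, f ≠ f0 → f s ≠ f0 s := by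
    intro f
    by_cases hf : f = f0
    · exact ⟨Classical.arbitrary S, fun h => absurd hf h⟩
    · obtain ⟨s, hs⟩ := Function.ne_iff.1 hf
      exact ⟨s, fun _ => hs⟩
  choose g hg using hg
  obtain ⟨s, hs⟩ := h (U.map g) (by
    rw [Ultrafilter.coe_map]
    infer_instance)
  rw [Ultrafilter.mem_map] at hs
  obtain ⟨f, ⟨h3, h4⟩, h5⟩ := U.neBot.nonempty_of_mem
    (Filter.inter_mem (Filter.inter_mem hs (hf0 s)) h2)
  have h6 := hg f h5
  rw [show g f = s from h3] at h6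
  exact h6 h4

/-- The ideal form of non-measurability. -/
theorem NonMeas.ideal {S : Type u} (h : NonMeas S) (I : Set (Set S))
    (hsub : ∀ A ∈ I, ∀ B, B ⊆ A → B ∈ I) (hun : ∀ A : ℕ → Set S, (∀ n, A n ∈ I) → ⋃ n, A n ∈ I)
    (hsing : ∀ x, {x} ∈ I) (hg : ∀ g : S → ℕ, ∃ m, {x | m ≤ g x} ∈ I) : univ ∈ I := by
  classical
  by_contra hcon
  have hun2 : ∀ A ∈ I, ∀ B ∈ I, A ∪ B ∈ I := by
    intro A hA B hB
    have := hun (fun n => if n = 0 then A else B) (fun n => by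
      split_ifs
      · exact hA
      · exact hB)
    refine hsub _ this _ ?_
    rintro x (hx | hx)
    · exact mem_iUnion.2 ⟨0, by simpa using hx⟩
    · exact mem_iUnion.2 ⟨1, by simpa using hx⟩
  -- an atom
  obtain ⟨A, hA, hAt⟩ : ∃ A : Set S, A ∉ I ∧ ∀ B, A ∩ B ∈ I ∨ A \ B ∈ I := by
    by_contra hno
    push Not at hno
    choose! f hf1 hf2 using hno
    let A : ℕ → {A : Set S // A ∉ I} := fun n => Nat.rec ⟨univ, hcon⟩
      (fun _ A => ⟨A.1 ∩ f A.1, hf1 A.1 A.2⟩) n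
    have hAs : ∀ n, (A (n+1)).1 = (A n).1 ∩ f (A n).1 := fun n => rfl
    have hanti : ∀ n k, (A (n + k)).1 ⊆ (A n).1 := by
      intro n k
      induction k with
      | zero => exact Subset.rfl
      | succ k ih =>
        rw [← add_assoc, hAs]
        exact inter_subset_left.trans ih
    let g : S → ℕ := fun x => if hx : ∃ n, x ∉ (A n).1 then Nat.find hx else 0
    obtain ⟨m, hm⟩ := hg g
    apply hf2 (A m).1 (A m).2
    refine hsub _ hm _ ?_
    rintro x ⟨hx1, hx2⟩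
    have hx3 : x ∉ (A (m+1)).1 := fun h => hx2 h.2
    have hex : ∃ n, x ∉ (A n).1 := ⟨m + 1, hx3⟩
    show m ≤ g x
    simp only [g]
    rw [dif_pos hex, Nat.le_find_iff]
    intro n hn hxn
    apply hxn
    have := hanti n (m - n)
    rw [Nat.add_sub_cancel' hn.le] at this
    exact this hx1
  let F : Filter S :=
    { sets := {B | A \ B ∈ I}
      univ_sets := by
        show A \ univ ∈ I
        rw [sdiff_univ]
        obtain ⟨m, hm⟩ := hg (fun _ => 0)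
        exact hsub _ hm _ (empty_subset _)
      sets_of_superset := by
        intro B B' hB hBB'
        exact hsub _ hB _ (fun x hx => ⟨hx.1, fun h => hx.2 (hBB' h)⟩)
      inter_sets := by
        intro B B' hB hB'
        refine hsub _ (hun2 _ hB _ hB') _ ?_
        rintro x ⟨hx1, hx2⟩
        by_cases hxB : x ∈ B
        · exact Or.inr ⟨hx1, fun h => hx2 ⟨hxB, h⟩⟩
        · exact Or.inl ⟨hx1, hxB⟩ }
  have hF : ∀ B, B ∈ F ↔ A \ B ∈ I := fun B => Iff.rfl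
  let U : Ultrafilter S := Ultrafilter.ofComplNotMemIff F (by
    intro B
    rw [hF, hF]
    have h1 : A \ Bᶜ = A ∩ B := by
      ext x
      simp
    rw [h1]
    constructor
    · intro h
      exact (hAt B).resolve_left h
    · intro h h'
      apply hA
      have := hun2 _ h _ h'
      refine hsub _ this _ ?_
      intro x hx
      by_cases hxB : x ∈ B
      · exact Or.inr ⟨hx, hxB⟩
      · exact Or.inl ⟨hx, hxB⟩)
  have hU : ∀ B, B ∈ U ↔ A \ B ∈ I := fun B => Iff.rfl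
  obtain ⟨x, hx⟩ := h U ⟨by
    intro 𝒮 h𝒮 hmem
    rcases 𝒮.eq_empty_or_nonempty with rfl | hne
    · rw [sInter_empty]
      exact Filter.univ_mem
    · obtain ⟨f, rfl⟩ := h𝒮.exists_eq_range hne
      show A \ _ ∈ I
      refine hsub _ (hun (fun n => A \ f n) fun n => hmem _ ⟨n, rfl⟩) _ ?_
      rintro x ⟨hx1, hx2⟩
      rw [sInter_range, mem_iInter] at hx2
      push Not at hx2
      obtain ⟨n, hn⟩ := hx2
      exact mem_iUnion.2 ⟨n, hx1, hn⟩⟩
  rw [hU] at hx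
  apply hA
  refine hsub _ (hun2 _ hx _ (hsing x)) _ ?_
  intro z hz
  by_cases hzx : z ∈ ({x} : Set S)
  · exact Or.inr hzx
  · exact Or.inl ⟨hz, hzx⟩

end Pool.Agent.R828.PwL
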