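import Pool.Agent.R828.PwLSpace

/-!
# Almost Lindelöf first countable Hausdorff spaces of any non-measurable cardinality
-/

namespace Pool.Agent.R828.PwL

open Set Topology

open scoped Cardinal

universe u

/-- Iterated function spaces. -/
def K (D : Type u) : ℕ → Type u
  | 0 => D
  | n + 1 => K D n → ℕ

/-- Codes for functions on the levels. -/
def Code (D : Type u) : Type u := Σ n, (K D n → ℕ)

/-- The level of a code. -/
def lv (D : Type u) : Code D → ℕ := Sigma.fst

theorem nonMeas_K {D : Type u} (h : NonMeas D) : ∀ n, NonMeas (K D n)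
  | 0 => h
  | n + 1 => (nonMeas_K h n).fun

theorem mk_K_succ (D : Type u) (n : ℕ) : #(K D (n+1)) = ℵ₀ ^ #(K D n) := by
  show #(K D n → ℕ) = _
  simp

theorem K_lt (D : Type u) (n : ℕ) : #(K D n) < #(K D (n+1)) := by
  rw [mk_K_succ]
  exact (Cardinal.cantor _).trans_le (Cardinal.power_le_power_right (Cardinal.natCast_lt_aleph0 (n := 2)).le)

theorem K_mono (D : Type u) : Monotone fun n => #(K D n) :=
  monotone_nat_of_le_succ fun n => (K_lt D n).le

theorem aleph0_le_K (D : Type u) [Infinite D] (n : ℕ) : ℵ₀ ≤ #(K D n) :=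
  (Cardinal.aleph0_le_mk D).trans (K_mono D (Nat.zero_le n))

theorem mk_codes_le (D : Type u) [Infinite D] (n : ℕ) :
    #{k : Code D // lv D k ≤ n} ≤ #(K D (n+1)) := by
  have h1 : #{k : Code D // lv D k ≤ n} ≤ #(Σ m : {m : ℕ // m ≤ n}, (K D m.1 → ℕ)) := by
    refine Cardinal.mk_le_of_injective (f := fun k => ⟨⟨k.1.1, k.2⟩, k.1.2⟩) ?_
    rintro ⟨⟨m, f⟩, h⟩ ⟨⟨m', f'⟩, h'⟩ heq
    simp only [Sigma.mk.injEq, Subtype.mk.injEq] at heq
    obtain ⟨rfl, h2⟩ := heq
    rw [heq_iff_eq] at h2
    rw [h2]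
  refine h1.trans ?_
  rw [Cardinal.mk_sigma]
  have h2 : (Cardinal.sum fun m : {m : ℕ // m ≤ n} => #(K D m.1 → ℕ)) ≤
      Cardinal.sum fun _ : {m : ℕ // m ≤ n} => #(K D (n+1)) := by
    apply Cardinal.sum_le_sum
    intro m
    exact K_mono D (Nat.succ_le_succ m.2)
  refine h2.trans ?_
  rw [Cardinal.sum_const]
  rw [Cardinal.lift_uzero]
  refine Cardinal.mul_le_of_le (aleph0_le_K D (n+1)) ?_ le_rfl
  refine le_trans ?_ (aleph0_le_K D (n+1))
  rw [Cardinal.lift_le_aleph0]
  exact Cardinal.mk_le_aleph0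

/-- Decoding of formal points. -/
def form {D : Type u} {n : ℕ} : (D ⊕ {k : Code D // lv D k ≤ n}) ⊕
    ({x : Pt (D := D) (lv D) // x.rk ≤ n} × {k : Code D // lv D k ≤ n} × ℕ) → Raw D (Code D)
  | Sum.inl (Sum.inl a) => Raw.d a
  | Sum.inl (Sum.inr k) => Raw.y k.1
  | Sum.inr (x, k, j) => Raw.c x.1.1 k.1 j

theorem mk_level_le (D : Type u) [Infinite D] (n : ℕ) :
    #{x : Pt (D := D) (lv D) // x.rk ≤ n} ≤ #(K D n) := by
  induction n with
  | zero =>
    have h1 : ∀ x : {x : Pt (D := D) (lv D) // x.rk ≤ 0}, ∃ a : D, Raw.d a = x.1.1 := by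
      rintro ⟨⟨x, hx⟩, h⟩
      cases x with
      | d a => exact ⟨a, rfl⟩
      | y k => exact absurd h (Nat.not_succ_le_zero _)
      | c x k j => exact absurd h (Nat.not_succ_le_zero _)
    choose f hf using h1
    refine Cardinal.mk_le_of_injective (f := f) ?_
    intro x x' h
    apply Subtype.ext
    apply Subtype.ext
    rw [← hf x, ← hf x', h]
  | succ n ih =>
    have h1 : ∀ x : {x : Pt (D := D) (lv D) // x.rk ≤ n + 1}, ∃ s, form (n := n) s = x.1.1 := by
      rintro ⟨⟨x, hx⟩, h⟩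
      cases x with
      | d a => exact ⟨Sum.inl (Sum.inl a), rfl⟩
      | y k => exact ⟨Sum.inl (Sum.inr ⟨k, Nat.le_of_succ_le_succ h⟩), rfl⟩
      | c x k j =>
        have h2 : max (x.rk (lv D)) j ≤ n := Nat.le_of_succ_le_succ h
        have h3 : x.rk (lv D) ≤ n := (le_max_left _ _).trans h2
        exact ⟨Sum.inr (⟨⟨x, hx.1⟩, h3⟩, ⟨k, hx.2.le.trans h3⟩, j), rfl⟩
    choose f hf using h1
    have hinj : Function.Injective f := by
      intro x x' h
      apply Subtype.ext
      apply Subtype.ext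
      rw [← hf x, ← hf x', h]
    refine (Cardinal.mk_le_of_injective hinj).trans ?_
    have hK := aleph0_le_K D (n+1)
    have hC := mk_codes_le D n
    have hX := ih.trans (K_lt D n).le
    rw [Cardinal.mk_sum, Cardinal.mk_sum, Cardinal.mk_prod, Cardinal.mk_prod]
    simp only [Cardinal.lift_id, Cardinal.lift_uzero, Cardinal.mk_nat, Cardinal.lift_aleph0]
    exact Cardinal.add_le_of_le hK (Cardinal.add_le_of_le hK (K_mono D (Nat.zero_le _)) hC)
      (Cardinal.mul_le_of_le hK hX (Cardinal.mul_le_of_le hK hC hK))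

/-- **Every non-measurable set embeds into a first countable Hausdorff almost Lindelöf space.** -/
theorem exists_space {D : Type u} [Infinite D] (hD : NonMeas D) :
    ∃ (X : Type u) (_ : TopologicalSpace X), T2Space X ∧ FirstCountableTopology X ∧
      AlmostLindelof X ∧ #D ≤ #X := by
  classical
  have h1 : ∀ l, Nonempty ({x : Pt (D := D) (lv D) // x.rk = l} ↪ K D l) := by
    intro l
    rw [← Cardinal.le_def]
    refine le_trans ?_ (mk_level_le D l)
    exact Cardinal.mk_le_of_injective (f := fun x => ⟨x.1, x.2.le⟩) (by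
      intro x x' h
      exact Subtype.ext (congrArg (fun z => z.1) h))
  let i := fun l => (h1 l).some
  let dec : Code D → Pt (D := D) (lv D) → ℕ := fun k x =>
    if h : x.rk = k.1 then k.2 (i k.1 ⟨x, h⟩) else 0
  refine ⟨Pt (D := D) (lv D), top dec, t2_top dec, firstCountable_top dec,
    almostLindelof_top dec ?_ ?_, ?_⟩
  · intro l g
    refine ⟨⟨l, Function.extend (i l) (fun x => g x.1) 0⟩, rfl, fun x hx => ?_⟩
    show (if h : x.rk = l then Function.extend (i l) (fun x => g x.1) 0 (i l ⟨x, h⟩) else 0) = g x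
    rw [dif_pos hx, (i l).injective.extend_apply]
  · intro l
    exact (nonMeas_K hD l).of_injective (i l) (i l).injective
  · exact Cardinal.mk_le_of_injective (f := fun a => ⟨Raw.d a, trivial⟩) (by
      intro a b h
      have h2 : Raw.d a = Raw.d b := congrArg Subtype.val h
      injection h2)

theorem beth_le_K (n : ℕ) : Cardinal.beth (n : Ordinal) ≤ #(K ℕ n) := by
  induction n with
  | zero =>
    have : #(K ℕ 0) = ℵ₀ := Cardinal.mk_nat
    rw [this]
    simp
  | succ n ih =>
    rw [mk_K_succ, Nat.cast_succ, ← Order.succ_eq_add_one, Cardinal.beth_succ]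
    exact (Cardinal.power_le_power_left two_ne_zero ih).trans
      (Cardinal.power_le_power_right (Cardinal.natCast_lt_aleph0 (n := 2)).le)

end Pool.Agent.R828.PwL
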