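import Pool.Agent.R828.PwL

/-!
# The tree-like space
-/

namespace Pool.Agent.R828.PwL

open Set Topology

open scoped Cardinal

universe u

/-- Formal points: basic points, partition points and children. -/
inductive Raw (D C : Type u) : Type u
  | d : D → Raw D C
  | y : C → Raw D C
  | c : Raw D C → C → ℕ → Raw D C

namespace Raw

variable {D C : Type u} (lev : C → ℕ)

/-- The rank of a point. -/
def rk : Raw D C → ℕ
  | d _ => 0
  | y k => lev k + 1
  | c x _ j => max (rk x) j + 1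

/-- Valid points. -/
def valid : Raw D C → Prop
  | d _ => True
  | y _ => True
  | c x k _ => valid x ∧ lev k = rk lev x

/-- `inT w z`: the point `z` is a descendant of `w` or equal to `w`. -/
def inT (w : Raw D C) : Raw D C → Prop
  | d a => d a = w
  | y k => y k = w
  | c x k j => c x k j = w ∨ inT w x

theorem inT_refl (w : Raw D C) : inT w w := by
  cases w with
  | d a => rfl
  | y k => rfl
  | c x k j => exact Or.inl rfl

theorem inT_trans {w z : Raw D C} (h : inT w z) : ∀ {z' : Raw D C}, inT z z' → inT w z' := by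
  intro z' h'
  induction z' with
  | d a =>
    have : d a = z := h'
    rw [this]
    exact h
  | y k =>
    have : y k = z := h'
    rw [this]
    exact h
  | c x k j ih =>
    rcases h' with h' | h'
    · rw [h']
      exact h
    · exact Or.inr (ih h')

theorem rk_le_of_inT {w z : Raw D C} (h : inT w z) : rk lev w ≤ rk lev z := by
  induction z with
  | d a => exact le_of_eq (by rw [show d a = w from h])
  | y k => exact le_of_eq (by rw [show y k = w from h])
  | c x k j ih =>
    rcases h with h | h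
    · exact le_of_eq (by rw [h])
    · have := ih h
      have h2 : rk lev (c x k j) = max (rk lev x) j + 1 := rfl
      have h3 := le_max_left (rk lev x) j
      omega

theorem comparable {w w' z : Raw D C} (h : inT w z) (h' : inT w' z) : inT w w' ∨ inT w' w := by
  induction z with
  | d a => left; rw [← show d a = w' from h']; exact h
  | y k => left; rw [← show y k = w' from h']; exact h
  | c x k j ih =>
    rcases h with h | h
    · right
      rw [← h]
      exact h'
    · rcases h' with h' | h'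
      · left
        rw [← h']
        exact Or.inr h
      · exact ih h h'

end Raw

/-- The points of the space. -/
def Pt {D C : Type u} (lev : C → ℕ) : Type u := {x : Raw D C // x.valid lev}

section space

variable {D C : Type u} {lev : C → ℕ}

/-- The rank of a point of the space. -/
def Pt.rk (x : Pt (D := D) lev) : ℕ := x.1.rk lev

variable (dec : C → Pt (D := D) lev → ℕ)

/-- The child `(a, k, j)` is attached to the point `x` at level `m`. -/
def Att (m : ℕ) (x a : Pt (D := D) lev) (k : C) (j : ℕ) : Prop :=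
  lev k = a.rk ∧ m ≤ j ∧ (a = x ∨ (x.1 = Raw.y k ∧ m ≤ dec k a ∧ dec k a ≤ j))

/-- Basic neighbourhoods. -/
def nb (m : ℕ) (x : Pt (D := D) lev) : Set (Pt (D := D) lev) :=
  {z | z = x ∨ ∃ a k j, Att dec m x a k j ∧ Raw.inT (Raw.c a.1 k j) z.1}

variable {dec}

theorem Att.mono {m m' : ℕ} (h : m ≤ m') {x a : Pt (D := D) lev} {k : C} {j : ℕ}
    (h' : Att dec m' x a k j) : Att dec m x a k j := by
  obtain ⟨h1, h2, h3⟩ := h'
  refine ⟨h1, h.trans h2, h3.imp_right ?_⟩
  rintro ⟨h4, h5, h6⟩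
  exact ⟨h4, h.trans h5, h6⟩

theorem Att.rk_le {m : ℕ} {x a : Pt (D := D) lev} {k : C} {j : ℕ}
    (h' : Att dec m x a k j) : a.rk ≤ x.rk := by
  obtain ⟨h1, h2, h3⟩ := h'
  rcases h3 with rfl | ⟨h3, -, -⟩
  · exact le_rfl
  · have : x.rk = lev k + 1 := by
      show x.1.rk lev = _
      rw [h3]
      rfl
    omega

theorem nb_mono {m m' : ℕ} (h : m ≤ m') (x : Pt (D := D) lev) : nb dec m' x ⊆ nb dec m x := by
  rintro z (hz | ⟨a, k, j, h1, h2⟩)
  · exact Or.inl hz
  · exact Or.inr ⟨a, k, j, h1.mono h, h2⟩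

theorem self_mem_nb (m : ℕ) (x : Pt (D := D) lev) : x ∈ nb dec m x := Or.inl rfl

theorem nb_sub {m : ℕ} {x z : Pt (D := D) lev} (hz : z ∈ nb dec m x) :
    ∃ m', nb dec m' z ⊆ nb dec m x := by
  rcases hz with rfl | ⟨a, k, j, h1, h2⟩
  · exact ⟨m, Subset.rfl⟩
  · refine ⟨0, ?_⟩
    rintro z' (rfl | ⟨a', k', j', ⟨h3, -, h4⟩, h5⟩)
    · exact Or.inr ⟨a, k, j, h1, h2⟩
    · rcases h4 with rfl | ⟨h4, -, -⟩
      · refine Or.inr ⟨a, k, j, h1, Raw.inT_trans (z := Raw.c a'.1 k' j') (Or.inr h2) h5⟩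
      · rw [h4] at h2
        exact absurd h2 (by
          intro h
          have : Raw.y k' = Raw.c a.1 k j := h
          cases this)

/-- Points of neighbourhoods of large index have large rank. -/
theorem rk_of_mem_nb {m : ℕ} {x z : Pt (D := D) lev} (hz : z ∈ nb dec m x) (hne : z ≠ x) :
    m < z.rk := by
  rcases hz with rfl | ⟨a, k, j, h1, h2⟩
  · exact absurd rfl hne
  · have h3 := Raw.rk_le_of_inT lev h2
    have h4 : (Raw.c a.1 k j).rk lev = max (a.1.rk lev) j + 1 := rfl
    have h5 := le_max_right (a.1.rk lev) j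
    have h6 := h1.2.1
    have h7 : z.rk = z.1.rk lev := rfl
    omega

/-- Two points have disjoint neighbourhoods. -/
theorem nb_disjoint {x x' : Pt (D := D) lev} (hne : x ≠ x') :
    ∃ m, Disjoint (nb dec m x) (nb dec m x') := by
  -- values of partitions
  have hv : ∀ x x' : Pt (D := D) lev, ∃ m, ∀ k, x'.1 = Raw.y k → dec k x < m := by
    intro x x'
    by_cases h : ∃ k, x'.1 = Raw.y k
    · obtain ⟨k, hk⟩ := h
      refine ⟨dec k x + 1, fun k' hk' => ?_⟩
      rw [hk] at hk'
      have : k = k' := by injection hk'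
      rw [this]
      exact Nat.lt_succ_self _
    · exact ⟨0, fun k hk => absurd ⟨k, hk⟩ h⟩
  obtain ⟨m1, hm1⟩ := hv x x'
  obtain ⟨m2, hm2⟩ := hv x' x
  let m := max (max x.rk x'.rk) (max m1 m2)
  have e1 : x.rk ≤ m := (le_max_left _ _).trans (le_max_left _ _)
  have e2 : x'.rk ≤ m := (le_max_right _ _).trans (le_max_left _ _)
  have e3 : m1 ≤ m := (le_max_left _ _).trans (le_max_right _ _)
  have e4 : m2 ≤ m := (le_max_right _ _).trans (le_max_right _ _)
  refine ⟨m, ?_⟩
  rw [Set.disjoint_left]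
  rintro z hz hz'
  -- the point `z` is neither `x` nor `x'`
  by_cases h1 : z = x
  · have h2 : z ≠ x' := fun h => hne (h1.symm.trans h)
    have h3 := rk_of_mem_nb hz' h2
    rw [h1] at h3
    omega
  by_cases h1' : z = x'
  · have h3 := rk_of_mem_nb hz h1
    rw [h1'] at h3
    omega
  obtain ⟨a, k, j, h2, h3⟩ := hz.resolve_left h1
  obtain ⟨a', k', j', h2', h3'⟩ := hz'.resolve_left h1'
  -- descendants
  have key : ∀ {x x' a a' : Pt (D := D) lev} {k k' : C} {j j' : ℕ}, x.rk ≤ m →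
      Att dec m x a k j → Att dec m x' a' k' j' → Raw.inT (Raw.c a'.1 k' j') (Raw.c a.1 k j) →
      Raw.c a'.1 k' j' = Raw.c a.1 k j := by
    intro x x' a a' k k' j j' hx h h' hT
    rcases hT with hT | hT
    · exact hT.symm
    · exfalso
      have h5 := Raw.rk_le_of_inT lev hT
      have h6 : (Raw.c a'.1 k' j').rk lev = max (a'.1.rk lev) j' + 1 := rfl
      have h7 := le_max_right (a'.1.rk lev) j'
      have h8 := h'.2.1
      have h9 := h.rk_le
      have h10 : a.rk = a.1.rk lev := rfl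
      omega
  have heq : Raw.c a'.1 k' j' = Raw.c a.1 k j := by
    rcases Raw.comparable h3 h3' with h | h
    · exact (key e2 h2' h2 h).symm
    · exact key e1 h2 h2' h
  have h5 : a'.1 = a.1 ∧ k' = k ∧ j' = j := by
    injection heq with h6 h7 h8
    exact ⟨h6, h7, h8⟩
  obtain ⟨h6, rfl, rfl⟩ := h5
  have h7 : a' = a := Subtype.ext h6
  subst h7
  rcases h2.2.2 with h8 | ⟨h8, h9, h10⟩
  · rcases h2'.2.2 with h8' | ⟨h8', h9', h10'⟩
    · exact hne (h8.symm.trans h8')
    · have := hm1 k' h8'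
      rw [h8] at h9'
      omega
  · rcases h2'.2.2 with h8' | ⟨h8', h9', h10'⟩
    · have := hm2 k' h8
      rw [h8'] at h9
      omega
    · exact hne (Subtype.ext (h8.trans h8'.symm))

variable (dec)

/-- The topology. -/
@[reducible] def top : TopologicalSpace (Pt (D := D) lev) where
  IsOpen U := ∀ x ∈ U, ∃ m, nb dec m x ⊆ U
  isOpen_univ := fun _ _ => ⟨0, subset_univ _⟩
  isOpen_inter := by
    rintro U V hU hV x ⟨hxU, hxV⟩
    obtain ⟨m, hm⟩ := hU x hxU
    obtain ⟨m', hm'⟩ := hV x hxV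
    exact ⟨max m m', subset_inter ((nb_mono (le_max_left _ _) x).trans hm)
      ((nb_mono (le_max_right _ _) x).trans hm')⟩
  isOpen_sUnion := by
    rintro S hS x ⟨U, hU, hxU⟩
    obtain ⟨m, hm⟩ := hS U hU x hxU
    exact ⟨m, hm.trans (subset_sUnion_of_mem hU)⟩

theorem isOpen_nb (m : ℕ) (x : Pt (D := D) lev) : IsOpen[top dec] (nb dec m x) :=
  fun _ hz => nb_sub hz

theorem t2_top : @T2Space _ (top dec) := by
  letI := top dec
  refine ⟨fun x x' hne => ?_⟩
  obtain ⟨m, hm⟩ := nb_disjoint (dec := dec) hne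
  exact ⟨nb dec m x, nb dec m x', isOpen_nb dec m x, isOpen_nb dec m x', self_mem_nb _ _,
    self_mem_nb _ _, hm⟩

theorem firstCountable_top : @FirstCountableTopology _ (top dec) := by
  letI := top dec
  refine ⟨fun x => ?_⟩
  have hb : (𝓝 x).HasBasis (fun _ : ℕ => True) (fun m => nb dec m x) := by
    refine ⟨fun t => ⟨fun ht => ?_, ?_⟩⟩
    · obtain ⟨U, hUt, hU, hx⟩ := mem_nhds_iff.1 ht
      obtain ⟨m, hm⟩ := hU x hx
      exact ⟨m, trivial, hm.trans hUt⟩
    · rintro ⟨m, -, hm⟩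
      exact Filter.mem_of_superset ((isOpen_nb dec m x).mem_nhds (self_mem_nb m x)) hm
  exact (Filter.HasCountableBasis.mk hb (Set.to_countable _)).isCountablyGenerated

/-- The partition point of a code. -/
def yPt (k : C) : Pt (D := D) lev := ⟨Raw.y k, trivial⟩

theorem closure_nb_y (m : ℕ) (k : C) :
    {x : Pt (D := D) lev | x.rk = lev k ∧ m ≤ dec k x} ⊆
      @closure _ (top dec) (nb dec m (yPt k)) := by
  letI := top dec
  rintro x ⟨hx1, hx2⟩
  rw [mem_closure_iff]
  intro U hU hxU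
  obtain ⟨m', hm'⟩ := hU x hxU
  let z : Pt (D := D) lev := ⟨Raw.c x.1 k (max m' (dec k x)), x.2, hx1.symm⟩
  refine ⟨z, hm' (Or.inr ⟨x, k, max m' (dec k x), ⟨hx1.symm, le_max_left _ _, Or.inl rfl⟩,
    Raw.inT_refl _⟩), Or.inr ⟨x, k, max m' (dec k x), ⟨hx1.symm, hx2.trans (le_max_right _ _),
    Or.inr ⟨rfl, hx2, le_max_right _ _⟩⟩, Raw.inT_refl _⟩⟩

/-- The space is almost Lindelöf provided that all functions on the levels are coded and that the
levels are non-measurable. -/
theorem almostLindelof_top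
    (hdec : ∀ (l : ℕ) (g : Pt (D := D) lev → ℕ), ∃ k, lev k = l ∧ ∀ x : Pt (D := D) lev,
      x.rk = l → dec k x = g x)
    (hnm : ∀ l, NonMeas {x : Pt (D := D) lev // x.rk = l}) :
    @AlmostLindelof _ (top dec) := by
  letI := top dec
  intro 𝒰 hU hcov
  let I : Set (Set (Pt (D := D) lev)) := {A | ∃ 𝒱 : Set (Set (Pt (D := D) lev)), 𝒱.Countable ∧
    𝒱 ⊆ 𝒰 ∧ A ⊆ ⋃ V ∈ 𝒱, closure V}
  have hsub : ∀ A ∈ I, ∀ B, B ⊆ A → B ∈ I := by
    rintro A ⟨𝒱, h1, h2, h3⟩ B hB
    exact ⟨𝒱, h1, h2, hB.trans h3⟩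
  have hun : ∀ A : ℕ → Set (Pt (D := D) lev), (∀ n, A n ∈ I) → ⋃ n, A n ∈ I := by
    intro A hA
    choose 𝒱 h1 h2 h3 using hA
    refine ⟨⋃ n, 𝒱 n, countable_iUnion h1, iUnion_subset h2, ?_⟩
    apply iUnion_subset
    intro n x hx
    obtain ⟨V, hV, hxV⟩ := mem_iUnion₂.1 (h3 n hx)
    exact mem_iUnion₂.2 ⟨V, mem_iUnion.2 ⟨n, hV⟩, hxV⟩
  have hsing : ∀ A : Set (Pt (D := D) lev), ∀ V ∈ 𝒰, A ⊆ closure V → A ∈ I := by
    intro A V hV hA
    refine ⟨{V}, countable_singleton V, singleton_subset_iff.2 hV, ?_⟩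
    simpa using hA
  have hlev : ∀ l, {x : Pt (D := D) lev | x.rk = l} ∈ I := by
    intro l
    have := (hnm l).ideal {B | Subtype.val '' B ∈ I} (by
      intro A hA B hB
      exact hsub _ hA _ (image_mono hB)) (by
      intro A hA
      show Subtype.val '' _ ∈ I
      rw [image_iUnion]
      exact hun _ hA) (by
      intro x
      obtain ⟨V, hV, hxV⟩ := eq_univ_iff_forall.1 hcov x.1
      apply hsing _ V hV
      rintro _ ⟨_, rfl, rfl⟩
      exact subset_closure hxV) (by
      classical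
      intro g
      obtain ⟨k, hk, hk2⟩ := hdec l (fun x => if h : x.rk = l then g ⟨x, h⟩ else 0)
      obtain ⟨V, hV, hxV⟩ := eq_univ_iff_forall.1 hcov (yPt k)
      obtain ⟨m, hm⟩ := hU V hV _ hxV
      refine ⟨m, hsing _ V hV ?_⟩
      rintro _ ⟨x, hx, rfl⟩
      apply closure_mono hm
      apply closure_nb_y
      refine ⟨x.2.trans hk.symm, ?_⟩
      rw [hk2 x.1 x.2, dif_pos x.2]
      exact hx)
    have h2 : Subtype.val '' (univ : Set {x : Pt (D := D) lev // x.rk = l}) ∈ I := this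
    rw [image_univ, Subtype.range_coe_subtype] at h2
    exact h2
  have huniv : (univ : Set (Pt (D := D) lev)) ∈ I := by
    refine hsub _ (hun _ hlev) _ ?_
    intro x _
    exact mem_iUnion.2 ⟨x.rk, rfl⟩
  obtain ⟨𝒱, h1, h2, h3⟩ := huniv
  exact ⟨𝒱, h1, h2, eq_univ_of_univ_subset h3⟩

end space

end Pool.Agent.R828.PwL
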