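import Mathlib

/-!
# Rectifiable p-spaces

A universe polymorphic copy of a part of `Pool.Agent.H960R3.Rect` (the symmetric neighbourhoods
`Dn n` of the diagonal of a rectifiable space with a compact set `K` of countable outer base).
-/

set_option autoImplicit false

open Set Topology Filter

namespace Pool.Agent.R828.Rect

universe u

variable {X : Type u} [TopologicalSpace X]

/-- The data: continuous operations `p`, `q` and a compact set `K` with countable outer base. -/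
structure Data (X : Type u) [TopologicalSpace X] where
  p : X × X → X
  q : X × X → X
  e : X
  hp : Continuous p
  hq : Continuous q
  pq : ∀ x y, p (x, q (x, y)) = y
  qp : ∀ x y, q (x, p (x, y)) = y
  qe : ∀ x, q (x, x) = e
  K : Set X
  hK : IsCompact K
  eK : e ∈ K
  U : ℕ → Set X
  C : ℕ → Set X
  hU : ∀ n, IsOpen (U n)
  hC : ∀ n, IsClosed (C n)
  KU : ∀ n, K ⊆ U n
  UC : ∀ n, U n ⊆ C n
  CU : ∀ n, C (n + 1) ⊆ U n
  base : ∀ O : Set X, IsOpen O → K ⊆ O → ∃ n, U n ⊆ O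
  inter : ∀ x, (∀ n, x ∈ U n) → x ∈ K

namespace Data

variable (d : Data X)

theorem U_anti {m n : ℕ} (h : m ≤ n) : d.U n ⊆ d.U m := by
  induction h with
  | refl => exact Subset.rfl
  | step _ ih => exact ((d.UC _).trans (d.CU _)).trans ih

theorem pe (x : X) : d.p (x, d.e) = x := by
  rw [← d.qe x, d.pq]

/-- The symmetric neighbourhoods of the diagonal. -/
def Dn (n : ℕ) (x y : X) : Prop :=
  ∀ k ∈ d.K, d.q (y, d.p (x, k)) ∈ d.U n ∧ d.q (x, d.p (y, k)) ∈ d.U n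

/-- The equivalence relation. -/
def R (x y : X) : Prop :=
  ∀ k ∈ d.K, d.q (y, d.p (x, k)) ∈ d.K ∧ d.q (x, d.p (y, k)) ∈ d.K

theorem R_Dn {x y : X} (h : d.R x y) (n : ℕ) : d.Dn n x y :=
  fun k hk => ⟨d.KU n (h k hk).1, d.KU n (h k hk).2⟩

theorem R_of_Dn {x y : X} (h : ∀ n, d.Dn n x y) : d.R x y :=
  fun k hk => ⟨d.inter _ fun n => (h n k hk).1, d.inter _ fun n => (h n k hk).2⟩

theorem Dn_symm {n : ℕ} {x y : X} (h : d.Dn n x y) : d.Dn n y x :=
  fun k hk => ⟨(h k hk).2, (h k hk).1⟩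

theorem R_symm {x y : X} (h : d.R x y) : d.R y x :=
  fun k hk => ⟨(h k hk).2, (h k hk).1⟩

theorem R_refl (x : X) : d.R x x := fun k hk => by simp [d.qp, hk]

theorem Dn_anti {m n : ℕ} (h : m ≤ n) {x y : X} (hd : d.Dn n x y) : d.Dn m x y :=
  fun k hk => ⟨d.U_anti h (hd k hk).1, d.U_anti h (hd k hk).2⟩

theorem R_trans_aux {x y z : X} (h1 : d.R x y) (h2 : d.R y z) (k : X) (hk : k ∈ d.K) :
    d.q (z, d.p (x, k)) ∈ d.K := by
  have h3 := (h1 k hk).1
  have h4 := (h2 _ h3).1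
  rwa [d.pq] at h4

theorem R_trans {x y z : X} (h1 : d.R x y) (h2 : d.R y z) : d.R x z :=
  fun k hk => ⟨d.R_trans_aux h1 h2 k hk, d.R_trans_aux (d.R_symm h2) (d.R_symm h1) k hk⟩

theorem isOpen_Dn (n : ℕ) : IsOpen {z : X × X | d.Dn n z.1 z.2} := by
  rw [isOpen_iff_mem_nhds]
  rintro z hz
  have := d.hK.eventually_forall_of_forall_eventually (x₀ := z)
    (P := fun z k => d.q (z.2, d.p (z.1, k)) ∈ d.U n ∧ d.q (z.1, d.p (z.2, k)) ∈ d.U n) ?_
  · exact this
  · intro k hk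
    have c1 : Continuous fun w : (X × X) × X => d.q (w.1.2, d.p (w.1.1, w.2)) :=
      d.hq.comp ((continuous_snd.comp continuous_fst).prodMk
        (d.hp.comp ((continuous_fst.comp continuous_fst).prodMk continuous_snd)))
    have c2 : Continuous fun w : (X × X) × X => d.q (w.1.1, d.p (w.1.2, w.2)) :=
      d.hq.comp ((continuous_fst.comp continuous_fst).prodMk
        (d.hp.comp ((continuous_snd.comp continuous_fst).prodMk continuous_snd)))
    have e1 := (c1.continuousAt (x := (z, k))).preimage_mem_nhds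
      ((d.hU n).mem_nhds (hz k hk).1)
    have e2 := (c2.continuousAt (x := (z, k))).preimage_mem_nhds
      ((d.hU n).mem_nhds (hz k hk).2)
    filter_upwards [e1, e2] with w h1 h2 using ⟨h1, h2⟩

/-- Off the relation `R`, some `Dn n` fails in a neighbourhood. -/
theorem not_R {x y : X} (h : ¬ d.R x y) : ∃ n, ∀ᶠ z : X × X in 𝓝 (x, y), ¬ d.Dn n z.1 z.2 := by
  have h' : ¬ ∀ n, d.Dn n x y := fun h' => h (d.R_of_Dn h')
  push Not at h'
  obtain ⟨m, hm⟩ := h'
  unfold Dn at hm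
  push Not at hm
  obtain ⟨k, hk, hm⟩ := hm
  refine ⟨m + 1, ?_⟩
  have c1 : Continuous fun w : X × X => d.q (w.2, d.p (w.1, k)) :=
    d.hq.comp (continuous_snd.prodMk (d.hp.comp (continuous_fst.prodMk continuous_const)))
  have c2 : Continuous fun w : X × X => d.q (w.1, d.p (w.2, k)) :=
    d.hq.comp (continuous_fst.prodMk (d.hp.comp (continuous_snd.prodMk continuous_const)))
  by_cases h1 : d.q (y, d.p (x, k)) ∈ d.U m
  · have h2 := hm h1
    have h3 : d.q (x, d.p (y, k)) ∉ d.C (m + 1) := fun h => h2 (d.CU m h)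
    have e2 := (c2.continuousAt (x := (x, y))).preimage_mem_nhds
      ((d.hC (m + 1)).isOpen_compl.mem_nhds h3)
    filter_upwards [e2] with w hw hD
    exact hw (d.UC _ (hD k hk).2)
  · have h3 : d.q (y, d.p (x, k)) ∉ d.C (m + 1) := fun h => h1 (d.CU m h)
    have e2 := (c1.continuousAt (x := (x, y))).preimage_mem_nhds
      ((d.hC (m + 1)).isOpen_compl.mem_nhds h3)
    filter_upwards [e2] with w hw hD
    exact hw (d.UC _ (hD k hk).1)

theorem Dn_q {n : ℕ} {x y : X} (h : d.Dn n x y) : d.q (x, y) ∈ d.U n := by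
  have := (h d.e d.eK).2
  rwa [d.pe] at this

theorem R_q {x y : X} (h : d.R x y) : d.q (x, y) ∈ d.K := by
  have := (h d.e d.eK).2
  rwa [d.pe] at this

/-- `{x} × O`-type statement: joint upper semicontinuity. -/
theorem usc (x : X) {O : Set X} (hO : IsOpen O) (h : ∀ y, d.R x y → y ∈ O) :
    ∃ n, ∀ᶠ x' in 𝓝 x, ∀ y, d.Dn n x' y → y ∈ O := by
  set L : Set X := (fun k => d.p (x, k)) '' d.K with hL
  have hLc : IsCompact L := d.hK.image (d.hp.comp (continuous_const.prodMk continuous_id))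
  have hLO : IsCompact (L \ O) := hLc.diff hO
  let G : ℕ → Set (X × X) := fun n => interior {z : X × X | ¬ d.Dn n z.1 z.2}
  have hG : ∀ n, IsOpen (G n) := fun n => isOpen_interior
  have hGm : ∀ m n, m ≤ n → G m ⊆ G n := fun m n hmn =>
    interior_mono fun z hz hD => hz (d.Dn_anti hmn hD)
  obtain ⟨n, hn⟩ := hLO.elim_directed_cover (fun n => (fun y => (x, y)) ⁻¹' G n)
    (fun n => (hG n).preimage (by fun_prop)) (by
      intro y hy
      have : ¬ d.R x y := fun hR => hy.2 (h y hR)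
      obtain ⟨n, hn⟩ := d.not_R this
      exact mem_iUnion.2 ⟨n, mem_interior_iff_mem_nhds.2 hn⟩) (by
      intro m n
      exact ⟨max m n, preimage_mono (hGm _ _ (le_max_left _ _)),
        preimage_mono (hGm _ _ (le_max_right _ _))⟩)
  obtain ⟨u, v, hu, hv, hxu, hLv, huv⟩ := generalized_tube_lemma (isCompact_singleton (x := x)) hLO
    (hG n) (by
      rintro ⟨a, b⟩ ⟨ha, hb⟩
      rw [mem_singleton_iff] at ha
      subst ha
      exact hn hb)
  obtain ⟨u', v', hu', hv', hxu', hKv', huv'⟩ := generalized_tube_lemma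
    (isCompact_singleton (x := x)) d.hK ((hv.union hO).preimage d.hp) (by
      rintro ⟨a, b⟩ ⟨ha, hb⟩
      rw [mem_singleton_iff] at ha
      subst ha
      by_cases hb' : d.p (a, b) ∈ O
      · exact Or.inr hb'
      · exact Or.inl (hLv ⟨⟨b, hb, rfl⟩, hb'⟩))
  obtain ⟨n', hn'⟩ := d.base v' hv' hKv'
  refine ⟨max n n', ?_⟩
  filter_upwards [hu.mem_nhds (hxu rfl), hu'.mem_nhds (hxu' rfl)] with x' hx1 hx2 y hy
  have h1 : d.q (x', y) ∈ v' := hn' (d.U_anti (le_max_right _ _) (d.Dn_q hy))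
  have h2 : d.p (x', d.q (x', y)) ∈ v ∪ O := huv' (mk_mem_prod hx2 h1)
  rw [d.pq] at h2
  rcases h2 with h2 | h2
  · exact absurd (d.Dn_anti (le_max_left _ _) hy) (interior_subset (huv (mk_mem_prod hx1 h2)))
  · exact h2

theorem isCompact_class [T2Space X] (x : X) : IsCompact {y | d.R x y} := by
  set L : Set X := (fun k => d.p (x, k)) '' d.K with hL
  have hLc : IsCompact L := d.hK.image (d.hp.comp (continuous_const.prodMk continuous_id))
  refine hLc.of_isClosed_subset ?_ ?_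
  · rw [← isOpen_compl_iff, isOpen_iff_mem_nhds]
    intro y hy
    obtain ⟨n, hn⟩ := d.not_R hy
    have hc : Continuous fun y : X => (x, y) := by fun_prop
    have := (hc.continuousAt (x := y)).preimage_mem_nhds hn
    filter_upwards [this] with z hz hR
    exact hz (d.R_Dn hR n)
  · intro y hy
    exact ⟨d.q (x, y), d.R_q hy, d.pq _ _⟩

/-- iterated neighbourhoods -/
def E (n : ℕ) (x : X) : ℕ → Set X
  | 0 => {x}
  | k + 1 => {z | ∃ y ∈ E n x k, d.Dn n y z}

theorem E_anti {m n : ℕ} (h : m ≤ n) (x : X) (k : ℕ) : d.E n x k ⊆ d.E m x k := by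
  induction k with
  | zero => exact Subset.rfl
  | succ k ih =>
    rintro z ⟨y, hy, hz⟩
    exact ⟨y, ih hy, d.Dn_anti h hz⟩

theorem E_base [T2Space X] (x : X) (k : ℕ) : ∀ O : Set X, IsOpen O → (∀ y, d.R x y → y ∈ O) →
    ∃ n, d.E n x k ⊆ O := by
  induction k with
  | zero =>
    intro O _ h
    refine ⟨0, ?_⟩
    rintro z hz
    rw [show z = x from hz]
    exact h x (d.R_refl x)
  | succ k ih =>
    intro O hO h
    let G : ℕ → Set X := fun n => interior {y | ∀ z, d.Dn n y z → z ∈ O}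
    obtain ⟨n, hn⟩ := (d.isCompact_class x).elim_directed_cover G (fun n => isOpen_interior) (by
      intro y hy
      obtain ⟨n, hn⟩ := d.usc y hO fun z hz => h z (d.R_trans hy hz)
      exact mem_iUnion.2 ⟨n, mem_interior_iff_mem_nhds.2 hn⟩) (by
      intro m n
      refine ⟨max m n, ?_, ?_⟩
      · exact interior_mono fun y hy z hz => hy z (d.Dn_anti (le_max_left _ _) hz)
      · exact interior_mono fun y hy z hz => hy z (d.Dn_anti (le_max_right _ _) hz))
    obtain ⟨n', hn'⟩ := ih (G n) isOpen_interior hn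
    refine ⟨max n n', ?_⟩
    rintro z ⟨y, hy, hz⟩
    exact interior_subset (hn' (d.E_anti (le_max_right _ _) x k hy)) z
      (d.Dn_anti (le_max_left _ _) hz)


include d in
theorem lindelof [T2Space X] (hccc : ∀ 𝒢 : Set (Set X), (∀ G ∈ 𝒢, IsOpen G ∧ G.Nonempty) →
    𝒢.PairwiseDisjoint id → 𝒢.Countable) : LindelofSpace X := by
  classical
  -- for each `n` a countable set `Y n` such that each `x` is in `E n y 2` for some `y ∈ Y n`
  have step : ∀ n, ∃ Y : Set X, Y.Countable ∧ ∀ x, ∃ y ∈ Y, ∃ z, d.Dn n x z ∧ d.Dn n z y := by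
    intro n
    let P : Set (Set (Set X)) := {𝒢 | (∀ G ∈ 𝒢, IsOpen G ∧ G.Nonempty ∧
      ∀ a ∈ G, ∀ b ∈ G, d.Dn n a b) ∧ 𝒢.PairwiseDisjoint id}
    obtain ⟨𝒢, h𝒢⟩ := zorn_subset P (by
      intro c hc hchain
      refine ⟨⋃₀ c, ⟨?_, ?_⟩, fun s hs => subset_sUnion_of_mem hs⟩
      · rintro G ⟨s, hs, hG⟩
        exact (hc hs).1 G hG
      · exact (pairwiseDisjoint_sUnion hchain.directedOn).2 fun s hs => (hc hs).2)
    have hcount : 𝒢.Countable :=
      hccc 𝒢 (fun G hG => ⟨(h𝒢.prop.1 G hG).1, (h𝒢.prop.1 G hG).2.1⟩) h𝒢.prop.2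
    have hch : ∀ G : Set X, ∃ y, G ∈ 𝒢 → y ∈ G := by
      intro G
      by_cases hG : G ∈ 𝒢
      · obtain ⟨y, hy⟩ := (h𝒢.prop.1 G hG).2.1
        exact ⟨y, fun _ => hy⟩
      · exact ⟨d.e, fun h => absurd h hG⟩
    choose y hy using hch
    refine ⟨y '' 𝒢, hcount.image _, ?_⟩
    intro x
    -- a small neighbourhood of `x`
    have h1 : {z : X × X | d.Dn n z.1 z.2} ∈ 𝓝 (x, x) :=
      (d.isOpen_Dn n).mem_nhds (d.R_Dn (d.R_refl x) n)
    rw [nhds_prod_eq, mem_prod_self_iff] at h1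
    obtain ⟨t, ht, htt⟩ := h1
    obtain ⟨O, hOt, hO, hxO⟩ := mem_nhds_iff.1 ht
    have h2 : ∃ G ∈ 𝒢, ∃ z ∈ G, z ∈ O := by
      by_contra hcon
      push Not at hcon
      have h3 : insert O 𝒢 ∈ P := by
        refine ⟨?_, ?_⟩
        · rintro G (rfl | hG)
          · exact ⟨hO, ⟨x, hxO⟩, fun a ha b hb => htt (mk_mem_prod (hOt ha) (hOt hb))⟩
          · exact h𝒢.prop.1 G hG
        · rw [pairwiseDisjoint_insert]
          refine ⟨h𝒢.prop.2, fun G hG _ => ?_⟩
          exact disjoint_left.2 fun z hz hzG => hcon G hG z hzG hz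
      have h4 : O ∈ 𝒢 := h𝒢.le_of_ge h3 (subset_insert _ _) (mem_insert _ _)
      exact hcon O h4 x hxO hxO
    obtain ⟨G, hG, z, hzG, hzO⟩ := h2
    exact ⟨y G, ⟨G, hG, rfl⟩, z, htt (mk_mem_prod (hOt hxO) (hOt hzO)),
      (h𝒢.prop.1 G hG).2.2 z hzG _ (hy G hG)⟩
  choose Y hY hYx using step
  -- the countable network-like family
  let 𝒩 : Set (Set X) := ⋃ n, (fun y => d.E n y 2) '' Y n
  have h𝒩 : 𝒩.Countable := countable_iUnion fun n => (hY n).image _
  have key : ∀ x, ∀ O : Set X, IsOpen O → (∀ y, d.R x y → y ∈ O) →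
      ∃ N ∈ 𝒩, x ∈ N ∧ N ⊆ O := by
    intro x O hO hR
    obtain ⟨n, hn⟩ := d.E_base x 4 O hO hR
    obtain ⟨y, hy, z, hxz, hzy⟩ := hYx n x
    refine ⟨d.E n y 2, mem_iUnion.2 ⟨n, ⟨y, hy, rfl⟩⟩, ?_, ?_⟩
    · exact ⟨z, ⟨y, rfl, d.Dn_symm hzy⟩, d.Dn_symm hxz⟩
    · rintro w ⟨v, ⟨y', hy', hv⟩, hw⟩
      rw [show y' = y from hy'] at hv
      exact hn ⟨v, ⟨y, ⟨z, ⟨x, rfl, hxz⟩, hzy⟩, hv⟩, hw⟩
  refine ⟨?_⟩
  refine isLindelof_of_countable_subcover fun U hU hcov => ?_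
  have hcls : ∀ x, ∃ t : Finset _, {y | d.R x y} ⊆ ⋃ i ∈ t, U i := fun x =>
    (d.isCompact_class x).elim_finite_subcover U hU (fun y _ => hcov (mem_univ y))
  have hcls' : ∀ N ∈ 𝒩, ∃ t : Finset _, (∃ t' : Finset _, N ⊆ ⋃ i ∈ t', U i) →
      N ⊆ ⋃ i ∈ t, U i := by
    intro N _
    by_cases h : ∃ t' : Finset _, N ⊆ ⋃ i ∈ t', U i
    · obtain ⟨t, ht⟩ := h
      exact ⟨t, fun _ => ht⟩
    · exact ⟨∅, fun h' => absurd h' h⟩
  choose! t ht using hcls'
  refine ⟨⋃ N ∈ 𝒩, (↑(t N) : Set _),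
    ?_, ?_⟩
  · rw [Set.biUnion_eq_iUnion]
    have := h𝒩.to_subtype
    exact countable_iUnion fun N => (t N.1).countable_toSet
  · intro x _
    obtain ⟨s, hs⟩ := hcls x
    obtain ⟨N, hN, hxN, hNO⟩ := key x (⋃ i ∈ s, U i) (isOpen_biUnion fun i _ => hU i)
      (fun y hy => hs hy)
    have h5 := ht N hN ⟨s, hNO⟩ hxN
    obtain ⟨i, hi, hxi⟩ := mem_iUnion₂.1 h5
    exact mem_iUnion₂.2 ⟨i, mem_iUnion₂.2 ⟨N, hN, hi⟩, hxi⟩

end Data

end Pool.Agent.R828.Rect
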