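import Mathlib

/-!
# Groups of singular cardinality: the combinatorial core for MP_08c285_gt
-/

namespace Pool.Agent.R828.SG

open Cardinal Set

universe u

variable {G : Type u} [Group G]

theorem mk_closure_lt (h0 : ℵ₀ < #G) {S : Set G} (hS : #S < #G) :
    #(Subgroup.closure S) < #G := by
  have h1 : Subgroup.closure S ≤ Subgroup.closure (insert 1 S) :=
    Subgroup.closure_mono (Set.subset_insert _ _)
  have h2 : #(Subgroup.closure S) ≤ #(Subgroup.closure (insert 1 S)) := Cardinal.mk_le_mk_of_subset h1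
  refine lt_of_le_of_lt h2 ?_
  have h3 : #(Subgroup.closure (insert 1 S) : Set G) ≤ #(FreeGroup (insert 1 S : Set G)) := by
    rw [FreeGroup.closure_eq_range]
    exact Cardinal.mk_range_le
  refine lt_of_le_of_lt h3 ?_
  rw [Cardinal.mk_freeGroup]
  refine max_lt ?_ h0
  exact lt_of_le_of_lt Cardinal.mk_insert_le (Cardinal.add_lt_of_lt h0.le hS
    (Cardinal.one_lt_aleph0.trans h0))

variable {ι : Type u} [LinearOrder ι] [WellFoundedLT ι]

theorem mk_Iic_lt (h0 : ℵ₀ < #G) (hι : ∀ i : ι, #(Iio i) < #G) (i : ι) : #(Iic i) < #G := by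
  rw [← Iio_insert]
  exact lt_of_le_of_lt Cardinal.mk_insert_le (Cardinal.add_lt_of_lt h0.le (hι i)
    (Cardinal.one_lt_aleph0.trans h0))

/-- The independence property of the sequence `x` over the sequences `a`, `b`. -/
def Ind (x a b : ι → G) : Prop :=
  ∀ i, x i ∉ Subgroup.closure (x '' Iio i ∪ (a '' Iic i ∪ b '' Iic i))

theorem exists_ind (h0 : ℵ₀ < #G) (hι : ∀ i : ι, #(Iio i) < #G) (a b : ι → G) :
    ∃ x : ι → G, Ind x a b := by
  classical
  have key : ∀ (i : ι) (prev : ∀ j, j < i → G), ∃ g : G, g ∉ Subgroup.closure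
      ({y | ∃ j, ∃ h : j < i, prev j h = y} ∪ (a '' Iic i ∪ b '' Iic i)) := by
    intro i prev
    by_contra hcon
    push Not at hcon
    have h1 : #({y | ∃ j, ∃ h : j < i, prev j h = y} ∪ (a '' Iic i ∪ b '' Iic i) : Set G) < #G := by
      refine lt_of_le_of_lt (Cardinal.mk_union_le _ _) (Cardinal.add_lt_of_lt h0.le ?_ ?_)
      · have : {y | ∃ j, ∃ h : j < i, prev j h = y} ⊆
            Set.range (fun j : Iio i => prev j.1 j.2) := by
          rintro y ⟨j, h, rfl⟩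
          exact ⟨⟨j, h⟩, rfl⟩
        exact lt_of_le_of_lt ((Cardinal.mk_le_mk_of_subset this).trans Cardinal.mk_range_le) (hι i)
      · refine lt_of_le_of_lt (Cardinal.mk_union_le _ _) (Cardinal.add_lt_of_lt h0.le ?_ ?_)
        · exact lt_of_le_of_lt Cardinal.mk_image_le (mk_Iic_lt h0 hι i)
        · exact lt_of_le_of_lt Cardinal.mk_image_le (mk_Iic_lt h0 hι i)
    have h2 := mk_closure_lt h0 h1
    have h3 : (Subgroup.closure ({y | ∃ j, ∃ h : j < i, prev j h = y} ∪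
        (a '' Iic i ∪ b '' Iic i)) : Set G) = Set.univ := Set.eq_univ_of_forall hcon
    have h4 : #(Subgroup.closure ({y | ∃ j, ∃ h : j < i, prev j h = y} ∪
        (a '' Iic i ∪ b '' Iic i)) : Set G) = #G := by rw [h3, Cardinal.mk_univ]
    exact absurd h4 h2.ne
  choose c hc using key
  let x : ι → G := WellFounded.fix (wellFounded_lt (α := ι)) c
  have hx : ∀ i, x i = c i (fun j _ => x j) := fun i => WellFounded.fix_eq _ _ _
  refine ⟨x, fun i => ?_⟩
  have h1 := hc i (fun j _ => x j)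
  rw [← hx i] at h1
  have h2 : {y | ∃ j, ∃ _ : j < i, x j = y} = x '' Iio i := by
    ext y
    constructor
    · rintro ⟨j, h, rfl⟩
      exact ⟨j, h, rfl⟩
    · rintro ⟨j, h, rfl⟩
      exact ⟨j, h, rfl⟩
  rw [h2] at h1
  exact h1

theorem Ind.swap {x a b : ι → G} (h : Ind x a b) : Ind x b a := by
  intro i
  rw [Set.union_comm (b '' Iic i)]
  exact h i

theorem Ind.mem_x {x a b : ι → G} {i j : ι} (hij : j < i) :
    x j ∈ Subgroup.closure (x '' Iio i ∪ (a '' Iic i ∪ b '' Iic i)) :=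
  Subgroup.subset_closure (Or.inl ⟨j, hij, rfl⟩)

theorem Ind.mem_a {x a b : ι → G} {i j : ι} (hij : j ≤ i) :
    a j ∈ Subgroup.closure (x '' Iio i ∪ (a '' Iic i ∪ b '' Iic i)) :=
  Subgroup.subset_closure (Or.inr (Or.inl ⟨j, hij, rfl⟩))

theorem Ind.mem_b {x a b : ι → G} {i j : ι} (hij : j ≤ i) :
    b j ∈ Subgroup.closure (x '' Iio i ∪ (a '' Iic i ∪ b '' Iic i)) :=
  Subgroup.subset_closure (Or.inr (Or.inr ⟨j, hij, rfl⟩))

theorem Ind.injective {x a b : ι → G} (h : Ind x a b) : Function.Injective x := by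
  intro i j hij
  rcases lt_trichotomy i j with h1 | h1 | h1
  · exact absurd (hij ▸ Ind.mem_x (x := x) (a := a) (b := b) h1) (h j)
  · exact h1
  · exact absurd (hij.symm ▸ Ind.mem_x (x := x) (a := a) (b := b) h1) (h i)

theorem Ind.key {x a b : ι → G} (h : Ind x a b) {i j i' j' : ι} (hij : j < i) (hij' : j' < i')
    (he : (x j * b j)⁻¹ * (x i * a i) = (x j' * b j')⁻¹ * (x i' * a i')) : ¬ i < i' := by
  intro hii
  apply h i'
  have h1 : x i' = (x j' * b j') * ((x j * b j)⁻¹ * (x i * a i)) * (a i')⁻¹ := by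
    rw [he]; group
  rw [h1]
  refine mul_mem (mul_mem (mul_mem (Ind.mem_x hij') (Ind.mem_b hij'.le)) (mul_mem (inv_mem
    (mul_mem (Ind.mem_x (hij.trans hii)) (Ind.mem_b (hij.trans hii).le)))
    (mul_mem (Ind.mem_x hii) (Ind.mem_a hii.le)))) (inv_mem (Ind.mem_a le_rfl))

theorem Ind.key2 {x a b : ι → G} (h : Ind x a b) {j j' : ι}
    (he : x j * b j = x j' * b j') : ¬ j < j' := by
  intro hjj
  apply h j'
  have h1 : x j' = x j * b j * (b j')⁻¹ := by
    rw [he]; group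
  rw [h1]
  exact mul_mem (mul_mem (Ind.mem_x hjj) (Ind.mem_b hjj.le)) (inv_mem (Ind.mem_b le_rfl))

theorem Ind.count_lt {x a b : ι → G} (h : Ind x a b) {D : Set G} :
    #{p : ι × ι | p.2 < p.1 ∧ (x p.2 * b p.2)⁻¹ * (x p.1 * a p.1) ∈ D} ≤ #D := by
  refine Cardinal.mk_le_of_injective (f := fun p => ⟨_, p.2.2⟩) ?_
  rintro ⟨⟨i, j⟩, hij, hd⟩ ⟨⟨i', j'⟩, hij', hd'⟩ heq
  have he : (x j * b j)⁻¹ * (x i * a i) = (x j' * b j')⁻¹ * (x i' * a i') :=
    congrArg Subtype.val heq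
  have h1 : i = i' := le_antisymm (not_lt.1 (h.key hij' hij he.symm)) (not_lt.1 (h.key hij hij' he))
  subst h1
  have h2 : x j * b j = x j' * b j' := inv_injective (mul_right_cancel he)
  have h3 : j = j' := le_antisymm (not_lt.1 (h.key2 h2.symm)) (not_lt.1 (h.key2 h2))
  subst h3
  rfl

theorem Ind.count {x a b : ι → G} (h : Ind x a b) (h0 : ℵ₀ < #G) {D : Set G} (hD : #D < #G) :
    #{p : ι × ι | p.1 ≠ p.2 ∧ (x p.2 * b p.2)⁻¹ * (x p.1 * a p.1) ∈ D} < #G := by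
  have h1 := h.count_lt (D := D)
  have h2 := h.swap.count_lt (D := D⁻¹)
  have h3 : {p : ι × ι | p.1 ≠ p.2 ∧ (x p.2 * b p.2)⁻¹ * (x p.1 * a p.1) ∈ D} ⊆
      {p : ι × ι | p.2 < p.1 ∧ (x p.2 * b p.2)⁻¹ * (x p.1 * a p.1) ∈ D} ∪
      Prod.swap '' {p : ι × ι | p.2 < p.1 ∧ (x p.2 * a p.2)⁻¹ * (x p.1 * b p.1) ∈ D⁻¹} := by
    rintro ⟨i, j⟩ ⟨hij, hd⟩
    rcases lt_or_gt_of_ne hij with h4 | h4
    · refine Or.inr ⟨(j, i), ⟨h4, ?_⟩, rfl⟩
      rw [Set.mem_inv]
      simpa [mul_assoc] using hd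
    · exact Or.inl ⟨h4, hd⟩
  refine lt_of_le_of_lt ((Cardinal.mk_le_mk_of_subset h3).trans (Cardinal.mk_union_le _ _)) ?_
  refine Cardinal.add_lt_of_lt h0.le (h1.trans_lt hD) ?_
  refine lt_of_le_of_lt (Cardinal.mk_image_le.trans h2) ?_
  rwa [Cardinal.mk_inv]

end Pool.Agent.R828.SG
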